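import Pool.Agent.H86.T4G.Gx

/-!
Row Ea (about 230 lines): the field `F` over a layer `L`.

PROOF. `Ω := AlgebraicClosure L`, `j : N →+* Ω` with `j (algebraMap k N x) = algebraMap L Ω (algebraMap k L x)` (IsAlgClosed.lift for the `k`-algebra structure on `Ω` through `L`; `N / k` algebraic). `T₀ = some x₀ y₀ _` (it is not zero). `z ∈ Ω` a primitive `l`-th root of unity (exists in an algebraically closed field of characteristic zero). `F := IntermediateField.adjoin L {j x₀, j y₀, z}` as a type (number field: finite over `L`, NumberField from FiniteDimensional over `ℚ`), `f' : F → Ω` the inclusion, `M := IntermediateField.adjoin L (range j ∪ {j x₀, j y₀, z})` (finite over `L` since `N` is finite over `k`: generated by the image of a finite set of generators of `N` over `k`), `f : F →+* M` the inclusion, `ν : N →+* M` given by `j`.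
 `T := some ⟨j x₀, _⟩ ⟨j y₀, _⟩ _`, `ζ := ⟨z, _⟩`. `pm f _ T = pm ν _ T₀` (same coordinates; the two curves are equal because all maps from `k` agree; Affine.Point.some congruence, see H10/Pm.lean). `T ≠ 0`, `l • T = 0` (apply the injective `pm f`: pm_injective; `pm ν (l • T₀) = 0`).
 Key: for `σ : Ω ≃ₐ[L] Ω` there is `g : N ≃ₐ[k] N` with `σ (j x) = j (g x)` for all `x` (Pool.Agent.H10.exists_aut for the normal extension `N / k` and the two embeddings `j`, `σ ∘ j`). So `σ` maps `(j x₀, j y₀)` to the coordinates of `j (g T₀)`, `g T₀ = c • T₀` (hst), and the point `c • T` (defined over `F`) has the image `c • (j T₀)` in `Ω`: so `σ (j x₀), σ (j y₀)` are in `F`, `σ z` is a power of `z`: `σ` maps `F` to `F`. Hence `F / L` is normal (IntermediateField.normal_iff_forall_map_le / `normal_iff_forall_map_eq'`), Galois (characteristic zero).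
 DG: stab: `δ : F ≃ₐ[L] F` extends to `σ : Ω ≃ₐ[L] Ω` (AlgEquiv.liftNormal, IsAlgClosure); with `g` as above `gp δ T = c • T` (apply the injective map to `Ω`: both sides have the image `j (g T₀) = c • j T₀`). faith: `δ ζ = ζ`, `gp δ T = T` imply that `δ` fixes the three generators, so `δ = 1` (IntermediateField.adjoin induction / AlgEquiv ext on adjoin; IntermediateField.algHom_ext_of_eq_adjoin). ell: `Δ ≠ 0`.
 odd: `ψ : F →+* ℂ`, `δ` with `ψ (δ x) = conj (ψ x)`. Extend `ψ` to `Ψ : Ω →+* ℂ` (`Ω` algebraic over `F`), `φ := Ψ ∘ j : N →+* ℂ`. For `a : k`: `conj (φ a) = conj (ψ a) = ψ (δ a) = ψ a = φ a` (`δ` fixes `L`). So `conj ∘ φ` and `φ` agree on `k`, there is `g : N ≃ₐ[k] N` with `φ (g x) = conj (φ x)` (exists_aut), hodd: `gp g T₀ = - T₀`. `Ψ (δ (j x₀)) = conj (ψ (j x₀)) = conj (φ x₀) = φ (g x₀) = Ψ (j (g x₀))`, so `δ (j x₀) = j (g x₀)`, same for `y₀`: `gp δ T` and `-T` have the same image (`j (g T₀) = - j T₀`), `gp δ T = - T`.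
-/

set_option autoImplicit false
set_option linter.style.haveILetI false
open scoped Classical

open WeierstrassCurve IsDedekindDomain NumberField Pool.Agent.H10 Pool.Agent.H11 H78D

namespace H86G

theorem Ea_field {L : Type} [Field L] [NumberField L] (S : Set (AlgebraicClosure L)) [Finite S] :
    ∃ (F : Type) (_ : Field F) (_ : NumberField F) (_ : Algebra L F)
      (f' : F →ₐ[L] AlgebraicClosure L),
      (∀ s ∈ S, ∃ x, f' x = s) ∧
      ((∀ σ : AlgebraicClosure L ≃ₐ[L] AlgebraicClosure L, ∀ s ∈ S, ∃ x, f' x = σ s) →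
        Normal L F) ∧
      ∀ δ : F ≃ₐ[L] F, (∀ x, f' x ∈ S → δ x = x) → δ = 1 := by
  let F : IntermediateField L (AlgebraicClosure L) := IntermediateField.adjoin L S
  haveI hfd : FiniteDimensional L F := IntermediateField.finiteDimensional_adjoin
    (fun x _ => (Algebra.IsAlgebraic.isAlgebraic x).isIntegral)
  haveI hnf : NumberField F := NumberField.of_module_finite L F
  refine ⟨F, inferInstance, hnf, inferInstance, F.val, ?_, ?_, ?_⟩
  · intro s hs
    exact ⟨⟨s, IntermediateField.subset_adjoin L S hs⟩, rfl⟩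
  · intro h
    rw [IntermediateField.normal_iff_forall_map_le']
    intro σ
    change (IntermediateField.adjoin L S).map _ ≤ F
    rw [IntermediateField.adjoin_map, IntermediateField.adjoin_le_iff]
    rintro _ ⟨x, hx, rfl⟩
    obtain ⟨y, hy⟩ := h σ x hx
    have h3 : (σ : AlgebraicClosure L →ₐ[L] AlgebraicClosure L) x = (y : AlgebraicClosure L) :=
      hy.symm
    rw [h3]
    exact y.2
  · intro δ h
    have h2 : (δ : F →ₐ[L] F) = AlgHom.id L F := by
      refine IntermediateField.adjoin_algHom_ext L ?_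
      intro x hx
      exact h ⟨x, IntermediateField.subset_adjoin L S hx⟩ hx
    exact AlgEquiv.ext fun x => DFunLike.congr_fun h2 x

theorem Ea_A {l : ℕ} (hl : l.Prime) (hl2 : l ≠ 2) {L : Type} [Field L] [NumberField L]
    {V : WeierstrassCurve L} (hΔ : V.Δ ≠ 0)
    {P : (V.map (algebraMap L (AlgebraicClosure L))).toAffine.Point} (hP0 : P ≠ 0)
    (hPl : l • P = 0)
    (hst : ∀ σ : AlgebraicClosure L ≃ₐ[L] AlgebraicClosure L, ∃ c : ℕ,
      gp (V := V) rfl σ P = c • P) :
    ∃ (F : Type) (_ : Field F) (_ : NumberField F) (_ : Algebra L F)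
      (T : (V.map (algebraMap L F)).toAffine.Point) (ζ : F)
      (f' : F →ₐ[L] AlgebraicClosure L)
      (hf' : (V.map (algebraMap L F)).map (f' : F →+* AlgebraicClosure L) =
        V.map (algebraMap L (AlgebraicClosure L))),
      pm (f' : F →+* AlgebraicClosure L) hf' T = P ∧ DG l (V := V) rfl T ζ := by
  rcases P with _ | ⟨x₀, y₀, hxy⟩
  · exact absurd rfl hP0
  haveI : NeZero l := ⟨hl.ne_zero⟩
  obtain ⟨z, hz⟩ := HasEnoughRootsOfUnity.exists_primitiveRoot (AlgebraicClosure L) l
  obtain ⟨F, _, _, _, f', hS, hN, hδ⟩ := Ea_field ({x₀, y₀, z} : Set (AlgebraicClosure L))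
  obtain ⟨x₁, hx₁⟩ := hS x₀ (by simp)
  obtain ⟨y₁, hy₁⟩ := hS y₀ (by simp)
  obtain ⟨ζ, hζ⟩ := hS z (by simp)
  have hval : (V.map (algebraMap L F)).map (f' : F →+* AlgebraicClosure L) =
      V.map (algebraMap L (AlgebraicClosure L)) := by
    rw [WeierstrassCurve.map_map]
    congr 1
    exact f'.comp_algebraMap
  have hns : (V.map (algebraMap L F)).toAffine.Nonsingular x₁ y₁ := by
    refine (Affine.map_nonsingular (V.map (algebraMap L F)).toAffine
      (f := (f' : F →+* AlgebraicClosure L)) (RingHom.injective _) _ _).1 ?_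
    change ((V.map (algebraMap L F)).map (f' : F →+* AlgebraicClosure L)).toAffine.Nonsingular
      (f' x₁) (f' y₁)
    rw [hval, hx₁, hy₁]
    exact hxy
  let T : (V.map (algebraMap L F)).toAffine.Point := .some x₁ y₁ hns
  have hT : pm (f' : F →+* AlgebraicClosure L) hval T = .some x₀ y₀ hxy := by
    rw [pm_some, Affine.Point.some.injEq]
    exact ⟨hx₁, hy₁⟩
  have hnor : Normal L F := by
    refine hN fun σ s hs => ?_
    obtain ⟨c, hc⟩ := hst σ
    have h1 : gp (V := V) rfl σ (.some x₀ y₀ hxy) =
        pm (f' : F →+* AlgebraicClosure L) hval (c • T) := by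
      rw [hc, map_nsmul, hT]
    have h2 : (∃ x, f' x = σ x₀) ∧ ∃ x, f' x = σ y₀ := by
      rcases hcT : c • T with _ | ⟨a, b, hab⟩
      · rw [hcT] at h1
        exact absurd h1 (Affine.Point.some_ne_zero _)
      · rw [hcT, pm_some, pm_some, Affine.Point.some.injEq] at h1
        exact ⟨⟨a, h1.1.symm⟩, ⟨b, h1.2.symm⟩⟩
    rcases hs with rfl | rfl | hs
    · exact h2.1
    · exact h2.2
    · rw [Set.mem_singleton_iff] at hs
      subst hs
      have h4 : (σ s) ^ l = 1 := by rw [← map_pow, hz.pow_eq_one, map_one]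
      obtain ⟨i, _, hi⟩ := hz.eq_pow_of_pow_eq_one h4
      exact ⟨ζ ^ i, by rw [map_pow, hζ, hi]⟩
  haveI hgal : IsGalois L F := ⟨⟩
  refine ⟨F, inferInstance, inferInstance, inferInstance, T, ζ, f', hval, hT, ?_⟩
  have hlT : l • T = 0 := by
    apply pm_injective (f' : F →+* AlgebraicClosure L) hval
    rw [map_nsmul, hT, hPl, map_zero]
  refine ⟨hl, hl2, hgal, ?_, Affine.Point.some_ne_zero _, hlT, ?_, ?_, ?_⟩
  · refine ⟨?_⟩
    rw [isUnit_iff_ne_zero, WeierstrassCurve.map_Δ]
    exact fun h => hΔ ((map_eq_zero _).1 h)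
  · refine IsPrimitiveRoot.of_map_of_injective (f := f') ?_ f'.injective
    rw [hζ]
    exact hz
  · intro δ
    letI : Algebra F (AlgebraicClosure L) := (f' : F →+* AlgebraicClosure L).toAlgebra
    haveI : IsScalarTower L F (AlgebraicClosure L) :=
      IsScalarTower.of_algebraMap_eq fun x => (f'.commutes x).symm
    obtain ⟨c, hc⟩ := hst (δ.liftNormal (AlgebraicClosure L))
    refine ⟨c, pm_injective (f' : F →+* AlgebraicClosure L) hval ?_⟩
    rw [map_nsmul, hT, ← hc, ← hT]
    change pm _ _ (pm _ _ T) = pm _ _ (pm _ _ T)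
    rw [pm_pm, pm_pm]
    exact pm_congr _ _ (fun x => (δ.liftNormal_commutes (AlgebraicClosure L) x).symm) T
  · intro δ hζδ hTδ
    have h1 : δ x₁ = x₁ ∧ δ y₁ = y₁ := by
      change pm _ _ (Affine.Point.some _ _ _) = Affine.Point.some _ _ _ at hTδ
      rw [pm_some, Affine.Point.some.injEq] at hTδ
      exact hTδ
    refine hδ δ fun x hx => ?_
    rcases hx with hx | hx | hx
    · rw [f'.injective (hx.trans hx₁.symm)]
      exact h1.1
    · rw [f'.injective (hx.trans hy₁.symm)]
      exact h1.2
    · rw [Set.mem_singleton_iff] at hx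
      rw [f'.injective (hx.trans hζ.symm)]
      exact hζδ

theorem Ea_M {k N L : Type} [Field k] [NumberField k] [Field N] [NumberField N] [Algebra k N]
    [Field L] [NumberField L] [Algebra k L] {F : Type} [Field F] [NumberField F] [Algebra L F]
    (f' : F →ₐ[L] AlgebraicClosure L) (j : N →ₐ[k] AlgebraicClosure L) :
    ∃ (M : Type) (_ : Field M) (_ : NumberField M) (f : F →+* M) (ν : N →+* M)
      (m : M →+* AlgebraicClosure L), (∀ x, m (f x) = f' x) ∧ ∀ x, m (ν x) = j x := by
  haveI : FiniteDimensional k N := Module.Finite.of_restrictScalars_finite ℚ k N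
  haveI : FiniteDimensional L F := Module.Finite.of_restrictScalars_finite ℚ L F
  obtain ⟨α, hα⟩ := Field.exists_primitive_element k N
  let M : IntermediateField L (AlgebraicClosure L) :=
    f'.fieldRange ⊔ IntermediateField.adjoin L {j α}
  haveI h1 : FiniteDimensional L f'.fieldRange :=
    Module.Finite.equiv (AlgEquiv.ofInjectiveField f').toLinearEquiv
  haveI h2 : FiniteDimensional L (IntermediateField.adjoin L {j α}) :=
    IntermediateField.finiteDimensional_adjoin
      (fun x _ => (Algebra.IsAlgebraic.isAlgebraic x).isIntegral)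
  haveI h3 : FiniteDimensional L M := IntermediateField.finiteDimensional_sup _ _
  haveI hnf : NumberField M := NumberField.of_module_finite L M
  have hf : ∀ x, f' x ∈ M := fun x => (le_sup_left : f'.fieldRange ≤ M) ⟨x, rfl⟩
  have hj : ∀ x, j x ∈ M := by
    intro x
    have h4 : x ∈ IntermediateField.adjoin k {α} := by
      rw [hα]
      exact IntermediateField.mem_top
    have hα' : j α ∈ M := (le_sup_right : IntermediateField.adjoin L {j α} ≤ M)
      (IntermediateField.subset_adjoin L _ rfl)
    induction h4 using IntermediateField.adjoin_induction with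
    | mem y hy =>
      rw [Set.mem_singleton_iff] at hy
      rw [hy]
      exact hα'
    | algebraMap y =>
      rw [j.commutes, IsScalarTower.algebraMap_apply k L (AlgebraicClosure L)]
      exact M.algebraMap_mem _
    | add y z _ _ hy hz =>
      rw [map_add]
      exact add_mem hy hz
    | inv y _ hy =>
      rw [map_inv₀]
      exact inv_mem hy
    | mul y z _ _ hy hz =>
      rw [map_mul]
      exact mul_mem hy hz
  exact ⟨M, inferInstance, hnf, (f' : F →+* AlgebraicClosure L).codRestrict M hf,
    (j : N →+* AlgebraicClosure L).codRestrict M hj, (M.val : M →+* AlgebraicClosure L),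
    fun x => rfl, fun x => rfl⟩

theorem exists_F {l : ℕ} (hl : l.Prime) (hl2 : l ≠ 2) {k N L : Type} [Field k] [NumberField k]
    [Field N] [NumberField N] [Algebra k N] [IsGalois k N] [Field L] [NumberField L] [Algebra k L]
    {E : WeierstrassCurve k} (hΔ : E.Δ ≠ 0) {T₀ : (E.map (algebraMap k N)).toAffine.Point}
    (hT0 : T₀ ≠ 0) (hTl : l • T₀ = 0)
    (hst : ∀ g : N ≃ₐ[k] N, ∃ c : ℕ, gp (V := E) rfl g T₀ = c • T₀)
    (hodd : ∀ (φ : N →+* ℂ) (g : N ≃ₐ[k] N), (∀ x, φ (g x) = (starRingEnd ℂ) (φ x)) →
      gp (V := E) rfl g T₀ = -T₀) :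
    ∃ (F : Type) (_ : Field F) (_ : NumberField F) (_ : Algebra L F)
      (T : ((E.map (algebraMap k L)).map (algebraMap L F)).toAffine.Point) (ζ : F)
      (M : Type) (_ : Field M) (_ : NumberField M) (f : F →+* M) (ν : N →+* M)
      (hf : ((E.map (algebraMap k L)).map (algebraMap L F)).map f =
        (E.map (algebraMap k N)).map ν),
      (∀ x : k, ν (algebraMap k N x) = f (algebraMap L F (algebraMap k L x))) ∧
      pm f hf T = pm ν rfl T₀ ∧ DG l (V := E.map (algebraMap k L)) rfl T ζ ∧
      ∀ (ψ : F →+* ℂ) (δ : F ≃ₐ[L] F), (∀ x, ψ (δ x) = (starRingEnd ℂ) (ψ x)) →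
        gp (V := E.map (algebraMap k L)) rfl δ T = -T := by
  haveI : FiniteDimensional k N := Module.Finite.of_restrictScalars_finite ℚ k N
  let j : N →ₐ[k] AlgebraicClosure L := IsAlgClosed.lift
  have hj : (E.map (algebraMap k N)).map (j : N →+* AlgebraicClosure L) =
      (E.map (algebraMap k L)).map (algebraMap L (AlgebraicClosure L)) := by
    rw [WeierstrassCurve.map_map, WeierstrassCurve.map_map]
    congr 1
    refine RingHom.ext fun x => ?_
    exact (j.commutes x).trans (IsScalarTower.algebraMap_apply k L (AlgebraicClosure L) x)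
  obtain ⟨F, _, _, _, T, ζ, f', hf', hT, hDG⟩ := Ea_A hl hl2 (V := E.map (algebraMap k L))
    (P := pm (j : N →+* AlgebraicClosure L) hj T₀)
    (by
      rw [WeierstrassCurve.map_Δ]
      exact fun h => hΔ ((map_eq_zero _).1 h))
    (fun h => hT0 (pm_injective _ hj (h.trans (map_zero _).symm)))
    (by rw [← map_nsmul, hTl, map_zero])
    (by
      intro σ
      obtain ⟨g, hg⟩ := exists_aut (K := k) (j : N →+* AlgebraicClosure L)
        ((σ : AlgebraicClosure L →+* AlgebraicClosure L).comp (j : N →+* AlgebraicClosure L)) (by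
          intro x
          change j (algebraMap k N x) = σ (j (algebraMap k N x))
          rw [j.commutes, IsScalarTower.algebraMap_apply k L (AlgebraicClosure L)]
          exact (σ.commutes _).symm)
      obtain ⟨c, hc⟩ := hst g
      refine ⟨c, ?_⟩
      rw [← map_nsmul, ← hc]
      change pm _ _ (pm _ _ T₀) = pm _ _ (pm _ _ T₀)
      rw [pm_pm, pm_pm]
      exact pm_congr _ _ hg T₀)
  obtain ⟨M, _, _, f, ν, m, hmf, hmν⟩ := Ea_M f' j
  have hνf : ∀ x : k, ν (algebraMap k N x) = f (algebraMap L F (algebraMap k L x)) := by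
    intro x
    apply m.injective
    rw [hmf, hmν, j.commutes, f'.commutes, IsScalarTower.algebraMap_apply k L (AlgebraicClosure L)]
  have hf : ((E.map (algebraMap k L)).map (algebraMap L F)).map f =
      (E.map (algebraMap k N)).map ν := by
    rw [WeierstrassCurve.map_map, WeierstrassCurve.map_map, WeierstrassCurve.map_map]
    congr 1
    exact RingHom.ext fun x => (hνf x).symm
  have hm : ((E.map (algebraMap k N)).map ν).map m =
      (E.map (algebraMap k L)).map (algebraMap L (AlgebraicClosure L)) := by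
    rw [WeierstrassCurve.map_map, ← hj]
    congr 1
    exact RingHom.ext fun x => hmν x
  refine ⟨F, inferInstance, inferInstance, inferInstance, T, ζ, M, inferInstance, inferInstance, f,
    ν, hf, hνf, ?_, hDG, ?_⟩
  · apply pm_injective m hm
    rw [pm_pm, pm_pm]
    have h1 := pm_congr (V := (E.map (algebraMap k L)).map (algebraMap L F))
      (V' := (E.map (algebraMap k L)).map (algebraMap L (AlgebraicClosure L)))
      (φ := m.comp f) (ψ := (f' : F →+* AlgebraicClosure L))
      (by rw [← hm, ← hf]; exact (WeierstrassCurve.map_map _ _ _).symm) hf' hmf T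
    have h2 := pm_congr (V := E.map (algebraMap k N))
      (V' := (E.map (algebraMap k L)).map (algebraMap L (AlgebraicClosure L)))
      (φ := m.comp ν) (ψ := (j : N →+* AlgebraicClosure L))
      (by rw [← hm]; exact (WeierstrassCurve.map_map _ _ _).symm) hj hmν T₀
    exact h1.trans (hT.trans h2.symm)
  · intro ψ δ hδ
    letI : Algebra F (AlgebraicClosure L) := (f' : F →+* AlgebraicClosure L).toAlgebra
    haveI : IsScalarTower L F (AlgebraicClosure L) :=
      IsScalarTower.of_algebraMap_eq fun x => (f'.commutes x).symm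
    haveI : Algebra.IsAlgebraic F (AlgebraicClosure L) := Algebra.IsAlgebraic.tower_top (K := L) F
    letI : Algebra F ℂ := ψ.toAlgebra
    let Ψ' : AlgebraicClosure L →ₐ[F] ℂ := IsAlgClosed.lift
    let Ψ : AlgebraicClosure L →+* ℂ := (Ψ' : AlgebraicClosure L →+* ℂ)
    have hΨ : ∀ x, Ψ (f' x) = ψ x := fun x => Ψ'.commutes x
    let φ : N →+* ℂ := Ψ.comp (j : N →+* AlgebraicClosure L)
    have hφk : ∀ a : k, φ (algebraMap k N a) = ψ (algebraMap L F (algebraMap k L a)) := by
      intro a
      change Ψ (j (algebraMap k N a)) = _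
      rw [j.commutes, IsScalarTower.algebraMap_apply k L (AlgebraicClosure L), ← f'.commutes, hΨ]
    have hconj : ∀ a : k, (starRingEnd ℂ) (φ (algebraMap k N a)) = φ (algebraMap k N a) := by
      intro a
      rw [hφk, ← hδ, δ.commutes]
    obtain ⟨g, hg⟩ := exists_aut (K := k) φ ((starRingEnd ℂ).comp φ) (fun a => (hconj a).symm)
    have hgT := hodd φ g (fun x => (hg x).symm)
    have hφ : (E.map (algebraMap k N)).map φ =
        ((E.map (algebraMap k L)).map (algebraMap L F)).map ψ := by
      rw [WeierstrassCurve.map_map, WeierstrassCurve.map_map, WeierstrassCurve.map_map]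
      congr 1
      exact RingHom.ext fun x => hφk x
    have hc : (((E.map (algebraMap k L)).map (algebraMap L F)).map ψ).map (starRingEnd ℂ) =
        ((E.map (algebraMap k L)).map (algebraMap L F)).map ψ := by
      rw [← hφ, WeierstrassCurve.map_map, WeierstrassCurve.map_map, WeierstrassCurve.map_map]
      congr 1
      exact RingHom.ext fun x => hconj x
    have hΨc : ((E.map (algebraMap k L)).map (algebraMap L (AlgebraicClosure L))).map Ψ =
        ((E.map (algebraMap k L)).map (algebraMap L F)).map ψ := by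
      rw [← hf', WeierstrassCurve.map_map]
      congr 1
      exact RingHom.ext fun x => hΨ x
    have c1 : pm ψ rfl T = pm φ hφ T₀ := by
      have h1 : pm Ψ hΨc (pm (f' : F →+* AlgebraicClosure L) hf' T) =
          pm Ψ hΨc (pm (j : N →+* AlgebraicClosure L) hj T₀) := by rw [hT]
      rw [pm_pm, pm_pm] at h1
      exact (pm_congr _ _ (fun x => (hΨ x).symm) T).trans h1
    have c2 : pm ψ rfl (gp (V := E.map (algebraMap k L)) rfl δ T) =
        pm (starRingEnd ℂ) hc (pm ψ rfl T) := by
      change pm _ _ (pm _ _ T) = _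
      rw [pm_pm, pm_pm]
      exact pm_congr _ _ hδ T
    have c3 : pm φ hφ (gp (V := E) rfl g T₀) = pm (starRingEnd ℂ) hc (pm φ hφ T₀) := by
      change pm _ _ (pm _ _ T₀) = _
      rw [pm_pm, pm_pm]
      exact pm_congr _ _ (fun x => (hg x).symm) T₀
    apply pm_injective ψ rfl
    rw [c2, c1, ← c3, hgT, map_neg, map_neg, c1]

end H86G
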