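import Pool.Agent.H86.T4G.Ed
import Pool.Agent.H68.IM.Emb
import Pool.Agent.H68.QS.Unr

/-!
Row Eu (about 120 lines): `l` is unramified in `k L'`.

PROOF. Copy Pool/Agent/H68/TK/Unr.lean (unr3_down, Unr3_cyc, unr3_gen) with `3` replaced by the prime `l` (`(l : 𝓞 k)`, map_natCast instead of map_ofNat). The only change: at the end of Unr3_cyc, `(q : 𝓞 C) ∈ W` and `(l : 𝓞 C) ∈ W` with `l` not dividing `q`: Bezout, `1 = a q + b l` with integers (Nat.Coprime, Int.gcd_eq_gcd_ab / Nat.isCoprime_iff_coprime), so `1 ∈ W`.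
-/

set_option autoImplicit false

open IsDedekindDomain NumberField WithZero Pool.Agent.H10 H5SW

namespace H86G

private lemma Eu_down {l : ℕ} {K L : Type} [Field K] [NumberField K] [Field L] [NumberField L] [Algebra K L]
    (h : UnrL l L) : UnrL l K := by
  intro w hw hw2
  obtain ⟨W, hWw⟩ := H68QS.exists_over (L2 := L) w
  have h1 : w.asIdeal.map (algebraMap (𝓞 K) (𝓞 L)) ≤ W.asIdeal := by
    rw [Ideal.map_le_iff_le_comap]
    exact (hWw.over).le
  have h2 : (l : 𝓞 L) ∈ W.asIdeal := by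
    have h3 := h1 (Ideal.mem_map_of_mem (algebraMap (𝓞 K) (𝓞 L)) hw)
    rwa [map_natCast] at h3
  apply h W h2
  have h3 := Ideal.mem_map_of_mem (algebraMap (𝓞 K) (𝓞 L)) hw2
  rw [Ideal.map_pow, map_natCast] at h3
  exact Ideal.pow_right_mono h1 2 h3

private lemma Eu_cyc {l : ℕ} (hl : l.Prime) {k C : Type} [Field k] [NumberField k] [Field C] [NumberField C] [Algebra k C]
    {q : ℕ} [NeZero q] [IsCyclotomicExtension {q} k C] (hq : ¬ l ∣ q) (h : UnrL l k) : UnrL l C := by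
  intro W hW hW2
  obtain ⟨w, hw⟩ : ∃ w : Ideal (𝓞 k), w = W.asIdeal.under (𝓞 k) := ⟨_, rfl⟩
  have hwp : w.IsPrime := by
    rw [hw]
    infer_instance
  have h2w : (l : 𝓞 k) ∈ w := by
    rw [hw, Ideal.under_def, Ideal.mem_comap, map_natCast]
    exact hW
  have hw0 : w ≠ ⊥ := by
    rintro rfl
    rw [Ideal.mem_bot] at h2w
    exact (Nat.cast_ne_zero (R := 𝓞 k)).2 hl.ne_zero h2w
  have hwm : w.IsMaximal := hwp.isMaximal hw0
  have h2w2 : (l : 𝓞 k) ∉ w ^ 2 := h ⟨w, hwp, hw0⟩ h2w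
  obtain ⟨J, hJ⟩ : w ∣ Ideal.span {(l : 𝓞 k)} := by
    rw [Ideal.dvd_span_singleton]
    exact h2w
  have hJw : ¬ J ≤ w := by
    intro hJw
    apply h2w2
    have h1 : (l : 𝓞 k) ∈ w * J := by
      rw [← hJ]
      exact Ideal.mem_span_singleton_self _
    rw [pow_two]
    exact Ideal.mul_mono_right hJw h1
  have hdvd : W.asIdeal ^ 2 ∣ w.map (algebraMap (𝓞 k) (𝓞 C)) *
      J.map (algebraMap (𝓞 k) (𝓞 C)) := by
    rw [← Ideal.map_mul, ← hJ, Ideal.map_span, Set.image_singleton, map_natCast,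
      Ideal.dvd_span_singleton]
    exact hW2
  have hJW : ¬ W.asIdeal ∣ J.map (algebraMap (𝓞 k) (𝓞 C)) := by
    rw [Ideal.dvd_iff_le, Ideal.map_le_iff_le_comap]
    rw [hw, Ideal.under_def] at hJw
    exact hJw
  have hdvd2 : W.asIdeal ^ 2 ∣ w.map (algebraMap (𝓞 k) (𝓞 C)) :=
    W.prime.pow_dvd_of_dvd_mul_right 2 hJW hdvd
  have hdiff : W.asIdeal ^ (2 - 1) ∣ differentIdeal (𝓞 k) (𝓞 C) :=
    pow_sub_one_dvd_differentIdeal (𝓞 k) W.asIdeal 2 hw0 hdvd2
  rw [pow_one] at hdiff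
  have hζ := IsCyclotomicExtension.zeta_spec q k C
  obtain ⟨ζ, hζ'⟩ : ∃ ζ : 𝓞 C, algebraMap (𝓞 C) C ζ = IsCyclotomicExtension.zeta q k C :=
    ⟨⟨_, hζ.isIntegral (NeZero.pos q)⟩, rfl⟩
  rw [← hζ'] at hζ
  have htop : Algebra.adjoin k {algebraMap (𝓞 C) C ζ} = ⊤ :=
    IsCyclotomicExtension.adjoin_primitive_root_eq_top hζ
  have h1 := aeval_derivative_mem_differentIdeal (𝓞 k) k C ζ htop
  have h2 := (Ideal.dvd_iff_le.1 hdiff) h1
  have hint : IsIntegral (𝓞 k) ζ := Algebra.IsIntegral.isIntegral ζ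
  have hζq : ζ ^ q = 1 := by
    apply FaithfulSMul.algebraMap_injective (𝓞 C) C
    rw [map_pow, hζ.pow_eq_one, map_one]
  obtain ⟨g, hg⟩ := minpoly.isIntegrallyClosed_dvd hint
    (p := (Polynomial.X ^ q - 1 : Polynomial (𝓞 k))) (by simp [hζq])
  have h3 := congrArg (fun f => Polynomial.aeval ζ (Polynomial.derivative f)) hg
  simp only [Polynomial.derivative_sub, Polynomial.derivative_X_pow, Polynomial.derivative_one,
    sub_zero, Polynomial.derivative_mul, map_add, map_mul, minpoly.aeval, zero_mul, add_zero,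
    Polynomial.aeval_X_pow, map_natCast] at h3
  have h4 : (q : 𝓞 C) * ζ ^ (q - 1) ∈ W.asIdeal := by
    rw [h3]
    exact Ideal.mul_mem_right _ _ h2
  have h5 : (q : 𝓞 C) ∈ W.asIdeal := by
    have h6 : (q : 𝓞 C) = (q : 𝓞 C) * ζ ^ (q - 1) * ζ := by
      rw [mul_assoc, ← pow_succ, Nat.sub_add_cancel (NeZero.pos q), hζq, mul_one]
    rw [h6]
    exact Ideal.mul_mem_right _ _ h4
  have h7 : (1 : 𝓞 C) ∈ W.asIdeal := by
    have hco : IsCoprime (q : ℤ) (l : ℤ) :=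
      Nat.isCoprime_iff_coprime.2 ((Nat.Prime.coprime_iff_not_dvd hl).2 hq).symm
    obtain ⟨a, b, hab⟩ := hco
    have h8 : (1 : 𝓞 C) = (a : 𝓞 C) * (q : 𝓞 C) + (b : 𝓞 C) * (l : 𝓞 C) := by
      have h9 := congrArg (fun t : ℤ => (t : 𝓞 C)) hab
      push_cast at h9
      exact h9.symm
    rw [h8]
    exact Ideal.add_mem _ (Ideal.mul_mem_left _ _ h5) (Ideal.mul_mem_left _ _ hW)
  exact W.isPrime.ne_top ((Ideal.eq_top_iff_one _).2 h7)

theorem unrl_gen {l : ℕ} (hl : l.Prime) {k L L' : Type} [Field k] [NumberField k] [Field L]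
    [NumberField L] [Field L'] [NumberField L'] [Algebra k L] {p : ℕ} [Fact p.Prime]
    (hpl : p ≠ l) (hk : UnrL l k) (h : L' →+* L) (hR : IsR p L')
    (hgen : IntermediateField.adjoin k (Set.range h) = ⊤) : UnrL l L := by
  obtain ⟨-, n, ⟨ε⟩⟩ := hR
  have hne : NeZero (p ^ (n + 1)) := ⟨pow_ne_zero _ (Fact.out : p.Prime).ne_zero⟩
  have hq : ¬ l ∣ p ^ (n + 1) := fun h3 => hpl
    ((Nat.prime_dvd_prime_iff_eq hl Fact.out).1 (hl.dvd_of_dvd_pow h3)).symm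
  have hcyc : IsCyclotomicExtension {p ^ (n + 1)} k (CyclotomicField (p ^ (n + 1)) L) :=
    H68IM.Emb_cyc h ε hgen
  exact Eu_down (K := L) (L := CyclotomicField (p ^ (n + 1)) L) (Eu_cyc hl (k := k) hq hk)

end H86G
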