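import Pool.Agent.H86.T4G.Df

/-!
Row Gx (about 120 lines): elementary facts on the Galois group.

PROOF. gp is multiplicative: gp hV (δ * ε) P = gp hV δ (gp hV ε P), gp hV 1 P = P (pm_pm, pm_congr, pm_eq_self in H10/Pm.lean).
DG.cyc: `δ ζ` is again a primitive root (IsPrimitiveRoot.map_of_injective), a power `ζ ^ w` (IsPrimitiveRoot.eq_pow_of_pow_eq_one), `w` prime to `l` (IsPrimitiveRoot.pow_iff_coprime or: if `l ∣ w` then `δ ζ = 1`).
DG.chi: stab gives `c`; if `l ∣ c` then `gp hV δ T = 0`, `T = 0` (pm_injective).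
DG.pow_eq: `gp hV (δ^j) T = c^j • T`, `δ^j ζ = ζ^(w^j)`; for `j = l - 1`: `c^(l-1) ≡ 1`, `w^(l-1) ≡ 1` modulo `l` (ZMod.pow_card_sub_one_eq_one / Nat.ModEq.pow_totient), so `δ^(l-1)` fixes `T` and `ζ`: faith.
DG.ndvd: `Nat.card (F ≃ₐ[L] F) = finrank L F` (IsGalois.card_aut_eq_finrank); if `l` divides it there is `δ` of order `l` (exists_prime_orderOf_dvd_card); with pow_eq `orderOf δ ∣ l - 1`, contradiction.
DG.comm: `δ ε δ⁻¹ ε⁻¹` fixes `ζ` and `T`, or: `δ * ε` and `ε * δ` have the same `c`, `w`; `δ ε (ε δ)⁻¹` fixes both.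
smul_mod: `l • T = 0`: write `a = b + l k` or the converse (Nat.ModEq.dist ...), or use `addOrderOf T = l`.
smul_iff: `addOrderOf T = l` (addOrderOf_eq_prime), `nsmul_eq_nsmul_iff_modEq`.
-/

set_option autoImplicit false
open scoped Classical

open WeierstrassCurve IsDedekindDomain NumberField Pool.Agent.H10 Pool.Agent.H11 H78D

namespace H86G

theorem smul_iff {M : Type*} [AddCommGroup M] {l : ℕ} (hl : l.Prime) {T : M} (hT : T ≠ 0)
    (hTl : l • T = 0) (a b : ℕ) : a • T = b • T ↔ a ≡ b [MOD l] := by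
  haveI := Fact.mk hl
  have h := addOrderOf_eq_prime hTl hT
  rw [nsmul_eq_nsmul_iff_modEq, h]

theorem Gx_pow_congr {F : Type*} [Field F] {l : ℕ} {ζ : F} (h : IsPrimitiveRoot ζ l) {a b : ℕ}
    (hab : a ≡ b [MOD l]) : ζ ^ a = ζ ^ b := by
  have h1 := h.eq_orderOf
  rw [← pow_mod_orderOf ζ a, ← pow_mod_orderOf ζ b, ← h1]
  rw [show a % l = b % l from hab]

theorem Gx_fermat {l : ℕ} (hl : l.Prime) {a : ℕ} (ha : ¬ l ∣ a) : a ^ (l - 1) ≡ 1 [MOD l] := by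
  have h := Nat.ModEq.pow_totient ((Nat.Prime.coprime_iff_not_dvd hl).2 ha).symm
  rwa [Nat.totient_prime hl] at h

variable {l : ℕ} {L F : Type} [Field L] [NumberField L] [Field F] [NumberField F] [Algebra L F]
  {V : WeierstrassCurve L} {W : WeierstrassCurve F} {hV : V.map (algebraMap L F) = W}
  {T : W.toAffine.Point} {ζ : F}

theorem gp_mul (hV : V.map (algebraMap L F) = W) (δ ε : F ≃ₐ[L] F) (P : W.toAffine.Point) :
    gp hV (δ * ε) P = gp hV δ (gp hV ε P) := by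
  have h := pm_pm (ε : F →+* F) (map_gal hV ε) (δ : F →+* F) (map_gal hV δ) P
  exact (pm_congr _ _ (fun x => rfl) P).trans h.symm

theorem gp_one (hV : V.map (algebraMap L F) = W) (P : W.toAffine.Point) : gp hV 1 P = P :=
  pm_eq_self _ (fun x => rfl) P

theorem DG.cyc (H : DG l hV T ζ) (δ : F ≃ₐ[L] F) : ∃ w : ℕ, δ ζ = ζ ^ w ∧ ¬ l ∣ w := by
  haveI : NeZero l := ⟨H.prime.ne_zero⟩
  have h1 : (δ ζ) ^ l = 1 := by
    rw [← map_pow, H.prim.pow_eq_one, map_one]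
  obtain ⟨w, _, hw⟩ := H.prim.eq_pow_of_pow_eq_one h1
  refine ⟨w, hw.symm, fun hd => ?_⟩
  obtain ⟨k, rfl⟩ := hd
  rw [pow_mul, H.prim.pow_eq_one, one_pow] at hw
  have h2 : ζ = 1 := δ.injective (by rw [← hw, map_one])
  exact H.prim.ne_one H.prime.one_lt h2

theorem DG.chi (H : DG l hV T ζ) (δ : F ≃ₐ[L] F) : ∃ c : ℕ, gp hV δ T = c • T ∧ ¬ l ∣ c := by
  obtain ⟨c, hc⟩ := H.stab δ
  refine ⟨c, hc, fun hd => H.T0 ?_⟩
  obtain ⟨k, rfl⟩ := hd
  rw [mul_comm, mul_nsmul', H.Tl, nsmul_zero] at hc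
  exact pm_injective (δ : F →+* F) (map_gal hV δ) (hc.trans (map_zero _).symm)

theorem Gx_gp_pow (hV : V.map (algebraMap L F) = W) (δ : F ≃ₐ[L] F) {c : ℕ}
    (hc : gp hV δ T = c • T) (j : ℕ) : gp hV (δ ^ j) T = c ^ j • T := by
  induction j with
  | zero => rw [pow_zero, pow_zero, gp_one, one_nsmul]
  | succ j ih =>
    rw [pow_succ', gp_mul, ih, map_nsmul, hc, ← mul_nsmul', pow_succ]

theorem Gx_cyc_pow (δ : F ≃ₐ[L] F) {w : ℕ} (hw : δ ζ = ζ ^ w) (j : ℕ) :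
    (δ ^ j) ζ = ζ ^ (w ^ j) := by
  induction j with
  | zero => rw [pow_zero, pow_zero, pow_one]; rfl
  | succ j ih =>
    rw [pow_succ', AlgEquiv.mul_apply, ih, map_pow, hw, ← pow_mul, ← pow_succ']

theorem DG.pow_eq (H : DG l hV T ζ) (δ : F ≃ₐ[L] F) : δ ^ (l - 1) = 1 := by
  obtain ⟨w, hw, hlw⟩ := H.cyc δ
  obtain ⟨c, hc, hlc⟩ := H.chi δ
  refine H.faith _ ?_ ?_
  · rw [Gx_cyc_pow δ hw, Gx_pow_congr H.prim (Gx_fermat H.prime hlw), pow_one]
  · rw [Gx_gp_pow hV δ hc]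
    have h := (smul_iff H.prime H.T0 H.Tl (c ^ (l - 1)) 1).2 (Gx_fermat H.prime hlc)
    rw [h, one_nsmul]

theorem DG.comm (H : DG l hV T ζ) (δ ε : F ≃ₐ[L] F) : δ * ε = ε * δ := by
  obtain ⟨w, hw, _⟩ := H.cyc δ
  obtain ⟨w', hw', _⟩ := H.cyc ε
  obtain ⟨c, hc, _⟩ := H.chi δ
  obtain ⟨c', hc', _⟩ := H.chi ε
  have e1 : (δ * ε) ζ = (ε * δ) ζ := by
    rw [AlgEquiv.mul_apply, AlgEquiv.mul_apply, hw', hw, map_pow, map_pow, hw, hw', ← pow_mul,
      ← pow_mul, mul_comm]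
  have e2 : gp hV (δ * ε) T = gp hV (ε * δ) T := by
    rw [gp_mul, gp_mul, hc', hc, map_nsmul, map_nsmul, hc, hc', ← mul_nsmul', ← mul_nsmul',
      mul_comm]
  have h : (ε * δ)⁻¹ * (δ * ε) = 1 := by
    refine H.faith _ ?_ ?_
    · rw [AlgEquiv.mul_apply, e1, ← AlgEquiv.mul_apply, inv_mul_cancel]
      rfl
    · rw [gp_mul, e2, ← gp_mul, inv_mul_cancel, gp_one]
  exact (inv_mul_eq_one.1 h).symm

theorem DG.ndvd (H : DG l hV T ζ) : ¬ l ∣ Module.finrank L F := by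
  haveI := H.gal
  haveI := Fact.mk H.prime
  haveI : FiniteDimensional L F := Module.Finite.of_restrictScalars_finite ℚ L F
  intro hd
  rw [← IsGalois.card_aut_eq_finrank L F] at hd
  obtain ⟨δ, hδ⟩ := exists_prime_orderOf_dvd_card' l hd
  have h1 := orderOf_dvd_of_pow_eq_one (H.pow_eq δ)
  rw [hδ] at h1
  have h2 := Nat.le_of_dvd (Nat.sub_pos_of_lt H.prime.one_lt) h1
  have h3 := H.prime.pos
  omega

/-- the point over the closure -/
theorem DG.tp_ne (H : DG l hV T ζ) : tp W T ≠ 0 ∧ l • tp W T = 0 := by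
  refine ⟨fun h0 => H.T0 ?_, ?_⟩
  · exact pm_injective (algebraMap F (AlgebraicClosure F)) rfl (h0.trans (map_zero _).symm)
  · show l • pm (algebraMap F (AlgebraicClosure F)) rfl T = 0
    rw [← map_nsmul, H.Tl, map_zero]

end H86G
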