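import Pool.Agent.H86.T4G.Df

/-!
Definitions for the places above `l` (no row).
-/

set_option autoImplicit false
open scoped Classical

open WithZero WeierstrassCurve IsDedekindDomain NumberField Pool.Agent.H10 Pool.Agent.H11 H78D

namespace H86G

/-- `x` is congruent to an `l`-th power of a unit modulo the `i`-th power of the maximal ideal. -/
def Lv {F : Type*} [Field F] (v : Valuation F (WithZero (Multiplicative ℤ))) (l i : ℕ) (x : F) :
    Prop :=
  ∃ z, v z = 1 ∧ v (x / z ^ l - 1) ≤ exp (-(i : ℤ))

/-- `τ` is in the inertia group of `w`. -/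
def InI {L F : Type} [Field L] [Field F] [Algebra L F] (w : HeightOneSpectrum (𝓞 F))
    (τ : F ≃ₐ[L] F) : Prop :=
  ∀ x : 𝓞 F, RingOfIntegers.mapRingEquiv (τ : F ≃+* F) x - x ∈ w.asIdeal

end H86G
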