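import Pool.Agent.H86.T4G.Df

/-!
Definition (no row).
-/

set_option autoImplicit false

open IsDedekindDomain NumberField

namespace H86G

/-- The number `l` is unramified in `k`. -/
def UnrL (l : ℕ) (k : Type) [Field k] [NumberField k] : Prop :=
  ∀ w : HeightOneSpectrum (𝓞 k), (l : 𝓞 k) ∈ w.asIdeal → (l : 𝓞 k) ∉ w.asIdeal ^ 2

end H86G
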