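import Pool.Agent.H86.T4G.Da
import Pool.Agent.H86.T3D.Tp
import Pool.Agent.H78.TD.Ka

/-!
Row Cj (about 170 lines): the local condition is transported by the Galois group of `F / L`. Use only the STATEMENTS of Da, Gx.

PROOF. Given `ι' : AlgebraicClosure F →ₐ[F] AlgebraicClosure (w'.adicCompletion F)`.
 (1) `κ : w.adicCompletion F →+* w'.adicCompletion F` with `κ (algebraMap x) = algebraMap (δ x)`: as H86D.exists_kappa (H86/T3D/Tp.lean: for `sw δ w`, and `w' = sw δ w` by hδ: HeightOneSpectrum.ext, H86D.mem_sw; then `subst`), and the inverse map for `δ⁻¹` (or κ is an isomorphism: extends to `κi` with κ, κi inverse to each other since they are on the dense image of `F`; exists_kappa gives more information (second part), see its statement).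
 (2) Let `Ωw, Ωw'` be the closures. Extend `κ` to `K : Ωw →+* Ωw'` (IsAlgClosed.lift for the algebra structure on `Ωw'` over `w.adicCompletion F` through `κ`, as in the proof of TrivAt.trans in H10/Func1.lean). For every `τ' : Ωw' ≃ₐ Ωw'` over `w'.adicCompletion F` there is `τ : Ωw ≃ₐ Ωw` over `w.adicCompletion F` with `τ' (K y) = K (τ y)` (exists_aut, as hnorm in that proof).
 (3) `K ∘ ι` and `ι' ∘ s₀` (`s₀` any automorphism of `AlgebraicClosure F` over `L` extending `δ`: H78D.exists_lift) agree on `F`: exists_aut (K := F) gives `g : AlgebraicClosure F ≃ₐ[F] _`; so there is `s` (an automorphism over `L`, extending `δ`) with `K (ι x) = ι' (s x)`.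
 (4) For `σ' ∈ Dg w' ι'` with `τ'`: `σ := s⁻¹ σ' s` (an automorphism over `F`, because `s` maps `F` to `F`: H11.cj) is in `Dg w ι`: with `τ` from (2), `K (τ (ι x)) = τ' (K (ι x)) = τ' (ι' (s x)) = ι' (σ' (s x)) = ι' (s (σ x)) = K (ι (σ x))`, `K` injective.
 (5) `r, P` from `h` (DX for `w, ι`). Claim: `r` and `P' := act (inv_up hV) s P` prove DX for `Dg w' ι'` (`inv_up hV : Inv L (W.baseChange (AlgebraicClosure F))`). Take `c, w₀` with `gp hV δ T = c • T`, `δ ζ = ζ ^ w₀`, `l ∤ c, w₀` and `n` with `c n ≡ w₀`; hE: `δ x = x^n y^l`; `s r = z^i r^n y`. For `σ' ∈ Dg w' ι'`, `σ' r = z^b r`, and `σ = s⁻¹ σ' s`, `σ r = z^a r`: `σ' (s r) = s (σ r) = z^(w₀ a) s r` and `= z^(n b) s r`: `n b ≡ w₀ a ≡ c n a`, so `b ≡ c a`.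
   `act σ' P' - P' = act s (act σ P - P) = act s (a • tp W T) = (c a) • tp W T = b • tp W T` (`act s (tp W T) = c • tp W T`: pm_pm, pm_congr; the actions over `F` and over `L` agree by definition, `act_up_eq` in H11/Conj.lean).
-/

set_option autoImplicit false
open scoped Classical

open WeierstrassCurve IsDedekindDomain NumberField Pool.Agent.H10 Pool.Agent.H11 H78D

namespace H86G

/-- Extension of a homomorphism of fields to the closures. -/
theorem Cj_ext {A B : Type} [Field A] [Field B] (κ : A →+* B) :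
    ∃ Kp : AlgebraicClosure A →+* AlgebraicClosure B, ∀ y : A,
      Kp (algebraMap A (AlgebraicClosure A) y) = algebraMap B (AlgebraicClosure B) (κ y) := by
  let a1 : Algebra A (AlgebraicClosure B) := ((algebraMap B (AlgebraicClosure B)).comp κ).toAlgebra
  let k : AlgebraicClosure A →ₐ[A] AlgebraicClosure B := IsAlgClosed.lift
  exact ⟨(k : AlgebraicClosure A →+* AlgebraicClosure B), fun y => k.commutes y⟩

theorem Cj_tau {A B : Type} [Field A] [CharZero A] [Field B] (κ : A →+* B)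
    (Kp : AlgebraicClosure A →+* AlgebraicClosure B)
    (hK : ∀ y : A, Kp (algebraMap A (AlgebraicClosure A) y) =
      algebraMap B (AlgebraicClosure B) (κ y))
    (τ' : AlgebraicClosure B ≃ₐ[B] AlgebraicClosure B) :
    ∃ τ : AlgebraicClosure A ≃ₐ[A] AlgebraicClosure A, ∀ y, τ' (Kp y) = Kp (τ y) := by
  obtain ⟨τ, hτ⟩ := exists_aut (K := A) Kp
    ((τ' : AlgebraicClosure B →+* AlgebraicClosure B).comp Kp) (fun y => by
      change Kp (algebraMap A (AlgebraicClosure A) y) = τ' (Kp (algebraMap A (AlgebraicClosure A) y))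
      rw [hK, τ'.commutes])
  exact ⟨τ, fun y => hτ y⟩

theorem Cj_s {L F : Type} [Field L] [NumberField L] [Field F] [NumberField F]
    [Algebra L F] (w w' : HeightOneSpectrum (𝓞 F)) (δ : F ≃ₐ[L] F)
    (ι : AlgebraicClosure F →ₐ[F] AlgebraicClosure (w.adicCompletion F))
    (ι' : AlgebraicClosure F →ₐ[F] AlgebraicClosure (w'.adicCompletion F))
    (κ : w.adicCompletion F →+* w'.adicCompletion F)
    (hκ : ∀ x : F, κ (algebraMap F _ x) = algebraMap F _ (δ x))
    (Kp : AlgebraicClosure (w.adicCompletion F) →+* AlgebraicClosure (w'.adicCompletion F))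
    (hK : ∀ y : w.adicCompletion F,
      Kp (algebraMap (w.adicCompletion F) (AlgebraicClosure (w.adicCompletion F)) y) =
        algebraMap (w'.adicCompletion F) (AlgebraicClosure (w'.adicCompletion F)) (κ y)) :
    ∃ s : AlgebraicClosure F ≃ₐ[L] AlgebraicClosure F,
      (∀ x : F, s (algebraMap F (AlgebraicClosure F) x) =
        algebraMap F (AlgebraicClosure F) (δ x)) ∧ ∀ x, Kp (ι x) = ι' (s x) := by
  obtain ⟨s₀, hs₀⟩ := exists_lift (K := L) (F := F) δ
  obtain ⟨g, hg⟩ := exists_aut (K := F)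
    ((ι' : AlgebraicClosure F →+* AlgebraicClosure (w'.adicCompletion F)).comp
      (s₀ : AlgebraicClosure F →+* AlgebraicClosure F))
    (Kp.comp (ι : AlgebraicClosure F →+* AlgebraicClosure (w.adicCompletion F))) (fun x => by
      change ι' (s₀ (algebraMap F (AlgebraicClosure F) x)) =
        Kp (ι (algebraMap F (AlgebraicClosure F) x))
      rw [hs₀, ι'.commutes, ι.commutes,
        IsScalarTower.algebraMap_apply F (w.adicCompletion F)
          (AlgebraicClosure (w.adicCompletion F)), hK, hκ,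
        IsScalarTower.algebraMap_apply F (w'.adicCompletion F)
          (AlgebraicClosure (w'.adicCompletion F))])
  refine ⟨s₀ * g.restrictScalars L, fun x => ?_, fun x => ?_⟩
  · change s₀ (g (algebraMap F (AlgebraicClosure F) x)) = _
    rw [g.commutes, hs₀]
  · exact hg x

theorem Cj_tp {L F : Type} [Field L] [Field F] [NumberField F]
    [Algebra L F] [NumberField L] {V : WeierstrassCurve L} {W : WeierstrassCurve F}
    (hV : V.map (algebraMap L F) = W) (T : W.toAffine.Point) (δ : F ≃ₐ[L] F) {c : ℕ}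
    (hc : gp hV δ T = c • T) (s : AlgebraicClosure F ≃ₐ[L] AlgebraicClosure F)
    (hs : ∀ x : F, s (algebraMap F (AlgebraicClosure F) x) =
        algebraMap F (AlgebraicClosure F) (δ x)) :
    act (inv_up hV) s (tp W T) = c • tp W T := by
  have h1 : act (inv_up hV) s (tp W T) = tp W (gp hV δ T) := by
    have e1 := pm_pm (algebraMap F (AlgebraicClosure F))
      (rfl : W.map (algebraMap F (AlgebraicClosure F)) = W.baseChange (AlgebraicClosure F))
      (s : AlgebraicClosure F →+* AlgebraicClosure F) (inv_up hV s) T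
    have e2 := pm_pm (δ : F →+* F) (map_gal hV δ) (algebraMap F (AlgebraicClosure F))
      (rfl : W.map (algebraMap F (AlgebraicClosure F)) = W.baseChange (AlgebraicClosure F)) T
    exact e1.trans ((pm_congr _ _ (fun x => hs x) T).trans e2.symm)
  rw [h1, hc]
  exact map_nsmul _ _ _

theorem Cj_modEq {Ω : Type} [Field Ω] {z : Ω} {l : ℕ} (hz : IsPrimitiveRoot z l) (hl : l ≠ 0)
    {a b : ℕ} (h : z ^ a = z ^ b) : a ≡ b [MOD l] := by
  have hpos : 0 < l := Nat.pos_of_ne_zero hl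
  refine hz.pow_inj (Nat.mod_lt _ hpos) (Nat.mod_lt _ hpos) ?_
  rw [← pow_eq_pow_mod a hz.pow_eq_one, ← pow_eq_pow_mod b hz.pow_eq_one]
  exact h

theorem Cj_alg {l : ℕ} {L F : Type} [Field L] [NumberField L] [Field F] [NumberField F]
    [Algebra L F] {V : WeierstrassCurve L} {W : WeierstrassCurve F}
    {hV : V.map (algebraMap L F) = W} {T : W.toAffine.Point} {ζ : F} (H : DG l hV T ζ) {x : F}
    (hx : x ≠ 0) (hE : Eig l hV T ζ x) (δ : F ≃ₐ[L] F)
    (s : AlgebraicClosure F ≃ₐ[L] AlgebraicClosure F)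
    (hs : ∀ x : F, s (algebraMap F (AlgebraicClosure F) x) =
        algebraMap F (AlgebraicClosure F) (δ x)) [Normal L F]
    (D D' : Subgroup (AlgebraicClosure F ≃ₐ[F] AlgebraicClosure F))
    (hmem : ∀ σ' ∈ D', cj s σ' ∈ D) (h : DX l W T ζ D x) : DX l W T ζ D' x := by
  have hl0 : l ≠ 0 := H.prime.ne_zero
  have hne : NeZero l := ⟨hl0⟩
  obtain ⟨c, hc, hlc⟩ := H.chi δ
  obtain ⟨w₀, hw₀, hlw⟩ := H.cyc δ
  have hcl : Nat.Coprime c l := (Nat.Coprime.symm ((Nat.Prime.coprime_iff_not_dvd H.prime).2 hlc))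
  have hwl : Nat.Coprime w₀ l := (Nat.Coprime.symm ((Nat.Prime.coprime_iff_not_dvd H.prime).2 hlw))
  obtain ⟨m, -, hm⟩ := Nat.exists_mul_mod_eq_one_of_coprime hcl H.prime.one_lt
  have hm' : c * m ≡ 1 [MOD l] := by
    unfold Nat.ModEq
    rw [hm, Nat.mod_eq_of_lt H.prime.one_lt]
  have hn : c * (m * w₀) ≡ w₀ [MOD l] := by
    have h1 := hm'.mul_right w₀
    rw [one_mul, mul_assoc] at h1
    exact h1
  obtain ⟨y, hy⟩ := hE δ c (m * w₀) w₀ hc hw₀ hn
  generalize m * w₀ = n at hn hy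
  obtain ⟨r, P, hr, hP⟩ := h
  obtain ⟨z, hz⟩ : ∃ z, z = algebraMap F (AlgebraicClosure F) ζ := ⟨_, rfl⟩
  have hzp : IsPrimitiveRoot z l := by
    rw [hz]
    exact H.prim.map_of_injective (algebraMap F (AlgebraicClosure F)).injective
  have hx' : algebraMap F (AlgebraicClosure F) x ≠ 0 := by
    intro h0
    exact hx ((map_eq_zero _).1 h0)
  have hr0 : r ≠ 0 := by
    intro h0
    rw [h0, zero_pow hl0] at hr
    exact hx' hr.symm
  have hsr0 : s r ≠ 0 := by
    intro h0
    exact hr0 ((map_eq_zero _).1 h0)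
  obtain ⟨Y, hY⟩ : ∃ Y, Y = algebraMap F (AlgebraicClosure F) y := ⟨_, rfl⟩
  have hsr : (s r) ^ l = (r ^ n * Y) ^ l := by
    rw [← map_pow, hr, hs, hy, map_mul, map_pow, map_pow, ← hr, hY, mul_pow, ← pow_mul, ← pow_mul,
      mul_comm l n]
  have hq0 : r ^ n * Y ≠ 0 := by
    intro h0
    rw [h0, zero_pow hl0] at hsr
    exact pow_ne_zero l hsr0 hsr
  obtain ⟨i, -, hi⟩ := hzp.eq_pow_of_pow_eq_one (ξ := s r / (r ^ n * Y)) (by
    rw [div_pow, hsr, div_self (pow_ne_zero l hq0)])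
  have hsi : s r = z ^ i * (r ^ n * Y) := by
    rw [hi, div_mul_cancel₀ _ hq0]
  refine ⟨r, act (inv_up hV) s P, hr, ?_⟩
  intro σ' hσ' b hb
  rw [← hz] at hb
  obtain ⟨a, ha⟩ := kum_a hl0 H.prim hx hr (cj s σ')
  have hPa := hP (cj s σ') (hmem σ' hσ') a ha
  rw [← hz] at ha
  -- the two formulas
  have hfz : ∀ τ : AlgebraicClosure F ≃ₐ[F] AlgebraicClosure F, τ z = z := by
    intro τ
    rw [hz, τ.commutes]
  have hfY : ∀ τ : AlgebraicClosure F ≃ₐ[F] AlgebraicClosure F, τ Y = Y := by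
    intro τ
    rw [hY, τ.commutes]
  have hsz : s z = z ^ w₀ := by
    rw [hz, hs, hw₀, map_pow]
  have e1 : σ' (s r) = z ^ (w₀ * a) * s r := by
    rw [← apply_cj, ha, map_mul, map_pow, hsz, ← pow_mul]
  have e2 : σ' (s r) = z ^ (n * b) * s r := by
    rw [hsi, map_mul, map_mul, map_pow, map_pow, hfz, hfY, hb, mul_pow, ← pow_mul, mul_comm b n]
    ring
  have e3 : z ^ (w₀ * a) = z ^ (n * b) := mul_right_cancel₀ hsr0 (e1.symm.trans e2)
  have e4 : w₀ * a ≡ n * b [MOD l] := Cj_modEq hzp hl0 e3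
  have e5 : b ≡ a * c [MOD l] := by
    have h1 := (e4.mul_left c)
    have h2 : c * (n * b) ≡ w₀ * b [MOD l] := by
      rw [← mul_assoc]
      exact hn.mul_right b
    have h3 : w₀ * b ≡ w₀ * (a * c) [MOD l] := by
      have h4 : c * (w₀ * a) = w₀ * (a * c) := by ring
      rw [h4] at h1
      exact (h1.trans h2).symm
    exact Nat.ModEq.cancel_left_of_coprime (Nat.Coprime.symm hwl) h3
  have e6 : b • tp W T = (a * c) • tp W T :=
    (smul_iff H.prime H.tp_ne.1 H.tp_ne.2 _ _).2 e5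
  rw [e6, mul_smul]
  have h7 : act (inv_up hV) s (act (inv_bc F W) (cj s σ') P) =
      act (inv_bc F W) σ' (act (inv_up hV) s P) := act_cj (K := L) (L := F) (inv_up hV) s σ' P
  rw [← h7, ← map_sub, hPa, map_nsmul, Cj_tp hV T δ hc s hs]

theorem px_conj {l : ℕ} {L F : Type} [Field L] [NumberField L] [Field F] [NumberField F]
    [Algebra L F] {V : WeierstrassCurve L} {W : WeierstrassCurve F}
    {hV : V.map (algebraMap L F) = W} {T : W.toAffine.Point} {ζ : F} (H : DG l hV T ζ) {x : F}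
    (hx : x ≠ 0) (hE : Eig l hV T ζ x) (w w' : HeightOneSpectrum (𝓞 F)) (δ : F ≃ₐ[L] F)
    (hδ : ∀ y : 𝓞 F, RingOfIntegers.mapRingEquiv (δ : F ≃+* F) y ∈ w'.asIdeal ↔ y ∈ w.asIdeal)
    (ι : AlgebraicClosure F →ₐ[F] AlgebraicClosure (w.adicCompletion F))
    (h : DX l W T ζ (Dg w ι) x) : PX l W T ζ w' x := by
  intro ι'
  have hw' : w' = H86D.sw δ w := by
    apply HeightOneSpectrum.ext
    ext y
    rw [H86D.mem_sw]
    have h1 := hδ (RingOfIntegers.mapRingEquiv (δ.symm : F ≃+* F) y)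
    have h2 : RingOfIntegers.mapRingEquiv (δ : F ≃+* F)
        (RingOfIntegers.mapRingEquiv (δ.symm : F ≃+* F) y) = y := by
      apply RingOfIntegers.ext
      change δ (δ.symm (y : F)) = y
      exact δ.apply_symm_apply _
    rw [h2] at h1
    exact h1
  subst hw'
  obtain ⟨κ, hκ, -⟩ := H86D.exists_kappa δ w
  obtain ⟨Kp, hK⟩ := Cj_ext κ
  obtain ⟨s, hs, hsι⟩ := Cj_s w (H86D.sw δ w) δ ι ι' κ hκ Kp hK
  have hnorm : Normal L F := H.gal.to_normal
  have hmem : ∀ σ' ∈ Dg (H86D.sw δ w) ι', cj s σ' ∈ Dg w ι := by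
    rintro σ' ⟨τ', hτ'⟩
    obtain ⟨τ, hτ⟩ := Cj_tau κ Kp hK τ'
    refine ⟨τ, fun y => Kp.injective ?_⟩
    rw [← hτ, hsι, hτ', hsι, apply_cj]
  exact Cj_alg H hx hE δ s hs (Dg w ι) (Dg (H86D.sw δ w) ι') hmem h

end H86G
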