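import Pool.Agent.H86.T4G.Da

/-!
Row Lt (about 90 lines): local triviality over `F`.

PROOF. Pool.Agent.H10.isLocTriv_iff (H10/Func4): two parts, TrivAt (H10/Func1) at every finite place `v` and every embedding `ι`, and at every infinite place.
 Finite `v`, `ι`: hP v ι : DX for `Dg v ι`; by dx_root there is `P` (over the closure of `F`) for the root `r`. The point `pm ι _ P` works: for `τ, σ` with `τ (ι x) = ι (σ x)` for all `x`: `σ ∈ Dg v ι`; take `a` from kum_a for `σ`, `f σ = a • tp W T` (KC) `= act σ P - P`; apply `pm ι` (map_sub; `pm ι (act σ P) = act τ (pm ι P)`: pm_pm, pm_congr as in the proof of TrivAt.trans in H10/Func1).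
 Infinite `v`: `F` contains a primitive `l`-th root of unity, `l > 2`, so `v` is complex (an embedding of `F` in the real numbers would give a real primitive `l`-th root: `ζ^l = 1` in ℝ with `l` odd gives `ζ = 1`; if `v` is real: InfinitePlace.IsReal, embedding_of_isReal). `v.Completion` is then isomorphic to ℂ (InfinitePlace.Completion.ringEquivComplexOfIsComplex or similar), so it is algebraically closed, every `τ : AlgebraicClosure v.Completion ≃ₐ[v.Completion] _` is the identity (IsAlgClosed.algebraMap_bijective_of_isIntegral), so `σ = 1` (`ι` injective) and `f 1 = 0` (IsCoc.one; or KC with a = 0: f 1 = 0 • tp). So `P := 0` works. (See H10/PlaceInf.lean, H10/LocalTwo.lean or H86/T3G/Coc3.lean for the complex completions.)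
-/

set_option autoImplicit false
open scoped Classical

open WeierstrassCurve IsDedekindDomain NumberField Pool.Agent.H10 Pool.Agent.H11 H78D

namespace H86G

theorem Lt_complex {F : Type} [Field F] [NumberField F] {l : ℕ} {ζ : F} (hl : l.Prime) (hl2 : l ≠ 2)
    (hζ : IsPrimitiveRoot ζ l) (v : InfinitePlace F) : v.IsComplex := by
  by_contra hv
  have hv' : v.IsReal := InfinitePlace.not_isComplex_iff_isReal.1 hv
  have h1 : IsPrimitiveRoot (InfinitePlace.embedding_of_isReal hv' ζ) l :=
    hζ.map_of_injective (InfinitePlace.embedding_of_isReal hv').injective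
  have h2 := h1.pow_eq_one
  have hodd : Odd l := hl.odd_of_ne_two hl2
  have h3 : InfinitePlace.embedding_of_isReal hv' ζ = 1 := by
    apply hodd.strictMono_pow.injective
    change (InfinitePlace.embedding_of_isReal hv' ζ) ^ l = 1 ^ l
    rw [h2, one_pow]
  rw [h3] at h1
  have h4 : l = 1 := h1.unique IsPrimitiveRoot.one
  exact hl.one_lt.ne' h4

theorem Lt_id {C : Type} [Field C] (e : C ≃+* ℂ) (τ : AlgebraicClosure C ≃ₐ[C] AlgebraicClosure C)
    (y : AlgebraicClosure C) : τ y = y := by
  haveI : IsAlgClosed C := IsAlgClosed.of_ringEquiv ℂ C e.symm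
  obtain ⟨c, hc⟩ := (IsAlgClosed.algebraMap_bijective_of_isIntegral (k := C)
    (K := AlgebraicClosure C)).2 y
  rw [← hc, τ.commutes]

theorem loc_kc {F : Type} [Field F] [NumberField F] {l : ℕ} {W : WeierstrassCurve F}
    {T : W.toAffine.Point} {ζ : F} (hl : l.Prime) (hl2 : l ≠ 2) (hζ : IsPrimitiveRoot ζ l)
    {x : F} (hx : x ≠ 0) {r : AlgebraicClosure F}
    (hr : r ^ l = algebraMap F (AlgebraicClosure F) x) {f : Coch F W} (hf : KC W T ζ r f)
    (hP : ∀ w : HeightOneSpectrum (𝓞 F), PX l W T ζ w x) : IsLocTriv F W f := by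
  have hl0 : l ≠ 0 := hl.ne_zero
  refine (isLocTriv_iff f).mpr ⟨fun v ι => ?_, fun v ι => ?_⟩
  · obtain ⟨P, hPP⟩ := dx_root hl0 hζ hx (hP v ι) hr
    refine ⟨pm (ι : AlgebraicClosure F →+* AlgebraicClosure (v.adicCompletion F)) (map_bc W ι) P,
      fun τ σ hτσ => ?_⟩
    have hσ : σ ∈ Dg v ι := ⟨τ, hτσ⟩
    obtain ⟨a, ha⟩ := kum_a hl0 hζ hx hr σ
    rw [hf σ a ha, ← hPP σ hσ a ha, map_sub]
    congr 1
    unfold Pool.Agent.H10.act
    rw [pm_pm, pm_pm]
    exact pm_congr _ _ (fun x => (hτσ x).symm) P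
  · have hvc := Lt_complex hl hl2 hζ v
    refine ⟨0, fun τ σ hτσ => ?_⟩
    have hσ : σ = 1 := by
      apply AlgEquiv.ext
      intro x
      have h1 : τ (ι x) = ι (σ x) := hτσ x
      have h2 : τ (ι x) = ι x :=
        Lt_id (InfinitePlace.Completion.ringEquivComplexOfIsComplex hvc) τ (ι x)
      exact (RingHom.injective (ι : AlgebraicClosure F →+* AlgebraicClosure v.Completion))
        (h1.symm.trans h2)
    have h0 : f σ = 0 := by
      rw [hσ, hf 1 0 (by rw [pow_zero, one_mul]; rfl), zero_nsmul]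
    rw [h0, map_zero, map_zero, sub_zero]

end H86G
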