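import Pool.Agent.H86.T4G.Ce
import Pool.Agent.H86.T4G.Lt
import Pool.Agent.H2.T4.P4c
import Pool.Agent.H10.Iso3

/-!
Row Cl (about 200 lines): counting classes. (Model: Pool/Agent/H86/T3G/Cnt3.lean, count_cls3; same structure. Read it first.) Use only the STATEMENTS of Da, Ce, Lt, Gx.

PROOF. For each `i` a root `r i` of `x i` (IsAlgClosed.exists_pow_nat_eq) and `f i` from exists_kc; `f i` is locally trivial (loc_kc). `g i := corF hV (f i)`: IsCocycle L V (isCocycle_cor), IsLocTriv L V (isLocTriv_cor, H10/Func6), `l • g i σ = 0` (corF is a sum of images under additive maps of the values of `f i`; or: cor_nsmul; unfold corF Pool.Agent.H10.trans, pm is additive), `resF hV (g i) τ = m • f i τ`, `m = finrank L F`, `l ∤ m` (cor_eig, DG.ndvd).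
 hT': `t i ∈ T'` with `g i - t i` a coboundary (IsCobound of `l • g i = 0` is trivial: the zero point). Bound each fibre of `i ↦ t i` by `l^2 * P.card`, and in it each fibre of `i ↦ p (X i)` by `l^2` (Finset.card_le_mul_card_image). In the fibre of `t₀` fix `i₀`: `g i σ - g i₀ σ = act σ (R i) - R i`; `l • R i` is Galois invariant, so it is the image of `X i ∈ V(L)` (pm_descent as in Cnt3); `X i = p (X i) + l • S (X i)`. Fix `i` in a fibre of both maps, for `j` in it `D j := R i - R j - (image of S (X i) - S (X j))`: `l • D j = 0`, `g i σ - g j σ = act σ (D j) - D j`.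
 `j ↦ D j` is injective on the fibre: if `D j = D j'` then `g j = g j'`, so (resF) `m • f j τ = m • f j' τ` for all `τ`, `f j τ = f j' τ` (killed by `l`, `l ∤ m`), so with `τ r_j = z^a r_j`, `τ r_j' = z^b r_j'`: `a • tp = b • tp`, `a ≡ b`, `τ (r_j / r_j') = r_j / r_j'` for all `τ`: `r_j / r_j'` is in `F` (InfiniteGalois.mem_bot_iff_fixed as in H78D.mem_F), its `l`-th power is `x j / x j'`: hdist.
 The `D j` are in `{T | l • T = 0}` for `V.baseChange (AlgebraicClosure L)`, which has at most `l^2` elements (H2T4.card_torsion_le; finite: its ncard bound needs finiteness: Set.Finite from H11 (torsion_finite / n-torsion finite lemmas in H11/Divis2 or H11/Sel), V elliptic: from W elliptic, `W.Δ = algebraMap V.Δ`).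
-/

/-!
Row Cl (about 200 lines): counting classes. (Model: Pool/Agent/H86/T3G/Cnt3.lean, count_cls3; same structure. Read it first.) Use only the STATEMENTS of Da, Ce, Lt, Gx.

PROOF. For each `i` a root `r i` of `x i` (IsAlgClosed.exists_pow_nat_eq) and `f i` from exists_kc; `f i` is locally trivial (loc_kc). `g i := corF hV (f i)`: IsCocycle L V (isCocycle_cor), IsLocTriv L V (isLocTriv_cor, H10/Func6), `l • g i σ = 0` (corF is a sum of images under additive maps of the values of `f i`; or: cor_nsmul; unfold corF Pool.Agent.H10.trans, pm is additive), `resF hV (g i) τ = m • f i τ`, `m = finrank L F`, `l ∤ m` (cor_eig, DG.ndvd).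
 hT': `t i ∈ T'` with `g i - t i` a coboundary (IsCobound of `l • g i = 0` is trivial: the zero point). Bound each fibre of `i ↦ t i` by `l^2 * P.card`, and in it each fibre of `i ↦ p (X i)` by `l^2` (Finset.card_le_mul_card_image). In the fibre of `t₀` fix `i₀`: `g i σ - g i₀ σ = act σ (R i) - R i`; `l • R i` is Galois invariant, so it is the image of `X i ∈ V(L)` (pm_descent as in Cnt3); `X i = p (X i) + l • S (X i)`. Fix `i` in a fibre of both maps, for `j` in it `D j := R i - R j - (image of S (X i) - S (X j))`: `l • D j = 0`, `g i σ - g j σ = act σ (D j) - D j`.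
 `j ↦ D j` is injective on the fibre: if `D j = D j'` then `g j = g j'`, so (resF) `m • f j τ = m • f j' τ` for all `τ`, `f j τ = f j' τ` (killed by `l`, `l ∤ m`), so with `τ r_j = z^a r_j`, `τ r_j' = z^b r_j'`: `a • tp = b • tp`, `a ≡ b`, `τ (r_j / r_j') = r_j / r_j'` for all `τ`: `r_j / r_j'` is in `F` (InfiniteGalois.mem_bot_iff_fixed as in H78D.mem_F), its `l`-th power is `x j / x j'`: hdist.
 The `D j` are in `{T | l • T = 0}` for `V.baseChange (AlgebraicClosure L)`, which has at most `l^2` elements (H2T4.card_torsion_le; finite: its ncard bound needs finiteness: Set.Finite from H11 (torsion_finite / n-torsion finite lemmas in H11/Divis2 or H11/Sel), V elliptic: from W elliptic, `W.Δ = algebraMap V.Δ`).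
-/

set_option autoImplicit false
open scoped Classical

open WeierstrassCurve IsDedekindDomain NumberField Pool.Agent.H10 Pool.Agent.H11 H78D

namespace H86G

private theorem Cl_kill {M : Type*} [AddCommGroup M] {l m : ℕ} (hl : l.Prime) (hm : ¬ l ∣ m)
    {P : M} (h1 : l • P = 0) (h2 : m • P = 0) : P = 0 := by
  have hc : Nat.Coprime l m := (Nat.Prime.coprime_iff_not_dvd hl).2 hm
  have h3 : addOrderOf P ∣ l := addOrderOf_dvd_of_nsmul_eq_zero h1
  have h4 : addOrderOf P ∣ m := addOrderOf_dvd_of_nsmul_eq_zero h2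
  have h5 : addOrderOf P ∣ 1 := by
    rw [← Nat.Coprime.gcd_eq_one hc]
    exact Nat.dvd_gcd h3 h4
  exact AddMonoid.addOrderOf_eq_one_iff.1 (Nat.dvd_one.1 h5)

private theorem Cl_pair {F : Type} [Field F] [NumberField F] {l : ℕ} {W : WeierstrassCurve F}
    {T : W.toAffine.Point} {ζ : F} (hl : l.Prime) (hζ : IsPrimitiveRoot ζ l)
    (htp : tp W T ≠ 0) (htpl : l • tp W T = 0) {x y : F} (hx : x ≠ 0) (hy : y ≠ 0)
    {r s : AlgebraicClosure F} (hr : r ^ l = algebraMap F (AlgebraicClosure F) x)
    (hs : s ^ l = algebraMap F (AlgebraicClosure F) y) {f g : Coch F W}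
    (hf : KC W T ζ r f) (hg : KC W T ζ s g) (hfg : ∀ τ, f τ = g τ) : ∃ t, x / y = t ^ l := by
  obtain ⟨t, ht⟩ := fixed_of_galois (k := F) (r / s) (fun τ => by
    obtain ⟨a, ha⟩ := kum_a hl.ne_zero hζ hx hr τ
    obtain ⟨b, hb⟩ := kum_a hl.ne_zero hζ hy hs τ
    have h1 : a • tp W T = b • tp W T := by
      rw [← hf τ a ha, ← hg τ b hb, hfg τ]
    have h2 : a ≡ b [MOD l] := (smul_iff hl htp htpl a b).1 h1
    have hz : IsPrimitiveRoot (algebraMap F (AlgebraicClosure F) ζ) l :=
      hζ.map_of_injective (algebraMap F (AlgebraicClosure F)).injective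
    have h3 : algebraMap F (AlgebraicClosure F) ζ ^ a =
        algebraMap F (AlgebraicClosure F) ζ ^ b := by
      have h4 : a % l = b % l := h2
      rw [pow_eq_pow_mod a hz.pow_eq_one, pow_eq_pow_mod b hz.pow_eq_one, h4]
    have hz0 : algebraMap F (AlgebraicClosure F) ζ ^ b ≠ 0 := pow_ne_zero _ (hz.ne_zero hl.ne_zero)
    rw [map_div₀, ha, hb, h3, mul_div_mul_left _ _ hz0])
  refine ⟨t, ?_⟩
  apply (algebraMap F (AlgebraicClosure F)).injective
  rw [map_pow, ht, div_pow, map_div₀, hr, hs]

private theorem Cl_cor {l : ℕ} {L F : Type} [Field L] [NumberField L] [Field F] [NumberField F]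
    [Algebra L F] {V : WeierstrassCurve L} {W : WeierstrassCurve F}
    (hV : V.map (algebraMap L F) = W) {f : Coch F W} (hf : ∀ τ, l • f τ = 0)
    (σ : AlgebraicClosure L ≃ₐ[L] AlgebraicClosure L) : l • corF hV f σ = 0 := by
  unfold corF Pool.Agent.H10.trans
  rw [← map_nsmul, ← cor_nsmul]
  have h1 : (fun τ => l • f τ) = fun _ => 0 := funext hf
  rw [h1]
  have h2 : cor (inv_up hV) (fun _ : AlgebraicClosure F ≃ₐ[F] AlgebraicClosure F =>
      (0 : (W.baseChange (AlgebraicClosure F)).toAffine.Point))
      (((jj L F).symm.trans σ).trans (jj L F).symm.symm) = 0 := by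
    unfold cor term
    exact Finset.sum_eq_zero fun φ _ => map_zero _
  rw [h2, map_zero]

private theorem Cl_num {k : Type} [Field k] [IsAlgClosed k] [CharZero k] (W : WeierstrassCurve k)
    [W.IsElliptic] {l : ℕ} (hl : l ≠ 0) {ι : Type*} (s : Finset ι) (g : ι → W.toAffine.Point)
    (hk : ∀ i ∈ s, l • g i = 0) (hi : ∀ i ∈ s, ∀ j ∈ s, g i = g j → i = j) :
    s.card ≤ l ^ 2 := by
  have hfin := finite_torsion W l hl
  refine le_trans ?_ (H2T4.card_torsion_le W l hl)
  have h1 := Set.ncard_le_ncard_of_injOn (s := (s : Set ι)) (t := {T : W.toAffine.Point | l • T = 0})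
    g (fun i hi' => hk i hi') (fun i hi' j hj he => hi i hi' j hj he) hfin
  rwa [Set.ncard_coe_finset] at h1

private theorem Cl_ell {L F : Type} [Field L] [Field F] [Algebra L F] {V : WeierstrassCurve L}
    {W : WeierstrassCurve F} (hV : V.map (algebraMap L F) = W) (hW : W.IsElliptic) :
    V.IsElliptic := by
  rw [WeierstrassCurve.isElliptic_iff, isUnit_iff_ne_zero]
  intro h0
  have h1 : W.Δ = 0 := by
    rw [← hV, WeierstrassCurve.map_Δ, h0, map_zero]
  have h2 := hW.isUnit
  rw [h1] at h2
  exact not_isUnit_zero h2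

theorem count_l {l : ℕ} {L F : Type} [Field L] [NumberField L] [Field F] [NumberField F]
    [Algebra L F] {V : WeierstrassCurve L} {W : WeierstrassCurve F}
    {hV : V.map (algebraMap L F) = W} {T : W.toAffine.Point} {ζ : F} (H : DG l hV T ζ)
    {ι : Type} [Fintype ι] (x : ι → F) (hx : ∀ i, x i ≠ 0) (hE : ∀ i, Eig l hV T ζ (x i))
    (hP : ∀ i, ∀ w : HeightOneSpectrum (𝓞 F), PX l W T ζ w (x i))
    (hdist : ∀ i j, (∃ y, x i / x j = y ^ l) → i = j)
    (P : Finset V.toAffine.Point) (hPP : ∀ X : V.toAffine.Point, ∃ p ∈ P, ∃ S, X = p + l • S)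
    (T' : Finset (Coch L V))
    (hT' : ∀ f, IsCocycle L V f → IsLocTriv L V f → IsCobound L V (fun σ => l • f σ) →
      ∃ t ∈ T', IsCobound L V (fun σ => f σ - t σ)) :
    Fintype.card ι ≤ l ^ 2 * (P.card * T'.card) := by
  have hl := H.prime
  have hVe : V.IsElliptic := Cl_ell hV H.ell
  have hVb : (V.baseChange (AlgebraicClosure L)).IsElliptic := inferInstance
  obtain ⟨htp, htpl⟩ := H.tp_ne
  set iL := inv_bc (Ω := AlgebraicClosure L) L V with hiL
  have hL : V.map (algebraMap L (AlgebraicClosure L)) = V.baseChange (AlgebraicClosure L) := rfl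
  have key : ∀ i, ∃ (r : AlgebraicClosure F) (f : Coch F W),
      r ^ l = algebraMap F (AlgebraicClosure F) (x i) ∧ KC W T ζ r f ∧ IsCocycle F W f ∧
        ∀ τ, l • f τ = 0 := by
    intro i
    obtain ⟨r, hr⟩ := IsAlgClosed.exists_pow_nat_eq (algebraMap F (AlgebraicClosure F) (x i))
      hl.pos
    obtain ⟨f, h1, h2, h3⟩ := exists_kc hl.ne_zero H.prim htpl (hx i) hr
    exact ⟨r, f, hr, h1, h2, h3⟩
  choose r f₀ hr hkc hfc hfl using key
  have hloc : ∀ i, IsLocTriv F W (f₀ i) := fun i =>
    loc_kc hl H.odd H.prim (hx i) (hr i) (hkc i) (hP i)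
  obtain ⟨f, hf⟩ : ∃ f : ι → Coch L V, ∀ i, f i = corF hV (f₀ i) := ⟨_, fun i => rfl⟩
  have hgc : ∀ i, IsCocycle L V (f i) := fun i => by
    rw [hf i]
    exact isCocycle_cor hV (hfc i)
  have hgt : ∀ i, IsLocTriv L V (f i) := fun i => by
    rw [hf i]
    exact isLocTriv_cor hV (hfc i) (hloc i)
  have hf3 : ∀ i σ, l • f i σ = 0 := fun i σ => by
    rw [hf i]
    exact Cl_cor hV (hfl i) σ
  have hres : ∀ i τ, resF hV (f i) τ = Module.finrank L F • f₀ i τ := fun i τ => by
    rw [hf i]
    exact cor_eig H (hx i) (hE i) (hr i) (hkc i) τ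
  have hcb : ∀ i, ∃ t ∈ T', IsCobound L V (fun σ => f i σ - t σ) := by
    intro i
    apply hT' _ (hgc i) (hgt i)
    rw [Pool.Agent.H10.isCobound_iff]
    exact ⟨0, fun σ => by rw [hf3, map_zero, sub_zero]⟩
  choose t ht hcob using hcb
  have hfib : ∀ t₀ ∈ Finset.univ.image t,
      (Finset.univ.filter fun i => t i = t₀).card ≤ l ^ 2 * P.card := by
    intro t₀ ht₀
    rw [Finset.mem_image] at ht₀
    obtain ⟨i₀, -, hi₀⟩ := ht₀
    have hR : ∀ i, t i = t₀ → ∃ R : (V.baseChange (AlgebraicClosure L)).toAffine.Point,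
        ∀ σ, f i σ - f i₀ σ = act iL σ R - R := by
      intro i hi
      obtain ⟨Q, hQ⟩ := (Pool.Agent.H10.isCobound_iff _).mp (hcob i)
      obtain ⟨Q₀, hQ₀⟩ := (Pool.Agent.H10.isCobound_iff _).mp (hcob i₀)
      refine ⟨Q - Q₀, fun σ => ?_⟩
      have e1 : f i σ - t i σ = act iL σ Q - Q := hQ σ
      have e2 : f i₀ σ - t i₀ σ = act iL σ Q₀ - Q₀ := hQ₀ σ
      rw [hi] at e1
      rw [hi₀] at e2
      rw [map_sub]
      calc f i σ - f i₀ σ = (f i σ - t₀ σ) - (f i₀ σ - t₀ σ) := by abel
        _ = _ := by rw [e1, e2]; abel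
    choose! R hR using hR
    have hX : ∀ i, t i = t₀ → ∃ X : V.toAffine.Point,
        pm (algebraMap L (AlgebraicClosure L)) hL X = l • R i := by
      intro i hi
      refine pm_descent hL iL _ fun σ => ?_
      have e1 := hR i hi σ
      rw [map_nsmul, ← sub_eq_zero, ← nsmul_sub, ← e1, nsmul_sub, hf3, hf3, sub_zero]
    choose! X hX using hX
    choose p hp S hS using hPP
    set j₀ := pm (algebraMap L (AlgebraicClosure L)) hL with hj₀
    have hinv : ∀ (σ : AlgebraicClosure L ≃ₐ[L] AlgebraicClosure L) (Y : V.toAffine.Point),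
        act iL σ (j₀ Y) = j₀ Y := by
      intro σ Y
      unfold Pool.Agent.H10.act
      rw [hj₀, pm_pm]
      exact pm_congr _ _ (fun x => σ.commutes x) _
    have h2 := Finset.card_le_mul_card_image (f := fun i => p (X i))
      (Finset.univ.filter fun i => t i = t₀) (l ^ 2) (by
        intro p₀ hp₀
        rw [Finset.mem_image] at hp₀
        obtain ⟨i, hi, hip⟩ := hp₀
        simp only [Finset.mem_filter, Finset.mem_univ, true_and] at hi
        let D := fun j => R i - R j - j₀ (S (X i) - S (X j))
        have hD3 : ∀ j, t j = t₀ → p (X j) = p₀ → l • D j = 0 := by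
          intro j hj hjp
          have e1 := hX i hi
          have e2 := hX j hj
          have e3 : X i - X j = l • (S (X i) - S (X j)) := by
            have a1 := hS (X i)
            have a2 := hS (X j)
            have hip' : p (X i) = p₀ := hip
            rw [hip'] at a1
            rw [hjp] at a2
            rw [nsmul_sub]
            calc X i - X j = (p₀ + l • S (X i)) - (p₀ + l • S (X j)) := by rw [← a1, ← a2]
              _ = _ := by abel
          have e4 := congrArg j₀ e3
          rw [map_sub, map_nsmul, e1, e2] at e4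
          change l • (R i - R j - j₀ (S (X i) - S (X j))) = 0
          rw [nsmul_sub, nsmul_sub, e4, sub_self]
        have hDa : ∀ j, t j = t₀ → ∀ σ, f i σ - f j σ = act iL σ (D j) - D j := by
          intro j hj σ
          have e1 := hR i hi σ
          have e2 := hR j hj σ
          have e3 : act iL σ (D j) = act iL σ (R i) - act iL σ (R j) - j₀ (S (X i) - S (X j)) := by
            change act iL σ (R i - R j - j₀ (S (X i) - S (X j))) = _
            rw [map_sub, map_sub, hinv]
          calc f i σ - f j σ = (f i σ - f i₀ σ) - (f j σ - f i₀ σ) := by abel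
            _ = (act iL σ (R i) - R i) - (act iL σ (R j) - R j) := by rw [e1, e2]
            _ = (act iL σ (R i) - act iL σ (R j) - j₀ (S (X i) - S (X j))) - D j := by
                change _ = _ - (R i - R j - j₀ (S (X i) - S (X j)))
                abel
            _ = act iL σ (D j) - D j := by rw [e3]
        refine Cl_num (V.baseChange (AlgebraicClosure L)) hl.ne_zero _ D ?_ ?_
        · intro j hj
          simp only [Finset.mem_filter, Finset.mem_univ, true_and] at hj
          exact hD3 j hj.1 hj.2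
        · intro j hj k hk hjk
          simp only [Finset.mem_filter, Finset.mem_univ, true_and] at hj hk
          have e0 : f j = f k := by
            funext σ
            have e1 := hDa j hj.1 σ
            have e2 := hDa k hk.1 σ
            rw [hjk, ← e2] at e1
            exact sub_right_injective e1
          apply hdist
          refine Cl_pair hl H.prim htp htpl (hx j) (hx k) (hr j) (hr k) (hkc j) (hkc k) fun τ => ?_
          have e1 := hres j τ
          rw [e0, hres k τ] at e1
          have e2 : f₀ j τ - f₀ k τ = 0 := by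
            apply Cl_kill hl H.ndvd
            · rw [nsmul_sub, hfl, hfl, sub_zero]
            · rw [nsmul_sub, e1, sub_self]
          exact sub_eq_zero.1 e2)
    refine h2.trans (Nat.mul_le_mul_left _ (Finset.card_le_card ?_))
    intro x hx
    rw [Finset.mem_image] at hx
    obtain ⟨i, -, rfl⟩ := hx
    exact hp _
  have h1 := Finset.card_le_mul_card_image (f := t) Finset.univ (l ^ 2 * P.card) hfib
  rw [Finset.card_univ] at h1
  refine h1.trans ?_
  rw [mul_assoc]
  refine Nat.mul_le_mul_left _ (Nat.mul_le_mul_left _ (Finset.card_le_card ?_))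
  intro x hx
  rw [Finset.mem_image] at hx
  obtain ⟨i, -, rfl⟩ := hx
  exact ht i

end H86G
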