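import Pool.Agent.H86.T4G.Gx

/-!
Row Da (about 130 lines): algebra of the local conditions.

Throughout `ζ` (its image `z` in the closure) is fixed by every `σ` (σ.commutes), `z` is a primitive `l`-th root of unity.
PROOF.
kum_a: `(τ r)^l = τ (r^l) = r^l`, so `(τ r / r)^l = 1` (`r ≠ 0`), hence a power of `z` (IsPrimitiveRoot.eq_pow_of_pow_eq_one, IsPrimitiveRoot.map_of_injective).
dx_root: given `r, P` for `x` and `r'` another root: `r' = z^i r` (or `r = z^i r'`), `σ r' = z^a r'` iff `σ r = z^a r`.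
dx_mul: `r r'`, `P + P'`: for `σ ∈ D` with `σ (r r') = z^b (r r')` take `a, a'` from kum_a; `z^b = z^(a + a')`, so `b ≡ a + a'` modulo `l` (IsPrimitiveRoot.pow_inj / pow_eq_pow_iff_modEq with orderOf), `b • tp = (a + a') • tp` (smul_iff or `l • tp = 0`). act is additive (map_add).
dx_inv: `r⁻¹`, `-P`: if `σ r⁻¹ = z^b r⁻¹`, `σ r = z^a r`, then `a + b ≡ 0`.
dx_of_rt: `t` fixed by `D`, `t ^ l = x`, `P = 0`: `σ t = z^a t = t`, `t ≠ 0`, so `z^a = 1`, `l ∣ a`, `a • tp = 0`.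
-/

set_option autoImplicit false
open scoped Classical

open WeierstrassCurve IsDedekindDomain NumberField Pool.Agent.H10 Pool.Agent.H11 H78D

namespace H86G

variable {F : Type} [Field F] [NumberField F] {l : ℕ} {W : WeierstrassCurve F}
  {T : W.toAffine.Point} {ζ : F} {D : Subgroup (AlgebraicClosure F ≃ₐ[F] AlgebraicClosure F)}

theorem Da_ne {l : ℕ} {F : Type} [Field F] (hl : l ≠ 0) {x : F} (hx : x ≠ 0) {r : AlgebraicClosure F}
    (hr : r ^ l = algebraMap F (AlgebraicClosure F) x) : r ≠ 0 := by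
  rintro rfl
  rw [zero_pow hl] at hr
  exact hx ((map_eq_zero _).1 hr.symm)

theorem Da_prim {l : ℕ} {F : Type} [Field F] {ζ : F} (hζ : IsPrimitiveRoot ζ l) :
    IsPrimitiveRoot (algebraMap F (AlgebraicClosure F) ζ) l :=
  hζ.map_of_injective (algebraMap F (AlgebraicClosure F)).injective

theorem Da_two {l : ℕ} {F : Type} [Field F] {ζ : F} (hl : l ≠ 0) (hζ : IsPrimitiveRoot ζ l) {x : F}
    (hx : x ≠ 0) {r r' : AlgebraicClosure F}
    (hr : r ^ l = algebraMap F (AlgebraicClosure F) x)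
    (hr' : r' ^ l = algebraMap F (AlgebraicClosure F) x) :
    ∃ a : ℕ, r' = algebraMap F (AlgebraicClosure F) ζ ^ a * r := by
  haveI : NeZero l := ⟨hl⟩
  have h0 := Da_ne hl hx hr
  have h1 : (r' / r) ^ l = 1 := by
    rw [div_pow, hr, hr', div_self]
    intro h
    exact hx ((map_eq_zero _).1 h)
  obtain ⟨i, _, hi⟩ := (Da_prim hζ).eq_pow_of_pow_eq_one h1
  exact ⟨i, by rw [hi, div_mul_cancel₀ _ h0]⟩

theorem Da_smul {M : Type*} [AddCommGroup M] {l : ℕ} {t : M} (ht : l • t = 0) {a b : ℕ}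
    (h : a ≡ b [MOD l]) : a • t = b • t := by
  have key : ∀ c : ℕ, c • t = (c % l) • t := by
    intro c
    conv_lhs => rw [← Nat.div_add_mod c l]
    rw [add_nsmul, mul_nsmul, ht, nsmul_zero, zero_add]
  rw [key a, key b, show a % l = b % l from h]

theorem Da_pow {l : ℕ} {K : Type*} [Field K] {z : K} (hz : IsPrimitiveRoot z l) (hz0 : z ≠ 0)
    {a b : ℕ} (h : z ^ a = z ^ b) : a ≡ b [MOD l] := by
  rcases le_total a b with hab | hab
  · refine (Nat.modEq_iff_dvd' hab).2 (hz.dvd_of_pow_eq_one _ ?_)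
    have h1 : z ^ a * z ^ (b - a) = z ^ a * 1 := by
      rw [← pow_add, Nat.add_sub_cancel' hab, mul_one, h]
    exact mul_left_cancel₀ (pow_ne_zero _ hz0) h1
  · refine ((Nat.modEq_iff_dvd' hab).2 (hz.dvd_of_pow_eq_one _ ?_)).symm
    have h1 : z ^ b * z ^ (a - b) = z ^ b * 1 := by
      rw [← pow_add, Nat.add_sub_cancel' hab, mul_one, h]
    exact mul_left_cancel₀ (pow_ne_zero _ hz0) h1

theorem Da_fix {F : Type} [Field F] (ζ : F) (σ : AlgebraicClosure F ≃ₐ[F] AlgebraicClosure F)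
    (n : ℕ) : σ (algebraMap F (AlgebraicClosure F) ζ ^ n) =
      algebraMap F (AlgebraicClosure F) ζ ^ n := by
  rw [map_pow, σ.commutes]

theorem kum_a (hl : l ≠ 0) (hζ : IsPrimitiveRoot ζ l) {x : F} (hx : x ≠ 0)
    {r : AlgebraicClosure F} (hr : r ^ l = algebraMap F (AlgebraicClosure F) x)
    (τ : AlgebraicClosure F ≃ₐ[F] AlgebraicClosure F) :
    ∃ a : ℕ, τ r = algebraMap F (AlgebraicClosure F) ζ ^ a * r := by
  refine Da_two hl hζ hx hr ?_
  rw [← map_pow, hr, τ.commutes]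

/-- independence of the root -/
theorem dx_root (hl : l ≠ 0) (hζ : IsPrimitiveRoot ζ l) {x : F} (hx : x ≠ 0)
    (h : DX l W T ζ D x) {r' : AlgebraicClosure F}
    (hr : r' ^ l = algebraMap F (AlgebraicClosure F) x) :
    ∃ P : (W.baseChange (AlgebraicClosure F)).toAffine.Point, ∀ σ ∈ D, ∀ a : ℕ,
      σ r' = algebraMap F (AlgebraicClosure F) ζ ^ a * r' →
        act (inv_bc F W) σ P - P = a • tp W T := by
  obtain ⟨r, P, h1, h2⟩ := h
  obtain ⟨i, hi⟩ := Da_two hl hζ hx h1 hr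
  have hz0 : algebraMap F (AlgebraicClosure F) ζ ≠ 0 := (Da_prim hζ).ne_zero hl
  refine ⟨P, fun σ hσ a ha => h2 σ hσ a ?_⟩
  rw [hi, map_mul, Da_fix] at ha
  refine mul_left_cancel₀ (pow_ne_zero i hz0) ?_
  rw [ha]
  ring

theorem dx_mul (hl : l ≠ 0) (hζ : IsPrimitiveRoot ζ l) (hTl : l • tp W T = 0) {x y : F}
    (hx : x ≠ 0) (hy : y ≠ 0) (h1 : DX l W T ζ D x) (h2 : DX l W T ζ D y) :
    DX l W T ζ D (x * y) := by
  obtain ⟨r, P, hr, hP⟩ := h1
  obtain ⟨r', P', hr', hP'⟩ := h2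
  have hz := Da_prim hζ
  have hz0 := hz.ne_zero hl
  refine ⟨r * r', P + P', ?_, fun σ hσ b hb => ?_⟩
  · rw [mul_pow, hr, hr', map_mul]
  · obtain ⟨a, ha⟩ := kum_a hl hζ hx hr σ
    obtain ⟨a', ha'⟩ := kum_a hl hζ hy hr' σ
    have hne : r * r' ≠ 0 := mul_ne_zero (Da_ne hl hx hr) (Da_ne hl hy hr')
    have hab : b ≡ a + a' [MOD l] := by
      refine Da_pow hz hz0 (mul_right_cancel₀ hne ?_)
      rw [← hb, map_mul, ha, ha', pow_add]
      ring
    rw [Da_smul hTl hab, add_nsmul, ← hP σ hσ a ha, ← hP' σ hσ a' ha', map_add]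
    abel

theorem dx_inv (hl : l ≠ 0) (hζ : IsPrimitiveRoot ζ l) (hTl : l • tp W T = 0) {x : F}
    (hx : x ≠ 0) (h1 : DX l W T ζ D x) : DX l W T ζ D x⁻¹ := by
  obtain ⟨r, P, hr, hP⟩ := h1
  have hz := Da_prim hζ
  have hz0 := hz.ne_zero hl
  have hr0 := Da_ne hl hx hr
  refine ⟨r⁻¹, -P, ?_, fun σ hσ b hb => ?_⟩
  · rw [inv_pow, hr, map_inv₀]
  · obtain ⟨a, ha⟩ := kum_a hl hζ hx hr σ
    have hab : a + b ≡ 0 [MOD l] := by
      refine Da_pow hz hz0 ?_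
      rw [map_inv₀, ha, mul_inv] at hb
      have h2 := mul_right_cancel₀ (inv_ne_zero hr0) hb
      rw [pow_add, ← h2, pow_zero, mul_inv_cancel₀ (pow_ne_zero _ hz0)]
    have h3 : (a + b) • tp W T = 0 := by
      rw [Da_smul hTl hab, zero_nsmul]
    rw [add_nsmul, ← hP σ hσ a ha] at h3
    rw [map_neg, ← sub_eq_zero, ← neg_eq_zero, ← h3]
    abel

theorem dx_of_rt (hl : l ≠ 0) (hζ : IsPrimitiveRoot ζ l) (hTl : l • tp W T = 0) {x : F}
    (hx : x ≠ 0) (h1 : RT l D x) : DX l W T ζ D x := by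
  obtain ⟨t, ht, htx⟩ := h1
  have hz := Da_prim hζ
  have hz0 := hz.ne_zero hl
  have ht0 := Da_ne hl hx htx
  refine ⟨t, 0, htx, fun σ hσ a ha => ?_⟩
  rw [ht σ hσ] at ha
  have h2 : a ≡ 0 [MOD l] := by
    refine Da_pow hz hz0 (mul_right_cancel₀ ht0 ?_)
    rw [← ha, pow_zero, one_mul]
  rw [Da_smul hTl h2, zero_nsmul, map_zero, sub_zero]

theorem rt_mul {x y : F} (h1 : RT l D x) (h2 : RT l D y) : RT l D (x * y) := by
  obtain ⟨t, ht, htx⟩ := h1
  obtain ⟨t', ht', htx'⟩ := h2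
  exact ⟨t * t', fun σ hσ => by rw [map_mul, ht σ hσ, ht' σ hσ], by rw [mul_pow, htx, htx', map_mul]⟩

theorem rt_inv {x : F} (h1 : RT l D x) : RT l D x⁻¹ := by
  obtain ⟨t, ht, htx⟩ := h1
  exact ⟨t⁻¹, fun σ hσ => by rw [map_inv₀, ht σ hσ], by rw [inv_pow, htx, map_inv₀]⟩

theorem rt_pow (x : F) : RT l D (x ^ l) := by
  exact ⟨algebraMap F (AlgebraicClosure F) x, fun σ _ => σ.commutes x, by rw [map_pow]⟩

end H86G
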