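import Mathlib

/-!
Row Gf (about 70 lines): a counting form of the theorem of Lang for torsion points.

PROOF. `X := K.comap (nsmul by l)` (AddSubgroup of the `Q` with `l • Q ∈ K`), `M := ` the AddSubgroup `{T | l • T = 0}` (finite). `α : X →+ K`, `Q ↦ l • Q`: surjective by hdiv, kernel in bijection with `M` (`0 ∈ K`): so `X` is finite and `Nat.card X = Nat.card K * Nat.card M` (AddSubgroup.card_eq_card_quotient_mul_card_addSubgroup, QuotientAddGroup.quotientKerEquivOfSurjective).
 `β : X →+ M`, `Q ↦ φ Q - Q` (`l • (φ Q - Q) = φ (l • Q) - l • Q = 0` by hφ). Its kernel: `φ Q = Q`, so `Q ∈ K` by hker; hence `Nat.card β.ker ≤ Nat.card K`. `Nat.card X = Nat.card β.ker * Nat.card β.range`, so `Nat.card K * Nat.card M ≤ Nat.card K * Nat.card β.range`, `Nat.card M ≤ Nat.card β.range`, so `β` is surjective (AddSubgroup.eq_top_of_card_eq or le_card).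
-/

set_option autoImplicit false

namespace H86G

theorem fin_lang {A : Type*} [AddCommGroup A] (l : ℕ) (φ : A →+ A) (K : AddSubgroup A) [Finite K]
    (hdiv : ∀ R ∈ K, ∃ Q, l • Q = R) (hfin : {T : A | l • T = 0}.Finite)
    (hφ : ∀ R ∈ K, φ R = R) (hker : ∀ Q, l • Q ∈ K → φ Q = Q → Q ∈ K) (T : A)
    (hT : l • T = 0) : ∃ Q, l • Q ∈ K ∧ φ Q - Q = T := by
  classical
  set m : A →+ A := nsmulAddMonoidHom l with hm
  have hmapp : ∀ Q : A, m Q = l • Q := fun Q => rfl
  set X : AddSubgroup A := K.comap m with hX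
  set M : AddSubgroup A := m.ker with hM
  have hXm : ∀ Q : A, Q ∈ X ↔ l • Q ∈ K := fun Q => Iff.rfl
  have hMm : ∀ Q : A, Q ∈ M ↔ l • Q = 0 := fun Q => Iff.rfl
  haveI hMfin : Finite M := by
    haveI := hfin.to_subtype
    exact Finite.of_injective (fun x : M => (⟨x.1, (hMm x.1).1 x.2⟩ : {T : A | l • T = 0}))
      (fun a b h => Subtype.ext (congrArg (fun z => z.1) h))
  let α : X →+ K := (m.comp X.subtype).codRestrict K (fun x => x.2)
  have hα : Function.Surjective α := by
    intro R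
    obtain ⟨Q, hQ⟩ := hdiv R.1 R.2
    refine ⟨⟨Q, (hXm Q).2 (by rw [hQ]; exact R.2)⟩, ?_⟩
    exact Subtype.ext hQ
  have hα0 : ∀ x : X, x ∈ α.ker ↔ l • (x : A) = 0 := by
    intro x
    rw [AddMonoidHom.mem_ker]
    constructor
    · intro h
      exact congrArg (fun z : K => (z : A)) h
    · intro h
      exact Subtype.ext h
  have hcα : Nat.card α.ker = Nat.card M := by
    refine Nat.card_congr ⟨fun x => ⟨x.1.1, (hMm _).2 ((hα0 x.1).1 x.2)⟩,
      fun T => ⟨⟨T.1, (hXm _).2 (by rw [(hMm T.1).1 T.2]; exact K.zero_mem)⟩,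
        (hα0 _).2 ((hMm T.1).1 T.2)⟩, fun x => rfl, fun T => rfl⟩
  have hcX : Nat.card X = Nat.card K * Nat.card M := by
    rw [AddSubgroup.card_eq_card_quotient_mul_card_addSubgroup α.ker,
      Nat.card_congr (QuotientAddGroup.quotientKerEquivOfSurjective α hα).toEquiv, hcα]
  have hβm : ∀ x : X, ((φ.comp X.subtype) - X.subtype) x ∈ M := by
    intro x
    rw [hMm]
    show l • (φ (x : A) - (x : A)) = 0
    rw [smul_sub, ← map_nsmul, hφ _ ((hXm x.1).1 x.2), sub_self]
  let β : X →+ M := ((φ.comp X.subtype) - X.subtype).codRestrict M hβm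
  have hβ : ∀ x : X, ((β x : M) : A) = φ (x : A) - (x : A) := fun x => rfl
  have hβk : Nat.card β.ker ≤ Nat.card K := by
    have hmem : ∀ x : β.ker, ((x : X) : A) ∈ K := by
      intro x
      have h1 : β x.1 = 0 := x.2
      have h2 : φ ((x : X) : A) - ((x : X) : A) = 0 := by
        rw [← hβ, h1]
        rfl
      exact hker _ ((hXm _).1 x.1.2) (sub_eq_zero.1 h2)
    refine Nat.card_le_card_of_injective (fun x : β.ker => (⟨((x : X) : A), hmem x⟩ : K)) ?_
    intro a b h
    exact Subtype.ext (Subtype.ext (congrArg (fun z : K => (z : A)) h))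
  have hcX2 : Nat.card X = Nat.card β.range * Nat.card β.ker := by
    rw [AddSubgroup.card_eq_card_quotient_mul_card_addSubgroup β.ker,
      Nat.card_congr (QuotientAddGroup.quotientKerEquivRange β).toEquiv]
  have hKpos : 0 < Nat.card K := Nat.card_pos
  have hle : Nat.card M ≤ Nat.card β.range := by
    have h1 : Nat.card K * Nat.card M ≤ Nat.card K * Nat.card β.range := by
      rw [← hcX, hcX2, mul_comm (Nat.card K)]
      exact Nat.mul_le_mul_left _ hβk
    exact Nat.le_of_mul_le_mul_left h1 hKpos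
  have htop : β.range = ⊤ := AddSubgroup.eq_top_of_le_card _ hle
  have hT' : (⟨T, (hMm T).2 hT⟩ : M) ∈ β.range := by rw [htop]; trivial
  obtain ⟨x, hx⟩ := hT'
  refine ⟨x.1, (hXm _).1 x.2, ?_⟩
  rw [← hβ, hx]

end H86G
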