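import Pool.Agent.H86.T4G.Lb

/-!
Row Lc (about 150 lines): the action on a finite residue field is cyclic.

PROOF. `M` is a number field (finite over `F`, identify it with a field `M : IntermediateField F (AlgebraicClosure F)`, `NumberField M`). `B := A.comap (algebraMap M (AlgebraicClosure F))`, a ValuationSubring of `M`, `κ := IsLocalRing.ResidueField B`.
 (1) `κ` is finite. `𝓞 M ⊆ B` (integral elements are in a valuation subring: integrally closed, `ℤ ⊆ B`). Let `𝔭` be the set of the `x : 𝓞 M` with `A.valuation x < 1`, a prime ideal. If `𝔭 = ⊥` then every nonzero element of `𝓞 M` is a unit of `B` and `B = M`, `κ = M`... this does not happen: `w.asIdeal` contains a nonzero `x`, `w.valuation F x < 1`, so `A.valuation x < 1` (LS.val_lt_one). `𝓞 M → κ` is surjective: `z ∈ B`, write `z = a / b`, `a, b ∈ 𝓞 M`, and one can take `b ∉ 𝔭` (`HeightOneSpectrum` of `𝔭`: `B` contains the localization at `𝔭`, which is a discrete valuation ring, hence `B` equals it: a valuation ring of `M` containing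 the DVR and different from `M` is equal to it; or: `z ∈ B` implies `𝔭.valuation z ≤ 1` because otherwise `𝔭.valuation z⁻¹ < 1`, `z⁻¹ = a / b` with `b ∉ 𝔭`, `a ∈ 𝔭`, `A.valuation z⁻¹ < 1`; then IsDedekindDomain.HeightOneSpectrum lemma for `𝔭.valuation z ≤ 1`: `z = a / b` with `b ∉ 𝔭`). So the class of `z` is the class of `a` times the inverse of the class of `b`, and the image of `𝓞 M` is the finite field `𝓞 M / 𝔭` (Ideal.finiteQuotientOfFreeOfNeBot or Ring.HasFiniteQuotients), which is all of `κ`.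
 (2) For `σ ∈ D`: `σ` maps `M` to `M` (normal: AlgEquiv.restrictNormal) and `B` to `B` (LS.stab), so it induces `r σ : κ ≃+* κ` (IsLocalRing.ResidueField.map / mapEquiv), and `r : D →* (κ ≃+* κ)` is a homomorphism. The group of ring automorphisms of a finite field is cyclic (it is the group of algebra automorphisms over the prime field `ZMod p`: instance `IsCyclic (κ ≃ₐ[ZMod p] κ)` for finite fields, FiniteField; FiniteField.bijective_frobeniusAlgHom_pow / `instIsCyclicAlgEquivOfFinite`). So the range of `r` is cyclic, generated by `r φ`, `φ ∈ D`; the group is finite, so `r σ = (r φ)^i` with `i : ℕ`.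
 (3) `z ∈ M ∩ A`: `σ z` and `φ^i z` have the same class in `κ`: `A.valuation (σ z - φ^i z) < 1`.
-/

set_option autoImplicit false
set_option linter.style.haveILetI false
open scoped Classical

open WeierstrassCurve IsDedekindDomain NumberField Pool.Agent.H10 Pool.Agent.H11 H78D

namespace H86G

/-- The residue field is finite. -/
theorem Lc_fin {M : Type} [Field M] [NumberField M] (B : ValuationSubring M) (p : ℕ)
    (hp : p.Prime) (hB : (p : B) ∈ IsLocalRing.maximalIdeal B) :
    Finite (IsLocalRing.ResidueField B) ∧ CharP (IsLocalRing.ResidueField B) p := by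
  have hfact : Fact p.Prime := ⟨hp⟩
  have hchar : CharP (IsLocalRing.ResidueField B) p := by
    have h0 : ((p : ℕ) : IsLocalRing.ResidueField B) = 0 := by
      have h1 : IsLocalRing.residue B (p : B) = 0 := (IsLocalRing.residue_eq_zero_iff _).2 hB
      rwa [map_natCast] at h1
    exact (CharP.charP_iff_prime_eq_zero hp).2 h0
  refine ⟨?_, hchar⟩
  let _ : Algebra (ZMod p) (IsLocalRing.ResidueField B) := ZMod.algebra _ p
  have hrank : Module.rank (ZMod p) (IsLocalRing.ResidueField B) ≤ (Module.finrank ℚ M : ℕ) := by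
    apply rank_le
    intro s hs
    by_contra hlt
    rw [not_le] at hlt
    -- lift the elements
    choose g hg using fun x : s => IsLocalRing.residue_surjective (R := B) (x : IsLocalRing.ResidueField B)
    have hdep : ¬ LinearIndependent ℤ (fun x : s => ((g x : B) : M)) := by
      intro hli
      rw [LinearIndependent.iff_fractionRing ℤ ℚ] at hli
      have := hli.fintype_card_le_finrank
      rw [Fintype.card_coe] at this
      omega
    rw [Fintype.not_linearIndependent_iff] at hdep
    obtain ⟨c, hc, i0, hi0⟩ := hdep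
    obtain ⟨c', hc', hgcd⟩ := Finset.extract_gcd c (Finset.univ_nonempty_iff.2 ⟨i0⟩)
    have hd0 : Finset.univ.gcd c ≠ 0 := by
      intro h0
      exact hi0 (by rw [hc' i0 (Finset.mem_univ _), h0, zero_mul])
    have hsum : ∑ i, c' i • ((g i : B) : M) = 0 := by
      have h1 : (Finset.univ.gcd c) • ∑ i, c' i • ((g i : B) : M) = 0 := by
        rw [Finset.smul_sum, ← hc]
        refine Finset.sum_congr rfl (fun i hi => ?_)
        rw [smul_smul, ← hc' i hi]
      rcases smul_eq_zero.1 h1 with h2 | h2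
      · exact absurd h2 hd0
      · exact h2
    have hsumB : ∑ i, c' i • g i = 0 := by
      apply Subtype.ext
      change ((∑ i, c' i • g i : B) : M) = 0
      rw [← hsum]
      push_cast
      rfl
    have hsumk : ∑ i : s, ((c' i : ℤ) : ZMod p) • (i : IsLocalRing.ResidueField B) = 0 := by
      have h1 := congrArg (IsLocalRing.residue B) hsumB
      rw [map_sum, map_zero] at h1
      rw [← h1]
      refine Finset.sum_congr rfl (fun i _ => ?_)
      rw [map_zsmul, hg i, Int.cast_smul_eq_zsmul]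
    have hall := Fintype.linearIndependent_iff.1 hs (fun i => ((c' i : ℤ) : ZMod p)) hsumk
    have hdvd : ∀ i ∈ (Finset.univ : Finset s), (p : ℤ) ∣ c' i := fun i _ =>
      (ZMod.intCast_zmod_eq_zero_iff_dvd _ p).1 (hall i)
    have h1 : (p : ℤ) ∣ 1 := by
      rw [← hgcd]
      exact Finset.dvd_gcd hdvd
    have h2 : p ∣ 1 := by exact_mod_cast h1
    exact hp.one_lt.ne' (Nat.dvd_one.1 h2)
  have h2 : Module.Finite (ZMod p) (IsLocalRing.ResidueField B) := by
    rw [← Module.rank_lt_aleph0_iff]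
    exact hrank.trans_lt (Cardinal.natCast_lt_aleph0)
  exact Module.finite_of_finite (ZMod p)

open scoped Pointwise in
/-- The action of a group of automorphisms on a finite residue field is cyclic. -/
theorem Lc_cyc {F M : Type} [Field F] [Field M] [Algebra F M] (B : ValuationSubring M) (p : ℕ)
    (hp : p.Prime) (hc : CharP (IsLocalRing.ResidueField B) p)
    (hfin : Finite (IsLocalRing.ResidueField B)) {G : Type} [Group G] (D : Subgroup G)
    (ρ : G →* (M ≃ₐ[F] M)) (hD : ∀ σ ∈ D, ∀ x : M, ρ σ x ∈ B ↔ x ∈ B) :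
    ∃ φ ∈ D, ∀ σ ∈ D, ∃ i : ℕ, ∀ z : M, z ∈ B → B.valuation (ρ σ z - ρ (φ ^ i) z) < 1 := by
  have hfact : Fact p.Prime := ⟨hp⟩
  have hst : ∀ σ ∈ D, ρ σ ∈ B.decompositionSubgroup F := by
    intro σ hσ
    rw [MulAction.mem_stabilizer_iff]
    ext x
    constructor
    · intro hx
      obtain ⟨y, hy, rfl⟩ := (ValuationSubring.mem_smul_pointwise_iff_exists _ _ _).1 hx
      exact (hD σ hσ y).2 hy
    · intro hx
      refine (ValuationSubring.mem_smul_pointwise_iff_exists _ _ _).2 ⟨ρ σ⁻¹ x, ?_, ?_⟩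
      · exact (hD σ⁻¹ (D.inv_mem hσ) x).2 hx
      · change ρ σ (ρ σ⁻¹ x) = x
        rw [← AlgEquiv.mul_apply, ← map_mul, mul_inv_cancel, map_one, AlgEquiv.one_apply]
  let _ : Algebra (ZMod p) (IsLocalRing.ResidueField B) := ZMod.algebra _ p
  let ρ' : D →* B.decompositionSubgroup F :=
    { toFun := fun σ => ⟨ρ σ, hst σ σ.2⟩
      map_one' := Subtype.ext ρ.map_one
      map_mul' := fun a b => Subtype.ext (ρ.map_mul a b) }
  let q : RingAut (IsLocalRing.ResidueField B) →* (IsLocalRing.ResidueField B ≃ₐ[ZMod p] IsLocalRing.ResidueField B) :=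
    { toFun := fun e => AlgEquiv.ofRingEquiv (f := e) (fun x => by
        have h1 : (e : IsLocalRing.ResidueField B →+* IsLocalRing.ResidueField B).comp (algebraMap (ZMod p) _) = algebraMap (ZMod p) _ :=
          Subsingleton.elim _ _
        exact RingHom.congr_fun h1 x)
      map_one' := rfl
      map_mul' := fun a b => rfl }
  let r : D →* (IsLocalRing.ResidueField B ≃ₐ[ZMod p] IsLocalRing.ResidueField B) :=
    q.comp ((MulSemiringAction.toRingAut (B.decompositionSubgroup F) (IsLocalRing.ResidueField B)).comp ρ')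
  have hcyc : IsCyclic r.range := inferInstance
  obtain ⟨⟨g, φ, hφ⟩, hg⟩ := hcyc.exists_generator
  refine ⟨φ, φ.2, fun σ hσ => ?_⟩
  have h1 := hg ⟨r ⟨σ, hσ⟩, ⟨⟨σ, hσ⟩, rfl⟩⟩
  have : Finite r.range := inferInstance
  rw [← mem_powers_iff_mem_zpowers] at h1
  obtain ⟨i, hi⟩ := h1
  refine ⟨i, fun z hz => ?_⟩
  have h2 : r φ ^ i = r ⟨σ, hσ⟩ := by
    rw [hφ]
    exact congrArg Subtype.val hi
  have h3 : r (φ ^ i) = r ⟨σ, hσ⟩ := by rw [map_pow, h2]
  have h4 : ∀ τ : D, r τ (IsLocalRing.residue B ⟨z, hz⟩) = IsLocalRing.residue B (ρ' τ • ⟨z, hz⟩) := by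
    intro τ
    rw [IsLocalRing.ResidueField.residue_smul]
    rfl
  have h5 : IsLocalRing.residue B (ρ' ⟨σ, hσ⟩ • ⟨z, hz⟩) = IsLocalRing.residue B (ρ' (φ ^ i) • ⟨z, hz⟩) := by
    rw [← h4, ← h4, h3]
  rw [← sub_eq_zero, ← map_sub, IsLocalRing.residue_eq_zero_iff, ValuationSubring.valuation_lt_one_iff] at h5
  exact h5

theorem Lc_comap_lt {M Ω : Type} [Field M] [Field Ω] (f : M →+* Ω) (A : ValuationSubring Ω)
    (x : M) : (A.comap f).valuation x < 1 ↔ A.valuation (f x) < 1 := by
  by_cases hx : x = 0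
  · rw [hx, map_zero, map_zero, map_zero]
    simp
  · have hfx : f x ≠ 0 := (map_ne_zero f).2 hx
    have h1 : (A.comap f).valuation x < 1 ↔ ¬ (A.comap f).valuation x⁻¹ ≤ 1 := by
      rw [map_inv₀, not_le, one_lt_inv₀ (zero_lt_iff.2 ((Valuation.ne_zero_iff _).2 hx))]
    have h2 : A.valuation (f x) < 1 ↔ ¬ A.valuation (f x)⁻¹ ≤ 1 := by
      rw [map_inv₀, not_le, one_lt_inv₀ (zero_lt_iff.2 ((Valuation.ne_zero_iff _).2 hfx))]
    rw [h1, h2, ValuationSubring.valuation_le_one_iff, ValuationSubring.valuation_le_one_iff,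
      ValuationSubring.mem_comap, map_inv₀]

theorem Lc_N {F : Type} [Field F] [NumberField F] (w : HeightOneSpectrum (𝓞 F)) :
    ∃ N : ℕ, N ≠ 0 ∧ w.valuation F (N : F) < 1 := by
  refine ⟨Ideal.absNorm w.asIdeal, ?_, ?_⟩
  · rw [Ne, Ideal.absNorm_eq_zero_iff]
    exact w.ne_bot
  · have h1 := (w.valuation_lt_one_iff_mem (K := F) _).2 (Ideal.absNorm_mem w.asIdeal)
    have h2 : algebraMap (𝓞 F) F ((Ideal.absNorm w.asIdeal : ℕ) : 𝓞 F) = ((Ideal.absNorm w.asIdeal : ℕ) : F) :=
      map_natCast _ _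
    rw [← h2]
    exact h1

theorem LS.cyc {F : Type} [Field F] [NumberField F] {w : HeightOneSpectrum (𝓞 F)}
    {A : ValuationSubring (AlgebraicClosure F)}
    {D : Subgroup (AlgebraicClosure F ≃ₐ[F] AlgebraicClosure F)} (h : LS w A D)
    (M : IntermediateField F (AlgebraicClosure F)) [FiniteDimensional F M] [Normal F M] :
    ∃ φ ∈ D, ∀ σ ∈ D, ∃ i : ℕ, ∀ z ∈ M, z ∈ A → A.valuation (σ z - (φ ^ i) z) < 1 := by
  have hNF : NumberField M := NumberField.of_module_finite F M
  obtain ⟨N, hN0, hN⟩ := Lc_N w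
  have hNB : (N : A.comap (algebraMap M (AlgebraicClosure F))) ∈
      IsLocalRing.maximalIdeal (A.comap (algebraMap M (AlgebraicClosure F))) := by
    rw [ValuationSubring.valuation_lt_one_iff]
    have h1 : (A.comap (algebraMap M (AlgebraicClosure F))).valuation ((N : ℕ) : M) < 1 := by
      rw [Lc_comap_lt, map_natCast]
      have h2 := (h.val_lt_one (N : F)).2 hN
      rwa [map_natCast] at h2
    exact h1
  obtain ⟨p, hpc⟩ := CharP.exists
    (IsLocalRing.ResidueField (A.comap (algebraMap M (AlgebraicClosure F))))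
  have hN0' : ((N : ℕ) : IsLocalRing.ResidueField
      (A.comap (algebraMap M (AlgebraicClosure F)))) = 0 := by
    have h1 := (IsLocalRing.residue_eq_zero_iff _).2 hNB
    rwa [map_natCast] at h1
  have hpN : p ∣ N := (CharP.cast_eq_zero_iff _ p N).1 hN0'
  have hp0 : p ≠ 0 := by
    rintro rfl
    exact hN0 (Nat.eq_zero_of_zero_dvd hpN)
  have hp : p.Prime := (CharP.char_is_prime_or_zero
    (IsLocalRing.ResidueField (A.comap (algebraMap M (AlgebraicClosure F)))) p).resolve_right hp0
  have hpB : (p : A.comap (algebraMap M (AlgebraicClosure F))) ∈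
      IsLocalRing.maximalIdeal (A.comap (algebraMap M (AlgebraicClosure F))) := by
    rw [← IsLocalRing.residue_eq_zero_iff, map_natCast]
    exact CharP.cast_eq_zero _ p
  obtain ⟨hfin, -⟩ := Lc_fin _ p hp hpB
  have hcomm : ∀ (σ : AlgebraicClosure F ≃ₐ[F] AlgebraicClosure F) (x : M),
      algebraMap M (AlgebraicClosure F) (AlgEquiv.restrictNormalHom M σ x) =
        σ (algebraMap M (AlgebraicClosure F) x) := fun σ x =>
    AlgEquiv.restrictNormal_commutes σ M x
  obtain ⟨φ, hφ, hall⟩ := Lc_cyc (F := F) (A.comap (algebraMap M (AlgebraicClosure F))) p hp hpc hfin D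
    (AlgEquiv.restrictNormalHom M) (fun σ hσ x => by
      rw [ValuationSubring.mem_comap, ValuationSubring.mem_comap, hcomm]
      exact h.mem_stab hσ _)
  refine ⟨φ, hφ, fun σ hσ => ?_⟩
  obtain ⟨i, hi⟩ := hall σ hσ
  refine ⟨i, fun z hz hzA => ?_⟩
  have h1 := hi ⟨z, hz⟩ hzA
  rw [Lc_comap_lt, map_sub, hcomm, hcomm] at h1
  exact h1

end H86G
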