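import Pool.Agent.H86.T4G.Gt
import Pool.Agent.H86.T4G.Gf
import Pool.Agent.H86.T4G.Lc
import Pool.Agent.H86.T4G.Da
import Pool.Agent.H11.Divis2

/-!
Row Gd (about 200 lines): units satisfy the local condition at good places not above `l`. Use only the STATEMENTS of Gt, Gf, Lb, Lc, Da.

PROOF. `E := W.baseChange (AlgebraicClosure F)`, `Integral A E`, `A.valuation E.Δ = 1`, `A.valuation (l : _) = 1` from hg. `r` with `r^l = x` (IsAlgClosed.exists_pow_nat_eq).
 `K` := the AddSubgroup of the `P` fixed by `D` and killed by a power of `l` (finite by fixed_fin). `Q` with `l • Q = R` exists for every `R` (divisibility of the points over an algebraically closed field: H11/Divis2.lean or H11/Divis.lean). `{T | l • T = 0}` is finite (H11; or H2T4). So the set `Z` of the `Q` with `l • Q ∈ K` is finite.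
 `M₀` := adjoin of the coordinates of the points of `Z` (coordSet in H11/LocMain), `r`, all conjugates: `M` := a finite normal extension of `F` in the closure containing all these (normalClosure of a finitely generated field, IntermediateField.adjoin of the roots of the minimal polynomials; finite-dimensional and normal). `φ ∈ D` from LS.cyc for `M`.
 (1) inertia: `σ ∈ D`, `i` with `A.valuation (σ z - φ^i z) < 1` for `z ∈ M ∩ A`. Put `t := φ^(-i) σ ∈ D`: `A.valuation (t z - z) < 1` for `z ∈ M ∩ A` (LS.stab for `φ^i`). Then `t` fixes every `Q ∈ Z`: `Q` and `t Q` are killed by a power of `l`; if `Q = (a, b)` with `a, b ∈ A` then `t Q - Q ∈ E₁` (inE1_sub; `a, b ∈ M`) is killed by a power of `l`, so it is zero (InE1.eq_zero). If `Q ∈ E₁` then `Q = 0`. (Points killed by `l^n` with `x ∉ A` are zero by InE1.eq_zero; `b ∈ A` by y_mem.) And `t r = r`: `A.valuation r = 1` (`r^l = x`), `t r / r` is an `l`-th root of unity `ξ` with `A.valuation (ξ - 1) < 1`; as `A.valuation l = 1` this gives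 `ξ = 1` (if `ξ ≠ 1` then `1 + ξ + ... + ξ^(l-1) = 0` but it is congruent to `l`).
   So `σ Q = φ^i Q` for `Q ∈ Z` and `σ r = φ^i r`.
 (2) fin_lang with `φ` acting on the points (act (inv_bc F W) φ) and `K`: hφ: points of `K` are fixed by `D`; hker: `l • Q ∈ K`, `φ Q = Q` implies `σ Q = φ^i Q = Q` for all `σ ∈ D` and `Q` is killed by a power of `l`, so `Q ∈ K`. It gives `Q ∈ Z` with `φ Q - Q = tp W T`.
 (3) `φ r = z^b r` (kum_a), `z` the image of `ζ`. `P := b • Q`: `φ^i P - P = (i b) • tp W T` (induction, `φ` fixes `tp W T`), `φ^i r = z^(i b) r`. For `σ ∈ D` with `σ r = z^a r`: `z^a = z^(i b)`, `a ≡ i b` modulo `l`, `σ P - P = φ^i P - P = (i b) • tp = a • tp` (`l • tp = 0`). (`σ P = b • σ Q`.)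
-/

/-!
Row Gd: units satisfy the local condition at good places not above `l`.

PROOF. `E := W.baseChange (AlgebraicClosure F)`, `Integral A E`, `A.valuation E.Δ = 1`, `A.valuation (l : _) = 1` from hg.
 `K` := the AddSubgroup of the points fixed by `D` and killed by a power of `l` (finite by fixed_fin); the set `Z` of the `Q` with `l • Q ∈ K` is finite. `M` := a finite normal extension of `F` in the closure containing the coordinates of the points of `Z` and `r`, `r ^ l = x`. `φ ∈ D` from LS.cyc for `M`.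
 (1) For `σ ∈ D` there is `i` such that `t := φ^(-i) σ` satisfies `A.valuation (t z - z) < 1` for `z ∈ M ∩ A`; so `t` fixes every `Q ∈ Z` (Gd_fix) and `t r = r` (Gd_root_one).
 (2) fin_lang gives `Q ∈ Z` with `φ Q - Q = tp W T`.
 (3) `φ r = z^b r`, `P := b • Q`.
-/

set_option autoImplicit false
open scoped Classical

open WeierstrassCurve IsDedekindDomain NumberField Pool.Agent.H10 Pool.Agent.H11 H78D

namespace H86G

theorem Gd_root_one {L : Type*} [Field L] (A : ValuationSubring L) (n : ℕ)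
    (hn : A.valuation (n : L) = 1) (ξ : L) (hξ : ξ ^ n = 1) (h : A.valuation (ξ - 1) < 1) :
    ξ = 1 := by
  by_contra hne
  have h1 : ∑ i ∈ Finset.range n, ξ ^ i = 0 := by
    have := mul_geom_sum ξ n
    rw [hξ, sub_self] at this
    exact (mul_eq_zero.mp this).resolve_left (sub_ne_zero.mpr hne)
  have hξA : ξ ∈ A := by
    have := add_mem (nu_mem A h) (one_mem A)
    rwa [sub_add_cancel] at this
  have h2 : ∀ i, A.valuation (ξ ^ i - 1) < 1 := by
    intro i
    rw [← mul_geom_sum, mul_comm]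
    exact nu_mul A (sum_mem fun j _ => pow_mem hξA j) h
  have h3 : A.valuation (∑ i ∈ Finset.range n, (ξ ^ i - 1)) < 1 :=
    A.valuation.map_sum_lt one_ne_zero fun i _ ↦ h2 i
  rw [Finset.sum_sub_distrib, h1, zero_sub, Valuation.map_neg] at h3
  simp at h3
  rw [hn] at h3
  exact lt_irrefl _ h3

theorem Gd_fix {L : Type*} [Field L] {A : ValuationSubring L} {E : WeierstrassCurve L}
    [E.IsElliptic] (hI : Integral A E) (hΔ : A.valuation E.Δ = 1) (t : L →+* L)
    (hE : E.map t = E) (Q : E.toAffine.Point) {n : ℕ} (hn : A.valuation (n : L) = 1)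
    (hQ : n • Q = 0) (ht : ∀ z ∈ coordSet Q, z ∈ A → A.valuation (t z - z) < 1) :
    pm t hE Q = Q := by
  have hnQ : n • (pm t hE Q - Q) = 0 := by
    rw [nsmul_sub, ← map_nsmul, hQ, map_zero, sub_zero]
  rcases Q with _ | ⟨x, y, hxy⟩
  · rfl
  · by_cases hx : x ∈ A
    · have hy : y ∈ A := y_mem hI hx hxy.1
      have htx := ht x (show x ∈ ({x, y} : Set L) from Or.inl rfl) hx
      have hty := ht y (show y ∈ ({x, y} : Set L) from Or.inr rfl) hy
      have htxA : t x ∈ A := by
        have := add_mem (nu_mem A htx) hx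
        rwa [sub_add_cancel] at this
      rw [pm_some] at hnQ ⊢
      have h1 := inE1_sub hI hΔ (by
        rw [← hE]; exact (Affine.map_nonsingular E t.injective x y).mpr hxy) hxy htxA hx htx hty
      exact sub_eq_zero.mp (h1.eq_zero hI n hn hnQ)
    · exfalso
      have h1 : InE1 A E (Affine.Point.some x y hxy : E.toAffine.Point) :=
        Or.inr ⟨x, y, hxy, rfl, hx⟩
      exact absurd (h1.eq_zero hI n hn hQ) (Affine.Point.some_ne_zero _)

theorem Gd_act_tp {F : Type} [Field F] [NumberField F] (W : WeierstrassCurve F)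
    (T : W.toAffine.Point) (σ : AlgebraicClosure F ≃ₐ[F] AlgebraicClosure F) :
    act (inv_bc F W) σ (tp W T) = tp W T :=
  (pm_pm _ _ _ _ T).trans (pm_congr _ _ (fun x => σ.commutes x) T)

theorem Gd_pow_pt {F : Type} [Field F] [NumberField F] (W : WeierstrassCurve F)
    (T : W.toAffine.Point) (φ : AlgebraicClosure F ≃ₐ[F] AlgebraicClosure F)
    (Q : (W.baseChange (AlgebraicClosure F)).toAffine.Point)
    (hQ : act (inv_bc F W) φ Q - Q = tp W T) (i : ℕ) :
    act (inv_bc F W) (φ ^ i) Q = Q + i • tp W T := by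
  induction i with
  | zero => rw [pow_zero, Pool.Agent.H10.act_one, zero_nsmul, add_zero]
  | succ i ih =>
    rw [pow_succ', Pool.Agent.H10.act_mul, ih, map_add, map_nsmul, Gd_act_tp, sub_eq_iff_eq_add.mp hQ, succ_nsmul]
    abel

theorem Gd_pow_rt {F : Type} [Field F] [NumberField F] {ζ : F} {r : AlgebraicClosure F} {b : ℕ}
    (φ : AlgebraicClosure F ≃ₐ[F] AlgebraicClosure F)
    (hb : φ r = algebraMap F (AlgebraicClosure F) ζ ^ b * r) (i : ℕ) :
    (φ ^ i) r = algebraMap F (AlgebraicClosure F) ζ ^ (i * b) * r := by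
  induction i with
  | zero => rw [pow_zero, zero_mul, pow_zero, one_mul]; rfl
  | succ i ih =>
    rw [pow_succ', AlgEquiv.mul_apply, ih, map_mul, map_pow, φ.commutes, hb]
    ring

theorem Gd_pow_fix {F : Type} [Field F] [NumberField F] (W : WeierstrassCurve F)
    (φ : AlgebraicClosure F ≃ₐ[F] AlgebraicClosure F)
    (Q : (W.baseChange (AlgebraicClosure F)).toAffine.Point)
    (hQ : act (inv_bc F W) φ Q = Q) (i : ℕ) :
    act (inv_bc F W) (φ ^ i) Q = Q := by
  induction i with
  | zero => rw [pow_zero, Pool.Agent.H10.act_one]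
  | succ i ih => rw [pow_succ', Pool.Agent.H10.act_mul, ih, hQ]

/-- the points fixed by `D` and killed by a power of `l`. -/
def Gd_K {F : Type} [Field F] [NumberField F] (l : ℕ) (W : WeierstrassCurve F)
    (D : Subgroup (AlgebraicClosure F ≃ₐ[F] AlgebraicClosure F)) :
    AddSubgroup (W.baseChange (AlgebraicClosure F)).toAffine.Point where
  carrier := {P | (∀ σ ∈ D, act (inv_bc F W) σ P = P) ∧ ∃ n : ℕ, l ^ n • P = 0}
  zero_mem' := ⟨fun σ _ => map_zero _, 0, by rw [nsmul_zero]⟩
  add_mem' := by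
    rintro P Q ⟨h1, n, hn⟩ ⟨h2, m, hm⟩
    refine ⟨fun σ hσ => by rw [map_add, h1 σ hσ, h2 σ hσ], n + m, ?_⟩
    rw [nsmul_add, pow_add, mul_nsmul, hn, nsmul_zero, mul_comm, mul_nsmul, hm, nsmul_zero,
      add_zero]
  neg_mem' := by
    rintro P ⟨h1, n, hn⟩
    refine ⟨fun σ hσ => by rw [map_neg, h1 σ hσ], n, ?_⟩
    have e : l ^ n • P + l ^ n • (-P) = 0 := by
      rw [← nsmul_add, add_neg_cancel, nsmul_zero]
    rw [hn, zero_add] at e
    exact e

theorem Gd_mem {F : Type} [Field F] [NumberField F] {l : ℕ} {W : WeierstrassCurve F}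
    {D : Subgroup (AlgebraicClosure F ≃ₐ[F] AlgebraicClosure F)}
    {P : (W.baseChange (AlgebraicClosure F)).toAffine.Point} :
    P ∈ Gd_K l W D ↔ (∀ σ ∈ D, act (inv_bc F W) σ P = P) ∧ ∃ n : ℕ, l ^ n • P = 0 := Iff.rfl

theorem dx_good {F : Type} [Field F] [NumberField F] {w : HeightOneSpectrum (𝓞 F)}
    {A : ValuationSubring (AlgebraicClosure F)}
    {D : Subgroup (AlgebraicClosure F ≃ₐ[F] AlgebraicClosure F)} (h : LS w A D)
    {W : WeierstrassCurve F} [W.IsElliptic] {l : ℕ} (hl : l.Prime) {ζ : F}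
    (hζ : IsPrimitiveRoot ζ l) {T : W.toAffine.Point} (hTl : l • tp W T = 0)
    (hg : GoodVal (w.valuation F) W l) {x : F} (hx : w.valuation F x = 1) :
    DX l W T ζ D x := by
  obtain ⟨g1, g2, g3, g4, g6, gΔ, gl⟩ := id hg
  have hI : Integral A (W.baseChange (AlgebraicClosure F)) :=
    ⟨(h.ovr _).2 g1, (h.ovr _).2 g2, (h.ovr _).2 g3, (h.ovr _).2 g4, (h.ovr _).2 g6⟩
  have hΔ : A.valuation (W.baseChange (AlgebraicClosure F)).Δ = 1 := by
    rw [WeierstrassCurve.baseChange, WeierstrassCurve.map_Δ]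
    exact (h.val_one _).2 gΔ
  have hlA : A.valuation ((l : ℕ) : AlgebraicClosure F) = 1 := by
    have := (h.val_one (l : F)).2 gl
    rwa [map_natCast] at this
  have hlnA : ∀ n : ℕ, A.valuation ((l ^ n : ℕ) : AlgebraicClosure F) = 1 := by
    intro n
    rw [Nat.cast_pow, map_pow, hlA, one_pow]
  have hx0 : x ≠ 0 := by
    rintro rfl
    rw [map_zero] at hx
    exact zero_ne_one hx
  obtain ⟨r, hr⟩ := IsAlgClosed.exists_pow_nat_eq (algebraMap F (AlgebraicClosure F) x) hl.pos
  have hr0 : r ≠ 0 := by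
    rintro rfl
    rw [zero_pow hl.ne_zero] at hr
    exact hx0 ((map_eq_zero_iff _ (algebraMap F (AlgebraicClosure F)).injective).mp hr.symm)
  have hrv : A.valuation r = 1 := by
    have h1 : A.valuation r ^ l = 1 := by
      rw [← map_pow, hr]
      exact (h.val_one x).2 hx
    exact (pow_eq_one_iff.mp h1).resolve_right hl.ne_zero
  have hrA : r ∈ A := (A.valuation_le_one_iff r).mp hrv.le
  set K := Gd_K l W D with hK
  have hKfin : Finite K := (fixed_fin h hg).to_subtype
  have hKset : (K : Set (W.baseChange (AlgebraicClosure F)).toAffine.Point).Finite :=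
    fixed_fin h hg
  have hZ : {Q : (W.baseChange (AlgebraicClosure F)).toAffine.Point | l • Q ∈ K}.Finite := by
    have h1 := hKset.preimage' (f := fun Q : (W.baseChange (AlgebraicClosure F)).toAffine.Point =>
      l • Q) (by
        intro R _
        by_cases hR : ∃ Q₀ : (W.baseChange (AlgebraicClosure F)).toAffine.Point, l • Q₀ = R
        · obtain ⟨Q₀, hQ₀⟩ := hR
          refine ((finite_torsion (W.baseChange (AlgebraicClosure F)) l hl.ne_zero).image
            (fun P => P + Q₀)).subset ?_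
          intro Q hQ
          have hQ' : l • Q = R := hQ
          refine ⟨Q - Q₀, ?_, sub_add_cancel _ _⟩
          show l • (Q - Q₀) = 0
          rw [nsmul_sub, hQ', hQ₀, sub_self]
        · refine Set.finite_empty.subset ?_
          intro Q hQ
          exact hR ⟨Q, hQ⟩)
    exact h1
  set S : Set (AlgebraicClosure F) :=
    (⋃ Q ∈ {Q : (W.baseChange (AlgebraicClosure F)).toAffine.Point | l • Q ∈ K}, coordSet Q) ∪ {r}
    with hS
  have hSfin : S.Finite := (hZ.biUnion fun Q _ => coordSet_finite Q).union (Set.finite_singleton r)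
  have hSf : Finite S := hSfin.to_subtype
  let F₀ : IntermediateField F (AlgebraicClosure F) := IntermediateField.adjoin F S
  have hF₀ : FiniteDimensional F F₀ :=
    IntermediateField.finiteDimensional_adjoin fun x _ ↦ Algebra.IsIntegral.isIntegral x
  let M : IntermediateField F (AlgebraicClosure F) :=
    IntermediateField.normalClosure F F₀ (AlgebraicClosure F)
  have hMle : F₀ ≤ M := IntermediateField.le_normalClosure F₀
  have hMfin : FiniteDimensional F M := normalClosure.is_finiteDimensional F F₀ (AlgebraicClosure F)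
  have hMn : Normal F M := normalClosure.normal F F₀ (AlgebraicClosure F)
  have hrM : r ∈ M := hMle (IntermediateField.subset_adjoin F S (Or.inr rfl))
  have hQM : ∀ Q : (W.baseChange (AlgebraicClosure F)).toAffine.Point, l • Q ∈ K →
      ∀ z ∈ coordSet Q, z ∈ M := by
    intro Q hQ z hz
    refine hMle (IntermediateField.subset_adjoin F S (Or.inl ?_))
    exact Set.mem_biUnion (show Q ∈ {Q | l • Q ∈ K} from hQ) hz
  obtain ⟨φ, hφD, hφ⟩ := h.cyc M
  -- inertia
  have key : ∀ σ ∈ D, ∃ i : ℕ, σ r = (φ ^ i) r ∧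
      ∀ Q : (W.baseChange (AlgebraicClosure F)).toAffine.Point, l • Q ∈ K →
        act (inv_bc F W) σ Q = act (inv_bc F W) (φ ^ i) Q := by
    intro σ hσ
    obtain ⟨i, hi⟩ := hφ σ hσ
    have hφi : φ ^ i ∈ D := pow_mem hφD i
    set t := (φ ^ i)⁻¹ * σ with ht
    have htv : ∀ z ∈ M, z ∈ A → A.valuation (t z - z) < 1 := by
      intro z hz hzA
      have h1 : (φ ^ i) (t z - z) = σ z - (φ ^ i) z := by
        rw [map_sub]
        congr 1
        exact (φ ^ i).apply_symm_apply (σ z)
      rw [← h.stab (φ ^ i) hφi, h1]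
      exact hi z hz hzA
    have hσt : σ = φ ^ i * t := by rw [ht, mul_inv_cancel_left]
    refine ⟨i, ?_, ?_⟩
    · have h1 : (t r / r) ^ l = 1 := by
        rw [div_pow, ← map_pow, hr, t.commutes, div_self]
        rw [← hr]
        exact pow_ne_zero _ hr0
      have h2 : A.valuation (t r / r - 1) < 1 := by
        have h3 : t r / r - 1 = (t r - r) / r := by
          rw [sub_div, div_self hr0]
        rw [h3, map_div₀, hrv, div_one]
        exact htv r hrM hrA
      have h3 := Gd_root_one A l hlA _ h1 h2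
      have h4 : t r = r := by
        rw [div_eq_one_iff_eq hr0] at h3
        exact h3
      rw [hσt, AlgEquiv.mul_apply, h4]
    · intro Q hQ
      obtain ⟨-, n, hn⟩ := Gd_mem.1 hQ
      have hnQ : l ^ (n + 1) • Q = 0 := by
        rw [pow_succ', mul_nsmul, hn]
      have h1 : act (inv_bc F W) t Q = Q :=
        Gd_fix hI hΔ _ _ Q (hlnA (n + 1)) hnQ (fun z hz hzA => htv z (hQM Q hQ z hz) hzA)
      rw [hσt, Pool.Agent.H10.act_mul, h1]
  have hdiv : ∀ R ∈ K, ∃ Q, l • Q = R := fun R _ =>
    smul_surjective (W.baseChange (AlgebraicClosure F)) l hl.ne_zero R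
  have hfin : {T : (W.baseChange (AlgebraicClosure F)).toAffine.Point | l • T = 0}.Finite :=
    finite_torsion (W.baseChange (AlgebraicClosure F)) l hl.ne_zero
  have hφK : ∀ R ∈ K, act (inv_bc F W) φ R = R := fun R hR => (Gd_mem.1 hR).1 φ hφD
  have hker : ∀ Q, l • Q ∈ K → act (inv_bc F W) φ Q = Q → Q ∈ K := by
    intro Q hQ hfix
    refine Gd_mem.2 ⟨fun σ hσ => ?_, ?_⟩
    · obtain ⟨i, -, hi⟩ := key σ hσ
      rw [hi Q hQ, Gd_pow_fix W φ Q hfix i]
    · obtain ⟨-, n, hn⟩ := Gd_mem.1 hQ
      exact ⟨n + 1, by rw [pow_succ', mul_nsmul, hn]⟩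
  obtain ⟨Q, hQK, hQ⟩ := fin_lang l (act (inv_bc F W) φ) K hdiv hfin hφK hker (tp W T) hTl
  obtain ⟨b, hb⟩ := kum_a hl.ne_zero hζ hx0 hr φ
  refine ⟨r, b • Q, hr, fun σ hσ a ha => ?_⟩
  obtain ⟨i, hi1, hi2⟩ := key σ hσ
  have hz : IsPrimitiveRoot (algebraMap F (AlgebraicClosure F) ζ) l :=
    hζ.map_of_injective (algebraMap F (AlgebraicClosure F)).injective
  have h1 : algebraMap F (AlgebraicClosure F) ζ ^ a =
      algebraMap F (AlgebraicClosure F) ζ ^ (i * b) := by
    apply mul_right_cancel₀ hr0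
    rw [← ha, hi1, Gd_pow_rt φ hb i]
  have h2 : a ≡ i * b [MOD l] := by
    have e1 := Gx_pow_congr hz (Nat.mod_modEq a l)
    have e2 := Gx_pow_congr hz (Nat.mod_modEq (i * b) l)
    exact hz.pow_inj (Nat.mod_lt _ hl.pos) (Nat.mod_lt _ hl.pos) (by rw [e1, e2, h1])
  have h3 : a • tp W T = (i * b) • tp W T := by
    rw [nsmul_eq_nsmul_iff_modEq]
    exact h2.of_dvd (addOrderOf_dvd_of_nsmul_eq_zero hTl)
  rw [h3, map_nsmul, hi2 Q hQK, Gd_pow_pt W T φ Q hQ i, nsmul_add, add_sub_cancel_left,
    mul_nsmul]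

end H86G
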