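import Pool.Agent.H86.T4G.Df
import Pool.Agent.H10.Place
import Pool.Agent.H10.Semi

/-!
Row La (about 180 lines): existence of the valuation subring attached to an embedding in the closure of the completion.

PROOF. `K := w.adicCompletion F`, `Ω := AlgebraicClosure K`. `K` is a complete nonarchimedean nontrivially normed field, the norm being compatible with `Valued.v` (see the instances used in Pool/Agent/H10/Place.lean, exists_place, and H11/LocFin.lean; `Valued.toNormedField.norm_le_one_iff` or similar, `‖x‖ ≤ ‖y‖ ↔ Valued.v x ≤ Valued.v y`). The spectral norm on `Ω` (Mathlib/Analysis/Normed/Unbundled/SpectralNorm.lean: spectralNorm_mul, spectralNorm_extends, isNonarchimedean_spectralNorm, spectralNorm_eq_of_equiv, spectralNorm_zero_lt, spectralNorm.normedField) is multiplicative, nonarchimedean, extends the norm of `K`, is invariant under `Ω ≃ₐ[K] Ω`.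
 `A` := the ValuationSubring of `AlgebraicClosure F` with elements `x` with `spectralNorm K Ω (ι x) ≤ 1` (ValuationSubring.mk: subring closed under sums by nonarchimedean, `x ∈ A` or `x⁻¹ ∈ A` because `N (x⁻¹) = (N x)⁻¹`).
 Lemma: `A.valuation x ≤ A.valuation y ↔ N (ι x) ≤ N (ι y)` (for `y ≠ 0`: both say `x / y ∈ A`), and the same with `<`.
 ovr: `x : F`: `N (ι (algebraMap x)) = ‖(x : K)‖ ≤ 1` iff `Valued.v (x : K) ≤ 1` iff `w.valuation F x ≤ 1` (HeightOneSpectrum.valuedAdicCompletion_eq_valuation').
 stab: `σ ∈ Dg w ι` with `τ`: `N (ι (σ x)) = N (τ (ι x)) = N (ι x)`, so `A.valuation (σ x) = A.valuation x` (antisymmetry in the lemma).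
 dense: `y` fixed by `Dg w ι`. Then `τ (ι y) = ι y` for every `τ : Ω ≃ₐ[K] Ω`: `τ ∘ ι` and `ι` agree on `F`, so there is `σ` with `τ (ι x) = ι (σ x)` (Pool.Agent.H10.exists_aut), `σ ∈ Dg w ι`, `σ y = y`. So `ι y` is in (the image of) `K` (`Ω / K` Galois in characteristic zero: InfiniteGalois.mem_bot_iff_fixed, as in H78D.mem_F): `ι y = algebraMap t`, `t : K`. `F` is dense in `K` (exists_close in H10/Semi.lean: `z : F` with `Valued.v (z - t) < exp n` for any `n`). For `c ≠ 0`: `N (ι c) > 0`; choose `n` so that `Valued.v s < exp n` implies `‖s‖ < N (ι c)` (powers of a uniformizer tend to zero: pick `π ∈ K` with `0 < ‖π‖ < 1`, `‖π^m‖ < N (ι c)`, and `exp n ≤ Valued.v (π^m)`). Then `N (ι (y - z)) = ‖t - z‖ < N (ι c)`.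
-/

set_option autoImplicit false
set_option linter.style.haveILetI false
open scoped Classical

open WithZero WeierstrassCurve IsDedekindDomain NumberField Pool.Agent.H10 Pool.Agent.H11 H78D
open scoped Valued

namespace H86G

section

variable {k Ω : Type*} [Field k] [NormedField Ω] [IsUltrametricDist Ω]

/-- the valuation subring of `k` of the elements of norm at most one in `Ω` -/
noncomputable def La_A (ι : k →+* Ω) : ValuationSubring k :=
  (NormedField.valuation (K := Ω)).valuationSubring.comap ι

theorem La_mem (ι : k →+* Ω) (x : k) : x ∈ La_A ι ↔ ‖ι x‖ ≤ 1 := Iff.rfl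

theorem La_le (ι : k →+* Ω) (x y : k) :
    (La_A ι).valuation x ≤ (La_A ι).valuation y ↔ ‖ι x‖ ≤ ‖ι y‖ := by
  by_cases hy : y = 0
  · subst hy
    rw [map_zero, map_zero, norm_zero, le_zero_iff, Valuation.zero_iff, norm_le_zero_iff,
      map_eq_zero]
  · have h1 : (0 : (La_A ι).ValueGroup) < (La_A ι).valuation y :=
      zero_lt_iff.2 ((Valuation.ne_zero_iff _).2 hy)
    have h2 : 0 < ‖ι y‖ := norm_pos_iff.2 (fun h => hy ((map_eq_zero ι).1 h))
    rw [← div_le_one₀ h1, ← map_div₀, ValuationSubring.valuation_le_one_iff, La_mem, map_div₀,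
      norm_div, div_le_one₀ h2]

theorem La_lt (ι : k →+* Ω) (x y : k) :
    (La_A ι).valuation x < (La_A ι).valuation y ↔ ‖ι x‖ < ‖ι y‖ := by
  rw [← not_le, ← not_le, La_le]

end

theorem exists_LS {F : Type} [Field F] [NumberField F] (w : HeightOneSpectrum (𝓞 F))
    (ι : AlgebraicClosure F →ₐ[F] AlgebraicClosure (w.adicCompletion F)) :
    ∃ A : ValuationSubring (AlgebraicClosure F), LS w A (Dg w ι) := by
  letI nF : NormedField (AlgebraicClosure (w.adicCompletion F)) :=
    spectralNorm.normedField (w.adicCompletion F) (AlgebraicClosure (w.adicCompletion F))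
  haveI : IsUltrametricDist (AlgebraicClosure (w.adicCompletion F)) :=
    IsUltrametricDist.isUltrametricDist_of_isNonarchimedean_norm isNonarchimedean_spectralNorm
  have hext : ∀ a : w.adicCompletion F,
      ‖algebraMap (w.adicCompletion F) (AlgebraicClosure (w.adicCompletion F)) a‖ = ‖a‖ :=
    fun a => spectralNorm_extends a
  have hinv : ∀ (τ : AlgebraicClosure (w.adicCompletion F) ≃ₐ[w.adicCompletion F]
      AlgebraicClosure (w.adicCompletion F)) (x : AlgebraicClosure (w.adicCompletion F)),
      ‖τ x‖ = ‖x‖ := fun τ x => (spectralNorm_eq_of_equiv τ x).symm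
  have hιF : ∀ x : F, (ι : AlgebraicClosure F →+* AlgebraicClosure (w.adicCompletion F))
      (algebraMap F (AlgebraicClosure F) x) =
      algebraMap (w.adicCompletion F) (AlgebraicClosure (w.adicCompletion F))
        (algebraMap F (w.adicCompletion F) x) := by
    intro x
    have h1 : ι (algebraMap F (AlgebraicClosure F) x) =
      algebraMap F (AlgebraicClosure (w.adicCompletion F)) x := ι.commutes x
    exact h1.trans (IsScalarTower.algebraMap_apply F (w.adicCompletion F) _ x)
  refine ⟨La_A (ι : AlgebraicClosure F →+* AlgebraicClosure (w.adicCompletion F)), ?_, ?_, ?_⟩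
  · rintro σ ⟨τ, hτ⟩ x
    have h1 : ‖ι (σ x)‖ = ‖ι x‖ := by rw [← hτ, hinv]
    apply le_antisymm
    · rw [La_le]; exact h1.le
    · rw [La_le]; exact h1.ge
  · intro x
    rw [La_mem, hιF, hext, Valued.toNormedField.norm_le_one_iff, valued_algebraMap]
  · intro y hy c hc
    obtain ⟨t, ht⟩ : ∃ t : w.adicCompletion F, algebraMap (w.adicCompletion F)
        (AlgebraicClosure (w.adicCompletion F)) t = ι y := by
      have hfix : ∀ τ : AlgebraicClosure (w.adicCompletion F) ≃ₐ[w.adicCompletion F]
          AlgebraicClosure (w.adicCompletion F), τ (ι y) = ι y := by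
        intro τ
        obtain ⟨σ, hσ⟩ := exists_aut (K := F) (Ω := AlgebraicClosure F)
          (ι : AlgebraicClosure F →+* AlgebraicClosure (w.adicCompletion F))
          ((τ : AlgebraicClosure (w.adicCompletion F) →+* AlgebraicClosure (w.adicCompletion F)).comp
            (ι : AlgebraicClosure F →+* AlgebraicClosure (w.adicCompletion F)))
          (fun x => by
            change (ι : AlgebraicClosure F →+* AlgebraicClosure (w.adicCompletion F))
              (algebraMap F (AlgebraicClosure F) x) =
              τ ((ι : AlgebraicClosure F →+* AlgebraicClosure (w.adicCompletion F))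
              (algebraMap F (AlgebraicClosure F) x))
            rw [hιF, τ.commutes])
        have hσ2 : ∀ x, τ (ι x) = ι (σ x) := fun x => hσ x
        rw [hσ2, hy σ ⟨τ, hσ2⟩]
      have h1 : ι y ∈ (⊥ : IntermediateField (w.adicCompletion F)
          (AlgebraicClosure (w.adicCompletion F))) :=
        (InfiniteGalois.mem_bot_iff_fixed (k := w.adicCompletion F) (ι y)).2 hfix
      exact IntermediateField.mem_bot.1 h1
    have hc0 : 0 < ‖(ι : AlgebraicClosure F →+* AlgebraicClosure (w.adicCompletion F)) c‖ :=
      norm_pos_iff.2 (fun h => hc ((map_eq_zero _).1 h))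
    obtain ⟨u, hu⟩ := Real.exists_lt_of_strictMono
      (WithZeroMulInt.toNNReal_strictMono (HeightOneSpectrum.one_lt_absNorm_nnreal w)) hc0
    obtain ⟨z, hz⟩ := exists_close w t (log (u : ℤᵐ⁰))
    rw [exp_log u.ne_zero] at hz
    refine ⟨z, ?_⟩
    rw [La_lt]
    refine lt_trans ?_ hu
    have h2 : (ι : AlgebraicClosure F →+* AlgebraicClosure (w.adicCompletion F))
        (y - algebraMap F (AlgebraicClosure F) z) =
        algebraMap (w.adicCompletion F) (AlgebraicClosure (w.adicCompletion F))
          (t - algebraMap F (w.adicCompletion F) z) := by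
      rw [map_sub, map_sub, hιF, ht]
      rfl
    rw [h2, hext, norm_sub_rev, FinitePlace.norm_def]
    exact_mod_cast WithZeroMulInt.toNNReal_strictMono
      (HeightOneSpectrum.one_lt_absNorm_nnreal w) hz

end H86G
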