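import Pool.Agent.H86.T4G.Df

/-!
Row Sh (about 200 lines): classes modulo `l`-th powers at a place where `ζ - 1` is a uniformizer.

`v := w.valuation F`, `q := Ideal.absNorm w.asIdeal = Nat.card (𝓞 F ⧸ w.asIdeal)`, `π := ζ - 1` (`ζ` and `π` are in `𝓞 F`).
PROOF. (1) `v l = exp (-(l-1))`: `l = ∏_{0<k<l} (1 - ζ^k)` and `v (1 - ζ^k) = v (1 - ζ)` (the quotients `1 + ζ + ... ` are integral in both directions; IsPrimitiveRoot lemmas; see also pow_val in Rt.lean for the same proof).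
 (2) `G := (𝓞 F ⧸ w.asIdeal ^ (l + 1))ˣ`, finite. The number of `g ∈ G` with `g^l = 1` is at most `l * q^(l-1)`: such a `g` is the class of `y ∈ 𝓞 F` with `v (y^l - 1) ≤ exp (-(l+1))`; `y^l - 1 = ∏_{i<l} (y - ζ^i)`, so some `i` has `v (y - ζ^i) ≤ exp (-2)` (otherwise every factor has valuation at least `exp (-1)` and the product at least `exp (-l)`), i.e. `y - ζ^i ∈ w.asIdeal^2`. For each `i` the classes modulo `w.asIdeal^(l+1)` of the `y` with `y ≡ ζ^i` modulo `w.asIdeal^2` are `q^(l-1)` in number: the kernel of `𝓞 F ⧸ w^(l+1) → 𝓞 F ⧸ w^2` has `q^(l+1) / q^2` elements (`Nat.card (𝓞 F ⧸ w.asIdeal^n) = q^n`: Ideal.absNorm_apply / Submodule.cardQuot_apply, map_pow; Ideal.Quotient.factor).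
  So the `l`-th powers have index at most `l q^(l-1)` in `G` (index of the range of `g ↦ g^l` equals the cardinality of the kernel).
 (3) Every `x : F` with `v x = 1` has `c ∈ 𝓞 F` with `v (x - c) ≤ exp (-(l+1))` (`x = a / b`, `b ∉ w.asIdeal` for suitable `a, b ∈ 𝓞 F`; `b` is invertible modulo `w^(l+1)`; approximation: see exists_close in H10/Semi.lean or the lemma HeightOneSpectrum exists_adicValued_mul_sub_le / valuation lemmas), `v c = 1`. So two units at `w` whose classes in `G` differ by an `l`-th power satisfy `x / x' = z^l X` with `v (X - 1) ≤ exp (-(l+1)) < exp (-l) = v (l (ζ - 1))`.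
 (4) Pigeonhole: `u i ↦ (n modulo l, class)` where `v (u i) = exp n`. There are more than `l * (l q^(l-1))` indices. First among the `u i` more than `l q^(l-1)` have the same `n` modulo `l`; dividing by a fixed one of them, `u₀`, `u i / u₀ = π^(l m) x_i` with `v (x_i) = 1` (zpow), then (2), (3).
-/

set_option autoImplicit false
open scoped Classical

open WithZero IsDedekindDomain NumberField

namespace H86G

private theorem Sh_root_one {Ω Γ : Type*} [Field Ω] [LinearOrderedCommGroupWithZero Γ]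
    (v : Valuation Ω Γ) {z : Ω} {l : ℕ} (hl : l ≠ 0) (hz : z ^ l = 1) : v z = 1 := by
  have h1 : v z ^ l = 1 := by rw [← map_pow, hz, map_one]
  exact (pow_eq_one_iff.1 h1).resolve_right hl

private theorem Sh_pow_sub {Ω Γ : Type*} [Field Ω] [LinearOrderedCommGroupWithZero Γ]
    (v : Valuation Ω Γ) {y : Ω} (hy : v y ≤ 1) (m : ℕ) :
    v (y ^ m - 1) ≤ v (y - 1) := by
  rw [← geom_sum_mul, map_mul]
  have h1 : v (∑ i ∈ Finset.range m, y ^ i) ≤ 1 := by
    refine Valuation.map_sum_le v fun i _ => ?_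
    rw [map_pow]
    exact pow_le_one' hy i
  calc _ ≤ 1 * v (y - 1) := mul_le_mul_left h1 _
    _ = _ := one_mul _

private theorem Sh_cyc_val {Ω Γ : Type*} [Field Ω] [LinearOrderedCommGroupWithZero Γ]
    (v : Valuation Ω Γ) {z : Ω} {l : ℕ} (hl : l.Prime)
    (hz : IsPrimitiveRoot z l) {k : ℕ} (hk : ¬ l ∣ k) :
    v (z ^ k - 1) = v (z - 1) := by
  have hzA : v z ≤ 1 := (Sh_root_one v hl.ne_zero hz.pow_eq_one).le
  apply le_antisymm (Sh_pow_sub v hzA k)
  have hc : Nat.Coprime k l := ((Nat.Prime.coprime_iff_not_dvd hl).2 hk).symm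
  obtain ⟨m, -, hm⟩ := Nat.exists_mul_mod_eq_one_of_coprime hc hl.one_lt
  have h1 : (z ^ k) ^ m = z := by
    rw [← pow_mul, pow_eq_pow_mod (k * m) hz.pow_eq_one, hm, pow_one]
  have h2 : v (z ^ k) ≤ 1 := by rw [map_pow]; exact pow_le_one' hzA k
  calc v (z - 1) = v ((z ^ k) ^ m - 1) := by rw [h1]
    _ ≤ _ := Sh_pow_sub v h2 m

private theorem Sh_pow_val {Ω Γ : Type*} [Field Ω] [LinearOrderedCommGroupWithZero Γ]
    (v : Valuation Ω Γ) {z : Ω} {l : ℕ} (hl : l.Prime)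
    (hz : IsPrimitiveRoot z l) : v (l : Ω) = v (z - 1) ^ (l - 1) := by
  obtain ⟨n, rfl⟩ : ∃ n, l = n + 1 := ⟨l - 1, by have := hl.pos; omega⟩
  have h1 := hz.prod_one_sub_pow_eq_order
  have h2 : (((n + 1 : ℕ)) : Ω) = ∏ k ∈ Finset.range n, (1 - z ^ (k + 1)) := by
    rw [h1]; push_cast; ring
  rw [h2, map_prod, Nat.add_sub_cancel]
  rw [Finset.prod_congr rfl (g := fun _ => v (z - 1)), Finset.prod_const,
    Finset.card_range]
  intro k hk
  rw [Finset.mem_range] at hk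
  rw [Valuation.map_sub_swap]
  exact Sh_cyc_val v hl hz (fun hd => by have := Nat.le_of_dvd (Nat.succ_pos _) hd; omega)

private theorem Sh_near {F : Type} [Field F] [NumberField F] (w : HeightOneSpectrum (𝓞 F))
    {l : ℕ} (hl : l.Prime) {ζ : 𝓞 F} (hζ : IsPrimitiveRoot ζ l) (y : 𝓞 F)
    (hy : y ^ l - 1 ∈ w.asIdeal ^ (l + 1)) :
    ∃ μ ∈ Polynomial.nthRootsFinset l (1 : 𝓞 F), y - μ ∈ w.asIdeal ^ 2 := by
  by_contra hcon
  push Not at hcon
  have hprod : ∏ μ ∈ Polynomial.nthRootsFinset l (1 : 𝓞 F), (y - μ) = y ^ l - 1 := by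
    have := hζ.pow_sub_pow_eq_prod_sub_mul y 1 hl.pos
    rw [one_pow] at this
    rw [this]
    exact Finset.prod_congr rfl fun μ _ => by rw [mul_one]
  rw [← hprod, ← HeightOneSpectrum.intValuation_le_pow_iff_mem, map_prod] at hy
  have h1 : ∀ μ ∈ Polynomial.nthRootsFinset l (1 : 𝓞 F),
      exp (-1 : ℤ) ≤ w.intValuation (y - μ) := by
    intro μ hμ
    have h2 := hcon μ hμ
    rw [← HeightOneSpectrum.intValuation_le_pow_iff_mem, not_le] at h2
    have h3 : w.intValuation (y - μ) ≠ 0 := by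
      intro h0
      rw [h0] at h2
      exact not_lt_zero h2
    rw [← exp_log h3] at h2 ⊢
    rw [exp_lt_exp] at h2
    rw [exp_le_exp]
    push_cast at h2
    omega
  have h4 : exp (-1 : ℤ) ^ l ≤ ∏ μ ∈ Polynomial.nthRootsFinset l (1 : 𝓞 F),
      w.intValuation (y - μ) := by
    have h6 := Finset.prod_le_prod' h1
    rwa [Finset.prod_const, hζ.card_nthRootsFinset] at h6
  have h5 := h4.trans hy
  rw [← exp_nsmul, exp_le_exp, nsmul_eq_mul] at h5
  push_cast at h5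
  omega

private theorem Sh_fin {F : Type} [Field F] [NumberField F] (w : HeightOneSpectrum (𝓞 F))
    (n : ℕ) : Finite (𝓞 F ⧸ w.asIdeal ^ n) :=
  Ideal.finiteQuotientOfFreeOfNeBot _ (pow_ne_zero _ w.ne_bot)

private theorem Sh_cardq {F : Type} [Field F] [NumberField F] (w : HeightOneSpectrum (𝓞 F))
    (n : ℕ) : Nat.card (𝓞 F ⧸ w.asIdeal ^ n) = Ideal.absNorm w.asIdeal ^ n := by
  rw [← map_pow, Ideal.absNorm_apply, Submodule.cardQuot_apply]

private theorem Sh_kernel {F : Type} [Field F] [NumberField F] (w : HeightOneSpectrum (𝓞 F))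
    {l : ℕ} (hl : l.Prime) {ζ : 𝓞 F} (hζ : IsPrimitiveRoot ζ l) :
    Nat.card (powMonoidHom l : (𝓞 F ⧸ w.asIdeal ^ (l + 1))ˣ →* _).ker
      ≤ l * Ideal.absNorm w.asIdeal ^ (l - 1) := by
  have hle : w.asIdeal ^ (l + 1) ≤ w.asIdeal ^ 2 :=
    Ideal.pow_le_pow_right (by have := hl.two_le; omega)
  have := Sh_fin w (l + 1)
  have := Sh_fin w 2
  set f : (𝓞 F ⧸ w.asIdeal ^ (l + 1)) →+* (𝓞 F ⧸ w.asIdeal ^ 2) :=
    Ideal.Quotient.factor hle with hf
  have hqpos : 0 < Ideal.absNorm w.asIdeal := by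
    rw [Nat.pos_iff_ne_zero, Ne, Ideal.absNorm_eq_zero_iff]
    exact w.ne_bot
  have hcard : Nat.card f.toAddMonoidHom.ker = Ideal.absNorm w.asIdeal ^ (l - 1) := by
    have h1 := AddSubgroup.card_mul_index f.toAddMonoidHom.ker
    rw [AddSubgroup.index_ker, Sh_cardq] at h1
    have h2 : Nat.card f.toAddMonoidHom.range = Ideal.absNorm w.asIdeal ^ 2 := by
      have h3 : f.toAddMonoidHom.range = ⊤ :=
        AddMonoidHom.range_eq_top.mpr (Ideal.Quotient.factor_surjective hle)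
      rw [h3, AddSubgroup.card_top, Sh_cardq]
    rw [h2] at h1
    have h3 : Ideal.absNorm w.asIdeal ^ (l + 1) =
        Ideal.absNorm w.asIdeal ^ (l - 1) * Ideal.absNorm w.asIdeal ^ 2 := by
      rw [← pow_add]
      congr 1
      have := hl.pos
      omega
    rw [h3] at h1
    exact Nat.eq_of_mul_eq_mul_right (pow_pos hqpos 2) h1
  have key : ∀ g : (powMonoidHom l : (𝓞 F ⧸ w.asIdeal ^ (l + 1))ˣ →* _).ker,
      ∃ μ : Polynomial.nthRootsFinset l (1 : 𝓞 F),
      f (((g : (𝓞 F ⧸ w.asIdeal ^ (l + 1))ˣ) : 𝓞 F ⧸ w.asIdeal ^ (l + 1))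
        - Ideal.Quotient.mk _ (μ : 𝓞 F)) = 0 := by
    rintro ⟨g, hg⟩
    obtain ⟨y, hy⟩ := Ideal.Quotient.mk_surjective (g : 𝓞 F ⧸ w.asIdeal ^ (l + 1))
    have hg1 : (g : 𝓞 F ⧸ w.asIdeal ^ (l + 1)) ^ l = 1 := by
      have : g ^ l = 1 := hg
      rw [← Units.val_pow_eq_pow_val, this, Units.val_one]
    have hy1 : y ^ l - 1 ∈ w.asIdeal ^ (l + 1) := by
      rw [← Ideal.Quotient.eq_zero_iff_mem, map_sub, map_pow, map_one, hy, hg1, sub_self]
    obtain ⟨μ, hμ, hyμ⟩ := Sh_near w hl hζ y hy1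
    refine ⟨⟨μ, hμ⟩, ?_⟩
    show f ((g : 𝓞 F ⧸ w.asIdeal ^ (l + 1)) - Ideal.Quotient.mk _ μ) = 0
    rw [← hy, ← map_sub, hf, Ideal.Quotient.factor_mk, Ideal.Quotient.eq_zero_iff_mem]
    exact hyμ
  choose μ hμ using key
  let Φ : (powMonoidHom l : (𝓞 F ⧸ w.asIdeal ^ (l + 1))ˣ →* _).ker →
      (Polynomial.nthRootsFinset l (1 : 𝓞 F)) × f.toAddMonoidHom.ker :=
    fun g => (μ g, ⟨_, hμ g⟩)
  have hΦ : Function.Injective Φ := by
    intro g g' h
    have h1 : μ g = μ g' := congrArg Prod.fst h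
    have h2 := congrArg (fun x => ((x.2 : f.toAddMonoidHom.ker) : 𝓞 F ⧸ w.asIdeal ^ (l + 1))) h
    simp only [Φ, h1] at h2
    have h3 := sub_left_injective h2
    exact Subtype.ext (Units.ext h3)
  have h4 := Nat.card_le_card_of_injective Φ hΦ
  have h5 : Nat.card (Polynomial.nthRootsFinset l (1 : 𝓞 F)) = l := by
    rw [Nat.card_eq_fintype_card, Fintype.card_coe, hζ.card_nthRootsFinset]
  rw [Nat.card_prod, hcard, h5] at h4
  exact h4

theorem class_pigeon {F : Type} [Field F] [NumberField F] (w : HeightOneSpectrum (𝓞 F)) {l : ℕ}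
    (hl : l.Prime) {ζ : F} (hζ : IsPrimitiveRoot ζ l)
    (hlam : w.valuation F (ζ - 1) = exp (-1 : ℤ))
    (u : Fin (l ^ 2 * Ideal.absNorm w.asIdeal ^ (l - 1) + 1) → F) (hu : ∀ i, u i ≠ 0) :
    ∃ i j, i ≠ j ∧ ∃ z X : F, z ≠ 0 ∧ u i / u j = z ^ l * X ∧
      w.valuation F (X - 1) < w.valuation F ((l : F) * (ζ - 1)) := by
  classical
  have := Sh_fin w (l + 1)
  have hlpos := hl.pos
  have : NeZero l := ⟨hl.ne_zero⟩
  set v := w.valuation F with hv
  set π : F := ζ - 1 with hπ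
  have hπ0 : π ≠ 0 := by
    intro h0
    rw [h0, map_zero] at hlam
    exact exp_ne_zero hlam.symm
  have hlv : v ((l : F) * π) = exp (-(l : ℤ)) := by
    rw [map_mul, Sh_pow_val v hl hζ, hlam, ← pow_succ, Nat.sub_add_cancel hl.one_le,
      ← exp_nsmul]
    congr 1
    simp
  set ζO : 𝓞 F := hζ.toInteger with hζO
  have hζO' : IsPrimitiveRoot ζO l := hζ.toInteger_isPrimitiveRoot
  set R1 := 𝓞 F ⧸ w.asIdeal ^ (l + 1) with hR1
  set N : Subgroup R1ˣ := (powMonoidHom l : R1ˣ →* R1ˣ).range with hN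
  have hNcard : Nat.card (R1ˣ ⧸ N) ≤ l * Ideal.absNorm w.asIdeal ^ (l - 1) := by
    have h1 : N.index = Nat.card (powMonoidHom l : R1ˣ →* R1ˣ).ker := Subgroup.index_range
    have h2 : Nat.card (R1ˣ ⧸ N) = N.index := rfl
    rw [h2, h1]
    exact Sh_kernel w hl hζO'
  -- valuations of algebraMap
  have hvO : ∀ r : 𝓞 F, v (algebraMap (𝓞 F) F r) = w.intValuation r := fun r =>
    HeightOneSpectrum.valuation_of_algebraMap w r
  -- normalisation of the `u i`
  have hnorm : ∀ i, ∃ (n : ℤ) (c : 𝓞 F) (g : R1ˣ), v (u i * π ^ n) = 1 ∧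
      v (algebraMap (𝓞 F) F c - u i * π ^ n) < exp (-(l : ℤ)) ∧
      (g : R1) = Ideal.Quotient.mk _ c := by
    intro i
    have hui : v (u i) ≠ 0 := (Valuation.ne_zero_iff v).mpr (hu i)
    refine ⟨log (v (u i)), ?_⟩
    have h1 : v (u i * π ^ (log (v (u i)))) = 1 := by
      rw [map_mul, map_zpow₀, hlam, ← exp_zsmul]
      nth_rewrite 1 [← exp_log hui]
      rw [← exp_add]
      have : log (v (u i)) + log (v (u i)) • (-1 : ℤ) = 0 := by simp
      rw [this, exp_zero]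
    obtain ⟨c, hc⟩ := HeightOneSpectrum.exists_valuation_sub_lt_of_integer w h1.le
      (Units.mk0 (exp (-(l : ℤ))) exp_ne_zero)
    have hc' : v (algebraMap (𝓞 F) F c - u i * π ^ (log (v (u i)))) < exp (-(l : ℤ)) := hc
    have hl1 : exp (-(l : ℤ)) < (1 : ℤᵐ⁰) := by
      rw [← exp_zero, exp_lt_exp]
      have : (0 : ℤ) < l := by exact_mod_cast hlpos
      omega
    have hvc : v (algebraMap (𝓞 F) F c) = 1 := by
      have h2 : algebraMap (𝓞 F) F c = (algebraMap (𝓞 F) F c - u i * π ^ (log (v (u i))))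
          + u i * π ^ (log (v (u i))) := by ring
      rw [h2, Valuation.map_add_eq_of_lt_right _ (by rw [h1]; exact hc'.trans hl1), h1]
    have hcI : c ∉ w.asIdeal := by
      rw [hvO, HeightOneSpectrum.intValuation_eq_one_iff] at hvc
      exact hvc
    have hunit : IsUnit (Ideal.Quotient.mk (w.asIdeal ^ (l + 1)) c) := by
      obtain ⟨a, b, hb, hab⟩ := w.isMaximal.exists_inv hcI
      have hcop : IsCoprime (Ideal.span {c}) (w.asIdeal ^ (l + 1)) := by
        refine IsCoprime.pow_right ?_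
        rw [Ideal.isCoprime_iff_exists]
        exact ⟨a * c, Ideal.mul_mem_left _ _ (Ideal.mem_span_singleton_self c), b, hb, hab⟩
      rw [Ideal.isCoprime_iff_exists] at hcop
      obtain ⟨x, hx, y, hy, hxy⟩ := hcop
      obtain ⟨r, rfl⟩ := Ideal.mem_span_singleton'.mp hx
      refine IsUnit.of_mul_eq_one (Ideal.Quotient.mk _ r) ?_
      rw [← map_mul, mul_comm c r, ← sub_eq_zero, ← map_one (Ideal.Quotient.mk _), ← map_sub,
        Ideal.Quotient.eq_zero_iff_mem]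
      have : r * c - 1 = -y := by rw [← hxy]; ring
      rw [this]
      exact neg_mem hy
    exact ⟨c, hunit.unit, h1, hc', rfl⟩
  choose n c g h1 h2 h3 using hnorm
  let Ψ : Fin (l ^ 2 * Ideal.absNorm w.asIdeal ^ (l - 1) + 1) → ZMod l × (R1ˣ ⧸ N) :=
    fun i => ((n i : ZMod l), (g i : R1ˣ ⧸ N))
  have hΨ : ¬ Function.Injective Ψ := by
    intro hinj
    have h4 := Nat.card_le_card_of_injective Ψ hinj
    rw [Nat.card_prod, Nat.card_zmod, Nat.card_eq_fintype_card, Fintype.card_fin] at h4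
    have h5 := Nat.mul_le_mul_left l hNcard
    have h6 : l * (l * Ideal.absNorm w.asIdeal ^ (l - 1)) =
      l ^ 2 * Ideal.absNorm w.asIdeal ^ (l - 1) := by ring
    omega
  rw [Function.Injective] at hΨ
  push Not at hΨ
  obtain ⟨i, j, hij, hne⟩ := hΨ
  have h5 : (n i : ZMod l) = n j := congrArg Prod.fst hij
  have h6 : (g i : R1ˣ ⧸ N) = g j := congrArg Prod.snd hij
  obtain ⟨hh, hhh⟩ := QuotientGroup.eq.mp h6
  have h7 : (g j : R1ˣ) = g i * hh ^ l := by
    have : hh ^ l = (g i)⁻¹ * g j := hhh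
    rw [this, mul_inv_cancel_left]
  obtain ⟨y, hy⟩ := Ideal.Quotient.mk_surjective (hh : R1)
  have h8 : c j - c i * y ^ l ∈ w.asIdeal ^ (l + 1) := by
    have h9 : (g j : R1) = (g i : R1) * (hh : R1) ^ l := by
      rw [h7]; simp
    rw [h3, h3, ← hy] at h9
    rw [← Ideal.Quotient.eq_zero_iff_mem, map_sub, map_mul, map_pow, h9, sub_self]
  have hl1 : exp (-(l : ℤ)) < (1 : ℤᵐ⁰) := by
    rw [← exp_zero, exp_lt_exp]
    have : (0 : ℤ) < l := by exact_mod_cast hlpos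
    omega
  have hcv : ∀ k, v (algebraMap (𝓞 F) F (c k)) = 1 := by
    intro k
    have h9 : algebraMap (𝓞 F) F (c k) = (algebraMap (𝓞 F) F (c k) - u k * π ^ n k)
        + u k * π ^ n k := by ring
    rw [h9, Valuation.map_add_eq_of_lt_right _ (by rw [h1 k]; exact (h2 k).trans hl1), h1 k]
  set Y : F := algebraMap (𝓞 F) F y with hY
  have h10 : v (algebraMap (𝓞 F) F (c j) - algebraMap (𝓞 F) F (c i) * Y ^ l)
      < exp (-(l : ℤ)) := by
    have h11 : algebraMap (𝓞 F) F (c j) - algebraMap (𝓞 F) F (c i) * Y ^ l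
        = algebraMap (𝓞 F) F (c j - c i * y ^ l) := by
      rw [map_sub, map_mul, map_pow]
    rw [h11, hvO]
    refine lt_of_le_of_lt ((HeightOneSpectrum.intValuation_le_pow_iff_mem w _ _).mpr h8) ?_
    rw [exp_lt_exp]
    push_cast
    omega
  have hYl : v (Y ^ l) = 1 := by
    have h12 : v (algebraMap (𝓞 F) F (c i) * Y ^ l) = 1 := by
      have h13 : algebraMap (𝓞 F) F (c i) * Y ^ l = -(algebraMap (𝓞 F) F (c j)
          - algebraMap (𝓞 F) F (c i) * Y ^ l) + algebraMap (𝓞 F) F (c j) := by ring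
      rw [h13, Valuation.map_add_eq_of_lt_right _ (by
        rw [hcv j, Valuation.map_neg]; exact h10.trans hl1), hcv j]
    rwa [map_mul, hcv i, one_mul] at h12
  have hY0 : Y ≠ 0 := by
    intro h0
    rw [h0, zero_pow hl.ne_zero, map_zero] at hYl
    exact zero_ne_one hYl
  obtain ⟨m, hm⟩ := (ZMod.intCast_eq_intCast_iff_dvd_sub _ _ _).mp h5
  have hui := hu i
  have huj := hu j
  have hpow : π ^ (n j) = π ^ (n i) * (π ^ m) ^ l := by
    have h14 : n j = n i + m * l := by linarith [mul_comm (l : ℤ) m]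
    rw [h14, zpow_add₀ hπ0, zpow_mul, zpow_natCast]
  have hni : π ^ (n i) ≠ 0 := zpow_ne_zero _ hπ0
  have hmm : π ^ m ≠ 0 := zpow_ne_zero _ hπ0
  refine ⟨j, i, hne.symm, Y * (π ^ m)⁻¹, (u j * π ^ (n j)) / (u i * π ^ (n i) * Y ^ l),
    mul_ne_zero hY0 (inv_ne_zero hmm), ?_, ?_⟩
  · rw [hpow, mul_pow, inv_pow]
    field_simp
  · rw [hlv]
    have h15 : (u j * π ^ (n j)) / (u i * π ^ (n i) * Y ^ l) - 1
        = (u j * π ^ (n j) - u i * π ^ (n i) * Y ^ l) / (u i * π ^ (n i) * Y ^ l) := by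
      field_simp
    have h16 : v (u i * π ^ (n i) * Y ^ l) = 1 := by rw [map_mul, h1 i, hYl, one_mul]
    rw [h15, map_div₀, h16, div_one]
    have h17 : u j * π ^ (n j) - u i * π ^ (n i) * Y ^ l
        = -(algebraMap (𝓞 F) F (c j) - u j * π ^ n j)
          + ((algebraMap (𝓞 F) F (c j) - algebraMap (𝓞 F) F (c i) * Y ^ l)
          + (algebraMap (𝓞 F) F (c i) - u i * π ^ n i) * Y ^ l) := by ring
    rw [h17]
    refine Valuation.map_add_lt v ?_ (Valuation.map_add_lt v h10 ?_)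
    · rw [Valuation.map_neg]; exact h2 j
    · rw [map_mul, hYl, mul_one]; exact h2 i

end H86G
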