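import Mathlib

/-!
Row Si (about 120 lines): a family of elements of valuation one.

`v := w.valuation F`, `k := 𝓞 F ⧸ w.asIdeal`, finite with `q = Ideal.absNorm w.asIdeal` elements, of odd characteristic (h2), `q ≥ 3`.
PROOF. (1) There is a finite set `H ⊆ k \ {0}` with `a + b ≠ 0` for all `a, b ∈ H` and `2 * H.card = q - 1`: choose one element of every pair `{a, -a}`, `a ≠ 0` (`a ≠ -a`); for example with a linear order on `k` (transported from `Fin q`): `H := {a | a ≠ 0 ∧ a < -a}`; negation is a bijection from `H` to the nonzero elements outside `H`. So `q ≤ 3 * H.card` (`q ≥ 3`).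
 (2) `π : F` with `v π = exp (-1)` (HeightOneSpectrum.valuation_exists_uniformizer). `R := 𝓞 F ⧸ w.asIdeal ^ (l - 1)`, `Nat.card R = q^(l-1)` (Ideal.absNorm, map_pow, Submodule.cardQuot_apply), `C` := the set of the classes `c ∈ R` whose image in `k` is in `H` (`l - 1 ≥ 1`: Ideal.Quotient.factor for `w^(l-1) ≤ w`): every fibre of `R → k` has `q^(l-2)` elements (cosets of the kernel, surjective additive map), so `C.card = H.card * q^(l-2)` and `q^(l-1) ≤ 3 * C.card`.
 (3) For `c ∈ C` a lift `ĉ ∈ 𝓞 F`; `u_c := π * ĉ`. `v ĉ = 1` (`ĉ ∉ w`), `v (ĉ + ĉ') = 1` because the image of `ĉ + ĉ'` in `k` is `a + b ≠ 0`; for `c ≠ c'`: `ĉ - ĉ' ∉ w^(l-1)`, so `v (ĉ - ĉ') > exp (-(l-1))` (HeightOneSpectrum.valuation_le_pow_iff_mem / intValuation_le_pow_iff_dvd). Enumerate `C` by `Fin n`.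
-/

set_option autoImplicit false
open scoped Classical

open WithZero IsDedekindDomain NumberField

namespace H86G

/-- half of the elements outside the kernel -/
private lemma Si_half {R k : Type} [AddCommGroup R] [AddCommGroup k] [Finite R] (f : R →+ k)
    (hf : Function.Surjective f) (hk : Nontrivial k) (h2 : ∀ a : k, a + a = 0 → a = 0) :
    ∃ C : Finset R, (∀ c ∈ C, ∀ c' ∈ C, f c + f c' ≠ 0) ∧ Nat.card R ≤ 3 * C.card := by
  have hfk : Finite k := Finite.of_surjective f hf
  have hR : Fintype R := Fintype.ofFinite R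
  let e : k ≃ Fin (Nat.card k) := Finite.equivFin k
  have hne : ∀ a : k, a ≠ 0 → e a < e (-a) ∨ e (-a) < e a := by
    intro a ha
    refine lt_or_gt_of_ne ?_
    intro h
    have h1 : a = -a := e.injective h
    exact ha (h2 a (by nth_rewrite 2 [h1]; exact add_neg_cancel a))
  set C : Finset R := Finset.univ.filter (fun c => e (f c) < e (-(f c))) with hC
  set D : Finset R := Finset.univ.filter (fun c => e (-(f c)) < e (f c)) with hD
  set K : Finset R := Finset.univ.filter (fun c => f c = 0) with hK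
  refine ⟨C, ?_, ?_⟩
  · intro c hc c' hc' h
    rw [hC, Finset.mem_filter] at hc hc'
    have h1 : f c' = -(f c) := (neg_eq_of_add_eq_zero_right h).symm
    have h3 := hc'.2
    rw [h1, neg_neg] at h3
    exact absurd hc.2 (not_lt.2 h3.le)
  · have hDC : D.card ≤ C.card := by
      refine Finset.card_le_card_of_injOn (fun c => -c) ?_ (fun a _ b _ h => neg_injective h)
      intro c hc
      have hc' : c ∈ D := hc
      rw [hD, Finset.mem_filter] at hc'
      show -c ∈ (C : Set R)
      rw [Finset.mem_coe, hC, Finset.mem_filter]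
      refine ⟨Finset.mem_univ _, ?_⟩
      rw [map_neg, neg_neg]
      exact hc'.2
    have hKC : K.card ≤ C.card := by
      obtain ⟨a, ha⟩ := exists_ne (0 : k)
      have hc0 : ∃ c0 : R, e (f c0) < e (-(f c0)) := by
        obtain ⟨c, hc⟩ := hf a
        rcases hne a ha with h | h
        · exact ⟨c, by rw [hc]; exact h⟩
        · exact ⟨-c, by rw [map_neg, hc, neg_neg]; exact h⟩
      obtain ⟨c0, hc0⟩ := hc0
      refine Finset.card_le_card_of_injOn (fun c => c + c0) ?_
        (fun a _ b _ h => add_right_cancel h)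
      intro c hc
      have hc' : c ∈ K := hc
      rw [hK, Finset.mem_filter] at hc'
      show c + c0 ∈ (C : Set R)
      rw [Finset.mem_coe, hC, Finset.mem_filter]
      refine ⟨Finset.mem_univ _, ?_⟩
      rw [map_add, hc'.2, zero_add]
      exact hc0
    have hcov : (Finset.univ : Finset R) ⊆ C ∪ D ∪ K := by
      intro c _
      rw [Finset.mem_union, Finset.mem_union, hC, hD, hK, Finset.mem_filter, Finset.mem_filter,
        Finset.mem_filter]
      by_cases h0 : f c = 0
      · exact Or.inr ⟨Finset.mem_univ _, h0⟩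
      · rcases hne (f c) h0 with h | h
        · exact Or.inl (Or.inl ⟨Finset.mem_univ _, h⟩)
        · exact Or.inl (Or.inr ⟨Finset.mem_univ _, h⟩)
    have h1 := Finset.card_le_card hcov
    have h2 := Finset.card_union_le (C ∪ D) K
    have h3 := Finset.card_union_le C D
    rw [Finset.card_univ, ← Nat.card_eq_fintype_card] at h1
    omega

theorem exists_half {F : Type} [Field F] [NumberField F] (w : HeightOneSpectrum (𝓞 F)) {l : ℕ}
    (hl : 2 ≤ l) (h2 : (2 : 𝓞 F) ∉ w.asIdeal) :
    ∃ (n : ℕ) (u : Fin n → F), Ideal.absNorm w.asIdeal ^ (l - 1) ≤ 3 * n ∧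
      (∀ i, w.valuation F (u i) = exp (-1 : ℤ)) ∧
      (∀ i j, w.valuation F (u i + u j) = exp (-1 : ℤ)) ∧
      ∀ i j, i ≠ j → exp (-(l : ℤ)) < w.valuation F (u i - u j) := by
  obtain ⟨p, hp⟩ := w.valuation_exists_uniformizer F
  have hle : w.asIdeal ^ (l - 1) ≤ w.asIdeal := Ideal.pow_le_self (by omega)
  have hfin : Finite (𝓞 F ⧸ w.asIdeal ^ (l - 1)) :=
    Ideal.finiteQuotientOfFreeOfNeBot _ (pow_ne_zero _ w.ne_bot)
  have hnt : Nontrivial (𝓞 F ⧸ w.asIdeal) := Ideal.Quotient.nontrivial_iff.2 w.isPrime.ne_top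
  have hsurj : Function.Surjective (Ideal.Quotient.factor hle) := Ideal.Quotient.factor_surjective hle
  obtain ⟨C, hC1, hC2⟩ := Si_half (Ideal.Quotient.factor hle).toAddMonoidHom hsurj hnt (by
    intro a ha
    obtain ⟨x, rfl⟩ := Ideal.Quotient.mk_surjective a
    rw [← map_add, Ideal.Quotient.eq_zero_iff_mem, ← two_mul] at ha
    rw [Ideal.Quotient.eq_zero_iff_mem]
    exact (w.isPrime.mem_or_mem ha).resolve_left h2)
  -- lifts
  have hlift : ∀ c : 𝓞 F ⧸ w.asIdeal ^ (l - 1), ∃ x : 𝓞 F, Ideal.Quotient.mk _ x = c :=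
    fun c => Ideal.Quotient.mk_surjective c
  choose g hg using hlift
  have hfg : ∀ c, (Ideal.Quotient.factor hle) c = Ideal.Quotient.mk w.asIdeal (g c) := by
    intro c
    conv_lhs => rw [← hg c]
    exact Ideal.Quotient.factor_mk hle (g c)
  have hv1 : ∀ c ∈ C, ∀ c' ∈ C, w.valuation F (algebraMap (𝓞 F) F (g c + g c')) = 1 := by
    intro c hc c' hc'
    rw [w.valuation_eq_one_iff_notMem]
    intro hmem
    refine hC1 c hc c' hc' ?_
    show (Ideal.Quotient.factor hle) c + (Ideal.Quotient.factor hle) c' = 0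
    rw [hfg, hfg, ← map_add, Ideal.Quotient.eq_zero_iff_mem]
    exact hmem
  have hv0 : ∀ c ∈ C, w.valuation F (algebraMap (𝓞 F) F (g c)) = 1 := by
    intro c hc
    rw [w.valuation_eq_one_iff_notMem]
    intro hmem
    refine hC1 c hc c hc ?_
    show (Ideal.Quotient.factor hle) c + (Ideal.Quotient.factor hle) c = 0
    rw [hfg, ← map_add, Ideal.Quotient.eq_zero_iff_mem]
    exact Ideal.add_mem _ hmem hmem
  refine ⟨C.card, fun i => p * algebraMap (𝓞 F) F (g ((C.equivFin.symm i : C) : _)), ?_, ?_, ?_, ?_⟩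
  · have h1 : Ideal.absNorm w.asIdeal ^ (l - 1) = Nat.card (𝓞 F ⧸ w.asIdeal ^ (l - 1)) := by
      rw [← map_pow, Ideal.absNorm_apply, Submodule.cardQuot_apply]
    rw [h1]
    exact hC2
  · intro i
    simp only
    rw [map_mul, hp, hv0 _ (C.equivFin.symm i).2, mul_one]
  · intro i j
    simp only
    rw [← mul_add, ← map_add, map_mul, hp, hv1 _ (C.equivFin.symm i).2 _ (C.equivFin.symm j).2,
      mul_one]
  · intro i j hij
    simp only
    rw [← mul_sub, ← map_sub, map_mul, hp]
    set c := ((C.equivFin.symm i : C) : 𝓞 F ⧸ w.asIdeal ^ (l - 1)) with hc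
    set c' := ((C.equivFin.symm j : C) : 𝓞 F ⧸ w.asIdeal ^ (l - 1)) with hc'
    have hcc : c ≠ c' := by
      intro h
      exact hij (C.equivFin.symm.injective (Subtype.ext h))
    have h3 : ¬ g c - g c' ∈ w.asIdeal ^ (l - 1) := by
      intro hmem
      apply hcc
      rw [← hg c, ← hg c']
      exact Ideal.Quotient.eq.2 hmem
    have h4 : exp (-((l - 1 : ℕ) : ℤ)) < w.valuation F (algebraMap (𝓞 F) F (g c - g c')) := by
      rw [w.valuation_of_algebraMap, ← not_le, w.intValuation_le_pow_iff_mem]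
      exact h3
    have h5 : exp (-(l : ℤ)) = exp (-1 : ℤ) * exp (-((l - 1 : ℕ) : ℤ)) := by
      rw [← exp_add]
      congr 1
      omega
    rw [h5]
    exact mul_lt_mul_of_pos_left h4 (exp_pos)

end H86G
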