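import Pool.Agent.H86.T4G.Sw
import Pool.Agent.H86.T4G.Sh
import Pool.Agent.H86.T4G.Si
import Pool.Agent.H86.T4G.Da

/-!
Row Sp (about 130 lines): the local condition at a place above `l` where `T` is in the kernel of reduction. Use only the STATEMENTS of Ss, Sw, Sh, Si, Rt, Lb, Da.

PROOF. `E := W.baseChange (AlgebraicClosure F)`. From hgood: `Integral A E` (coefficients are images; LS.ovr), `A.valuation E.Δ = 1` (LS.val_one). `w.valuation F l = w.valuation F (ζ - 1) ^ (l - 1)` (pow_val and LS.val_eq) `< 1`, so `(l : 𝓞 F) ∈ w.asIdeal`, and `2` is a unit at `w` because `l` is odd (`(2 : 𝓞 F) ∉ w.asIdeal`: otherwise `1 ∈ w.asIdeal`), `A.valuation 2 = 1`. `T = some x y`, `w.valuation F x > 1`: `tp W T = some X Y`, `X ∉ A`: InE1. `v (zc (tp W T)) ≤ v (z - 1)^2`: zc_fixed for `tp W T` (fixed by all `σ`), `lam := ζ - 1`.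
 exists_half (Si): `n`, `u' : Fin n → F`; exists_ZP: `x' i` with ZP; not_RT: `x' i / x' j` is not RT for `i ≠ j`. DX l W T ζ D (x' i) by definition of ZP.
 Suppose that no pair `i ≠ j` of indices in `Fin (3 l^2 + 1)` has DX for `u i / u j`. Consider the elements `u i * x' j`, `(i, j) ∈ Fin (3 l^2 + 1) × Fin n`. Their number `(3 l^2 + 1) n` is at least `l^2 q^(l-1) + 1` (`q^(l-1) ≤ 3 n`, `n ≥ 1` because `q^(l-1) > 0`), so class_pigeon (through an injection `Fin (l^2 q^(l-1) + 1) → Fin (3 l^2 + 1) × Fin n`) gives two different pairs with `(u i x' j) / (u i' x' j') = z^l X`, RT for `X` by rt_close, hence RT for the quotient (rt_mul, rt_pow).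
  If `i = i'`: RT for `x' j / x' j'` with `j ≠ j'`, contradiction. If `i ≠ i'`: `u i / u i' = (quotient) * x' j' / x' j`, DX by dx_of_rt, dx_mul, dx_inv: contradiction.
 (`l • tp W T = 0`: map_nsmul.)
-/

set_option autoImplicit false
open scoped Classical

open WithZero WeierstrassCurve IsDedekindDomain NumberField Pool.Agent.H10 Pool.Agent.H11 H78D

namespace H86G

theorem Sp_act_tp {F : Type} [Field F] [NumberField F] (W : WeierstrassCurve F)
    (T : W.toAffine.Point) (σ : AlgebraicClosure F ≃ₐ[F] AlgebraicClosure F) :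
    act (inv_bc F W) σ (tp W T) = tp W T :=
  (pm_pm _ _ _ _ T).trans (pm_congr _ _ (fun x => σ.commutes x) T)

theorem S_pigeon {F : Type} [Field F] [NumberField F] {w : HeightOneSpectrum (𝓞 F)}
    {A : ValuationSubring (AlgebraicClosure F)}
    {D : Subgroup (AlgebraicClosure F ≃ₐ[F] AlgebraicClosure F)} (h : LS w A D)
    {W : WeierstrassCurve F} [W.IsElliptic]
    (hgood : w.valuation F W.a₁ ≤ 1 ∧ w.valuation F W.a₂ ≤ 1 ∧ w.valuation F W.a₃ ≤ 1 ∧
      w.valuation F W.a₄ ≤ 1 ∧ w.valuation F W.a₆ ≤ 1 ∧ w.valuation F W.Δ = 1)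
    {l : ℕ} (hl : l.Prime) (hl2 : l ≠ 2) {ζ : F} (hζ : IsPrimitiveRoot ζ l)
    (hlam : w.valuation F (ζ - 1) = exp (-1 : ℤ)) {T : W.toAffine.Point} (hTl : l • T = 0)
    (hT : ∃ x y hxy, T = Affine.Point.some x y hxy ∧ 1 < w.valuation F x)
    (u : Fin (3 * l ^ 2 + 1) → F) (hu : ∀ i, u i ≠ 0) :
    ∃ i j, i ≠ j ∧ DX l W T ζ D (u i / u j) := by
  classical
  have hl0 : l ≠ 0 := hl.ne_zero
  set z : AlgebraicClosure F := algebraMap F (AlgebraicClosure F) ζ with hzdef
  have hz : IsPrimitiveRoot z l :=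
    hζ.map_of_injective (algebraMap F (AlgebraicClosure F)).injective
  have hE : Integral A (W.baseChange (AlgebraicClosure F)) :=
    ⟨(h.ovr _).2 hgood.1, (h.ovr _).2 hgood.2.1, (h.ovr _).2 hgood.2.2.1,
      (h.ovr _).2 hgood.2.2.2.1, (h.ovr _).2 hgood.2.2.2.2.1⟩
  have hΔ : A.valuation (W.baseChange (AlgebraicClosure F)).Δ = 1 := by
    have e1 : (W.baseChange (AlgebraicClosure F)).Δ = algebraMap F (AlgebraicClosure F) W.Δ :=
      W.map_Δ _
    rw [e1]
    exact (h.val_one _).2 hgood.2.2.2.2.2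
  have hlam1 : w.valuation F (ζ - 1) < 1 := by
    rw [hlam, ← exp_zero]
    exact exp_lt_exp.2 (by norm_num)
  have hz1 : A.valuation (z - 1) < 1 := by
    have e1 := (h.val_lt_one (ζ - 1)).2 hlam1
    rwa [map_sub, map_one] at e1
  have h1 : A.valuation (l : AlgebraicClosure F) < 1 := by
    rw [pow_val A hl hz]
    exact pow_lt_one₀ zero_le hz1 (by have := hl.two_le; omega)
  have hl3 : ¬ l ∣ 2 := by
    intro hd
    have e1 := Nat.le_of_dvd (by norm_num) hd
    have e2 := hl.two_le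
    omega
  have h2 : A.valuation (2 : AlgebraicClosure F) = 1 := by
    have e1 := unit_of A hl h1 hl3
    simpa using e1
  have h2w : (2 : 𝓞 F) ∉ w.asIdeal := by
    intro hmem
    have e1 : w.valuation F (algebraMap (𝓞 F) F 2) < 1 := by
      rw [w.valuation_of_algebraMap]
      exact w.intValuation_lt_one_iff_mem _ |>.2 hmem
    rw [map_ofNat] at e1
    have e2 := (h.val_lt_one 2).2 e1
    rw [map_ofNat, h2] at e2
    exact lt_irrefl _ e2
  have hT0 : T ≠ 0 := by
    obtain ⟨x, y, hxy, rfl, hx⟩ := hT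
    exact Affine.Point.some_ne_zero _
  have hE1 : InE1 A _ (tp W T) := by
    obtain ⟨x, y, hxy, rfl, hx⟩ := hT
    refine Or.inr ⟨_, _, _, pm_some _ _ hxy, ?_⟩
    intro hmem
    exact absurd hx (not_lt.2 ((h.ovr x).1 hmem))
  have hTl' : l • tp W T = 0 := by
    show l • pm (algebraMap F (AlgebraicClosure F)) rfl T = 0
    rw [← map_nsmul, hTl, map_zero]
  have hTv : A.valuation (zc _ (tp W T)) ≤ A.valuation (z - 1) ^ 2 := by
    have e1 := zc_fixed h hE hlam hE1 (fun σ _ => Sp_act_tp W T σ)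
    rwa [map_sub, map_one] at e1
  obtain ⟨n, u', hn, hu1, hu2, hu3⟩ := exists_half w hl.two_le h2w
  have hu0' : ∀ i, u' i ≠ 0 := by
    intro i hi
    have e1 := hu1 i
    rw [hi, map_zero] at e1
    exact exp_ne_zero e1.symm
  have hult : ∀ i, w.valuation F (u' i) < 1 := by
    intro i
    rw [hu1 i, ← exp_zero]
    exact exp_lt_exp.2 (by norm_num)
  have hZP : ∀ i, ∃ x : F, ZP l W T ζ A D (u' i) x := fun i =>
    exists_ZP h hE hΔ h2 hl hζ h1 hT0 hTl hE1 hTv (hu0' i) (hult i)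
  choose x' hx' using hZP
  have hx0 : ∀ i, x' i ≠ 0 := by
    intro i
    obtain ⟨r, P, R, e1, _⟩ := hx' i
    exact e1
  have hDX : ∀ i, DX l W T ζ D (x' i) := by
    intro i
    obtain ⟨r, P, R, _, e2, _, _, _, _, _, e3⟩ := hx' i
    exact ⟨r, P, e2, e3⟩
  have hNR : ∀ i j, i ≠ j → ¬ RT l D (x' i / x' j) := fun i j hij =>
    not_RT h hE hΔ h2 hl hζ hlam hT0 hTl hE1 (hx' i) (hx' j) (hu1 i) (hu1 j) (hu2 i j)
      (hu3 i j hij)
  by_contra hcon
  push Not at hcon
  have hq : 0 < Ideal.absNorm w.asIdeal := by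
    refine Nat.pos_of_ne_zero fun h0 => ?_
    exact w.ne_bot ((Ideal.absNorm_eq_zero_iff).1 h0)
  have hcard : Fintype.card (Fin (l ^ 2 * Ideal.absNorm w.asIdeal ^ (l - 1) + 1)) ≤
      Fintype.card (Fin (3 * l ^ 2 + 1) × Fin n) := by
    rw [Fintype.card_prod, Fintype.card_fin, Fintype.card_fin, Fintype.card_fin]
    have e1 : 0 < Ideal.absNorm w.asIdeal ^ (l - 1) := pow_pos hq _
    have e2 : 1 ≤ n := by omega
    have e3 : l ^ 2 * Ideal.absNorm w.asIdeal ^ (l - 1) ≤ l ^ 2 * (3 * n) :=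
      Nat.mul_le_mul_left _ hn
    nlinarith
  obtain ⟨e⟩ := Function.Embedding.nonempty_of_card_le hcard
  obtain ⟨a, b, hab, y, X, hy, hX, hXv⟩ := class_pigeon w hl hζ hlam
    (fun a => u (e a).1 * x' (e a).2) (fun a => mul_ne_zero (hu _) (hx0 _))
  have hRT : RT l D (u (e a).1 * x' (e a).2 / (u (e b).1 * x' (e b).2)) := by
    have e1 : u (e a).1 * x' (e a).2 / (u (e b).1 * x' (e b).2) = y ^ l * X := hX
    rw [e1]
    exact rt_mul (rt_pow y) (rt_close h hl hζ hXv)
  have hne : e a ≠ e b := fun he => hab (e.injective he)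
  by_cases hi : (e a).1 = (e b).1
  · have hj : (e a).2 ≠ (e b).2 := fun hj => hne (Prod.ext hi hj)
    apply hNR _ _ hj
    have e1 : u (e a).1 * x' (e a).2 / (u (e b).1 * x' (e b).2) = x' (e a).2 / x' (e b).2 := by
      rw [hi]
      exact mul_div_mul_left _ _ (hu _)
    rwa [e1] at hRT
  · apply hcon _ _ hi
    have hq0 : u (e a).1 * x' (e a).2 / (u (e b).1 * x' (e b).2) ≠ 0 :=
      div_ne_zero (mul_ne_zero (hu _) (hx0 _)) (mul_ne_zero (hu _) (hx0 _))
    have e1 : u (e a).1 / u (e b).1 =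
        u (e a).1 * x' (e a).2 / (u (e b).1 * x' (e b).2) * (x' (e b).2 * (x' (e a).2)⁻¹) := by
      have f1 := hx0 (e a).2
      have f2 := hx0 (e b).2
      have f3 := hu (e b).1
      field_simp
    rw [e1]
    exact dx_mul hl0 hζ hTl' hq0 (mul_ne_zero (hx0 _) (inv_ne_zero (hx0 _)))
      (dx_of_rt hl0 hζ hTl' hq0 hRT)
      (dx_mul hl0 hζ hTl' (hx0 _) (inv_ne_zero (hx0 _)) (hDX _)
        (dx_inv hl0 hζ hTl' (hx0 _) (hDX _)))

end H86G
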