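import Pool.Agent.H86.T4G.Rt
import Pool.Agent.H86.T4G.Da

/-!
Row Tm (about 90 lines): places not above `l`. Use only the STATEMENTS of Rt, Da.

PROOF. `k := 𝓞 F ⧸ w.asIdeal`, a finite field. Every `x : F` with `w.valuation F x = 1` is `a / b` with `a, b : 𝓞 F`, not in `w.asIdeal`; let `ρ x := class a / class b` in `kˣ` (or: there is `c : 𝓞 F` with `w.valuation F (x - c) < 1`: exists an integral approximation; `ρ x` := class of `c`). `kˣ` is cyclic, so `kˣ / (kˣ)^l` has at most `l` elements (card of the quotient of a finite abelian group by its `l`-th powers is the number of elements killed by `l`; in a field there are at most `l` roots of `X^l - 1`: card_rootsOfUnity or rootsOfUnity).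
 By pigeonhole `i ≠ j` with `ρ (u i) = ρ (u j) * s^l`, lift `s` to `z : 𝓞 F`, `z ∉ w.asIdeal`. `X := u i / (u j * z^l)`: `w.valuation F (X - 1) < 1`. `w.valuation F l = 1`, and `w.valuation F (ζ - 1) = 1` (`ζ - 1` divides `l` in the integers: pow_val with a valuation subring, or: `w.valuation (ζ - 1)^(l-1) = w.valuation l`; use LS.val_one with pow_val). rt_close: RT for `X`; `u i / u j = X * z^l`: rt_mul, rt_pow.
-/

set_option autoImplicit false
open scoped Classical

open WeierstrassCurve IsDedekindDomain NumberField Pool.Agent.H10 Pool.Agent.H11 H78D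

namespace H86G

/-- In a finite field the group of units modulo `l`-th powers has at most `l` elements: pigeonhole. -/
theorem Tm_units {k : Type*} [Field k] [Finite k] {l : ℕ} (hl : l.Prime) (r : Fin (l + 1) → kˣ) :
    ∃ i j, i ≠ j ∧ ∃ s : kˣ, r i = r j * s ^ l := by
  haveI : NeZero l := ⟨hl.ne_zero⟩
  let P : Subgroup kˣ := (powMonoidHom l : kˣ →* kˣ).range
  have hker : (powMonoidHom l : kˣ →* kˣ).ker = rootsOfUnity l k := by
    ext x
    rw [MonoidHom.mem_ker, mem_rootsOfUnity, powMonoidHom_apply]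
  have h1 : P.index ≤ l := by
    have e1 := P.index_mul_card
    have e2 := (powMonoidHom l : kˣ →* kˣ).ker.index_mul_card
    have e3 : (powMonoidHom l : kˣ →* kˣ).ker.index = Nat.card P := Subgroup.index_ker _
    rw [e3] at e2
    have e4 : 0 < Nat.card P := Nat.card_pos
    have e5 : P.index = Nat.card (powMonoidHom l : kˣ →* kˣ).ker := by
      apply Nat.eq_of_mul_eq_mul_right e4
      rw [e1, ← e2, mul_comm]
    rw [e5, hker]
    exact card_rootsOfUnity k l
  haveI : Fintype (kˣ ⧸ P) := Fintype.ofFinite _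
  have h2 : Fintype.card (kˣ ⧸ P) < Fintype.card (Fin (l + 1)) := by
    rw [Fintype.card_fin, ← Nat.card_eq_fintype_card]
    exact Nat.lt_succ_of_le h1
  obtain ⟨i, j, hij, he⟩ := Fintype.exists_ne_map_eq_of_card_lt
    (fun i => (QuotientGroup.mk (r i) : kˣ ⧸ P)) h2
  have h3 := QuotientGroup.eq.1 he
  obtain ⟨s, hs⟩ := h3
  refine ⟨j, i, hij.symm, s, ?_⟩
  have h4 : s ^ l = (r i)⁻¹ * r j := hs
  rw [h4, mul_inv_cancel_left]

/-- integral approximation of a unit -/
theorem Tm_approx {F : Type} [Field F] [NumberField F] {w : HeightOneSpectrum (𝓞 F)} {x : F}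
    (hx : w.valuation F x = 1) :
    ∃ c : 𝓞 F, w.valuation F (x - algebraMap (𝓞 F) F c) < 1 ∧ c ∉ w.asIdeal := by
  obtain ⟨c, hc⟩ := w.exists_valuation_sub_lt_of_integer (K := F) hx.le 1
  rw [Units.val_one] at hc
  refine ⟨c, by rwa [Valuation.map_sub_swap], fun hm => ?_⟩
  have h1 : w.valuation F (algebraMap (𝓞 F) F c) < 1 := (w.valuation_lt_one_iff_mem (K := F) c).2 hm
  have h2 : w.valuation F x < 1 := by
    have e : x = algebraMap (𝓞 F) F c - (algebraMap (𝓞 F) F c - x) := by ring
    rw [e]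
    exact lt_of_le_of_lt (Valuation.map_sub _ _ _) (max_lt h1 hc)
  exact absurd hx h2.ne

theorem tame_pigeon {F : Type} [Field F] [NumberField F] {w : HeightOneSpectrum (𝓞 F)}
    {A : ValuationSubring (AlgebraicClosure F)}
    {D : Subgroup (AlgebraicClosure F ≃ₐ[F] AlgebraicClosure F)} (h : LS w A D) {l : ℕ}
    (hl : l.Prime) {ζ : F} (hζ : IsPrimitiveRoot ζ l) (hlw : (l : 𝓞 F) ∉ w.asIdeal)
    (u : Fin (l + 1) → F) (hu : ∀ i, w.valuation F (u i) = 1) :
    ∃ i j, i ≠ j ∧ RT l D (u i / u j) := by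
  choose c hc hcm using fun i => Tm_approx (hu i)
  haveI hmax : w.asIdeal.IsMaximal := w.isMaximal
  letI : Field (𝓞 F ⧸ w.asIdeal) := Ideal.Quotient.field w.asIdeal
  haveI : Finite (𝓞 F ⧸ w.asIdeal) := Ideal.finiteQuotientOfFreeOfNeBot w.asIdeal w.ne_bot
  have hc0 : ∀ i, Ideal.Quotient.mk w.asIdeal (c i) ≠ 0 := fun i hi =>
    hcm i (Ideal.Quotient.eq_zero_iff_mem.1 hi)
  obtain ⟨i, j, hij, s, hs⟩ := Tm_units hl (fun i => Units.mk0 _ (hc0 i))
  obtain ⟨z, hz⟩ := Ideal.Quotient.mk_surjective (s : 𝓞 F ⧸ w.asIdeal)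
  refine ⟨i, j, hij, ?_⟩
  have hzm : z ∉ w.asIdeal := by
    intro hm
    rw [Ideal.Quotient.eq_zero_iff_mem.2 hm] at hz
    exact s.ne_zero hz.symm
  have hzv : w.valuation F (algebraMap (𝓞 F) F z) = 1 := (w.valuation_eq_one_iff_notMem (K := F)).2 hzm
  have hcv : ∀ i, w.valuation F (algebraMap (𝓞 F) F (c i)) = 1 := fun i =>
    (w.valuation_eq_one_iff_notMem (K := F)).2 (hcm i)
  have hmem : c i - c j * z ^ l ∈ w.asIdeal := by
    rw [← Ideal.Quotient.eq_zero_iff_mem, map_sub, map_mul, map_pow, hz, sub_eq_zero]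
    have := congrArg (Units.val) hs
    simpa using this
  have hmv : w.valuation F (algebraMap (𝓞 F) F (c i) - algebraMap (𝓞 F) F (c j) * algebraMap (𝓞 F) F z ^ l) < 1 := by
    have h0 := (w.valuation_lt_one_iff_mem (K := F) _).2 hmem
    have e : algebraMap (𝓞 F) F (c i - c j * z ^ l)
        = algebraMap (𝓞 F) F (c i) - algebraMap (𝓞 F) F (c j) * algebraMap (𝓞 F) F z ^ l := by
      rw [map_sub, map_mul, map_pow]
    rw [← e]
    exact h0
  have huj : u j ≠ 0 := by
    intro h0
    have := hu j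
    rw [h0, map_zero] at this
    exact zero_ne_one this
  have hz0 : algebraMap (𝓞 F) F z ≠ 0 := by
    intro h0
    rw [h0, map_zero] at hzv
    exact zero_ne_one hzv
  have hden : w.valuation F (u j * algebraMap (𝓞 F) F z ^ l) = 1 := by
    rw [map_mul, map_pow, hu, hzv, one_pow, mul_one]
  have hden0 : u j * algebraMap (𝓞 F) F z ^ l ≠ 0 := mul_ne_zero huj (pow_ne_zero _ hz0)
  have hX : w.valuation F (u i / (u j * algebraMap (𝓞 F) F z ^ l) - 1) < 1 := by
    have e : u i / (u j * algebraMap (𝓞 F) F z ^ l) - 1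
        = ((u i - algebraMap (𝓞 F) F (c i))
          + (algebraMap (𝓞 F) F (c i) - algebraMap (𝓞 F) F (c j) * algebraMap (𝓞 F) F z ^ l)
          - (u j - algebraMap (𝓞 F) F (c j)) * algebraMap (𝓞 F) F z ^ l)
          / (u j * algebraMap (𝓞 F) F z ^ l) := by
      field_simp
      ring
    rw [e, map_div₀, hden, div_one]
    refine lt_of_le_of_lt (Valuation.map_sub _ _ _) (max_lt ?_ ?_)
    · exact lt_of_le_of_lt (Valuation.map_add _ _ _) (max_lt (hc i) hmv)
    · rw [map_mul, map_pow, hzv, one_pow, mul_one]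
      exact hc j
  have hlv : w.valuation F (l : F) = 1 := by
    have := (w.valuation_eq_one_iff_notMem (K := F)).2 hlw
    rwa [map_natCast] at this
  have hζv : w.valuation F (ζ - 1) = 1 := by
    rw [← h.val_one, map_sub, map_one]
    have hz' : IsPrimitiveRoot (algebraMap F (AlgebraicClosure F) ζ) l :=
      hζ.map_of_injective (algebraMap F (AlgebraicClosure F)).injective
    have h1 := pow_val A hl hz'
    have h2 : A.valuation ((l : ℕ) : AlgebraicClosure F) = 1 := by
      have := (h.val_one (l : F)).2 hlv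
      rwa [map_natCast] at this
    rw [h2] at h1
    have hl1 : l - 1 ≠ 0 := Nat.sub_ne_zero_of_lt hl.one_lt
    exact (pow_eq_one_iff.1 h1.symm).resolve_right hl1
  have hR := rt_close h hl hζ (x := u i / (u j * algebraMap (𝓞 F) F z ^ l)) (by
    rw [map_mul, hlv, hζv, one_mul]
    exact hX)
  have hfin := rt_mul hR (rt_pow (D := D) (l := l) (algebraMap (𝓞 F) F z))
  have e : u i / (u j * algebraMap (𝓞 F) F z ^ l) * algebraMap (𝓞 F) F z ^ l = u i / u j := by
    field_simp
  rwa [e] at hfin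

end H86G
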