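import Pool.Agent.H86.T4G.Wk

/-!
Row Wl (about 200 lines): the first level. Use only the STATEMENTS of Wk (eig_close, pow_close), Wj, Gx.

`v := 𝔓.valuation F`, `π := ζ - 1`, `v π = exp (-1)`, `k := 𝓞 F ⧸ 𝔓.asIdeal`, `k₀ := 𝓞 L ⧸ w.asIdeal` (finite fields of characteristic `l`; `k` is an algebra over `k₀`, `Ideal.absNorm w.asIdeal = Nat.card k₀`).
PROOF. (1) Every `u` with `v u = 1` is `z^l x'` with `v z = 1`, `v (x' - 1) ≤ exp (-1)`: choose `c ∈ 𝓞 F` with `v (u - c) < 1` (`u = a / b`, `b ∉ 𝔓`, invert `b` modulo `𝔓`), the Frobenius of `k` is surjective: `z ∈ 𝓞 F` with `z^l ≡ c`. Write `x' = 1 + a π`, `v a ≤ 1`, `ā ∈ k` the residue of `a` (class of an integer `a₀` with `v (a - a₀) < 1`).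
 (2) For `g ∈ G := F ≃ₐ[L] F` in the decomposition group (`g` maps `𝔓` to itself, so `v (g y) = v y`): take `c, w₀` (DG.chi, DG.cyc), `n` with `c n ≡ w₀`: eig_close: `v (g x' - x'^n) ≤ exp (-l) ≤ exp (-2)`. `g x' - 1 = g a * g π`, `g π = ζ^w₀ - 1 ≡ w₀ π` modulo `π^2`, `x'^n - 1 ≡ n a π`. So `w₀ ḡ(ā) = n ā` in `k` where `ḡ` is the automorphism of `k` induced by `g`; `c`, `n`, `w₀` do not depend on `u` and `w₀ ≠ 0` in `k`.
 (3) So for two elements `u, u'` with residues `ā, ā'`, `ā' ≠ 0`: `ḡ (ā / ā') = ā / ā'` for all `g` in the decomposition group. These `ḡ` are all the automorphisms of `k` over `k₀` (Ideal.Quotient.stabilizerHom_surjective), and `k / k₀` is Galois (finite fields), so `ā / ā'` is in the image of `k₀`. Hence the set of the residues of the `u i` is contained in `{0}` or in `ā' k₀`: at most `Nat.card k₀` elements. Pigeonhole: `i ≠ j` with the same residue, `x'_i / x'_j - 1 = (a_i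 - a_j) π / x'_j`, `v ≤ exp (-2)`: Lv v l 2 (u i / u j) with `z := z_i / z_j`.
-/

set_option autoImplicit false
open scoped Classical

open WithZero WeierstrassCurve IsDedekindDomain NumberField Pool.Agent.H10 Pool.Agent.H11 H78D

namespace H86G

open scoped Pointwise
section Wl_aux

variable {F : Type*} [Field F]

theorem Wl_lt_one {x : WithZero (Multiplicative ℤ)} (h : x < 1) : x ≤ exp (-1 : ℤ) := by
  rcases eq_or_ne x 0 with rfl | h0
  · exact zero_le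
  · obtain ⟨a, rfl⟩ : ∃ a : ℤ, x = exp a := ⟨WithZero.log x, (WithZero.exp_log h0).symm⟩
    rw [← WithZero.exp_zero, WithZero.exp_lt_exp] at h
    rw [WithZero.exp_le_exp]
    omega

theorem Wl_exp_lt : (exp (-1 : ℤ) : WithZero (Multiplicative ℤ)) < 1 := by
  rw [← WithZero.exp_zero, WithZero.exp_lt_exp]
  norm_num

theorem Wl_pow {v : Valuation F (WithZero (Multiplicative ℤ))} {y : F}
    (hy : v (y - 1) ≤ exp (-1 : ℤ)) (n : ℕ) :
    v (y ^ n - 1 - n * (y - 1)) ≤ exp (-2 : ℤ) := by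
  have hy1 : v y ≤ 1 := by
    have h : y = (y - 1) + 1 := by ring
    rw [h]
    refine v.map_add_le (hy.trans Wl_exp_lt.le) ?_
    rw [map_one]
  have hn : ∀ m : ℕ, v (m : F) ≤ 1 := by
    intro m
    induction m with
    | zero => simp
    | succ m ih =>
      push_cast
      exact v.map_add_le ih (by rw [map_one])
  induction n with
  | zero => simp
  | succ n ih =>
    have h : y ^ (n + 1) - 1 - ((n + 1 : ℕ) : F) * (y - 1) =
        y * (y ^ n - 1 - n * (y - 1)) + n * ((y - 1) * (y - 1)) := by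
      push_cast
      ring
    rw [h]
    refine v.map_add_le ?_ ?_
    · rw [map_mul]
      exact (mul_le_mul' hy1 ih).trans (one_mul _).le
    · rw [map_mul, map_mul]
      have h2 : (exp (-2 : ℤ) : WithZero (Multiplicative ℤ)) = 1 * (exp (-1 : ℤ) * exp (-1 : ℤ)) := by
        rw [one_mul, ← WithZero.exp_add]
        norm_num
      rw [h2]
      exact mul_le_mul' (hn n) (mul_le_mul' hy hy)

end Wl_aux

theorem Wl_int {F : Type*} [Field F] [NumberField F] (𝔓 : HeightOneSpectrum (𝓞 F)) (x : F)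
    (hx : 𝔓.valuation F x ≤ 1) : ∃ c : 𝓞 F, 𝔓.valuation F (x - c) < 1 := by
  obtain ⟨n, d, hnd⟩ := 𝔓.exists_primeCompl_mul_eq_of_integer x hx
  have hd : (d : 𝓞 F) ∉ 𝔓.asIdeal := d.2
  have hmax := 𝔓.isMaximal
  obtain ⟨e, he⟩ : ∃ e : 𝓞 F, 1 - (d : 𝓞 F) * e ∈ 𝔓.asIdeal := by
    obtain ⟨y, hy⟩ := hmax.exists_inv hd
    obtain ⟨z, hz, hyz⟩ := hy
    refine ⟨y, ?_⟩
    rw [← hyz, mul_comm y, add_sub_cancel_left]
    exact hz
  refine ⟨n * e, ?_⟩
  have h1 : x - ((n * e : 𝓞 F) : F) = x * algebraMap (𝓞 F) F (1 - (d : 𝓞 F) * e) := by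
    rw [map_sub, map_mul, map_one]
    have h2 : ((n * e : 𝓞 F) : F) = algebraMap (𝓞 F) F n * algebraMap (𝓞 F) F e := map_mul _ _ _
    rw [h2, ← hnd]
    ring
  rw [h1, map_mul]
  have h3 : 𝔓.valuation F (algebraMap (𝓞 F) F (1 - (d : 𝓞 F) * e)) < 1 :=
    (HeightOneSpectrum.valuation_lt_one_iff_mem 𝔓 _).2 he
  calc _ ≤ 1 * 𝔓.valuation F (algebraMap (𝓞 F) F (1 - (d : 𝓞 F) * e)) := by gcongr
    _ < 1 := by rwa [one_mul]

theorem Wl_l {F : Type*} [Field F] {v : Valuation F (WithZero (Multiplicative ℤ))} {l : ℕ}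
    (hl : l.Prime) {ζ : F} (hζ : IsPrimitiveRoot ζ l) (hlam : v (ζ - 1) = exp (-1 : ℤ)) :
    v (l : F) < 1 := by
  have h1 : ∑ j ∈ Finset.range l, ζ ^ j = 0 := hζ.geom_sum_eq_zero hl.one_lt
  have h2 : (l : F) = ∑ j ∈ Finset.range l, (1 - ζ ^ j) := by
    rw [Finset.sum_sub_distrib, h1]
    simp
  have h3 : ∀ j : ℕ, v (1 - ζ ^ j) < 1 := by
    intro j
    have h4 := Wl_pow (v := v) (y := ζ) hlam.le j
    have hn : v (j : F) ≤ 1 := by
      clear h4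
      induction j with
      | zero => simp
      | succ m ih =>
        push_cast
        exact v.map_add_le ih (by rw [map_one])
    have h5 : 1 - ζ ^ j = -((ζ ^ j - 1 - j * (ζ - 1)) + j * (ζ - 1)) := by ring
    rw [h5, Valuation.map_neg]
    refine v.map_add_lt (h4.trans_lt ?_) ?_
    · rw [← WithZero.exp_zero, WithZero.exp_lt_exp]
      norm_num
    · rw [map_mul, hlam]
      calc v (j : F) * exp (-1 : ℤ) ≤ 1 * exp (-1 : ℤ) := by gcongr
        _ < 1 := by rw [one_mul]; exact Wl_exp_lt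
  rw [h2]
  exact v.map_sum_lt one_ne_zero fun j _ => h3 j

/-- step one -/
theorem Wl_write {F : Type*} [Field F] [NumberField F] (𝔓 : HeightOneSpectrum (𝓞 F)) {l : ℕ}
    (hl : l.Prime) {ζ : F} (hζ : IsPrimitiveRoot ζ l)
    (hlam : 𝔓.valuation F (ζ - 1) = exp (-1 : ℤ)) (u : F) (hu : 𝔓.valuation F u = 1) :
    ∃ (z : F) (a : 𝓞 F), 𝔓.valuation F z = 1 ∧
      𝔓.valuation F (u / z ^ l - 1 - a * (ζ - 1)) ≤ exp (-2 : ℤ) := by
  obtain ⟨v, hv⟩ : ∃ v, v = 𝔓.valuation F := ⟨_, rfl⟩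
  rw [← hv] at hlam hu ⊢
  obtain ⟨c, hc⟩ := Wl_int 𝔓 u (by rw [← hv, hu])
  rw [← hv] at hc
  have hlv := Wl_l hl hζ hlam
  have hlm : ((l : ℕ) : 𝓞 F) ∈ 𝔓.asIdeal := by
    have h : algebraMap (𝓞 F) F (l : 𝓞 F) = (l : F) := map_natCast _ _
    refine (HeightOneSpectrum.valuation_lt_one_iff_mem (K := F) 𝔓 _).1 ?_
    rw [← hv]
    change v (algebraMap (𝓞 F) F (l : 𝓞 F)) < 1
    rw [h]
    exact hlv
  have hmax := 𝔓.isMaximal
  let _ : Field (𝓞 F ⧸ 𝔓.asIdeal) := Ideal.Quotient.field 𝔓.asIdeal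
  have : Finite (𝓞 F ⧸ 𝔓.asIdeal) := 𝔓.asIdeal.finiteQuotientOfFreeOfNeBot 𝔓.ne_bot
  have : Fact l.Prime := ⟨hl⟩
  have : CharP (𝓞 F ⧸ 𝔓.asIdeal) l := by
    refine (CharP.charP_iff_prime_eq_zero hl).2 ?_
    have h := Ideal.Quotient.eq_zero_iff_mem.2 hlm
    rwa [map_natCast] at h
  obtain ⟨zb, hzb⟩ := (bijective_frobenius (𝓞 F ⧸ 𝔓.asIdeal) l).2
    (Ideal.Quotient.mk 𝔓.asIdeal c)
  obtain ⟨z, rfl⟩ := Ideal.Quotient.mk_surjective zb
  rw [frobenius_def, ← map_pow, Ideal.Quotient.eq] at hzb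
  have h1 : v (((z ^ l : 𝓞 F) : F) - c) < 1 := by
    have h := (HeightOneSpectrum.valuation_lt_one_iff_mem (K := F) 𝔓 _).2 hzb
    rw [← hv] at h
    have h' : algebraMap (𝓞 F) F (z ^ l - c) = ((z ^ l : 𝓞 F) : F) - c := map_sub _ _ _
    rw [← h']
    exact h
  have h2 : v ((z : F) ^ l - u) < 1 := by
    have h : (z : F) ^ l - u = (((z ^ l : 𝓞 F) : F) - c) - (u - c) := by
      push_cast
      ring
    rw [h]
    exact v.map_sub_lt h1 hc
  have h3 : v ((z : F) ^ l) = 1 := by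
    have h := v.map_add_eq_of_lt_right (x := (z : F) ^ l - u) (y := u) (by rw [hu]; exact h2)
    rw [sub_add_cancel, hu] at h
    exact h
  have h4 : v (z : F) = 1 := by
    rw [map_pow] at h3
    exact (pow_eq_one_iff.1 h3).resolve_right hl.ne_zero
  have hz0 : (z : F) ≠ 0 := by
    intro h
    rw [h, map_zero] at h4
    exact zero_ne_one h4
  have hπ0 : ζ - 1 ≠ 0 := by
    intro h
    rw [h, map_zero] at hlam
    exact (exp_ne_zero (M := Multiplicative ℤ)) hlam.symm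
  have h5 : v (u / (z : F) ^ l - 1) ≤ exp (-1 : ℤ) := by
    refine Wl_lt_one ?_
    have h : u / (z : F) ^ l - 1 = (u - (z : F) ^ l) / (z : F) ^ l := by
      field_simp
    rw [h, map_div₀, h3, div_one, Valuation.map_sub_swap]
    exact h2
  have h6 : v ((u / (z : F) ^ l - 1) / (ζ - 1)) ≤ 1 := by
    rw [map_div₀, hlam]
    exact div_le_one_of_le₀ h5 zero_le
  obtain ⟨a, ha⟩ := Wl_int 𝔓 ((u / (z : F) ^ l - 1) / (ζ - 1)) (by rw [← hv]; exact h6)
  rw [← hv] at ha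
  refine ⟨z, a, h4, ?_⟩
  have h7 : u / (z : F) ^ l - 1 - a * (ζ - 1) =
      ((u / (z : F) ^ l - 1) / (ζ - 1) - a) * (ζ - 1) := by
    field_simp
  rw [h7, map_mul, hlam]
  have h8 : (exp (-2 : ℤ) : WithZero (Multiplicative ℤ)) = exp (-1 : ℤ) * exp (-1 : ℤ) := by
    rw [← WithZero.exp_add]
    norm_num
  rw [h8]
  exact mul_le_mul' (Wl_lt_one ha) le_rfl

/-- step two -/
theorem Wl_rel {l : ℕ} {L F : Type} [Field L] [NumberField L] [Field F] [NumberField F]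
    [Algebra L F] {V : WeierstrassCurve L} {W : WeierstrassCurve F}
    {hV : V.map (algebraMap L F) = W} {T : W.toAffine.Point} {ζ : F} (H : DG l hV T ζ)
    {v : Valuation F (WithZero (Multiplicative ℤ))} (hlam : v (ζ - 1) = exp (-1 : ℤ))
    (hint : ∀ a : 𝓞 F, v (a : F) ≤ 1) (δ : F ≃ₐ[L] F)
    (hδ : ∀ y, v (δ y) = v y) : ∃ n w₀ : ℕ, ¬ l ∣ w₀ ∧ ∀ (u : F) (z : F) (a : 𝓞 F),
      Eig l hV T ζ u → v z = 1 → v (u / z ^ l - 1 - a * (ζ - 1)) ≤ exp (-2 : ℤ) →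
      v (w₀ * δ a - n * a) < 1 := by
  obtain ⟨w₀, hw₀, hlw⟩ := H.cyc δ
  obtain ⟨c, hc, hlc⟩ := H.chi δ
  have hcop : Nat.Coprime c l := ((Nat.Prime.coprime_iff_not_dvd H.prime).2 hlc).symm
  obtain ⟨n, hcn⟩ : ∃ n, c * n ≡ w₀ [MOD l] := by
    obtain ⟨m, -, hm⟩ := Nat.exists_mul_mod_eq_one_of_coprime hcop H.prime.one_lt
    refine ⟨m * w₀, ?_⟩
    have h1 : c * m ≡ 1 [MOD l] := by
      show c * m % l = 1 % l
      rw [hm, Nat.mod_eq_of_lt H.prime.one_lt]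
    have h2 := h1.mul_right w₀
    rwa [one_mul, mul_assoc] at h2
  refine ⟨n, w₀, hlw, fun u z a hE hz hx => ?_⟩
  have hl3 : 3 ≤ l := by
    have h2 := H.prime.two_le
    have h3 := H.odd
    omega
  have he2 : (exp (-2 : ℤ) : WithZero (Multiplicative ℤ)) = exp (-1 : ℤ) * exp (-1 : ℤ) := by
    rw [← WithZero.exp_add]
    norm_num
  have he21 : (exp (-2 : ℤ) : WithZero (Multiplicative ℤ)) ≤ exp (-1 : ℤ) := by
    rw [WithZero.exp_le_exp]
    norm_num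
  obtain ⟨x, hxd⟩ : ∃ x, x = u / z ^ l := ⟨_, rfl⟩
  rw [← hxd] at hx
  have hx1 : v (x - 1) ≤ exp (-1 : ℤ) := by
    have h : x - 1 = (x - 1 - a * (ζ - 1)) + a * (ζ - 1) := by ring
    rw [h]
    refine v.map_add_le (hx.trans he21) ?_
    rw [map_mul, hlam]
    calc v (a : F) * exp (-1 : ℤ) ≤ 1 * exp (-1 : ℤ) := by gcongr; exact hint a
      _ = exp (-1 : ℤ) := one_mul _
  have h1 := eig_close H hlam hE δ hδ hc hw₀ hcn hz (by rw [← hxd]; exact hx1.trans_lt Wl_exp_lt)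
  rw [← hxd] at h1
  have h2 : v (δ x - x ^ n) ≤ exp (-2 : ℤ) := by
    refine h1.trans ?_
    rw [WithZero.exp_le_exp]
    omega
  have h3 := Wl_pow (v := v) hx1 n
  have h4 := Wl_pow (v := v) (y := ζ) hlam.le w₀
  have hn : ∀ m : ℕ, v (m : F) ≤ 1 := by
    intro m
    induction m with
    | zero => simp
    | succ m ih =>
      push_cast
      exact v.map_add_le ih (by rw [map_one])
  have h5 : v (δ (x - 1 - a * (ζ - 1))) ≤ exp (-2 : ℤ) := by
    rw [hδ]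
    exact hx
  have h6 : δ (x - 1 - a * (ζ - 1)) = δ x - 1 - δ a * (ζ ^ w₀ - 1) := by
    rw [map_sub, map_sub, map_mul, map_sub, map_one, hw₀]
  rw [h6] at h5
  have h7 : (w₀ * δ a - n * a) * (ζ - 1) =
      -(δ x - 1 - δ a * (ζ ^ w₀ - 1)) + (δ x - x ^ n) + (x ^ n - 1 - n * (x - 1)) +
      n * (x - 1 - a * (ζ - 1)) - δ a * (ζ ^ w₀ - 1 - w₀ * (ζ - 1)) := by ring
  have h8 : v ((w₀ * δ a - n * a) * (ζ - 1)) ≤ exp (-2 : ℤ) := by
    rw [h7]
    refine v.map_sub_le (v.map_add_le (v.map_add_le (v.map_add_le ?_ h2) h3) ?_) ?_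
    · rw [Valuation.map_neg]
      exact h5
    · rw [map_mul]
      exact (mul_le_mul' (hn n) hx).trans (one_mul _).le
    · rw [map_mul, hδ]
      exact (mul_le_mul' (hint a) h4).trans (one_mul _).le
  rw [map_mul, hlam, he2] at h8
  have h9 : v (w₀ * δ a - n * a) ≤ exp (-1 : ℤ) := by
    have hpos : (0 : WithZero (Multiplicative ℤ)) < exp (-1 : ℤ) := zero_lt_iff.2 exp_ne_zero
    exact le_of_mul_le_mul_right h8 hpos
  exact h9.trans_lt Wl_exp_lt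

/-- the decomposition group preserves the valuation -/
theorem Wl_stab {L F : Type} [Field L] [NumberField L] [Field F] [NumberField F]
    [Algebra L F] (𝔓 : HeightOneSpectrum (𝓞 F)) (g : F ≃ₐ[L] F) (hg : g • 𝔓.asIdeal = 𝔓.asIdeal)
    (y : F) : 𝔓.valuation F (g y) = 𝔓.valuation F y := by
  obtain ⟨w', h1, -⟩ := Pool.Agent.H10.exists_conj g 𝔓
  have h2 : 𝔓 = w' := by
    apply HeightOneSpectrum.ext
    refine 𝔓.isMaximal.eq_of_le w'.isPrime.ne_top ?_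
    intro x hx
    have h3 : g • x ∈ 𝔓.asIdeal := by
      rw [← hg]
      exact Ideal.smul_mem_pointwise_smul g x 𝔓.asIdeal hx
    have h4 : 𝔓.valuation F ((g • x : 𝓞 F) : F) < 1 :=
      (HeightOneSpectrum.valuation_lt_one_iff_mem 𝔓 _).2 h3
    have h5 : ((g • x : 𝓞 F) : F) = g (x : F) := rfl
    rw [h5, h1] at h4
    exact (HeightOneSpectrum.valuation_lt_one_iff_mem w' _).1 h4
  rw [h1, ← h2]

/-- step three: the residues are on a line over the residue field of `L` -/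
theorem Wl_line {L F : Type} [Field L] [NumberField L] [Field F] [NumberField F]
    [Algebra L F] [IsGalois L F] (w : HeightOneSpectrum (𝓞 L)) (𝔓 : HeightOneSpectrum (𝓞 F))
    (hov : ∀ x : 𝓞 L, algebraMap (𝓞 L) (𝓞 F) x ∈ 𝔓.asIdeal ↔ x ∈ w.asIdeal)
    {ι : Type*} (a : ι → 𝓞 F)
    (h : ∀ g : F ≃ₐ[L] F, g • 𝔓.asIdeal = 𝔓.asIdeal → ∃ n m : ℕ, (m : 𝓞 F) ∉ 𝔓.asIdeal ∧
      ∀ i, (m : 𝓞 F) * g • (a i) - (n : 𝓞 F) * a i ∈ 𝔓.asIdeal) :
    ∃ (c : ι → 𝓞 L) (ρ : 𝓞 F), ∀ i, a i - algebraMap (𝓞 L) (𝓞 F) (c i) * ρ ∈ 𝔓.asIdeal := by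
  by_cases h0 : ∀ i, a i ∈ 𝔓.asIdeal
  · refine ⟨fun _ => 0, 0, fun i => ?_⟩
    rw [mul_zero, sub_zero]
    exact h0 i
  push Not at h0
  obtain ⟨i₀, hi₀⟩ := h0
  have hPmax := 𝔓.isMaximal
  have hwmax := w.isMaximal
  have hlo : 𝔓.asIdeal.LiesOver w.asIdeal := by
    constructor
    ext x
    exact (hov x).symm
  let _ : Field (𝓞 F ⧸ 𝔓.asIdeal) := Ideal.Quotient.field 𝔓.asIdeal
  let _ : Field (𝓞 L ⧸ w.asIdeal) := Ideal.Quotient.field w.asIdeal
  have : Finite (𝓞 F ⧸ 𝔓.asIdeal) := 𝔓.asIdeal.finiteQuotientOfFreeOfNeBot 𝔓.ne_bot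
  have : Finite (𝓞 L ⧸ w.asIdeal) := w.asIdeal.finiteQuotientOfFreeOfNeBot w.ne_bot
  have : IsGalois (𝓞 L ⧸ w.asIdeal) (𝓞 F ⧸ 𝔓.asIdeal) := inferInstance
  have : Algebra.IsInvariant (𝓞 L) (𝓞 F) (F ≃ₐ[L] F) := inferInstance
  have hsurj := Ideal.Quotient.stabilizerHom_surjective (F ≃ₐ[L] F) w.asIdeal 𝔓.asIdeal
  obtain ⟨ρ, hρ⟩ : ∃ ρ, ρ = Ideal.Quotient.mk 𝔓.asIdeal (a i₀) := ⟨_, rfl⟩
  have hρ0 : ρ ≠ 0 := by
    rw [hρ]
    exact fun hh => hi₀ (Ideal.Quotient.eq_zero_iff_mem.1 hh)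
  have key : ∀ i, ∃ c : 𝓞 L, a i - algebraMap (𝓞 L) (𝓞 F) c * a i₀ ∈ 𝔓.asIdeal := by
    intro i
    have h1 : Ideal.Quotient.mk 𝔓.asIdeal (a i) / ρ ∈
        Set.range (algebraMap (𝓞 L ⧸ w.asIdeal) (𝓞 F ⧸ 𝔓.asIdeal)) := by
      rw [IsGalois.mem_range_algebraMap_iff_fixed]
      intro f
      obtain ⟨g, hgf⟩ := hsurj f
      obtain ⟨n, m, hm, hnm⟩ := h g g.2
      have hm0 : Ideal.Quotient.mk 𝔓.asIdeal (m : 𝓞 F) ≠ 0 :=
        fun hh => hm (Ideal.Quotient.eq_zero_iff_mem.1 hh)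
      have e : ∀ j, Ideal.Quotient.mk 𝔓.asIdeal (m : 𝓞 F) * f (Ideal.Quotient.mk 𝔓.asIdeal (a j)) =
          Ideal.Quotient.mk 𝔓.asIdeal (n : 𝓞 F) * Ideal.Quotient.mk 𝔓.asIdeal (a j) := by
        intro j
        have h2 : f (Ideal.Quotient.mk 𝔓.asIdeal (a j)) =
            Ideal.Quotient.mk 𝔓.asIdeal ((g : F ≃ₐ[L] F) • a j) := by
          rw [← hgf]
          rfl
        rw [h2, ← map_mul, ← map_mul, Ideal.Quotient.eq]
        exact hnm j
      have e1 := e i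
      have e2 := e i₀
      rw [← hρ] at e2
      have hfρ : f ρ ≠ 0 := by
        intro hh
        exact hρ0 (f.injective (by rw [hh, map_zero]))
      rw [map_div₀, div_eq_div_iff hfρ hρ0]
      refine mul_left_cancel₀ hm0 ?_
      linear_combination ρ * e1 - Ideal.Quotient.mk 𝔓.asIdeal (a i) * e2
    obtain ⟨cb, hcb⟩ := h1
    obtain ⟨c, rfl⟩ := Ideal.Quotient.mk_surjective cb
    refine ⟨c, ?_⟩
    have h3 : algebraMap (𝓞 L ⧸ w.asIdeal) (𝓞 F ⧸ 𝔓.asIdeal) (Ideal.Quotient.mk w.asIdeal c) =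
        Ideal.Quotient.mk 𝔓.asIdeal (algebraMap (𝓞 L) (𝓞 F) c) := rfl
    rw [h3, eq_div_iff hρ0, hρ, ← map_mul, eq_comm, Ideal.Quotient.eq] at hcb
    exact hcb
  choose c hc using key
  exact ⟨c, a i₀, hc⟩

theorem line_pigeon {l : ℕ} {L F : Type} [Field L] [NumberField L] [Field F] [NumberField F]
    [Algebra L F] {V : WeierstrassCurve L} {W : WeierstrassCurve F}
    {hV : V.map (algebraMap L F) = W} {T : W.toAffine.Point} {ζ : F} (H : DG l hV T ζ)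
    (w : HeightOneSpectrum (𝓞 L)) (𝔓 : HeightOneSpectrum (𝓞 F))
    (hov : ∀ x : 𝓞 L, algebraMap (𝓞 L) (𝓞 F) x ∈ 𝔓.asIdeal ↔ x ∈ w.asIdeal)
    (hlam : 𝔓.valuation F (ζ - 1) = exp (-1 : ℤ))
    (u : Fin (Ideal.absNorm w.asIdeal + 1) → F) (hu : ∀ i, 𝔓.valuation F (u i) = 1)
    (hE : ∀ i, Eig l hV T ζ (u i)) :
    ∃ i j, i ≠ j ∧ Lv (𝔓.valuation F) l 2 (u i / u j) := by
  have hgal := H.gal
  have hP : ∀ x : 𝓞 F, x ∈ 𝔓.asIdeal ↔ 𝔓.valuation F (x : F) < 1 := fun x =>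
    (HeightOneSpectrum.valuation_lt_one_iff_mem 𝔓 x).symm
  have hint : ∀ a : 𝓞 F, 𝔓.valuation F (a : F) ≤ 1 := fun a => 𝔓.valuation_le_one a
  choose z a hz ha using fun i => Wl_write 𝔓 H.prime H.prim hlam (u i) (hu i)
  have hlv := Wl_l H.prime H.prim hlam
  obtain ⟨c, ρ, hc⟩ := Wl_line (L := L) w 𝔓 hov a (by
    intro g hg
    obtain ⟨n, m, hm, hr⟩ := Wl_rel H hlam hint g (Wl_stab 𝔓 g hg)
    refine ⟨n, m, ?_, fun i => ?_⟩
    · intro hmem
      have hcop : Nat.Coprime l m := (Nat.Prime.coprime_iff_not_dvd H.prime).2 hm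
      have h1 : (IsCoprime (l : ℤ) (m : ℤ)) := Nat.isCoprime_iff_coprime.2 hcop
      obtain ⟨x, y, hxy⟩ := h1
      have hlm : ((l : ℕ) : 𝓞 F) ∈ 𝔓.asIdeal := by
        rw [hP]
        have h : ((l : 𝓞 F) : F) = (l : F) := map_natCast (algebraMap (𝓞 F) F) l
        rw [h]
        exact hlv
      have h2 : (x : 𝓞 F) * (l : 𝓞 F) + (y : 𝓞 F) * (m : 𝓞 F) = 1 := by
        have h3 := congrArg (Int.cast : ℤ → 𝓞 F) hxy
        push_cast at h3
        exact h3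
      apply 𝔓.isPrime.ne_top
      rw [Ideal.eq_top_iff_one, ← h2]
      exact Ideal.add_mem _ (Ideal.mul_mem_left _ _ hlm) (Ideal.mul_mem_left _ _ hmem)
    · rw [hP]
      have h1 := hr (u i) (z i) (a i) (hE i) (hz i) (ha i)
      have h2 : (((m : 𝓞 F) * g • (a i) - (n : 𝓞 F) * a i : 𝓞 F) : F) =
          m * g (a i : F) - n * (a i : F) := by
        have h3 : ((g • (a i) : 𝓞 F) : F) = g (a i : F) := rfl
        have h4 : ((m : 𝓞 F) : F) = (m : F) := map_natCast (algebraMap (𝓞 F) F) m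
        have h5 : ((n : 𝓞 F) : F) = (n : F) := map_natCast (algebraMap (𝓞 F) F) n
        rw [← h3, ← h4, ← h5]
        push_cast
        rfl
      rw [h2]
      exact h1)
  have hfin : Finite (𝓞 L ⧸ w.asIdeal) := w.asIdeal.finiteQuotientOfFreeOfNeBot w.ne_bot
  obtain ⟨i, j, hij, hcij⟩ : ∃ i j, i ≠ j ∧
      Ideal.Quotient.mk w.asIdeal (c i) = Ideal.Quotient.mk w.asIdeal (c j) := by
    by_contra hno
    push Not at hno
    have h1 : Ideal.absNorm w.asIdeal = Nat.card (𝓞 L ⧸ w.asIdeal) := by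
      rw [Ideal.absNorm_apply, Submodule.cardQuot_apply]
    have h2 : Function.Injective (fun i => Ideal.Quotient.mk w.asIdeal (c i)) := by
      intro i j hh
      by_contra hne
      exact hno i j hne hh
    have h3 := Nat.card_le_card_of_injective _ h2
    rw [Nat.card_fin, h1] at h3
    omega
  refine ⟨i, j, hij, z i / z j, ?_, ?_⟩
  · rw [map_div₀, hz, hz, div_one]
  have h1 : a i - a j ∈ 𝔓.asIdeal := by
    have h2 : algebraMap (𝓞 L) (𝓞 F) (c i - c j) ∈ 𝔓.asIdeal :=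
      (hov _).2 ((Ideal.Quotient.eq).1 hcij)
    have h3 : a i - a j = (a i - algebraMap (𝓞 L) (𝓞 F) (c i) * ρ) -
        (a j - algebraMap (𝓞 L) (𝓞 F) (c j) * ρ) + algebraMap (𝓞 L) (𝓞 F) (c i - c j) * ρ := by
      rw [map_sub]
      ring
    rw [h3]
    exact Ideal.add_mem _ (Ideal.sub_mem _ (hc i) (hc j)) (Ideal.mul_mem_right _ _ h2)
  rw [hP] at h1
  have h4 : (((a i - a j : 𝓞 F)) : F) = (a i : F) - (a j : F) := map_sub (algebraMap (𝓞 F) F) _ _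
  rw [h4] at h1
  obtain ⟨v, hv⟩ : ∃ v, v = 𝔓.valuation F := ⟨_, rfl⟩
  simp only [← hv] at hlam hu hint hz ha h1 ⊢
  have hzi0 : ∀ i, z i ≠ 0 := by
    intro i h
    have h5 := hz i
    rw [h, map_zero] at h5
    exact zero_ne_one h5
  have hui0 : ∀ i, u i ≠ 0 := by
    intro i h
    have h5 := hu i
    rw [h, map_zero] at h5
    exact zero_ne_one h5
  have hxj : v (u j / z j ^ l) = 1 := by
    rw [map_div₀, map_pow, hz, hu, one_pow, div_one]
  have h5 : v (u i / z i ^ l - u j / z j ^ l) ≤ exp (-2 : ℤ) := by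
    have h6 : u i / z i ^ l - u j / z j ^ l = (u i / z i ^ l - 1 - a i * (ζ - 1)) -
        (u j / z j ^ l - 1 - a j * (ζ - 1)) + ((a i : F) - a j) * (ζ - 1) := by ring
    rw [h6]
    refine v.map_add_le (v.map_sub_le (ha i) (ha j)) ?_
    rw [map_mul, hlam]
    have h8 : (exp (-2 : ℤ) : WithZero (Multiplicative ℤ)) = exp (-1 : ℤ) * exp (-1 : ℤ) := by
      rw [← WithZero.exp_add]
      norm_num
    rw [h8]
    exact mul_le_mul' (Wl_lt_one h1) le_rfl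
  have h7 : u i / u j / (z i / z j) ^ l - 1 =
      (u i / z i ^ l - u j / z j ^ l) / (u j / z j ^ l) := by
    have e1 := hzi0 i
    have e2 := hzi0 j
    have e3 := hui0 j
    rw [div_pow]
    field_simp
  rw [h7, map_div₀, hxj, div_one]
  exact h5

end H86G
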