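import Pool.Agent.H86.T4G.Wd

/-!
Row Wo (about 150 lines): the level `l`.

`v := 𝔓.valuation F`, `π := ζ - 1`, `k := 𝓞 F ⧸ 𝔓.asIdeal` finite of characteristic `l`. `v l = exp (-(l-1))`: `l = ∏_{0<k<l} (1 - ζ^k)`, `v (1 - ζ^k) = v (1 - ζ)` (see pow_val in Rt.lean, which is about valuation subrings). `ε := l / π^(l-1)`, `v ε = 1`.
PROOF. `x i = z_i^l (1 + b_i π^l)`, `v b_i ≤ 1`; residues `b̄_i ∈ k` (every `b` with `v b ≤ 1` is congruent to an element of `𝓞 F` modulo the maximal ideal: `b = a / c` with `c ∉ 𝔓`, invert `c` modulo `𝔓`).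
 The additive map `s ↦ s^l + ε̄ s` of `k` (Frobenius is additive) has a kernel with at most `l` elements (roots of the nonzero polynomial `X^l + ε̄ X`), so its range `M` has index at most `l` in `k`. By pigeonhole (`l + 1` indices, Finite quotient `k ⧸ M` with at most `l` elements) there are `i ≠ j` and `s ∈ 𝓞 F` with `b̄_i - b̄_j = s̄^l + ε̄ s̄`.
 `(1 + s π)^l = 1 + l s π + ∑_{2 ≤ t < l} C(l,t) s^t π^t + s^l π^l`, the middle terms have valuation at most `v l * v π^2 = exp (-(l+1))` (`l ∣ C(l,t)`), `l s π = ε s π^l`, so `(1 + s π)^l ≡ 1 + (b_i - b_j) π^l` modulo `exp (-(l+1))`, and `(1 + b_i π^l) / (1 + b_j π^l) ≡ 1 + (b_i - b_j) π^l` as well. So `x i / x j = (z_i (1 + s π) / z_j)^l * X` with `v (X - 1) ≤ exp (-(l+1))`.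
-/

set_option autoImplicit false
open scoped Classical

open WithZero IsDedekindDomain NumberField

namespace H86G

theorem Wo_lt_one {a : WithZero (Multiplicative ℤ)} (h : a < 1) : a ≤ exp (-1 : ℤ) := by
  by_cases h0 : a = 0
  · rw [h0]
    exact zero_le
  · rw [← exp_log h0, ← exp_zero, exp_lt_exp] at h
    rw [← exp_log h0, exp_le_exp]
    omega

theorem Wo_root_one {F : Type*} [Field F] (v : Valuation F (WithZero (Multiplicative ℤ))) {z : F}
    {l : ℕ} (hl : l ≠ 0) (hz : z ^ l = 1) : v z = 1 := by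
  have h1 : v z ^ l = 1 := by rw [← map_pow, hz, map_one]
  exact (pow_eq_one_iff.1 h1).resolve_right hl

theorem Wo_pow_sub {F : Type*} [Field F] (v : Valuation F (WithZero (Multiplicative ℤ))) {y : F}
    (hy : v y ≤ 1) (m : ℕ) : v (y ^ m - 1) ≤ v (y - 1) := by
  rw [← geom_sum_mul, map_mul]
  have hy' : y ∈ v.integer := hy
  have h1 : v (∑ i ∈ Finset.range m, y ^ i) ≤ 1 := by
    have h2 : ∑ i ∈ Finset.range m, y ^ i ∈ v.integer :=
      sum_mem fun i _ => pow_mem hy' i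
    exact h2
  calc _ ≤ 1 * v (y - 1) := mul_le_mul_left h1 _
    _ = _ := one_mul _

theorem Wo_cyc {F : Type*} [Field F] (v : Valuation F (WithZero (Multiplicative ℤ))) {z : F}
    {l : ℕ} (hl : l.Prime) (hz : IsPrimitiveRoot z l) {k : ℕ} (hk : ¬ l ∣ k) :
    v (z ^ k - 1) = v (z - 1) := by
  have hz1 : v z = 1 := Wo_root_one v hl.ne_zero hz.pow_eq_one
  apply le_antisymm (Wo_pow_sub v hz1.le k)
  have hc : Nat.Coprime k l := ((Nat.Prime.coprime_iff_not_dvd hl).2 hk).symm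
  obtain ⟨m, -, hm⟩ := Nat.exists_mul_mod_eq_one_of_coprime hc hl.one_lt
  have h1 : (z ^ k) ^ m = z := by
    rw [← pow_mul, pow_eq_pow_mod (k * m) hz.pow_eq_one, hm, pow_one]
  calc v (z - 1) = v ((z ^ k) ^ m - 1) := by rw [h1]
    _ ≤ _ := Wo_pow_sub v (by rw [map_pow, hz1, one_pow]) m

theorem Wo_val {F : Type*} [Field F] (v : Valuation F (WithZero (Multiplicative ℤ))) {z : F}
    {l : ℕ} (hl : l.Prime) (hz : IsPrimitiveRoot z l) : v (l : F) = v (z - 1) ^ (l - 1) := by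
  obtain ⟨n, rfl⟩ : ∃ n, l = n + 1 := ⟨l - 1, by have := hl.pos; omega⟩
  have h1 := hz.prod_one_sub_pow_eq_order
  have h2 : (((n + 1 : ℕ)) : F) = ∏ k ∈ Finset.range n, (1 - z ^ (k + 1)) := by
    rw [h1]; push_cast; ring
  rw [h2, map_prod, Nat.add_sub_cancel]
  rw [Finset.prod_congr rfl (g := fun _ => v (z - 1)), Finset.prod_const,
    Finset.card_range]
  intro k hk
  rw [Finset.mem_range] at hk
  rw [Valuation.map_sub_swap]
  exact Wo_cyc v hl hz (fun hd => by have := Nat.le_of_dvd (Nat.succ_pos _) hd; omega)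

theorem Wo_pow_exp (a : ℤ) (n : ℕ) :
    (exp a : WithZero (Multiplicative ℤ)) ^ n = exp ((n : ℤ) * a) := by
  rw [← exp_nsmul, nsmul_eq_mul]

/-- The additive map `s ↦ s ^ l + e s` has at most `l` classes. -/
theorem Wo_hole {k : Type} [CommRing k] [IsDomain k] [Finite k] {l : ℕ} (hl : l.Prime)
    (hc : (l : k) = 0) (e : k) (β : Fin (l + 1) → k) :
    ∃ i j, i ≠ j ∧ ∃ s : k, β i - β j = s ^ l + e * s := by
  haveI : Fact l.Prime := ⟨hl⟩
  haveI : CharP k l := (CharP.charP_iff_prime_eq_zero hl).2 hc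
  obtain ⟨φ, hφ⟩ : ∃ φ : k →+ k, ∀ s, φ s = s ^ l + e * s := by
    refine ⟨AddMonoidHom.mk' (fun s => s ^ l + e * s) ?_, fun s => rfl⟩
    intro a b
    have h := map_add (frobenius k l) a b
    rw [frobenius_def, frobenius_def, frobenius_def] at h
    rw [h]
    ring
  have hker : Nat.card φ.ker ≤ l := by
    obtain ⟨p, hp⟩ : ∃ p : Polynomial k, p = Polynomial.X ^ l + Polynomial.C e * Polynomial.X :=
      ⟨_, rfl⟩
    have hdeg : (Polynomial.C e * Polynomial.X : Polynomial k).degree < (l : WithBot ℕ) := by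
      refine lt_of_le_of_lt (Polynomial.degree_C_mul_X_le e) ?_
      exact_mod_cast hl.one_lt
    have hpm : p.Monic := by
      rw [hp]
      exact Polynomial.monic_X_pow_add hdeg
    have hnd : p.natDegree = l := by
      rw [hp, Polynomial.natDegree_add_eq_left_of_degree_lt
        (by rw [Polynomial.degree_X_pow]; exact hdeg), Polynomial.natDegree_X_pow]
    have hsub : (φ.ker : Set k) ⊆ (p.roots.toFinset : Set k) := by
      intro s hs
      have hs' : φ s = 0 := hs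
      rw [hφ] at hs'
      simp only [Finset.mem_coe, Multiset.mem_toFinset]
      rw [Polynomial.mem_roots hpm.ne_zero, Polynomial.IsRoot.def, hp]
      simp [hs']
    have h1 : Nat.card φ.ker ≤ p.roots.toFinset.card := by
      have h2 : Nat.card (φ.ker : Set k) ≤ Nat.card (p.roots.toFinset : Set k) :=
        Nat.card_mono (Finset.finite_toSet _) hsub
      have h3 : Nat.card (p.roots.toFinset : Set k) = p.roots.toFinset.card := by
        rw [Nat.card_coe_set_eq, Set.ncard_coe_finset]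
      rw [h3] at h2
      exact h2
    exact h1.trans ((Multiset.toFinset_card_le _).trans ((Polynomial.card_roots' p).trans hnd.le))
  have hquot : Nat.card (k ⧸ φ.range) ≤ l := by
    have e1 := AddSubgroup.card_eq_card_quotient_mul_card_addSubgroup φ.range
    have e2 := AddSubgroup.card_eq_card_quotient_mul_card_addSubgroup φ.ker
    have e3 : Nat.card (k ⧸ φ.ker) = Nat.card φ.range :=
      Nat.card_congr (QuotientAddGroup.quotientKerEquivRange φ).toEquiv
    rw [e1, e3, mul_comm] at e2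
    have h4 : 0 < Nat.card φ.range := Nat.card_pos
    have h5 := Nat.eq_of_mul_eq_mul_left h4 e2
    rw [h5]
    exact hker
  by_contra hcon
  push Not at hcon
  have hinj : Function.Injective (fun i => (QuotientAddGroup.mk (β i) : k ⧸ φ.range)) := by
    intro i j hij
    by_contra hne
    have h1 : (QuotientAddGroup.mk (β j) : k ⧸ φ.range) = QuotientAddGroup.mk (β i) := hij.symm
    rw [QuotientAddGroup.eq] at h1
    obtain ⟨s, hs⟩ := h1
    rw [hφ] at hs
    exact hcon i j hne s (by rw [hs]; ring)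
  have h1 := Nat.card_le_card_of_injective _ hinj
  rw [Nat.card_eq_fintype_card, Fintype.card_fin] at h1
  omega

/-- The `l`-th power of `1 + s π`. -/
theorem Wo_bin {F : Type*} [Field F] (v : Valuation F (WithZero (Multiplicative ℤ))) {l : ℕ}
    (hl : l.Prime) {q ε s : F} (hq : v q = exp (-1 : ℤ)) (hlv : v (l : F) = exp (-((l : ℤ) - 1)))
    (hε : (l : F) = ε * q ^ (l - 1)) (hs : v s ≤ 1) :
    v ((1 + s * q) ^ l - 1 - (s ^ l + ε * s) * q ^ l) ≤ exp (-((l : ℤ) + 1)) := by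
  obtain ⟨n, rfl⟩ : ∃ n, l = n + 2 := ⟨l - 2, by have := hl.two_le; omega⟩
  have h1 : (1 + s * q) ^ (n + 2) - 1 - (s ^ (n + 2) + ε * s) * q ^ (n + 2)
      = ∑ t ∈ Finset.range n, (s * q) ^ (t + 2) * ((n + 2).choose (t + 2) : F) := by
    have h2 : (1 + s * q) ^ (n + 2) = ∑ m ∈ Finset.range (n + 3),
        (s * q) ^ m * ((n + 2).choose m : F) := by
      rw [add_comm, add_pow]
      apply Finset.sum_congr rfl
      intro m _
      rw [one_pow, mul_one]
    rw [h2, Finset.sum_range_succ, Finset.sum_range_succ', Finset.sum_range_succ']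
    have h3 : ((n + 2).choose (0 + 1) : F) = ε * q ^ (n + 1) := by
      rw [zero_add, Nat.choose_one_right]
      exact hε
    rw [h3, Nat.choose_zero_right, Nat.choose_self]
    have h4 : ∀ t, t + 1 + 1 = t + 2 := fun t => rfl
    simp only [h4, pow_zero, zero_add, pow_one, Nat.cast_one, mul_one]
    have h5 : (s * q) ^ (n + 2) = s ^ (n + 2) * q ^ (n + 2) := mul_pow _ _ _
    have h6 : q ^ (n + 2) = q * q ^ (n + 1) := by ring
    rw [h5, h6]
    ring
  rw [h1]
  apply Valuation.map_sum_le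
  intro t ht
  rw [Finset.mem_range] at ht
  have hdvd : (n + 2) ∣ (n + 2).choose (t + 2) :=
    hl.dvd_choose_self (by omega) (by omega)
  obtain ⟨c, hc⟩ := hdvd
  have hcv : v (c : F) ≤ 1 := by
    have h : (c : F) ∈ v.integer := natCast_mem _ c
    exact h
  rw [hc]
  push_cast
  rw [map_mul, map_mul, mul_pow, map_mul, map_pow, map_pow, hq, Wo_pow_exp]
  have hlv' : v ((n : F) + 2) = exp (-(((n : ℤ) + 2) - 1)) := by
    have h := hlv
    push_cast at h
    exact h
  rw [hlv']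
  have h7 : v s ^ (t + 2) ≤ 1 := pow_le_one' hs _
  calc v s ^ (t + 2) * exp (((t + 2 : ℕ) : ℤ) * -1) * (exp (-(((n : ℤ) + 2) - 1)) * v (c : F))
      ≤ 1 * exp (((t + 2 : ℕ) : ℤ) * -1) * (exp (-(((n : ℤ) + 2) - 1)) * 1) := by
        gcongr
    _ = exp (((t + 2 : ℕ) : ℤ) * -1 + -(((n : ℤ) + 2) - 1)) := by
        rw [one_mul, mul_one, exp_add]
    _ ≤ _ := by
        rw [exp_le_exp]
        push_cast
        linarith

theorem top_pigeon {F : Type} [Field F] [NumberField F] (𝔓 : HeightOneSpectrum (𝓞 F)) {l : ℕ}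
    (hl : l.Prime) {ζ : F} (hζ : IsPrimitiveRoot ζ l)
    (hlam : 𝔓.valuation F (ζ - 1) = exp (-1 : ℤ)) (x : Fin (l + 1) → F)
    (hx : ∀ i, Lv (𝔓.valuation F) l l (x i)) :
    ∃ i j, i ≠ j ∧ Lv (𝔓.valuation F) l (l + 1) (x i / x j) := by
  obtain ⟨v, hv⟩ : ∃ v : Valuation F (WithZero (Multiplicative ℤ)), v = 𝔓.valuation F := ⟨_, rfl⟩
  obtain ⟨q, hq⟩ : ∃ q : F, q = ζ - 1 := ⟨_, rfl⟩
  rw [← hv, ← hq] at hlam
  rw [← hv] at hx
  have hl2 := hl.two_le
  have hq0 : q ≠ 0 := by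
    intro h
    rw [h, map_zero] at hlam
    exact exp_ne_zero hlam.symm
  have hqp : ∀ n : ℕ, v (q ^ n) = exp (-(n : ℤ)) := by
    intro n
    rw [map_pow, hlam, Wo_pow_exp, mul_neg, mul_one]
  have hlv : v (l : F) = exp (-((l : ℤ) - 1)) := by
    rw [Wo_val v hl hζ, ← hq, ← map_pow, hqp, Nat.cast_sub hl.one_le, Nat.cast_one]
  obtain ⟨ε, hεd⟩ : ∃ ε : F, ε = (l : F) / q ^ (l - 1) := ⟨_, rfl⟩
  have hε : (l : F) = ε * q ^ (l - 1) := by
    rw [hεd, div_mul_cancel₀ _ (pow_ne_zero _ hq0)]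
  have hεv : v ε = 1 := by
    rw [hεd, map_div₀, hlv, hqp, Nat.cast_sub hl.one_le, Nat.cast_one]
    exact div_self exp_ne_zero
  choose z hz hb using hx
  obtain ⟨b, hbd⟩ : ∃ b : Fin (l + 1) → F, ∀ i, x i / z i ^ l = 1 + b i * q ^ l := by
    refine ⟨fun i => (x i / z i ^ l - 1) / q ^ l, fun i => ?_⟩
    rw [div_mul_cancel₀ _ (pow_ne_zero _ hq0)]
    ring
  have hbv : ∀ i, v (b i) ≤ 1 := by
    intro i
    have h1 := hb i
    rw [hbd i, add_sub_cancel_left, map_mul, hqp] at h1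
    have h2 : v (b i) * exp (-(l : ℤ)) ≤ 1 * exp (-(l : ℤ)) := by
      rw [one_mul]
      exact h1
    exact le_of_mul_le_mul_right h2 (exp_pos)
  have happ : ∀ y : F, v y ≤ 1 → ∃ a : 𝓞 F, v ((a : F) - y) < 1 := by
    intro y hy
    rw [hv] at hy ⊢
    obtain ⟨a, ha⟩ := HeightOneSpectrum.exists_valuation_sub_lt_of_integer 𝔓 hy 1
    exact ⟨a, ha⟩
  choose β hβ using fun i => happ (b i) (hbv i)
  obtain ⟨e, he⟩ := happ ε hεv.le
  haveI : Finite (𝓞 F ⧸ 𝔓.asIdeal) := Ideal.finiteQuotientOfFreeOfNeBot 𝔓.asIdeal 𝔓.ne_bot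
  haveI : 𝔓.asIdeal.IsPrime := 𝔓.isPrime
  have hlk : ((l : ℕ) : 𝓞 F ⧸ 𝔓.asIdeal) = 0 := by
    have h1 : (l : 𝓞 F) ∈ 𝔓.asIdeal := by
      rw [← HeightOneSpectrum.valuation_lt_one_iff_mem (K := F), ← hv]
      have h2 : v ((l : 𝓞 F) : F) < 1 := by
        have h3 : ((l : 𝓞 F) : F) = (l : F) := by simp
        rw [h3, hlv, ← exp_zero, exp_lt_exp]
        omega
      exact h2
    have h3 := (Ideal.Quotient.eq_zero_iff_mem).2 h1
    rwa [map_natCast] at h3
  obtain ⟨i, j, hij, s', hs'⟩ := Wo_hole hl hlk (Ideal.Quotient.mk 𝔓.asIdeal e)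
    (fun i => Ideal.Quotient.mk 𝔓.asIdeal (β i))
  obtain ⟨s0, rfl⟩ := Ideal.Quotient.mk_surjective s'
  have hmem : β i - β j - (s0 ^ l + e * s0) ∈ 𝔓.asIdeal := by
    rw [← Ideal.Quotient.eq_zero_iff_mem]
    simp only [map_sub, map_add, map_mul, map_pow]
    rw [hs', sub_self]
  have hmem2 : v (((β i - β j - (s0 ^ l + e * s0) : 𝓞 F)) : F) < 1 := by
    rw [hv]
    exact (HeightOneSpectrum.valuation_lt_one_iff_mem (K := F) 𝔓 _).2 hmem
  obtain ⟨s, hsd⟩ : ∃ s : F, s = (s0 : F) := ⟨_, rfl⟩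
  have hsv : v s ≤ 1 := by
    rw [hsd, hv]
    exact 𝔓.valuation_le_one s0
  obtain ⟨d, hd⟩ : ∃ d : F, d = b i - b j := ⟨_, rfl⟩
  have hdv : v d ≤ 1 := by
    rw [hd]
    exact (v.map_sub _ _).trans (max_le (hbv i) (hbv j))
  have hclose : v (d - (s ^ l + ε * s)) < 1 := by
    have h1 : d - (s ^ l + ε * s) = (((β i - β j - (s0 ^ l + e * s0) : 𝓞 F)) : F)
        - ((β i : F) - b i) + ((β j : F) - b j) + ((e : F) - ε) * s := by
      rw [hd, hsd]
      push_cast
      ring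
    rw [h1]
    have h2 : v (((e : F) - ε) * s) < 1 := by
      rw [map_mul]
      exact mul_lt_one_of_lt_of_le he hsv
    exact v.map_add_lt (v.map_add_lt (v.map_sub_lt hmem2 (hβ i)) (hβ j)) h2
  obtain ⟨u, hu⟩ : ∃ u : F, u = 1 + s * q := ⟨_, rfl⟩
  have hbin := Wo_bin v hl hlam hlv hε hsv
  rw [← hu] at hbin
  have hE : v (u ^ l - 1 - d * q ^ l) ≤ exp (-((l : ℤ) + 1)) := by
    have h1 : u ^ l - 1 - d * q ^ l = (u ^ l - 1 - (s ^ l + ε * s) * q ^ l)
        - (d - (s ^ l + ε * s)) * q ^ l := by ring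
    rw [h1]
    refine (v.map_sub _ _).trans (max_le hbin ?_)
    rw [map_mul, hqp]
    calc v (d - (s ^ l + ε * s)) * exp (-(l : ℤ)) ≤ exp (-1 : ℤ) * exp (-(l : ℤ)) :=
          mul_le_mul_left (Wo_lt_one hclose) _
      _ = exp (-((l : ℤ) + 1)) := by
          rw [← exp_add]
          congr 1
          ring
  have hsm : ∀ y : F, v y ≤ 1 → v (y * q ^ l) < 1 := by
    intro y hy
    rw [map_mul, hqp]
    calc v y * exp (-(l : ℤ)) ≤ 1 * exp (-(l : ℤ)) := mul_le_mul_left hy _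
      _ < 1 := by
        rw [one_mul, ← exp_zero, exp_lt_exp]
        omega
  have hone : ∀ y : F, v y ≤ 1 → v (1 + y * q ^ l) = 1 := by
    intro y hy
    rw [Valuation.map_add_eq_of_lt_left v (by rw [map_one]; exact hsm y hy), map_one]
  have huv : v u = 1 := by
    have h1 : v (s * q) < 1 := by
      rw [map_mul, hlam]
      calc v s * exp (-1 : ℤ) ≤ 1 * exp (-1 : ℤ) := mul_le_mul_left hsv _
        _ < 1 := by
          rw [one_mul, ← exp_zero, exp_lt_exp]
          omega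
    rw [hu, Valuation.map_add_eq_of_lt_left v (by rw [map_one]; exact h1), map_one]
  have hu0 : u ≠ 0 := by
    intro h
    rw [h, map_zero] at huv
    exact zero_ne_one huv
  have hz0 : ∀ i, z i ≠ 0 := by
    intro i h
    have h1 := hz i
    rw [h, map_zero] at h1
    exact zero_ne_one h1
  obtain ⟨B, hB⟩ : ∃ B : F, B = 1 + b j * q ^ l := ⟨_, rfl⟩
  have hBv : v B = 1 := by
    rw [hB]
    exact hone _ (hbv j)
  have hB0 : B ≠ 0 := by
    intro h
    rw [h, map_zero] at hBv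
    exact zero_ne_one hBv
  have hxi : x i = (1 + b i * q ^ l) * z i ^ l := by
    rw [← hbd i, div_mul_cancel₀ _ (pow_ne_zero _ (hz0 i))]
  have hxj : x j = B * z j ^ l := by
    rw [hB, ← hbd j, div_mul_cancel₀ _ (pow_ne_zero _ (hz0 j))]
  refine ⟨i, j, hij, z i * u / z j, ?_, ?_⟩
  · rw [← hv, map_div₀, map_mul, hz i, hz j, huv, mul_one, div_one]
  · rw [← hv]
    have h1 : x i / x j / (z i * u / z j) ^ l - 1
        = -((b j * d * q ^ l) * q ^ l + (u ^ l - 1 - d * q ^ l) * B) / (B * u ^ l) := by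
      rw [hxi, hxj, div_pow, mul_pow]
      have g1 := pow_ne_zero l (hz0 i)
      have g2 := pow_ne_zero l (hz0 j)
      have g3 := pow_ne_zero l hu0
      field_simp
      rw [hd]
      rw [hB]
      ring
    rw [h1, map_div₀, Valuation.map_neg, map_mul v B, map_pow v u, hBv, huv, one_pow, mul_one,
      div_one]
    push_cast
    refine (v.map_add _ _).trans (max_le ?_ ?_)
    · rw [map_mul, hqp]
      calc v (b j * d * q ^ l) * exp (-(l : ℤ)) ≤ exp (-1 : ℤ) * exp (-(l : ℤ)) := by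
            apply mul_le_mul_left
            apply Wo_lt_one
            apply hsm
            rw [map_mul]
            exact mul_le_one' (hbv j) hdv
        _ = exp (-((l : ℤ) + 1)) := by
            rw [← exp_add]
            congr 1
            ring
    · rw [map_mul, hBv, mul_one]
      exact hE

end H86G
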