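import Pool.Agent.H86.T4G.Wj
import Pool.Agent.H86.T4G.Gx
import Pool.Agent.H11.Local

/-!
Row Wt (about 80 lines): inertia acts trivially on `T` if `T` is not in the kernel of reduction. Use only the STATEMENTS of Wj, Gx.

PROOF. `B := (𝔓.valuation F).valuationSubring`; `B.valuation a < 1 ↔ 𝔓.valuation F a < 1`, `≤`, `= 1` (Valuation.isEquiv_valuation_valuationSubring). `Integral B W`, `B.valuation W.Δ = 1`. `T = some x y` with `x ∈ B`, so `y ∈ B` (y_mem). `gp hV τ T = some (τ x) (τ y)`; `B.valuation (τ x - x) < 1`, `B.valuation (τ y - y) < 1` (inI_val), so `gp hV τ T - T ∈ E₁` (inE1_sub; its arguments are the two points in either order).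
 `gp hV τ T = c • T` with `c ≥ 1` (stab; replace `c` by `c + l`). So `(c - 1) • T ∈ E₁`. If `l ∤ c - 1` there is `m` with `m (c - 1) ≡ 1` modulo `l`, so `T = m • ((c - 1) • T) ∈ E₁` (InE1.smul), which is impossible: `T ≠ 0`, `x ∈ B`. So `l ∣ c - 1`, `gp hV τ T = T`.
-/

set_option autoImplicit false
open scoped Classical

open WithZero WeierstrassCurve IsDedekindDomain NumberField Pool.Agent.H10 Pool.Agent.H11 H78D

namespace H86G

theorem inert_T {l : ℕ} {L F : Type} [Field L] [NumberField L] [Field F] [NumberField F]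
    [Algebra L F] {V : WeierstrassCurve L} {W : WeierstrassCurve F}
    {hV : V.map (algebraMap L F) = W} {T : W.toAffine.Point} {ζ : F} (H : DG l hV T ζ)
    (𝔓 : HeightOneSpectrum (𝓞 F))
    (hgood : 𝔓.valuation F W.a₁ ≤ 1 ∧ 𝔓.valuation F W.a₂ ≤ 1 ∧ 𝔓.valuation F W.a₃ ≤ 1 ∧
      𝔓.valuation F W.a₄ ≤ 1 ∧ 𝔓.valuation F W.a₆ ≤ 1 ∧ 𝔓.valuation F W.Δ = 1)
    (hT : ∃ x y hxy, T = Affine.Point.some x y hxy ∧ 𝔓.valuation F x ≤ 1)
    {τ : F ≃ₐ[L] F} (hτ : InI 𝔓 τ) : gp hV τ T = T := by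
  obtain ⟨x, y, hxy, rfl, hx⟩ := hT
  haveI := H.ell
  set v := 𝔓.valuation F with hv
  set B := v.valuationSubring with hB
  have hle : ∀ a, a ∈ B ↔ v a ≤ 1 := fun a => Valuation.mem_valuationSubring_iff _ _
  have hlt : ∀ a, v a < 1 → B.valuation a < 1 := fun a ha =>
    (v.isEquiv_valuation_valuationSubring.lt_one_iff_lt_one).1 ha
  have hone : B.valuation W.Δ = 1 :=
    (v.isEquiv_valuation_valuationSubring.eq_one_iff_eq_one).1 hgood.2.2.2.2.2
  have hW : Integral B W := ⟨(hle _).2 hgood.1, (hle _).2 hgood.2.1, (hle _).2 hgood.2.2.1,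
    (hle _).2 hgood.2.2.2.1, (hle _).2 hgood.2.2.2.2.1⟩
  have hxB : x ∈ B := (hle _).2 hx
  have hyB : y ∈ B := y_mem hW hxB hxy.1
  have hτv := inI_val hτ
  have hτx : τ x ∈ B := (hle _).2 (by rw [hv, hτv.1 x]; exact hx)
  have hsub : InE1 B W (gp hV τ (Affine.Point.some x y hxy) - Affine.Point.some x y hxy) :=
    inE1_sub hW hone _ hxy hτx hxB (hlt _ (hτv.2 x hx)) (hlt _ (hτv.2 y ((hle _).1 hyB)))
  obtain ⟨c, hc⟩ := H.stab τ
  have hd : gp hV τ (Affine.Point.some x y hxy) - Affine.Point.some x y hxy =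
      (c + (l - 1)) • (Affine.Point.some x y hxy : W.toAffine.Point) := by
    rw [hc, sub_eq_iff_eq_add, ← succ_nsmul, add_assoc, Nat.sub_add_cancel H.prime.one_le,
      add_nsmul, H.Tl, add_zero]
  by_cases hdvd : l ∣ c + (l - 1)
  · rw [← sub_eq_zero, hd]
    obtain ⟨k, hk⟩ := hdvd
    rw [hk, mul_comm, mul_nsmul', H.Tl, nsmul_zero]
  · exfalso
    have hcop : Nat.Coprime (c + (l - 1)) l :=
      ((Nat.Prime.coprime_iff_not_dvd H.prime).2 hdvd).symm
    obtain ⟨m, -, hm⟩ := Nat.exists_mul_mod_eq_one_of_coprime hcop H.prime.one_lt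
    have h1 : ((c + (l - 1)) * m) • (Affine.Point.some x y hxy : W.toAffine.Point) =
        1 • (Affine.Point.some x y hxy : W.toAffine.Point) := by
      rw [smul_iff H.prime H.T0 H.Tl]
      show _ % l = 1 % l
      rw [hm, Nat.mod_eq_of_lt H.prime.one_lt]
    rw [one_nsmul, mul_nsmul, ← hd] at h1
    have h2 : InE1 B W (Affine.Point.some x y hxy : W.toAffine.Point) := by
      rw [← h1]
      exact (InE1.smul hW hsub m).1
    rcases h2 with h3 | ⟨x', y', h', h4, h5⟩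
    · exact H.T0 h3
    · rw [Affine.Point.some.injEq] at h4
      rw [← h4.1] at h5
      exact h5 hxB

end H86G
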