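import Pool.Agent.H86.T4G.Wi
import Pool.Agent.H86.T4G.Wt
import Pool.Agent.H86.T4G.Wl
import Pool.Agent.H86.T4G.Wo

/-!
Row Wp (about 120 lines): units at a place above `l` where `T` is not in the kernel of reduction. Use only the STATEMENTS of Wi, Wt, Wk, Wl, Wo, Rt, Lb, Da.

PROOF. `v := 𝔓.valuation F`. ram_l: `v (ζ - 1) = exp (-1)`, `τ`, `m`; inert_T: `gp hV τ T = T`.
 eig_div: if `x, y` satisfy Eig and are nonzero then `x / y` does (`(x^n a^l) / (y^n b^l)`).
 lv_mul, lv_div: Lv v l i is closed under products and quotients (of elements with `v = 1`): `x / z^l - 1`, `y / z'^l - 1` small implies `(x y) / (z z')^l - 1` small, etc. Lv 1-elements have `v x = 1` for `i ≥ 1`.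
 Pigeonhole in two steps. `N := Ideal.absNorm w.asIdeal`. Relation `i ~ j` iff Lv v l 2 (u i / u j) (an equivalence relation on `Fin (l * N + 1)`). There are at most `N` classes (line_pigeon applied to representatives of `N + 1` classes; Fin (N + 1) → representatives), so some class has at least `l + 1` elements (Fintype.exists_lt_card_fiber_of_mul_lt_card or Finset.exists_lt_card_fiber...). Choose `l + 1` different indices `i_0, ..., i_l` in it and put `x s := u (i_s) / u (i_0)`: Eig, Lv 2, so Lv l by kill. top_pigeon: `s ≠ t` with Lv v l (l + 1) (x s / x t), `x s / x t = u (i_s) / u (i_t) = z^l X`, `v (X - 1) ≤ exp (-(l+1)) < exp (-l) = v (l (ζ - 1))` (`v l = v (ζ-1)^(l-1)`, see pow_val with LS.val_eq). rt_close: RT for `X`, and RT for `z^l X` (rt_mul, rt_pow).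
-/

set_option autoImplicit false
open scoped Classical

open WithZero WeierstrassCurve IsDedekindDomain NumberField Pool.Agent.H10 Pool.Agent.H11 H78D

namespace H86G

private lemma Wp_lv_one {F : Type} [Field F] {v : Valuation F (WithZero (Multiplicative ℤ))}
    (l i : ℕ) : Lv v l i (1 : F) := by
  refine ⟨1, map_one v, ?_⟩
  rw [one_pow, div_one, sub_self, map_zero]
  exact zero_le

private lemma Wp_lv_mul {F : Type} [Field F] {v : Valuation F (WithZero (Multiplicative ℤ))}
    {l i : ℕ} {x y : F} (hx : v x = 1) (h1 : Lv v l i x) (h2 : Lv v l i y) :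
    Lv v l i (x * y) := by
  obtain ⟨z, hz, hzx⟩ := h1
  obtain ⟨z', hz', hzy⟩ := h2
  refine ⟨z * z', by rw [map_mul, hz, hz', one_mul], ?_⟩
  have e : x * y / (z * z') ^ l - 1 = (x / z ^ l) * (y / z' ^ l - 1) + (x / z ^ l - 1) := by
    rw [mul_pow, mul_div_mul_comm]
    ring
  rw [e]
  refine (v.map_add _ _).trans (max_le ?_ hzx)
  rw [map_mul, map_div₀, map_pow, hx, hz, one_pow, div_one, one_mul]
  exact hzy

private lemma Wp_lv_inv {F : Type} [Field F] {v : Valuation F (WithZero (Multiplicative ℤ))}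
    {l i : ℕ} {x : F} (hx : v x = 1) (h1 : Lv v l i x) : Lv v l i x⁻¹ := by
  obtain ⟨z, hz, hzx⟩ := h1
  have hx0 : x ≠ 0 := by
    rintro rfl
    rw [map_zero] at hx
    exact zero_ne_one hx
  have hz0 : z ≠ 0 := by
    rintro rfl
    rw [map_zero] at hz
    exact zero_ne_one hz
  refine ⟨z⁻¹, by rw [map_inv₀, hz, inv_one], ?_⟩
  have e : x⁻¹ / z⁻¹ ^ l - 1 = -((x / z ^ l - 1) / (x / z ^ l)) := by
    have h2 : z ^ l ≠ 0 := pow_ne_zero _ hz0
    rw [inv_pow]
    field_simp
    ring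
  rw [e, Valuation.map_neg, map_div₀, map_div₀ v x, map_pow, hx, hz, one_pow, div_one, div_one]
  exact hzx

private lemma Wp_eig_div {l : ℕ} {L F : Type} [Field L] [NumberField L] [Field F] [NumberField F]
    [Algebra L F] {V : WeierstrassCurve L} {W : WeierstrassCurve F}
    {hV : V.map (algebraMap L F) = W} {T : W.toAffine.Point} {ζ : F} {x y : F}
    (hx : Eig l hV T ζ x) (hy : Eig l hV T ζ y) : Eig l hV T ζ (x / y) := by
  intro δ c n w hc hw hcn
  obtain ⟨a, ha⟩ := hx δ c n w hc hw hcn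
  obtain ⟨b, hb⟩ := hy δ c n w hc hw hcn
  exact ⟨a / b, by rw [map_div₀, ha, hb, div_pow, div_pow, mul_div_mul_comm]⟩

theorem wild_pigeon {l : ℕ} {L F : Type} [Field L] [NumberField L] [Field F] [NumberField F]
    [Algebra L F] {V : WeierstrassCurve L} {W : WeierstrassCurve F}
    {hV : V.map (algebraMap L F) = W} {T : W.toAffine.Point} {ζ : F} (H : DG l hV T ζ)
    (w : HeightOneSpectrum (𝓞 L)) (𝔓 : HeightOneSpectrum (𝓞 F))
    (hov : ∀ x : 𝓞 L, algebraMap (𝓞 L) (𝓞 F) x ∈ 𝔓.asIdeal ↔ x ∈ w.asIdeal)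
    (hw : (l : 𝓞 L) ∈ w.asIdeal) (hw2 : (l : 𝓞 L) ∉ w.asIdeal ^ 2)
    (hgood : 𝔓.valuation F W.a₁ ≤ 1 ∧ 𝔓.valuation F W.a₂ ≤ 1 ∧ 𝔓.valuation F W.a₃ ≤ 1 ∧
      𝔓.valuation F W.a₄ ≤ 1 ∧ 𝔓.valuation F W.a₆ ≤ 1 ∧ 𝔓.valuation F W.Δ = 1)
    (hT : ∃ x y hxy, T = Affine.Point.some x y hxy ∧ 𝔓.valuation F x ≤ 1)
    {A : ValuationSubring (AlgebraicClosure F)}
    {D : Subgroup (AlgebraicClosure F ≃ₐ[F] AlgebraicClosure F)} (h : LS 𝔓 A D)
    (u : Fin (l * Ideal.absNorm w.asIdeal + 1) → F) (hu : ∀ i, 𝔓.valuation F (u i) = 1)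
    (hE : ∀ i, Eig l hV T ζ (u i)) : ∃ i j, i ≠ j ∧ RT l D (u i / u j) := by
  obtain ⟨hlam, τ, m, hτ, hm, hord⟩ := ram_l H w 𝔓 hov hw hw2
  have hTτ : gp hV τ T = T := inert_T H 𝔓 hgood hT hτ
  set v := 𝔓.valuation F with hv
  have hu0 : ∀ i, u i ≠ 0 := by
    intro i h0
    have h1 := hu i
    rw [h0, map_zero] at h1
    exact zero_ne_one h1
  have hdiv1 : ∀ i j, v (u i / u j) = 1 := by
    intro i j
    rw [map_div₀, hu, hu, div_one]
  -- the relation
  have hequiv : Equivalence (fun i j : Fin (l * Ideal.absNorm w.asIdeal + 1) =>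
      Lv v l 2 (u i / u j)) := by
    refine ⟨?_, ?_, ?_⟩
    · intro i
      rw [div_self (hu0 i)]
      exact Wp_lv_one l 2
    · intro i j hij
      have h1 := Wp_lv_inv (hdiv1 i j) hij
      rwa [inv_div] at h1
    · intro i j k hij hjk
      have h1 := Wp_lv_mul (hdiv1 i j) hij hjk
      rwa [div_mul_div_cancel₀ (hu0 j)] at h1
  let S : Setoid (Fin (l * Ideal.absNorm w.asIdeal + 1)) := ⟨_, hequiv⟩
  have hcardQ : Fintype.card (Quotient S) ≤ Ideal.absNorm w.asIdeal := by
    by_contra hcon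
    push Not at hcon
    have hle : Fintype.card (Fin (Ideal.absNorm w.asIdeal + 1)) ≤ Fintype.card (Quotient S) := by
      rw [Fintype.card_fin]
      exact hcon
    obtain ⟨e⟩ := Function.Embedding.nonempty_of_card_le hle
    obtain ⟨i, j, hij, hL⟩ := line_pigeon H w 𝔓 hov hlam (fun i => u (e i).out)
      (fun i => hu _) (fun i => hE _)
    apply hij
    apply e.injective
    have h1 : S (e i).out (e j).out := hL
    have h2 := Quotient.sound h1
    rwa [Quotient.out_eq, Quotient.out_eq] at h2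
  have hfib := Fintype.exists_lt_card_fiber_of_mul_lt_card
    (f := fun i : Fin (l * Ideal.absNorm w.asIdeal + 1) => (Quotient.mk S i)) (n := l) (by
      rw [Fintype.card_fin]
      have h1 := Nat.mul_le_mul_right l hcardQ
      rw [mul_comm (Ideal.absNorm w.asIdeal) l] at h1
      omega)
  obtain ⟨q, hq⟩ := hfib
  set Y := Finset.univ.filter
    (fun i : Fin (l * Ideal.absNorm w.asIdeal + 1) => Quotient.mk S i = q) with hY
  have hYcard : l + 1 ≤ Y.card := hq
  let e : Fin (l + 1) ↪o Fin (l * Ideal.absNorm w.asIdeal + 1) := Y.orderEmbOfCardLe hYcard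
  have he : ∀ s, e s ∈ Y := fun s => Y.orderEmbOfCardLe_mem hYcard s
  have hrel : ∀ s t, Lv v l 2 (u (e s) / u (e t)) := by
    intro s t
    have h1 := (Finset.mem_filter.1 (he s)).2
    have h2 := (Finset.mem_filter.1 (he t)).2
    have h3 : Quotient.mk S (e s) = Quotient.mk S (e t) := h1.trans h2.symm
    exact Quotient.exact h3
  have hx : ∀ s, Lv v l l (u (e s) / u (e 0)) := fun s =>
    kill H 𝔓 hlam hτ hm hord hTτ (Wp_eig_div (hE _) (hE _)) (hrel s 0)
  obtain ⟨s, t, hst, z, hz, hzx⟩ := top_pigeon 𝔓 H.prime H.prim hlam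
    (fun s => u (e s) / u (e 0)) hx
  simp only [div_div_div_cancel_right₀ (hu0 (e 0))] at hzx
  refine ⟨e s, e t, fun h1 => hst (e.injective h1), ?_⟩
  have hz0 : z ≠ 0 := by
    rintro rfl
    rw [map_zero] at hz
    exact zero_ne_one hz
  -- the valuation of `l`
  have hlv : v ((l : F) * (ζ - 1)) = exp (-(l : ℤ)) := by
    have h1 := pow_val A H.prime (H.prim.map_of_injective (algebraMap F (AlgebraicClosure F)).injective)
    have h2 : A.valuation (algebraMap F (AlgebraicClosure F) (l : F))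
        = A.valuation (algebraMap F (AlgebraicClosure F) ((ζ - 1) ^ (l - 1))) := by
      have e1 : algebraMap F (AlgebraicClosure F) ((ζ - 1) ^ (l - 1))
          = (algebraMap F (AlgebraicClosure F) ζ - 1) ^ (l - 1) := by
        rw [map_pow, map_sub, map_one]
      rw [map_natCast, h1, e1, map_pow]
    have h3 : v (l : F) = v ((ζ - 1) ^ (l - 1)) := (h.val_eq _ _).1 h2
    rw [map_mul, h3, map_pow, hlam, ← exp_nsmul, ← exp_add]
    congr 1
    have h4 := H.prime.one_le
    rw [nsmul_eq_mul]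
    push_cast [Nat.cast_sub h4]
    ring
  have hcl : RT l D (u (e s) / u (e t) / z ^ l) := by
    refine rt_close h H.prime H.prim ?_
    rw [← hv, hlv]
    refine lt_of_le_of_lt hzx ?_
    rw [exp_lt_exp]
    push_cast
    omega
  obtain ⟨t', ht1, ht2⟩ := hcl
  refine ⟨algebraMap F (AlgebraicClosure F) z * t', ?_, ?_⟩
  · intro σ hσ
    rw [map_mul, ht1 σ hσ, σ.commutes]
  · rw [mul_pow, ht2, ← map_pow, ← map_mul, mul_div_cancel₀ _ (pow_ne_zero _ hz0)]

end H86G
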