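import Pool.Agent.H86.T4G.Lb

/-!
Row Rt (about 130 lines): roots close to one. Use only the STATEMENTS of Lb.

PROOF. `z` := the image of `ζ` in the closure, `v := A.valuation`, `λ := z - 1`.
cyc_val: for `l ∤ k`: `(z^k - 1) / (z - 1) = 1 + z + ... + z^(k-1) ∈ A` and `(z - 1) / (z^k - 1)` too (`z = (z^k)^m` with `k m ≡ 1`), so `v (z^k - 1) = v (z - 1)`. (`z ∈ A`: `z^l = 1`.)
pow_val: `l = ∏_{k=1}^{l-1} (1 - z^k)` (IsPrimitiveRoot.prod_one_sub_pow_eq_order or cyclotomic eval one; Mathlib: `IsPrimitiveRoot.self_sub_one_pow_dvd_order`, `Polynomial.eval_one_cyclotomic_prime`), so `v l = v (z - 1)^(l-1)`.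
root_fix: `t₀` with `t₀^l = X` (IsAlgClosed.exists_pow_nat_eq); `X - 1 = t₀^l - 1 = ∏_{i<l} (t₀ - z^i)` (`X^l - 1 = ∏ (X - z^i)`: IsPrimitiveRoot.pow_sub_pow_eq_prod_sub_mul / X_pow_sub_one_eq_prod), `v (X - 1) < v (l λ) = v (λ)^l`, so some `i` has `v (t₀ - z^i) < v λ` (otherwise the product is at least `v(λ)^l`: Finset.prod_le_prod' / pow). `t := t₀ / z^i`: `t^l = X`, `v (t - 1) < v λ` (`v z = 1`).
 `σ ∈ D`: `(σ t)^l = σ X = X`, so `σ t = z^k t` for some `k < l` (`X ≠ 0` because `v (X - 1) < v (l λ) ≤ 1`), `v (σ t - 1) = v (σ (t - 1)) = v (t - 1) < v λ` (LS.stab), so `v ((z^k - 1) t) = v (σ t - t) < v λ`, `v t = 1`; if `k ≠ 0` then `v (z^k - 1) = v λ`, contradiction. So `σ t = t`.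
rt_close: `X := algebraMap x'` for `x' : F` is fixed by all `σ`; root_fix and LS.val_lt.
-/

set_option autoImplicit false
open scoped Classical

open WeierstrassCurve IsDedekindDomain NumberField Pool.Agent.H10 Pool.Agent.H11 H78D

namespace H86G

variable {F : Type} [Field F] [NumberField F] {w : HeightOneSpectrum (𝓞 F)}
  {A : ValuationSubring (AlgebraicClosure F)}
  {D : Subgroup (AlgebraicClosure F ≃ₐ[F] AlgebraicClosure F)} {l : ℕ}

theorem Rt_root_one {Ω : Type*} [Field Ω] (A : ValuationSubring Ω) {z : Ω} {l : ℕ} (hl : l ≠ 0)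
    (hz : z ^ l = 1) : A.valuation z = 1 := by
  have h1 : A.valuation z ^ l = 1 := by rw [← map_pow, hz, map_one]
  exact (pow_eq_one_iff.1 h1).resolve_right hl

theorem Rt_pow_sub {Ω : Type*} [Field Ω] (A : ValuationSubring Ω) {y : Ω} (hy : y ∈ A) (m : ℕ) :
    A.valuation (y ^ m - 1) ≤ A.valuation (y - 1) := by
  rw [← geom_sum_mul, map_mul]
  have h1 : A.valuation (∑ i ∈ Finset.range m, y ^ i) ≤ 1 :=
    (A.valuation_le_one_iff _).2 (sum_mem fun i _ => pow_mem hy i)
  calc _ ≤ 1 * A.valuation (y - 1) := mul_le_mul_left h1 _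
    _ = _ := one_mul _

theorem cyc_val {Ω : Type*} [Field Ω] (A : ValuationSubring Ω) {z : Ω} (hl : l.Prime)
    (hz : IsPrimitiveRoot z l) {k : ℕ} (hk : ¬ l ∣ k) :
    A.valuation (z ^ k - 1) = A.valuation (z - 1) := by
  have hzA : z ∈ A := (A.valuation_le_one_iff _).1 (Rt_root_one A hl.ne_zero hz.pow_eq_one).le
  apply le_antisymm (Rt_pow_sub A hzA k)
  have hc : Nat.Coprime k l := ((Nat.Prime.coprime_iff_not_dvd hl).2 hk).symm
  obtain ⟨m, -, hm⟩ := Nat.exists_mul_mod_eq_one_of_coprime hc hl.one_lt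
  have h1 : (z ^ k) ^ m = z := by
    rw [← pow_mul, pow_eq_pow_mod (k * m) hz.pow_eq_one, hm, pow_one]
  calc A.valuation (z - 1) = A.valuation ((z ^ k) ^ m - 1) := by rw [h1]
    _ ≤ _ := Rt_pow_sub A (pow_mem hzA k) m

theorem pow_val {Ω : Type*} [Field Ω] (A : ValuationSubring Ω) {z : Ω} (hl : l.Prime)
    (hz : IsPrimitiveRoot z l) : A.valuation (l : Ω) = A.valuation (z - 1) ^ (l - 1) := by
  obtain ⟨n, rfl⟩ : ∃ n, l = n + 1 := ⟨l - 1, by have := hl.pos; omega⟩
  have h1 := hz.prod_one_sub_pow_eq_order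
  have h2 : (((n + 1 : ℕ)) : Ω) = ∏ k ∈ Finset.range n, (1 - z ^ (k + 1)) := by
    rw [h1]; push_cast; ring
  rw [h2, map_prod, Nat.add_sub_cancel]
  rw [Finset.prod_congr rfl (g := fun _ => A.valuation (z - 1)), Finset.prod_const,
    Finset.card_range]
  intro k hk
  rw [Finset.mem_range] at hk
  rw [Valuation.map_sub_swap]
  exact cyc_val A hl hz (fun hd => by have := Nat.le_of_dvd (Nat.succ_pos _) hd; omega)

theorem root_fix (h : LS w A D) (hl : l.Prime) {ζ : F} (hζ : IsPrimitiveRoot ζ l)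
    {X : AlgebraicClosure F} (hX : ∀ σ ∈ D, σ X = X)
    (hv : A.valuation (X - 1) < A.valuation ((l : AlgebraicClosure F) *
      (algebraMap F (AlgebraicClosure F) ζ - 1))) :
    ∃ t, (∀ σ ∈ D, σ t = t) ∧ t ^ l = X := by
  have : NeZero l := ⟨hl.ne_zero⟩
  have hz : IsPrimitiveRoot (algebraMap F (AlgebraicClosure F) ζ) l :=
    hζ.map_of_injective (algebraMap F (AlgebraicClosure F)).injective
  set z := algebraMap F (AlgebraicClosure F) ζ with hzdef
  have hzv : A.valuation z = 1 := Rt_root_one A hl.ne_zero hz.pow_eq_one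
  have hz1 : A.valuation (z - 1) ≤ 1 := by
    have hzA : z ∈ A := (A.valuation_le_one_iff _).1 hzv.le
    exact (A.valuation_le_one_iff _).2 (sub_mem hzA (one_mem _))
  have hlv : A.valuation ((l : AlgebraicClosure F) * (z - 1)) = A.valuation (z - 1) ^ l := by
    rw [map_mul, pow_val A hl hz, ← pow_succ, Nat.sub_add_cancel hl.one_le]
  rw [hlv] at hv
  have hX0 : X ≠ 0 := by
    rintro rfl
    rw [zero_sub, Valuation.map_neg, map_one] at hv
    exact absurd hv (not_lt.2 (pow_le_one' hz1 l))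
  obtain ⟨t0, ht0⟩ := IsAlgClosed.exists_pow_nat_eq X hl.pos
  have hprod : ∏ μ ∈ Polynomial.nthRootsFinset l (1 : AlgebraicClosure F), (t0 - μ) = X - 1 := by
    have := hz.pow_sub_pow_eq_prod_sub_mul t0 1 hl.pos
    rw [one_pow, ht0] at this
    rw [this]
    exact Finset.prod_congr rfl fun μ _ => by rw [mul_one]
  obtain ⟨μ, hμ, hμv⟩ : ∃ μ ∈ Polynomial.nthRootsFinset l (1 : AlgebraicClosure F),
      A.valuation (t0 - μ) < A.valuation (z - 1) := by
    by_contra hcon
    push Not at hcon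
    have h1 := Finset.pow_card_le_prod (Polynomial.nthRootsFinset l (1 : AlgebraicClosure F))
      (fun μ => A.valuation (t0 - μ)) (A.valuation (z - 1)) hcon
    rw [hz.card_nthRootsFinset, ← map_prod, hprod] at h1
    exact absurd hv (not_lt.2 h1)
  have hμl : μ ^ l = 1 := (Polynomial.mem_nthRootsFinset hl.pos 1).1 hμ
  have hμ0 : μ ≠ 0 := by
    rintro rfl
    rw [zero_pow hl.ne_zero] at hμl
    exact zero_ne_one hμl
  have hμ1 : A.valuation μ = 1 := Rt_root_one A hl.ne_zero hμl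
  have htl : (t0 / μ) ^ l = X := by rw [div_pow, ht0, hμl, div_one]
  have htv : A.valuation (t0 / μ - 1) < A.valuation (z - 1) := by
    have : t0 / μ - 1 = (t0 - μ) / μ := by field_simp
    rw [this, map_div₀, hμ1, div_one]
    exact hμv
  refine ⟨t0 / μ, fun σ hσ => ?_, htl⟩
  set t := t0 / μ with ht
  have ht0' : t ≠ 0 := by
    intro h0
    rw [h0, zero_pow hl.ne_zero] at htl
    exact hX0 htl.symm
  have ht1 : A.valuation t = 1 := by
    have := A.valuation.map_one_add_of_lt (x := t - 1) (htv.trans_le hz1)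
    rwa [add_sub_cancel] at this
  have h1 : (σ t / t) ^ l = 1 := by
    rw [div_pow, ← map_pow, htl, hX σ hσ, div_self hX0]
  obtain ⟨k, hk, hkz⟩ := hz.eq_pow_of_pow_eq_one h1
  have h2 : σ t - t = (z ^ k - 1) * t := by
    rw [hkz]; field_simp
  have h3 : A.valuation (σ t - 1) < A.valuation (z - 1) := by
    have : σ t - 1 = σ (t - 1) := by rw [map_sub, map_one]
    rw [this, h.stab σ hσ]
    exact htv
  have h4 : A.valuation (σ t - t) < A.valuation (z - 1) := by
    have : σ t - t = (σ t - 1) - (t - 1) := by ring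
    rw [this]
    exact A.valuation.map_sub_lt h3 htv
  rw [h2, map_mul, ht1, mul_one] at h4
  by_cases hk0 : k = 0
  · rw [hk0, pow_zero, sub_self, zero_mul, sub_eq_zero] at h2
    exact h2
  · exact absurd h4 (not_lt.2 (cyc_val A hl hz (fun hd => by
      have := Nat.le_of_dvd (Nat.pos_of_ne_zero hk0) hd; omega)).ge)

/-- elements of `F` close to one -/
theorem rt_close (h : LS w A D) (hl : l.Prime) {ζ : F} (hζ : IsPrimitiveRoot ζ l) {x : F}
    (hv : w.valuation F (x - 1) < w.valuation F ((l : F) * (ζ - 1))) : RT l D x := by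
  have h1 := (h.val_lt _ _).2 hv
  have e1 : algebraMap F (AlgebraicClosure F) (x - 1) = algebraMap F (AlgebraicClosure F) x - 1 := by
    rw [map_sub, map_one]
  have e2 : algebraMap F (AlgebraicClosure F) ((l : F) * (ζ - 1))
      = (l : AlgebraicClosure F) * (algebraMap F (AlgebraicClosure F) ζ - 1) := by
    rw [map_mul, map_natCast, map_sub, map_one]
  rw [e1, e2] at h1
  exact root_fix h hl hζ (fun σ _ => σ.commutes x) h1

end H86G
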