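import Pool.Agent.H86.T4G.Wj
import Pool.Agent.H86.T4G.Gx
import Pool.Agent.H86.T4G.Rt
import Pool.Agent.H11.Ramif

/-!
Row Wi (about 200 lines): the inertia group at a place above `l`. Use only the STATEMENTS of Wj, Gx, Rt.

`v := 𝔓.valuation F`, `I := { τ | InI 𝔓 τ }`, the inertia subgroup of `G := F ≃ₐ[L] F`.
PROOF. (1) `w.valuation L l = exp (-1)` (hw, hw2; see H68TK.val_three_of_unram for `3`), valuation_pow_card_inertia (H11/Ramif.lean, `A := 𝓞 L`, `B := 𝓞 F`, `G := F ≃ₐ[L] F`; LiesOver from hov; `IsGaloisGroup`, `MulSemiringAction` instances as where this theorem is used in H11 or H68): `v l = exp (-(Nat.card I))`. `v l = v (ζ - 1) ^ (l - 1)` (`l = ∏_{0<k<l} (1 - ζ^k)`, `v (1 - ζ^k) = v (1 - ζ)`: cyc_val / pow_val for the valuation subring of `v`: translate, or redo the proof for `v`); `v (ζ - 1) = exp (-m₀)` with `m₀ ≥ 1` an integer, so `Nat.card I = (l - 1) m₀`.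
 (2) `π : F` with `v π = exp (-1)`. `θ : I → (𝓞 F ⧸ 𝔓.asIdeal)ˣ`, `θ τ` := class of `τ π / π` (a unit at `𝔓`; multiplicative as `τ` acts trivially on the residue field: `τ τ' π / π = (τ π / π) * τ (τ' π / π)`), injective: the kernel consists of the `τ` with `v (τ π - π) ≤ exp (-2)`, `τ = 1` by tame_inj (`l ∤ orderOf τ` by DG.ndvd and `orderOf τ ∣ Nat.card G`, and `(l : 𝓞 F) ∈ 𝔓.asIdeal`, so `v (orderOf τ) = 1`). So `I` is cyclic (a finite subgroup of the units of a field; isCyclic_of_injective / isCyclic_of_subgroup_isDomain), of exponent dividing `l - 1` (DG.pow_eq): `Nat.card I ≤ l - 1`. So `m₀ = 1` and `Nat.card I = l - 1`.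
 (3) Now `π := ζ - 1` is possible in (2). `τ` := a generator of `I`, `τ ζ = ζ^m`. `τ π / π = (ζ^m - 1) / (ζ - 1) = 1 + ζ + ... + ζ^(m-1) ≡ m` modulo `𝔓`. For `0 < j < l - 1`: `τ^j ≠ 1` so `θ (τ^j) = m^j ≠ 1` in the residue field, so `m^j ≢ 1` modulo `l`.
-/

set_option autoImplicit false
open scoped Classical

open WithZero WeierstrassCurve IsDedekindDomain NumberField Pool.Agent.H10 Pool.Agent.H11 H78D

namespace H86G

theorem Wi_mem {L F : Type} [Field L] [Field F] [NumberField F]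
    [Algebra L F] (𝔓 : HeightOneSpectrum (𝓞 F)) (τ : F ≃ₐ[L] F) :
    τ ∈ 𝔓.asIdeal.inertia (F ≃ₐ[L] F) ↔ InI 𝔓 τ := by
  have e : ∀ x : 𝓞 F, RingOfIntegers.mapRingEquiv (τ : F ≃+* F) x = τ • x := by
    intro x
    apply RingOfIntegers.coe_injective
    rfl
  constructor
  · intro h x
    rw [e]
    exact h x
  · intro h x
    rw [← e]
    exact h x

theorem Wi_res {F : Type} [Field F] (v : Valuation F (WithZero (Multiplicative ℤ)))
    (a b : v.valuationSubring) :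
    IsLocalRing.residue v.valuationSubring a = IsLocalRing.residue v.valuationSubring b ↔
      v ((a : F) - b) < 1 := by
  rw [← sub_eq_zero, ← map_sub, IsLocalRing.residue_eq_zero_iff,
    ValuationSubring.valuation_lt_one_iff]
  exact (v.isEquiv_valuation_valuationSubring.lt_one_iff_lt_one).symm

theorem Wi_val_l {L : Type} [Field L] [NumberField L] {l : ℕ} {w : HeightOneSpectrum (𝓞 L)}
    (h : (l : 𝓞 L) ∈ w.asIdeal) (h' : (l : 𝓞 L) ∉ w.asIdeal ^ 2) :
    w.valuation L (l : L) = exp (-1 : ℤ) := by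
  have e2 : algebraMap (𝓞 L) L (l : 𝓞 L) = (l : L) := map_natCast (algebraMap (𝓞 L) L) l
  rw [← e2, w.valuation_of_algebraMap]
  apply le_antisymm
  · have h1 := (w.intValuation_le_pow_iff_mem (l : 𝓞 L) 1).mpr (by rw [pow_one]; exact h)
    exact_mod_cast h1
  · have h1 := mt (w.intValuation_le_pow_iff_mem (l : 𝓞 L) 2).mp h'
    rw [not_le] at h1
    have h0 : w.intValuation (l : 𝓞 L) ≠ 0 := fun h0 => by
      rw [h0] at h1
      exact absurd h1 not_lt_zero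
    rw [← exp_log h0, exp_lt_exp] at h1
    rw [← exp_log h0, exp_le_exp]
    push_cast at h1
    omega

/-- integers prime to `l` are units at a place above `l` -/
theorem Wi_unit {F : Type} [Field F] [NumberField F] {l : ℕ} (hl : l.Prime)
    (𝔓 : HeightOneSpectrum (𝓞 F)) (h : (l : 𝓞 F) ∈ 𝔓.asIdeal) {n : ℕ} (hn : ¬ l ∣ n) :
    𝔓.valuation F ((n : ℕ) : F) = 1 := by
  have e : algebraMap (𝓞 F) F (n : 𝓞 F) = ((n : ℕ) : F) := map_natCast (algebraMap (𝓞 F) F) n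
  rw [← e, 𝔓.valuation_eq_one_iff_notMem]
  intro hmem
  have hc : Nat.Coprime n l := ((Nat.Prime.coprime_iff_not_dvd hl).2 hn).symm
  have h1 : IsCoprime (n : ℤ) (l : ℤ) := Nat.isCoprime_iff_coprime.2 hc
  obtain ⟨a, b, hab⟩ := h1
  apply 𝔓.isPrime.ne_top
  rw [Ideal.eq_top_iff_one]
  have h2 : (1 : 𝓞 F) = (a : 𝓞 F) * (n : 𝓞 F) + (b : 𝓞 F) * (l : 𝓞 F) := by
    have := congrArg (fun z : ℤ => (z : 𝓞 F)) hab
    push_cast at this
    exact this.symm
  rw [h2]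
  exact 𝔓.asIdeal.add_mem (𝔓.asIdeal.mul_mem_left _ hmem) (𝔓.asIdeal.mul_mem_left _ h)

section

variable {l : ℕ} {L F : Type} [Field L] [NumberField L] [Field F] [NumberField F]
    [Algebra L F] {V : WeierstrassCurve L} {W : WeierstrassCurve F}
    {hV : V.map (algebraMap L F) = W} {T : W.toAffine.Point} {ζ : F}

theorem Wi_ratio {𝔓 : HeightOneSpectrum (𝓞 F)} {τ : F ≃ₐ[L] F} (h : InI 𝔓 τ) {π : F}
    (hπ : 𝔓.valuation F π = exp (-1 : ℤ)) : 𝔓.valuation F (τ π / π) = 1 := by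
  rw [map_div₀, (inI_val h).1, div_self]
  rw [hπ]
  exact exp_ne_zero

/-- the tame character -/
theorem Wi_hom (H : DG l hV T ζ) (𝔓 : HeightOneSpectrum (𝓞 F)) (hl : (l : 𝓞 F) ∈ 𝔓.asIdeal)
    {π : F} (hπ : 𝔓.valuation F π = exp (-1 : ℤ)) :
    ∃ f : (𝔓.asIdeal.inertia (F ≃ₐ[L] F)) →*
        IsLocalRing.ResidueField (𝔓.valuation F).valuationSubring,
      Function.Injective f ∧
      ∀ (τ : 𝔓.asIdeal.inertia (F ≃ₐ[L] F)) (c : (𝔓.valuation F).valuationSubring),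
        𝔓.valuation F ((τ : F ≃ₐ[L] F) π / π - (c : F)) < 1 →
          f τ = IsLocalRing.residue _ c := by
  have hπ0 : π ≠ 0 := by
    rintro rfl
    rw [map_zero] at hπ
    exact exp_ne_zero hπ.symm
  have hI : ∀ τ : 𝔓.asIdeal.inertia (F ≃ₐ[L] F), InI 𝔓 (τ : F ≃ₐ[L] F) :=
    fun τ => (Wi_mem 𝔓 _).1 τ.2
  have hr : ∀ τ : 𝔓.asIdeal.inertia (F ≃ₐ[L] F),
      (τ : F ≃ₐ[L] F) π / π ∈ (𝔓.valuation F).valuationSubring := fun τ => by
    rw [Valuation.mem_valuationSubring_iff]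
    exact (Wi_ratio (hI τ) hπ).le
  let f : (𝔓.asIdeal.inertia (F ≃ₐ[L] F)) →*
      IsLocalRing.ResidueField (𝔓.valuation F).valuationSubring :=
    { toFun := fun τ => IsLocalRing.residue _ ⟨(τ : F ≃ₐ[L] F) π / π, hr τ⟩
      map_one' := by
        rw [← map_one (IsLocalRing.residue (𝔓.valuation F).valuationSubring), Wi_res]
        have : (((1 : 𝔓.asIdeal.inertia (F ≃ₐ[L] F)) : F ≃ₐ[L] F) π / π) = 1 := by
          rw [OneMemClass.coe_one, AlgEquiv.one_apply, div_self hπ0]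
        have e0 : 𝔓.valuation F ((((1 : 𝔓.asIdeal.inertia (F ≃ₐ[L] F)) : F ≃ₐ[L] F) π / π) -
            (((1 : (𝔓.valuation F).valuationSubring)) : F)) = 0 := by
          rw [this, OneMemClass.coe_one, sub_self, map_zero]
        exact lt_of_eq_of_lt e0 (zero_lt_one : (0 : WithZero (Multiplicative ℤ)) < 1)
      map_mul' := by
        intro τ σ
        rw [← map_mul, Wi_res]
        have e1 : ((((τ * σ : 𝔓.asIdeal.inertia (F ≃ₐ[L] F)) : F ≃ₐ[L] F) π / π) : F) -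
            ((τ : F ≃ₐ[L] F) π / π) * ((σ : F ≃ₐ[L] F) π / π) =
            ((τ : F ≃ₐ[L] F) π / π) * ((τ : F ≃ₐ[L] F) ((σ : F ≃ₐ[L] F) π / π) -
              (σ : F ≃ₐ[L] F) π / π) := by
          have h1 : (τ : F ≃ₐ[L] F) π ≠ 0 := by
            rw [Ne, map_eq_zero]
            exact hπ0
          rw [MulMemClass.coe_mul, AlgEquiv.mul_apply, map_div₀]
          field_simp
        have e2 := (inI_val (hI τ)).2 _ (Wi_ratio (hI σ) hπ).le
        show 𝔓.valuation F (_ - ((τ : F ≃ₐ[L] F) π / π) * ((σ : F ≃ₐ[L] F) π / π)) < 1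
        rw [e1, map_mul, Wi_ratio (hI τ) hπ, one_mul]
        exact e2 }
  refine ⟨f, ?_, ?_⟩
  · rw [injective_iff_map_eq_one]
    intro τ hτ
    have h1 : IsLocalRing.residue (𝔓.valuation F).valuationSubring
        ⟨(τ : F ≃ₐ[L] F) π / π, hr τ⟩ = IsLocalRing.residue _ 1 := by
      rw [map_one]
      exact hτ
    rw [Wi_res] at h1
    have h2 : 𝔓.valuation F ((τ : F ≃ₐ[L] F) π - π) ≤ exp (-2 : ℤ) := by
      have e3 : (τ : F ≃ₐ[L] F) π - π = ((τ : F ≃ₐ[L] F) π / π - 1) * π := by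
        field_simp
      have h3 : 𝔓.valuation F ((τ : F ≃ₐ[L] F) π / π - 1) < 1 := h1
      rw [e3, map_mul, hπ]
      by_cases h0 : 𝔓.valuation F ((τ : F ≃ₐ[L] F) π / π - 1) = 0
      · rw [h0, zero_mul]
        exact zero_le
      · rw [← exp_log h0] at h3 ⊢
        rw [← exp_zero, exp_lt_exp] at h3
        rw [← exp_add, exp_le_exp]
        omega
    have h4 : ¬ l ∣ orderOf (τ : F ≃ₐ[L] F) := by
      intro hd
      have h5 := orderOf_dvd_of_pow_eq_one (H.pow_eq (τ : F ≃ₐ[L] F))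
      have h6 := Nat.le_of_dvd (Nat.sub_pos_of_lt H.prime.one_lt) (hd.trans h5)
      have h7 := H.prime.pos
      omega
    exact Subtype.ext (tame_inj (hI τ) (Wi_unit H.prime 𝔓 hl h4) hπ h2)
  · intro τ c hc
    show IsLocalRing.residue _ (⟨(τ : F ≃ₐ[L] F) π / π, hr τ⟩ :
      (𝔓.valuation F).valuationSubring) = _
    rw [Wi_res]
    exact hc

theorem ram_l {l : ℕ} {L F : Type} [Field L] [NumberField L] [Field F] [NumberField F]
    [Algebra L F] {V : WeierstrassCurve L} {W : WeierstrassCurve F}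
    {hV : V.map (algebraMap L F) = W} {T : W.toAffine.Point} {ζ : F} (H : DG l hV T ζ)
    (w : HeightOneSpectrum (𝓞 L)) (𝔓 : HeightOneSpectrum (𝓞 F))
    (hov : ∀ x : 𝓞 L, algebraMap (𝓞 L) (𝓞 F) x ∈ 𝔓.asIdeal ↔ x ∈ w.asIdeal)
    (hw : (l : 𝓞 L) ∈ w.asIdeal) (hw2 : (l : 𝓞 L) ∉ w.asIdeal ^ 2) :
    𝔓.valuation F (ζ - 1) = exp (-1 : ℤ) ∧
      ∃ (τ : F ≃ₐ[L] F) (m : ℕ), InI 𝔓 τ ∧ τ ζ = ζ ^ m ∧
        ∀ j, 0 < j → j < l - 1 → ¬ (m ^ j ≡ 1 [MOD l]) := by
  haveI := H.gal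
  haveI : FiniteDimensional L F := Module.Finite.of_restrictScalars_finite ℚ L F
  have hfin : Finite (𝓞 L ⧸ w.asIdeal) := Ring.HasFiniteQuotients.finiteQuotient w.ne_bot
  have l1 : 𝔓.asIdeal.LiesOver w.asIdeal := ⟨Ideal.ext fun x => (hov x).symm⟩
  have hlF : (l : 𝓞 F) ∈ 𝔓.asIdeal := by
    have := (hov (l : 𝓞 L)).2 hw
    rwa [map_natCast] at this
  have hl1 : 1 < l := H.prime.one_lt
  have hζ0 : ζ - 1 ≠ 0 := sub_ne_zero.2 (H.prim.ne_one hl1)
  -- the value of `l`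
  have h3 := valuation_pow_card_inertia F w 𝔓 (F ≃ₐ[L] F) hfin (l : L)
  rw [Wi_val_l hw hw2, map_natCast] at h3
  have h4 : 𝔓.valuation F (l : F) = 𝔓.valuation F ((ζ - 1) ^ (l - 1)) := by
    have h5 := pow_val (𝔓.valuation F).valuationSubring H.prime H.prim
    rw [← map_pow] at h5
    exact ((𝔓.valuation F).isEquiv_valuation_valuationSubring.val_eq).2 h5
  rw [h4, map_pow] at h3
  have h6 := congrArg WithZero.log h3
  rw [WithZero.log_pow, WithZero.log_exp, WithZero.log_pow, nsmul_eq_mul, nsmul_eq_mul] at h6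
  have hv0 : 𝔓.valuation F (ζ - 1) ≠ 0 := (Valuation.ne_zero_iff _).2 hζ0
  -- a uniformizer
  obtain ⟨π, hπ⟩ := 𝔓.valuation_exists_uniformizer F
  obtain ⟨f, hf, -⟩ := Wi_hom H 𝔓 hlF hπ
  have hcyc : IsCyclic (𝔓.asIdeal.inertia (F ≃ₐ[L] F)) := isCyclic_of_injective_ringHom f hf
  obtain ⟨g, hg⟩ := hcyc.exists_generator
  have hord : orderOf g = Nat.card (𝔓.asIdeal.inertia (F ≃ₐ[L] F)) :=
    orderOf_eq_card_of_forall_mem_zpowers hg
  have hgp : g ^ (l - 1) = 1 := by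
    apply Subtype.ext
    rw [SubmonoidClass.coe_pow, H.pow_eq]
    rfl
  have hle : Nat.card (𝔓.asIdeal.inertia (F ≃ₐ[L] F)) ≤ l - 1 := by
    rw [← hord]
    exact Nat.le_of_dvd (by omega) (orderOf_dvd_of_pow_eq_one hgp)
  have hpos : 0 < Nat.card (𝔓.asIdeal.inertia (F ≃ₐ[L] F)) := Nat.card_pos
  obtain ⟨N, hN⟩ : ∃ N, N = Nat.card (𝔓.asIdeal.inertia (F ≃ₐ[L] F)) := ⟨_, rfl⟩
  obtain ⟨k, hk⟩ : ∃ k, k = WithZero.log (𝔓.valuation F (ζ - 1)) := ⟨_, rfl⟩
  rw [← hN] at hle hpos h6 hord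
  rw [← hk] at h6
  obtain ⟨q, hq⟩ : ∃ q : ℕ, l - 1 = q := ⟨_, rfl⟩
  rw [hq] at h6 hle
  have hq0 : 0 < q := by omega
  have hk1 : k = -1 := by
    have a1 : (q : ℤ) * (-k) = N := by linarith
    have a2 : 0 < -k := by
      by_contra hcon
      have : (q : ℤ) * (-k) ≤ 0 := mul_nonpos_of_nonneg_of_nonpos (by positivity) (by omega)
      have h7 : (0 : ℤ) < N := by exact_mod_cast hpos
      omega
    have a3 : (N : ℤ) ≤ q := by exact_mod_cast hle
    have a4 : (0 : ℤ) < q := by exact_mod_cast hq0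
    nlinarith
  have hNq : N = q := by
    rw [hk1] at h6
    have : (N : ℤ) = q := by linarith
    exact_mod_cast this
  have hζv : 𝔓.valuation F (ζ - 1) = exp (-1 : ℤ) := by
    rw [← exp_log hv0, ← hk, hk1]
  refine ⟨hζv, ?_⟩
  obtain ⟨m, hm, hlm⟩ := H.cyc (g : F ≃ₐ[L] F)
  refine ⟨(g : F ≃ₐ[L] F), m, (Wi_mem 𝔓 _).1 g.2, hm, ?_⟩
  obtain ⟨θ, hθ, hθc⟩ := Wi_hom H 𝔓 hlF hζv
  have hζA : ∀ i : ℕ, 𝔓.valuation F (ζ ^ i - 1) < 1 := by
    intro i
    have h8 := Rt_pow_sub (𝔓.valuation F).valuationSubring (y := ζ) (by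
      rw [← ValuationSubring.valuation_le_one_iff]
      exact (Rt_root_one _ H.prime.ne_zero H.prim.pow_eq_one).le) i
    have h9 := ((𝔓.valuation F).isEquiv_valuation_valuationSubring _ _).2 h8
    refine lt_of_le_of_lt h9 ?_
    rw [hζv, ← exp_zero, exp_lt_exp]
    norm_num
  have hmv : 𝔓.valuation F ((g : F ≃ₐ[L] F) (ζ - 1) / (ζ - 1) -
      (((m : ℕ) : (𝔓.valuation F).valuationSubring) : F)) < 1 := by
    have e1 : (g : F ≃ₐ[L] F) (ζ - 1) / (ζ - 1) -
      (((m : ℕ) : (𝔓.valuation F).valuationSubring) : F) =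
        ∑ i ∈ Finset.range m, (ζ ^ i - 1) := by
      rw [map_sub, map_one, hm, ← geom_sum_mul, mul_div_assoc, div_self hζ0, mul_one,
        Finset.sum_sub_distrib]
      simp
    rw [e1]
    exact (𝔓.valuation F).map_sum_lt one_ne_zero (fun i _ => hζA i)
  have hθm := hθc g _ hmv
  intro j hj0 hj hmod
  have h10 : θ (g ^ j) = 1 := by
    rw [map_pow, hθm, map_natCast, ← Nat.cast_pow]
    have hl0 : ((l : ℕ) : IsLocalRing.ResidueField (𝔓.valuation F).valuationSubring) = 0 := by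
      rw [← map_natCast (IsLocalRing.residue (𝔓.valuation F).valuationSubring) l,
        ← map_zero (IsLocalRing.residue (𝔓.valuation F).valuationSubring), Wi_res]
      have e2 : ((((l : ℕ) : (𝔓.valuation F).valuationSubring) : F) -
          ((0 : (𝔓.valuation F).valuationSubring) : F)) = algebraMap (𝓞 F) F (l : 𝓞 F) := by
        rw [map_natCast]
        simp
      rw [e2]
      exact (𝔓.valuation_lt_one_iff_mem _).2 hlF
    have h11 : ((m ^ j : ℕ) : ℤ) ≡ ((1 : ℕ) : ℤ) [ZMOD (l : ℤ)] :=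
      (Int.natCast_modEq_iff).2 hmod
    obtain ⟨c, hc⟩ := h11.symm.dvd
    have h12 : (((m ^ j : ℕ) : ℤ) : IsLocalRing.ResidueField (𝔓.valuation F).valuationSubring) -
        (((1 : ℕ) : ℤ) : IsLocalRing.ResidueField (𝔓.valuation F).valuationSubring) = 0 := by
      rw [← Int.cast_sub, hc, Int.cast_mul, Int.cast_natCast, hl0, zero_mul]
    rw [sub_eq_zero, Int.cast_natCast, Int.cast_natCast, Nat.cast_one] at h12
    exact h12
  have h13 : g ^ j = 1 := hθ (by rw [h10, map_one])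
  have h14 := Nat.le_of_dvd hj0 (orderOf_dvd_of_pow_eq_one h13)
  omega

end

end H86G
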