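import Mathlib

/-!
Row Ba (about 130 lines): representatives modulo `(A - g) ℤ^r + l ℤ^r`.
-/

set_option autoImplicit false
open scoped Classical

namespace H86G

lemma Ba_diag {r : ℕ} (g : ℤ) (v : Fin r → ℤ) :
    (Matrix.diagonal fun _ : Fin r => g).mulVec v = g • v := by
  ext i
  simp [Matrix.mulVec_diagonal]

lemma Ba_B {r : ℕ} (A : Matrix (Fin r) (Fin r) ℤ) (g : ℤ) (v : Fin r → ℤ) :
    (A - Matrix.diagonal fun _ => g).mulVec v = A.mulVec v - g • v := by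
  rw [Matrix.sub_mulVec, Ba_diag]

lemma Ba_det_ne {r : ℕ} (A : Matrix (Fin r) (Fin r) ℤ) {d : ℕ} (hA : A ^ d = 1) {g : ℤ}
    (hg : g ^ d - 1 ≠ 0) : (A - Matrix.diagonal fun _ => g).det ≠ 0 := by
  intro h
  obtain ⟨v, hv, h0⟩ := Matrix.exists_mulVec_eq_zero_iff.2 h
  rw [Ba_B, sub_eq_zero] at h0
  have h2 : ∀ j : ℕ, (A ^ j).mulVec v = g ^ j • v := by
    intro j
    induction j with
    | zero => simp
    | succ j ih =>
      rw [pow_succ, ← Matrix.mulVec_mulVec, h0, Matrix.mulVec_smul, ih, smul_smul, pow_succ,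
        mul_comm]
  have h3 := h2 d
  rw [hA, Matrix.one_mulVec] at h3
  have h4 : (g ^ d - 1) • v = 0 := by rw [sub_smul, one_smul, ← h3, sub_self]
  rcases smul_eq_zero.1 h4 with h5 | h5
  · exact hg h5
  · exact hv h5

lemma Ba_quot {Q : Type*} [AddCommGroup Q] [Finite Q] {l : ℕ} (hl : l.Prime) {c : ℕ}
    (hc : l ^ c ∣ Nat.card Q) {m : ℤ} (hm : ¬ (l : ℤ) ∣ m)
    (hk : ∀ q : Q, m • ((l : ℤ) • q) = 0) :
    l ^ c ≤ Nat.card (Q ⧸ (zsmulAddGroupHom (α := Q) (l : ℤ)).range) := by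
  have h1 := AddSubgroup.card_eq_card_quotient_mul_card_addSubgroup
    (zsmulAddGroupHom (α := Q) (l : ℤ)).range
  have h2 : ¬ l ∣ Nat.card (zsmulAddGroupHom (α := Q) (l : ℤ)).range := by
    intro h
    haveI := Fact.mk hl
    obtain ⟨x, hx⟩ := exists_prime_addOrderOf_dvd_card' l h
    have hx1 : m • x = 0 := by
      obtain ⟨x, y, rfl⟩ := x
      exact Subtype.ext (hk y)
    have h3 : (addOrderOf x : ℤ) ∣ m := addOrderOf_dvd_iff_zsmul_eq_zero.2 hx1
    rw [hx] at h3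
    exact hm h3
  have h3 : l ^ c ∣ Nat.card (Q ⧸ (zsmulAddGroupHom (α := Q) (l : ℤ)).range) := by
    refine Nat.Coprime.dvd_of_dvd_mul_right ?_ (h1 ▸ hc)
    exact Nat.Coprime.pow_left _ ((Nat.Prime.coprime_iff_not_dvd hl).2 h2)
  exact Nat.le_of_dvd Nat.card_pos h3

lemma Ba_card {r : ℕ} (B : Matrix (Fin r) (Fin r) ℤ) (hB : B.det ≠ 0) :
    Nat.card ((Fin r → ℤ) ⧸ LinearMap.range B.mulVecLin) = B.det.natAbs := by
  have hinj : Function.Injective B.mulVecLin := by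
    rw [← LinearMap.ker_eq_bot, LinearMap.ker_eq_bot']
    intro v hv
    by_contra hne
    exact hB (Matrix.exists_mulVec_eq_zero_iff.1 ⟨v, hne, hv⟩)
  rw [← Submodule.natAbs_det_equiv (LinearMap.range B.mulVecLin)
    (LinearEquiv.ofInjective B.mulVecLin hinj)]
  congr 1
  rw [← LinearMap.det_toLin']
  congr 1

theorem idx_low {r : ℕ} (A : Matrix (Fin r) (Fin r) ℤ) {d : ℕ} (hd : 0 < d) (hA : A ^ d = 1)
    {l : ℕ} (hl : l.Prime) {g : ℤ} (h1 : (l : ℤ) ∣ g ^ d - 1) (h2 : ¬ (l : ℤ) ^ 2 ∣ g ^ d - 1)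
    (c : ℕ) (hdet : (l : ℤ) ^ c ∣ (A - Matrix.diagonal fun _ => g).det) :
    ∃ u : Fin (l ^ c) → (Fin r → ℤ), ∀ i j, i ≠ j → ∀ a b : Fin r → ℤ,
      u i - u j ≠ (A - Matrix.diagonal fun _ => g).mulVec a + (l : ℤ) • b := by
  have hg : g ^ d - 1 ≠ 0 := by
    intro h
    exact h2 (h ▸ dvd_zero _)
  have hdne := Ba_det_ne A hA hg
  obtain ⟨m, hm⟩ := h1
  have hml : ¬ (l : ℤ) ∣ m := by
    rintro ⟨n, rfl⟩
    exact h2 ⟨n, by rw [hm]; ring⟩
  set B := (A - Matrix.diagonal fun _ => g) with hBdef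
  have hcard := Ba_card B hdne
  haveI : Finite ((Fin r → ℤ) ⧸ LinearMap.range B.mulVecLin) :=
    Nat.finite_of_card_ne_zero (by rw [hcard]; exact Int.natAbs_ne_zero.2 hdne)
  have hc : l ^ c ∣ Nat.card ((Fin r → ℤ) ⧸ LinearMap.range B.mulVecLin) := by
    rw [hcard]
    have := Int.natAbs_dvd_natAbs.2 hdet
    rwa [Int.natAbs_pow, Int.natAbs_natCast] at this
  have hmem : ∀ (j : ℕ) (v : Fin r → ℤ),
      (A ^ j).mulVec v - g ^ j • v ∈ LinearMap.range B.mulVecLin := by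
    intro j
    induction j with
    | zero => intro v; simp
    | succ j ih =>
      intro v
      have : (A ^ (j + 1)).mulVec v - g ^ (j + 1) • v =
          B.mulVecLin ((A ^ j).mulVec v) + g • ((A ^ j).mulVec v - g ^ j • v) := by
        rw [Matrix.mulVecLin_apply, hBdef, Ba_B, smul_sub, smul_smul, Matrix.mulVec_mulVec,
          ← pow_succ', ← pow_succ']
        abel
      rw [this]
      exact Submodule.add_mem _ (LinearMap.mem_range_self _ _) (Submodule.smul_mem _ _ (ih v))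
  have hk : ∀ q : (Fin r → ℤ) ⧸ LinearMap.range B.mulVecLin, m • ((l : ℤ) • q) = 0 := by
    intro q
    obtain ⟨v, rfl⟩ := Submodule.Quotient.mk_surjective _ q
    rw [smul_smul, mul_comm, ← hm, ← Submodule.Quotient.mk_smul, Submodule.Quotient.mk_eq_zero]
    have := hmem d v
    rw [hA, Matrix.one_mulVec] at this
    have h5 : (g ^ d - 1) • v = -(v - g ^ d • v) := by rw [sub_smul, one_smul]; abel
    rw [h5]
    exact Submodule.neg_mem _ this
  have hle := Ba_quot hl hc hml hk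
  haveI : Fintype (((Fin r → ℤ) ⧸ LinearMap.range B.mulVecLin) ⧸
    (zsmulAddGroupHom (α := (Fin r → ℤ) ⧸ LinearMap.range B.mulVecLin) (l : ℤ)).range) :=
    Fintype.ofFinite _
  let e := (Finite.equivFin (((Fin r → ℤ) ⧸ LinearMap.range B.mulVecLin) ⧸
    (zsmulAddGroupHom (α := (Fin r → ℤ) ⧸ LinearMap.range B.mulVecLin) (l : ℤ)).range)).symm
  have hsurj : ∀ z : ((Fin r → ℤ) ⧸ LinearMap.range B.mulVecLin) ⧸
    (zsmulAddGroupHom (α := (Fin r → ℤ) ⧸ LinearMap.range B.mulVecLin) (l : ℤ)).range,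
    ∃ v : Fin r → ℤ, QuotientAddGroup.mk (Submodule.Quotient.mk v) = z := by
    intro z
    obtain ⟨w, rfl⟩ := QuotientAddGroup.mk_surjective z
    obtain ⟨v, rfl⟩ := Submodule.Quotient.mk_surjective _ w
    exact ⟨v, rfl⟩
  choose s hs using hsurj
  refine ⟨fun i => s (e (Fin.castLE hle i)), ?_⟩
  intro i j hij a b hab
  apply hij
  have h6 : e (Fin.castLE hle i) = e (Fin.castLE hle j) := by
    rw [← hs (e (Fin.castLE hle i)), ← hs (e (Fin.castLE hle j)), QuotientAddGroup.eq]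
    refine ⟨Submodule.Quotient.mk (-b), ?_⟩
    have h7 : s (e (Fin.castLE hle j)) = s (e (Fin.castLE hle i)) - (B.mulVec a + (l : ℤ) • b) := by
      rw [← hab]; abel
    rw [h7]
    change Submodule.Quotient.mk (p := LinearMap.range B.mulVecLin) ((l : ℤ) • (-b)) =
      Submodule.Quotient.mk (p := LinearMap.range B.mulVecLin)
        (-s (e (Fin.castLE hle i)) + (s (e (Fin.castLE hle i)) - (B.mulVec a + (l : ℤ) • b)))
    rw [Submodule.Quotient.eq]
    refine ⟨a, ?_⟩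
    rw [Matrix.mulVecLin_apply, smul_neg]
    abel
  have h8 := e.injective h6
  exact Fin.castLE_injective hle h8

end H86G
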