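import Mathlib

/-!
Automorphisms acting on units (definitions, no row).
-/

set_option autoImplicit false
open scoped Classical

open NumberField NumberField.Units

namespace H86G

/-- The action on units. -/
noncomputable def su {L B : Type} [Field L] [Field B] [Algebra L B] (σ : B ≃ₐ[L] B) :
    (𝓞 B)ˣ →* (𝓞 B)ˣ :=
  Units.map (RingOfIntegers.mapRingEquiv (σ : B ≃+* B) : 𝓞 B →* 𝓞 B)

lemma coe_su {L B : Type} [Field L] [Field B] [Algebra L B] (σ : B ≃ₐ[L] B) (u : (𝓞 B)ˣ) :
    (((su σ u : (𝓞 B)ˣ) : 𝓞 B) : B) = σ ((u : 𝓞 B) : B) := rfl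

/-- Products of powers of the fundamental units. -/
noncomputable def uu (B : Type) [Field B] [NumberField B] (v : Fin (rank B) → ℤ) : (𝓞 B)ˣ :=
  ∏ i, fundSystem B i ^ v i

end H86G
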