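import Mathlib

/-!
Row Bp (about 130 lines): the determinant of a permutation matrix minus a scalar.

PROOF. `P` := the matrix, `(P.mulVec v) i = v (π i) - g v i`. If `det P = 0` nothing to prove. Otherwise `N := range of P.mulVecLin` (a submodule of `ι → ℤ`), `Matrix.toLin'`/mulVecLin is injective, `Nat.card ((ι → ℤ) ⧸ N) = natAbs (det P)`: Submodule.natAbs_det_equiv (Mathlib/LinearAlgebra/FreeModule/Finite/CardQuotient.lean) with the equivalence `(ι → ℤ) ≃ₗ N` (LinearEquiv.ofInjective), LinearMap.det_toLin'.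
 `m := g ^ d - 1 ≠ 0`. For `y ∈ Y` put `f_y v := ∑ j ∈ range d, g ^ (d - 1 - j) * v ((π ^ j) y)` in `ZMod m.natAbs`. `f_y (v ∘ π) = g f_y v` modulo `m`: `∑ j, g^(d-1-j) v (π^(j+1) y) = g * ∑_{j=1}^{d} g^(d-1-j) v (π^j y)` and the difference to `g * ∑_{j<d}` is `v (π^d y) - g^d v y = -(g^d - 1) v y`. So `(f_y)_y : (ι → ℤ) → (Y → ZMod m.natAbs)` kills `N` and induces an additive map of the quotient.
 It is surjective: for `c : Y → ZMod`, lift to `ℤ` and take `v` supported on the elements `π^(d-1) y` (`y ∈ Y`), with value `c y` there (well defined and not hit by other `π^j y'`, `j < d - 1`, by hY): `f_y v = c y`.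
 Hence `Nat.card (Y → ZMod m.natAbs) = m.natAbs ^ Y.card` divides `Nat.card ((ι → ℤ) ⧸ N) = natAbs (det P)` (AddSubgroup/ AddMonoidHom: Nat.card of the image of a surjective additive map divides: AddSubgroup.card_dvd_of_surjective), Int.natAbs_dvd_natAbs.
-/

set_option autoImplicit false
open scoped Classical

namespace H86G

theorem Bp_tel (g : ℤ) (b : ℕ → ℤ) (d : ℕ) (n : ℕ) (hn : n + 1 ≤ d) :
    ∑ j ∈ Finset.range n, g ^ (d - 1 - j) * (b (j + 2) - g * b (j + 1))
      = g ^ (d - n) * b (n + 1) - g ^ d * b 1 := by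
  induction n with
  | zero => simp
  | succ n ih =>
    rw [Finset.sum_range_succ, ih (by omega)]
    have h1 : d - n = (d - 1 - n) + 1 := by omega
    have h2 : d - (n + 1) = d - 1 - n := by omega
    rw [h1, h2, pow_succ]
    ring

theorem perm_dvd {ι : Type} [Fintype ι] (π : Equiv.Perm ι) (d : ℕ) (hd : 0 < d)
    (hπ : π ^ d = 1) (g : ℤ) (hg : g ^ d ≠ 1) (Y : Finset ι)
    (hY : ∀ y ∈ Y, ∀ y' ∈ Y, ∀ i < d, ∀ j < d, (π ^ i) y = (π ^ j) y' → y = y' ∧ i = j) :
    (g ^ d - 1) ^ Y.card ∣
      ((Matrix.of fun i j => if π i = j then (1 : ℤ) else 0) - Matrix.diagonal fun _ => g).det := by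
  obtain ⟨P, hP⟩ : ∃ P : Matrix ι ι ℤ,
    P = (Matrix.of fun i j => if π i = j then (1 : ℤ) else 0) - Matrix.diagonal fun _ => g :=
    ⟨_, rfl⟩
  rw [← hP]
  have hPe : ∀ l k, P l k = (if π l = k then (1 : ℤ) else 0) - g * (if l = k then 1 else 0) := by
    intro l k
    rw [hP, Matrix.sub_apply, Matrix.of_apply, Matrix.diagonal_apply]
    by_cases h : l = k
    · simp [h]
    · simp [h]
  obtain ⟨Z, hZ⟩ : ∃ Z : Finset ι, Z = Y.image (π ^ (d - 1)) := ⟨_, rfl⟩
  have hZc : Z.card = Y.card := by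
    rw [hZ]
    exact Finset.card_image_of_injective _ (π ^ (d - 1)).injective
  have hpd : ∀ i, (π ^ d) i = i := fun i => by
    rw [hπ]
    rfl
  have hdd : d - 1 + 1 = d := by omega
  have hZY : ∀ i ∈ Z, π i ∈ Y ∧ (π ^ (d - 1)) (π i) = i := by
    intro i hi
    rw [hZ, Finset.mem_image] at hi
    obtain ⟨y, hy, rfl⟩ := hi
    have h1 : π ((π ^ (d - 1)) y) = y := by
      rw [← Equiv.Perm.mul_apply, ← pow_succ', hdd, hpd]
    rw [h1]
    exact ⟨hy, rfl⟩
  obtain ⟨N, hN⟩ : ∃ N : Matrix ι ι ℤ, N = Matrix.of fun i k => if i ∈ Z then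
      ∑ j ∈ Finset.range (d - 1), g ^ (d - 1 - j) * (if (π ^ (j + 1)) i = k then (1 : ℤ) else 0)
      else 0 := ⟨_, rfl⟩
  have hNe : ∀ i k, N i k = if i ∈ Z then
      ∑ j ∈ Finset.range (d - 1), g ^ (d - 1 - j) * (if (π ^ (j + 1)) i = k then (1 : ℤ) else 0)
      else 0 := by
    intro i k
    rw [hN, Matrix.of_apply]
  have hNN : N * N = 0 := by
    ext i k
    rw [Matrix.mul_apply, Matrix.zero_apply]
    apply Finset.sum_eq_zero
    intro l _
    by_cases hi : i ∈ Z
    · by_cases hl : l ∈ Z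
      · have h0 : N i l = 0 := by
          rw [hNe, if_pos hi]
          apply Finset.sum_eq_zero
          intro j hj
          rw [Finset.mem_range] at hj
          rw [if_neg, mul_zero]
          intro h
          rw [pow_succ, Equiv.Perm.mul_apply] at h
          have h3 := hY (π i) (hZY i hi).1 (π l) (hZY l hl).1 j (by omega) (d - 1) (by omega)
            (by rw [h, (hZY l hl).2])
          omega
        rw [h0, zero_mul]
      · have h0 : N l k = 0 := by
          rw [hNe, if_neg hl]
        rw [h0, mul_zero]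
    · have h0 : N i l = 0 := by
        rw [hNe, if_neg hi]
      rw [h0, zero_mul]
  obtain ⟨R, hR⟩ : ∃ R : Matrix ι ι ℤ, R = Matrix.of fun i k => if i ∈ Z then
      -(if π i = k then (1 : ℤ) else 0) else P i k := ⟨_, rfl⟩
  have hDR : (1 + N) * P = Matrix.diagonal (fun i => if i ∈ Z then g ^ d - 1 else 1) * R := by
    ext i k
    rw [Matrix.diagonal_mul, hR, Matrix.of_apply, add_mul, one_mul, Matrix.add_apply]
    by_cases hi : i ∈ Z
    · rw [if_pos hi, if_pos hi, Matrix.mul_apply]
      have h1 : ∑ l, N i l * P l k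
          = ∑ j ∈ Finset.range (d - 1), g ^ (d - 1 - j) * P ((π ^ (j + 1)) i) k := by
        have h2 : ∀ l, N i l * P l k = ∑ j ∈ Finset.range (d - 1),
            (if (π ^ (j + 1)) i = l then g ^ (d - 1 - j) * P l k else 0) := by
          intro l
          rw [hNe, if_pos hi, Finset.sum_mul]
          apply Finset.sum_congr rfl
          intro j _
          by_cases h : (π ^ (j + 1)) i = l
          · rw [if_pos h, if_pos h, mul_one]
          · rw [if_neg h, if_neg h, mul_zero, zero_mul]
        rw [Finset.sum_congr rfl (fun l _ => h2 l), Finset.sum_comm]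
        apply Finset.sum_congr rfl
        intro j _
        rw [Finset.sum_ite_eq Finset.univ ((π ^ (j + 1)) i), if_pos (Finset.mem_univ _)]
      rw [h1]
      have h3 := Bp_tel g (fun j => if (π ^ j) i = k then (1 : ℤ) else 0) d (d - 1) (by omega)
      have h4 : ∀ j ∈ Finset.range (d - 1), g ^ (d - 1 - j) * P ((π ^ (j + 1)) i) k
          = g ^ (d - 1 - j) * ((fun j => if (π ^ j) i = k then (1 : ℤ) else 0) (j + 2)
            - g * (fun j => if (π ^ j) i = k then (1 : ℤ) else 0) (j + 1)) := by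
        intro j _
        rw [hPe]
        have h5 : π ((π ^ (j + 1)) i) = (π ^ (j + 2)) i := by
          rw [← Equiv.Perm.mul_apply, ← pow_succ']
        rw [h5]
      rw [Finset.sum_congr rfl h4, h3, hPe]
      have h6 : d - (d - 1) = 1 := by omega
      rw [h6, hdd]
      simp only [pow_one, hpd]
      ring
    · have h0 : (N * P) i k = 0 := by
        rw [Matrix.mul_apply]
        apply Finset.sum_eq_zero
        intro l _
        rw [hNe, if_neg hi, zero_mul]
      rw [h0, add_zero, if_neg hi, if_neg hi, one_mul]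
  have hinv : (1 - N) * (1 + N) = 1 := by
    have h : (1 - N) * (1 + N) = 1 - N * N := by
      rw [sub_mul, mul_add, mul_add, one_mul, one_mul, mul_one]
      abel
    rw [h, hNN, sub_zero]
  have hdet : P.det = (1 - N).det * ((g ^ d - 1) ^ Y.card * R.det) := by
    have h1 : P = (1 - N) * ((1 + N) * P) := by
      rw [← mul_assoc, hinv, one_mul]
    have h2 : (Matrix.diagonal (fun i => if i ∈ Z then g ^ d - 1 else (1 : ℤ))).det
        = (g ^ d - 1) ^ Y.card := by
      rw [Matrix.det_diagonal, Finset.prod_ite_mem, Finset.univ_inter, Finset.prod_const, hZc]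
    calc P.det = ((1 - N) * ((1 + N) * P)).det := by rw [← h1]
      _ = (1 - N).det * ((1 + N) * P).det := Matrix.det_mul _ _
      _ = (1 - N).det * ((g ^ d - 1) ^ Y.card * R.det) := by
          rw [hDR, Matrix.det_mul, h2]
  rw [hdet]
  exact Dvd.dvd.mul_left (dvd_mul_right _ _) _

end H86G
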