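import Pool.Agent.H86.T4G.Bu
import Pool.Agent.H86.T4G.Bp
import Pool.Agent.H86.T4G.Ba

/-!
Row Bf (about 150 lines): many units modulo `(σ - g)` and `l`-th powers. Use only the STATEMENTS of Bu, Bp, Ba.

PROOF. (1) `g' := g` or `g + l` (integers) with `l ∣ g'^d - 1`, `¬ l^2 ∣ g'^d - 1`: if `l^2 ∣ g^d - 1` then `(g + l)^d - 1 ≡ g^d - 1 + d g^(d-1) l` modulo `l^2` (add_pow_... / `Commute.add_pow`, or: `(g+l)^d - g^d = l * ∑ ...`, Polynomial-free: `sub_dvd_pow_sub_pow` and the geometric sum `∑ (g+l)^i g^(d-1-i) ≡ d g^(d-1)` modulo `l`) and `l ∤ d g^(d-1)` (`l ∤ g` as `l ∣ g^d - 1`).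
 (2) `A` from unit_mat; `π := MulAction.toPerm σ` on the infinite places, `π^j = toPerm (σ^j)`. perm_dvd with `g'` (`g'^d ≠ 1` as `l^2 ∤ g'^d - 1`): `(g'^d - 1)^n ∣ det (P - g') = det (A - g') (1 - g')`, `n = Y.card`. So `l^n ∣ det (A - g') (1 - g')`. `l^2 ∤ 1 - g'`: `1 - g'` divides `1 - g'^d`. If `d = 1` use this; if `d > 1`: `l ∤ g - 1` (hg1 1), so `l ∤ 1 - g'`. Hence `l^(n-1) ∣ det (A - g')` (Prime.pow_dvd_of_dvd_mul_right... : if `l^n ∣ x y` and `l^2 ∤ y` then `l^(n-1) ∣ x`; use multiplicity/emultiplicity or: `y = l y'` or `l ∤ y`).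
 (3) idx_low with `c := n - 1` gives vectors `v i`; `u i := uu B (v i)`. If `u i / u j = z * (su σ a / a^g) * b^l`: write `a = z₁ uu α`, `b = z₂ uu β` (exist_unique_eq_mul_prod); then `uu (v i - v j) = z' * uu (A α - g α + l β)`, with `z'` a root of unity (su σ maps torsion to torsion), so by uniqueness `v i - v j = A α - g α + l β = (A - g') α + l (β + k α)` with `g' = g + l k`.
-/

set_option autoImplicit false
open scoped Classical

open NumberField NumberField.Units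

namespace H86G

private lemma Bf_g {l d g : ℕ} (hl : l.Prime) (hdl : ¬ l ∣ d) (hd : 0 < d)
    (hg : (l : ℤ) ∣ (g : ℤ) ^ d - 1) :
    ∃ k : ℤ, (l : ℤ) ∣ ((g : ℤ) + l * k) ^ d - 1 ∧ ¬ (l : ℤ) ^ 2 ∣ ((g : ℤ) + l * k) ^ d - 1 := by
  have hlp : Prime (l : ℤ) := Nat.prime_iff_prime_int.1 hl
  by_cases h : (l : ℤ) ^ 2 ∣ (g : ℤ) ^ d - 1
  · obtain ⟨c, hc⟩ := Polynomial.powAddExpansion (g : ℤ) (l : ℤ) d
    refine ⟨1, ?_, ?_⟩
    · rw [mul_one, hc]
      have h1 : (g : ℤ) ^ d + (d : ℤ) * (g : ℤ) ^ (d - 1) * (l : ℤ) + c * (l : ℤ) ^ 2 - 1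
          = ((g : ℤ) ^ d - 1) + (l : ℤ) * ((d : ℤ) * (g : ℤ) ^ (d - 1) + c * l) := by ring
      rw [h1]
      exact dvd_add hg (dvd_mul_right _ _)
    · rw [mul_one, hc]
      intro h1
      have h2 : (l : ℤ) ^ 2 ∣ (l : ℤ) * ((d : ℤ) * (g : ℤ) ^ (d - 1)) := by
        have h3 : (l : ℤ) * ((d : ℤ) * (g : ℤ) ^ (d - 1))
            = ((g : ℤ) ^ d + (d : ℤ) * (g : ℤ) ^ (d - 1) * (l : ℤ) + c * (l : ℤ) ^ 2 - 1)
              - ((g : ℤ) ^ d - 1) - (l : ℤ) ^ 2 * c := by ring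
        rw [h3]
        exact dvd_sub (dvd_sub h1 h) (dvd_mul_right _ _)
      rw [pow_two] at h2
      have h3 : (l : ℤ) ∣ (d : ℤ) * (g : ℤ) ^ (d - 1) := Int.dvd_of_mul_dvd_mul_left hlp.ne_zero h2
      rcases hlp.dvd_or_dvd h3 with h4 | h4
      · exact hdl (by exact_mod_cast h4)
      · have h5 : (l : ℤ) ∣ (g : ℤ) := hlp.dvd_of_dvd_pow h4
        have h6 : (l : ℤ) ∣ (g : ℤ) ^ d := dvd_pow h5 hd.ne'
        have h7 : (l : ℤ) ∣ 1 := by
          have h8 := dvd_sub h6 hg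
          have h9 : (g : ℤ) ^ d - ((g : ℤ) ^ d - 1) = 1 := by ring
          rwa [h9] at h8
        exact hlp.not_isUnit (isUnit_of_dvd_one h7)
  · exact ⟨0, by rw [mul_zero, add_zero]; exact hg, by rw [mul_zero, add_zero]; exact h⟩

private lemma Bf_dvd {l : ℤ} (hl : Prime l) {n : ℕ} {x y : ℤ} (h : l ^ n ∣ x * y)
    (hy : ¬ l ^ 2 ∣ y) : l ^ (n - 1) ∣ x := by
  by_cases h1 : l ∣ y
  · obtain ⟨y', rfl⟩ := h1
    have h2 : ¬ l ∣ y' := by
      intro h3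
      apply hy
      rw [pow_two]
      exact mul_dvd_mul_left l h3
    rcases Nat.eq_zero_or_pos n with h0 | h0
    · rw [h0]; simp
    · obtain ⟨m, rfl⟩ : ∃ m, n = m + 1 := ⟨n - 1, by omega⟩
      rw [Nat.add_sub_cancel]
      have h3 : l * l ^ m ∣ l * (x * y') := by
        rw [← pow_succ']
        have h4 : l * (x * y') = x * (l * y') := by ring
        rw [h4]
        exact h
      have h4 : l ^ m ∣ x * y' := Int.dvd_of_mul_dvd_mul_left hl.ne_zero h3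
      exact hl.pow_dvd_of_dvd_mul_right m h2 h4
  · exact (pow_dvd_pow l (Nat.sub_le n 1)).trans (hl.pow_dvd_of_dvd_mul_right n h1 h)

private lemma Bf_add {B : Type} [Field B] [NumberField B] (v w : Fin (rank B) → ℤ) :
    uu B (v + w) = uu B v * uu B w := by
  unfold uu
  rw [← Finset.prod_mul_distrib]
  refine Finset.prod_congr rfl fun i _ => ?_
  rw [Pi.add_apply, zpow_add]

private lemma Bf_neg {B : Type} [Field B] [NumberField B] (v : Fin (rank B) → ℤ) :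
    uu B (-v) = (uu B v)⁻¹ := by
  unfold uu
  rw [← Finset.prod_inv_distrib]
  refine Finset.prod_congr rfl fun i _ => ?_
  rw [Pi.neg_apply, zpow_neg]

private lemma Bf_sub {B : Type} [Field B] [NumberField B] (v w : Fin (rank B) → ℤ) :
    uu B (v - w) = uu B v / uu B w := by
  rw [sub_eq_add_neg, Bf_add, Bf_neg, div_eq_mul_inv]

private lemma Bf_nsmul {B : Type} [Field B] [NumberField B] (n : ℕ) (v : Fin (rank B) → ℤ) :
    uu B ((n : ℤ) • v) = (uu B v) ^ n := by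
  unfold uu
  rw [← Finset.prod_pow]
  refine Finset.prod_congr rfl fun i _ => ?_
  rw [Pi.smul_apply, smul_eq_mul, mul_comm, zpow_mul, zpow_natCast]

private lemma Bf_uniq {B : Type} [Field B] [NumberField B] {v w : Fin (rank B) → ℤ} {z : (𝓞 B)ˣ}
    (hz : z ∈ torsion B) (h : uu B v = z * uu B w) : v = w := by
  have h1 := fun_eq_repr B (x := uu B v) (ζ := 1) (f := v) (Subgroup.one_mem _)
    (by rw [one_mul]; rfl)
  have h2 := fun_eq_repr B (x := uu B v) (ζ := z) (f := w) hz h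
  exact h1.trans h2.symm

private lemma Bf_tors {L B : Type} [Field L] [NumberField L] [Field B] [NumberField B] [Algebra L B]
    (σ : B ≃ₐ[L] B) {z : (𝓞 B)ˣ} (hz : z ∈ torsion B) : su σ z ∈ torsion B := by
  have h1 : IsOfFinOrder z := (CommGroup.mem_torsion _).1 hz
  exact (CommGroup.mem_torsion _).2 (MonoidHom.isOfFinOrder (su σ) h1)

theorem unit_fam {L B : Type} [Field L] [NumberField L] [Field B] [NumberField B] [Algebra L B]
    (σ : B ≃ₐ[L] B) {d : ℕ} (hd : 0 < d) (hσ : σ ^ d = 1) {l : ℕ} (hl : l.Prime)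
    (hdl : ¬ l ∣ d) {g : ℕ} (hg : (l : ℤ) ∣ (g : ℤ) ^ d - 1)
    (hg1 : ∀ j, 0 < j → j < d → ¬ (l : ℤ) ∣ (g : ℤ) ^ j - 1) (Y : Finset (InfinitePlace B))
    (hY : ∀ y ∈ Y, ∀ y' ∈ Y, ∀ i < d, ∀ j < d, (σ ^ i) • y = (σ ^ j) • y' → y = y' ∧ i = j) :
    ∃ u : Fin (l ^ (Y.card - 1)) → (𝓞 B)ˣ, ∀ i j, i ≠ j → ∀ a b : (𝓞 B)ˣ, ∀ z ∈ torsion B,
      u i / u j ≠ z * (su σ a / a ^ g) * b ^ l := by
  have hlp : Prime (l : ℤ) := Nat.prime_iff_prime_int.1 hl
  obtain ⟨k, hk1, hk2⟩ := Bf_g hl hdl hd hg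
  set g' : ℤ := (g : ℤ) + l * k with hg'
  obtain ⟨A, hA1, hA2, hA3⟩ := unit_mat σ
  -- the permutation of the infinite places
  have hπj : ∀ (j : ℕ) (w : InfinitePlace B),
      ((MulAction.toPerm σ : Equiv.Perm (InfinitePlace B)) ^ j) w = (σ ^ j) • w := by
    intro j
    induction j with
    | zero => intro w; simp
    | succ j ih =>
      intro w
      rw [pow_succ, Equiv.Perm.mul_apply, ih, MulAction.toPerm_apply, pow_succ, mul_smul]
  have hπ : (MulAction.toPerm σ : Equiv.Perm (InfinitePlace B)) ^ d = 1 := by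
    ext1 w
    rw [hπj, hσ, one_smul]
    rfl
  have hg1' : g' ^ d ≠ 1 := by
    intro h
    apply hk2
    rw [h]
    simp
  have hdet0 := perm_dvd (MulAction.toPerm σ : Equiv.Perm (InfinitePlace B)) d hd hπ g' hg1' Y
    (by
      intro y hy y' hy' i hi j hj h
      rw [hπj, hπj] at h
      exact hY y hy y' hy' i hi j hj h)
  have hdet1 : (l : ℤ) ^ Y.card ∣ (A - Matrix.diagonal fun _ => g').det * (1 - g') := by
    rw [hA3 g']
    exact (pow_dvd_pow_of_dvd hk1 _).trans hdet0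
  have hdet : (l : ℤ) ^ (Y.card - 1) ∣ (A - Matrix.diagonal fun _ => g').det := by
    refine Bf_dvd hlp hdet1 ?_
    intro h
    apply hk2
    have h1 : (1 - g') ∣ 1 - g' ^ d := by
      have := sub_dvd_pow_sub_pow 1 g' d
      rwa [one_pow] at this
    have h2 : (1 - g' ^ d) ∣ g' ^ d - 1 := ⟨-1, by ring⟩
    exact h.trans (h1.trans h2)
  obtain ⟨v, hv⟩ := idx_low A hd (hA2 d hσ) hl hk1 hk2 (Y.card - 1) hdet
  refine ⟨fun i => uu B (v i), ?_⟩
  intro i j hij a b z hz h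
  simp only at h
  obtain ⟨⟨⟨z1, hz1⟩, α⟩, hα, -⟩ := exist_unique_eq_mul_prod B a
  obtain ⟨⟨⟨z2, hz2⟩, β⟩, hβ, -⟩ := exist_unique_eq_mul_prod B b
  simp only at hα hβ
  have hα' : a = z1 * uu B α := hα
  have hβ' : b = z2 * uu B β := hβ
  obtain ⟨z3, hz3, h3⟩ := hA1 α
  refine hv i j hij α (β + k • α) ?_
  have hmat : (A - Matrix.diagonal fun _ => g').mulVec α + (l : ℤ) • (β + k • α)
      = A.mulVec α - (g : ℤ) • α + (l : ℤ) • β := by
    rw [Matrix.sub_mulVec]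
    funext i
    simp only [Pi.add_apply, Pi.sub_apply, Pi.smul_apply, smul_eq_mul, Matrix.mulVec_diagonal, hg']
    ring
  rw [hmat]
  have hZ : z * (su σ z1 * z3 / z1 ^ g) * z2 ^ l ∈ torsion B := by
    refine Subgroup.mul_mem _ (Subgroup.mul_mem _ hz (Subgroup.div_mem _
      (Subgroup.mul_mem _ (Bf_tors σ hz1) hz3) (Subgroup.pow_mem _ hz1 _)))
      (Subgroup.pow_mem _ hz2 _)
  refine Bf_uniq hZ ?_
  rw [Bf_sub, h, Bf_add, Bf_sub, Bf_nsmul, Bf_nsmul, hα', hβ', map_mul, h3, mul_pow, mul_pow]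
  simp only [div_eq_mul_inv, mul_inv]
  ac_rfl

end H86G
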