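import Pool.Agent.H86.T4G.Gx
import Pool.Agent.H86.T4G.Bd

/-!
Row Bg (about 230 lines): the intermediate field on which the character acts faithfully. Use only the STATEMENTS of Gx.

PROOF. `G := F ≃ₐ[L] F`, finite, abelian (DG.comm), of order prime to `l` (DG.ndvd, IsGalois.card_aut_eq_finrank). For `δ` choose `c δ`, `w δ` with `gp hV δ T = c δ • T`, `δ ζ = ζ ^ w δ`, prime to `l`; `χ δ := (c δ : ZMod l)`, `ω δ := (w δ : ZMod l)` are well defined (smul_iff, IsPrimitiveRoot.pow_inj) and multiplicative; `ψ : G →* (ZMod l)ˣ`, `ψ δ = ω δ / χ δ` (`Fact l.Prime`).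
 `B := IntermediateField.fixedField ψ.ker`, normal over `L` (`G` abelian: ψ.ker normal). `finrank B F = Nat.card ψ.ker` divides `Nat.card G`, prime to `l`. The range of `ψ` is cyclic (subgroup of `(ZMod l)ˣ`), generated by `ψ δ₀`; `d := orderOf (ψ δ₀) = Nat.card ψ.range`, `d ∣ l - 1` so `l ∤ d`, `g := (ψ δ₀).val` (a natural number with `(g : ZMod l) = ψ δ₀`): `g^j ≡ 1` modulo `l` iff `d ∣ j`.
 `σ := δ₀.restrictNormal B`: `(σ^j) x = δ₀^j x` for `x ∈ B`; `σ^d = 1` (`δ₀^d ∈ ψ.ker` fixes `B`). For `δ : G`: `ψ δ = (ψ δ₀)^j` with `j < d`, `δ₀^(-j) δ ∈ ψ.ker`, so `δ x = δ₀^j x = σ^j x` on `B`; if `c n ≡ w` then `n = ω δ / χ δ = ψ δ = g^j` in `ZMod l`.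
 `Y`: for every infinite place `v` of `L` choose `y v : InfinitePlace B` above (InfinitePlace.comap_surjective); `Y` := the image, `v ↦ y v` is injective. hY: `σ^i • y v = σ^j • y v'` with `i, j < d`: restrict to `L` (`(σ • y).comap (algebraMap L B) = y.comap _`): `v = v'`. So `σ^m • y v = y v` with `m = i - j` (wlog `j ≤ i`), `0 ≤ m < d`; claim: `σ^m = 1`, whence `m = 0` (if `σ^m = 1` then `δ₀^m` fixes `B`, so `δ₀^m ∈ ψ.ker` (Galois correspondence, IntermediateField.fixingSubgroup_fixedField), `d ∣ m`).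
 Claim: `τ := σ^m`, `φ := (y v).embedding : B →+* ℂ`. `τ • y = y` means `mk (φ.comp τ.symm) = mk φ`, so `φ ∘ τ⁻¹ = φ` (then `τ = 1`) or `conj (φ ∘ τ⁻¹) = φ`, i.e. `φ (τ x) = conj (φ x)` (apply to `τ x`... with `τ⁻¹` or `τ`, both are fine). In the second case extend `φ` to `ψ' : F →+* ℂ` (IsAlgClosed.lift / ComplexEmbedding.lift); `conj ∘ ψ'` and `ψ'` agree on `L` (`τ` fixes `L`: `conj (φ a) = φ (τ a) = φ a` for `a ∈ L`), so there is `δ : F ≃ₐ[L] F` with `ψ' (δ x) = conj (ψ' x)` for all `x` (`F / L` normal: Pool.Agent.H10.exists_aut). hodd: `gp hV δ T = -T`; `δ ζ = ζ⁻¹` (`ψ' (δ ζ) = conj (ψ' ζ) = (ψ' ζ)⁻¹`, a root of unity has absolute value one). So `ω δ = -1 = χ δ` (`-T = (l - 1) • T`, `ζ⁻¹ = ζ^(l-1)`), `ψ δ = 1`, `δ` fixes `B`, and `ψ' (δ x) = conj (φ x) = φ (τ x)` for `x ∈ B` gives `τ x = x`: `τ = 1`.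
-/

set_option autoImplicit false
open scoped Classical

open WeierstrassCurve IsDedekindDomain NumberField Pool.Agent.H10 Pool.Agent.H11 H78D

namespace H86G

theorem exists_B {l : ℕ} {L F : Type} [Field L] [NumberField L] [Field F] [NumberField F]
    [Algebra L F] {V : WeierstrassCurve L} {W : WeierstrassCurve F}
    {hV : V.map (algebraMap L F) = W} {T : W.toAffine.Point} {ζ : F} (H : DG l hV T ζ)
    (hodd : ∀ (ψ : F →+* ℂ) (δ : F ≃ₐ[L] F), (∀ x, ψ (δ x) = (starRingEnd ℂ) (ψ x)) →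
      gp hV δ T = -T) :
    ∃ (B : IntermediateField L F) (σ : B ≃ₐ[L] B) (d g : ℕ) (Y : Finset (InfinitePlace B)),
      0 < d ∧ σ ^ d = 1 ∧ ¬ l ∣ d ∧ ¬ l ∣ Module.finrank B F ∧ (l : ℤ) ∣ (g : ℤ) ^ d - 1 ∧
      (∀ j, 0 < j → j < d → ¬ (l : ℤ) ∣ (g : ℤ) ^ j - 1) ∧
      (∀ δ : F ≃ₐ[L] F, ∃ j < d, (∀ x : B, δ (x : F) = ((σ ^ j) x : B)) ∧
        ∀ c n w : ℕ, gp hV δ T = c • T → δ ζ = ζ ^ w → (c * n ≡ w [MOD l]) →
          n ≡ g ^ j [MOD l]) ∧
      Y.card = Fintype.card (InfinitePlace L) ∧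
      ∀ y ∈ Y, ∀ y' ∈ Y, ∀ i < d, ∀ j < d, (σ ^ i) • y = (σ ^ j) • y' → y = y' ∧ i = j := by
  have hl := H.prime
  haveI : Fact l.Prime := ⟨hl⟩
  haveI : NeZero l := ⟨hl.ne_zero⟩
  haveI := H.gal
  haveI : FiniteDimensional L F := Module.Finite.of_restrictScalars_finite ℚ L F
  choose c hc hcl using H.chi
  choose w hw hwl using H.cyc
  have hcu : ∀ (δ : F ≃ₐ[L] F) (a : ℕ), gp hV δ T = a • T → (a : ZMod l) = (c δ : ZMod l) := by
    intro δ a ha
    rw [hc δ] at ha
    exact (ZMod.natCast_eq_natCast_iff _ _ _).2 ((smul_iff hl H.T0 H.Tl _ _).1 ha).symm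
  have hζfin : IsOfFinOrder ζ := isOfFinOrder_iff_pow_eq_one.2 ⟨l, hl.pos, H.prim.pow_eq_one⟩
  have hwu : ∀ (δ : F ≃ₐ[L] F) (a : ℕ), δ ζ = ζ ^ a → (a : ZMod l) = (w δ : ZMod l) := by
    intro δ a ha
    rw [hw δ] at ha
    have h1 := hζfin.pow_eq_pow_iff_modEq.1 ha
    rw [← H.prim.eq_orderOf] at h1
    exact (ZMod.natCast_eq_natCast_iff _ _ _).2 h1.symm
  have hc0 : ∀ δ, (c δ : ZMod l) ≠ 0 := by
    intro δ h
    exact hcl δ ((ZMod.natCast_eq_zero_iff _ _).1 h)
  have hc1 : (c 1 : ZMod l) = 1 := by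
    rw [← hcu 1 1 (by rw [gp_one, one_smul]), Nat.cast_one]
  have hw1 : (w 1 : ZMod l) = 1 := by
    rw [← hwu 1 1 (by rw [pow_one]; rfl), Nat.cast_one]
  have hcm : ∀ δ ε : F ≃ₐ[L] F, (c (δ * ε) : ZMod l) = c δ * c ε := by
    intro δ ε
    rw [← hcu (δ * ε) (c ε * c δ) (by rw [gp_mul, hc ε, map_nsmul, hc δ, ← mul_smul]),
      Nat.cast_mul, mul_comm]
  have hwm : ∀ δ ε : F ≃ₐ[L] F, (w (δ * ε) : ZMod l) = w δ * w ε := by
    intro δ ε
    rw [← hwu (δ * ε) (w δ * w ε) (by rw [AlgEquiv.mul_apply, hw ε, map_pow, hw δ, ← pow_mul]),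
      Nat.cast_mul]
  let ψm : (F ≃ₐ[L] F) →* ZMod l :=
    { toFun := fun δ => (w δ : ZMod l) * (c δ : ZMod l)⁻¹
      map_one' := by rw [hc1, hw1, inv_one, mul_one]
      map_mul' := fun δ ε => by
        rw [hcm, hwm, mul_inv]
        ring }
  have hψm : ∀ δ, ψm δ = (w δ : ZMod l) * (c δ : ZMod l)⁻¹ := fun δ => rfl
  let ψ : (F ≃ₐ[L] F) →* (ZMod l)ˣ := ψm.toHomUnits
  have hψ : ∀ δ, ((ψ δ : (ZMod l)ˣ) : ZMod l) = (w δ : ZMod l) * (c δ : ZMod l)⁻¹ := fun δ => rfl
  -- a generator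
  haveI : IsCyclic ψ.range := Subgroup.isCyclic _
  obtain ⟨⟨_, δ0, rfl⟩, hgen⟩ := IsCyclic.exists_generator (α := ψ.range)
  set d : ℕ := orderOf (ψ δ0) with hd
  have hdpos : 0 < d := orderOf_pos _
  have hgen' : ∀ δ, ∃ j < d, ψ δ0 ^ j = ψ δ := by
    intro δ
    have h1 := hgen ⟨ψ δ, δ, rfl⟩
    obtain ⟨k, hk⟩ := Subgroup.mem_zpowers_iff.1 h1
    have h2 : ψ δ0 ^ k = ψ δ := congrArg Subtype.val hk
    have h3 : ψ δ ∈ Subgroup.zpowers (ψ δ0) := Subgroup.mem_zpowers_iff.2 ⟨k, h2⟩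
    rw [mem_zpowers_iff_mem_range_orderOf, Finset.mem_image] at h3
    obtain ⟨j, hj, hj'⟩ := h3
    exact ⟨j, Finset.mem_range.1 hj, hj'⟩
  set g : ℕ := ((ψ δ0 : (ZMod l)ˣ) : ZMod l).val with hg
  have hgc : (g : ZMod l) = ((ψ δ0 : (ZMod l)ˣ) : ZMod l) := ZMod.natCast_zmod_val _
  have hgj : ∀ j : ℕ, (l : ℤ) ∣ (g : ℤ) ^ j - 1 ↔ ψ δ0 ^ j = 1 := by
    intro j
    rw [← ZMod.intCast_zmod_eq_zero_iff_dvd]
    push_cast
    rw [hgc, sub_eq_zero]
    constructor
    · intro h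
      exact Units.ext (by rw [Units.val_pow_eq_pow_val, h, Units.val_one])
    · intro h
      rw [← Units.val_pow_eq_pow_val, h, Units.val_one]
  have hdl : d ∣ l - 1 := by
    have h1 := orderOf_dvd_card (x := ψ δ0)
    rwa [ZMod.card_units_eq_totient, Nat.totient_prime hl] at h1
  have hld : ¬ l ∣ d := by
    intro h
    have h1 := Nat.le_of_dvd hdpos h
    have h2 := Nat.le_of_dvd (Nat.sub_pos_of_lt hl.one_lt) hdl
    have := hl.pos
    omega
  -- the field
  let B : IntermediateField L F := IntermediateField.fixedField ψ.ker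
  haveI hBg : IsGalois L B := IsGalois.of_fixedField_normal_subgroup ψ.ker
  haveI hBn : Normal L B := hBg.to_normal
  have hBf : ¬ l ∣ Module.finrank B F := by
    intro h
    rw [IntermediateField.finrank_fixedField_eq_card] at h
    refine H.ndvd (dvd_trans h ?_)
    rw [← IsGalois.card_aut_eq_finrank L F]
    exact Subgroup.card_subgroup_dvd_card _
  let r : (F ≃ₐ[L] F) →* (B ≃ₐ[L] B) := AlgEquiv.restrictNormalHom B
  have hr : ∀ (δ : F ≃ₐ[L] F) (x : B), ((r δ x : B) : F) = δ (x : F) := fun δ x =>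
    AlgEquiv.restrictNormal_commutes δ B x
  have hker : ∀ δ : F ≃ₐ[L] F, r δ = 1 ↔ ψ δ = 1 := by
    intro δ
    have h1 : r.ker = ψ.ker :=
      (IntermediateField.restrictNormalHom_ker B).trans (IntermediateField.fixingSubgroup_fixedField _)
    have h2 : δ ∈ r.ker ↔ δ ∈ ψ.ker := by rw [h1]
    rwa [MonoidHom.mem_ker, MonoidHom.mem_ker] at h2
  have hrj : ∀ (δ : F ≃ₐ[L] F) (j : ℕ), ψ δ0 ^ j = ψ δ → r δ = r δ0 ^ j := by
    intro δ j h
    have h1 : ψ (δ * (δ0 ^ j)⁻¹) = 1 := by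
      rw [map_mul, map_inv, map_pow, h, mul_inv_cancel]
    have h2 := (hker _).2 h1
    rw [map_mul, map_inv, map_pow, mul_inv_eq_one] at h2
    exact h2
  have hσd : r δ0 ^ d = 1 := by
    rw [← map_pow, hker, map_pow, hd, pow_orderOf_eq_one]
  have hσj : ∀ m, r δ0 ^ m = 1 → d ∣ m := by
    intro m h
    rw [← map_pow, hker, map_pow] at h
    exact orderOf_dvd_iff_pow_eq_one.2 h
  -- places
  have hsur : ∀ v : InfinitePlace L, ∃ y : InfinitePlace B, y.comap (algebraMap L B) = v :=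
    fun v => InfinitePlace.comap_surjective (k := L) (K := B) v
  choose yv hyv using hsur
  have hyinj : Function.Injective yv := fun v v' h => by rw [← hyv v, ← hyv v', h]
  -- the claim
  have hclaim : ∀ (y : InfinitePlace B) (m : ℕ), (r δ0 ^ m) • y = y → r δ0 ^ m = 1 := by
    intro y m hm
    set τ : B ≃ₐ[L] B := r δ0 ^ m with hτ
    have h1 : InfinitePlace.mk (y.embedding.comp (τ.symm : B →+* B)) = InfinitePlace.mk y.embedding := by
      have h2 : τ • InfinitePlace.mk y.embedding = InfinitePlace.mk y.embedding := by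
        rw [InfinitePlace.mk_embedding]
        exact hm
      exact h2
    rcases InfinitePlace.mk_eq_iff.1 h1 with h2 | h2
    · have h3 : ∀ x : B, τ x = x := by
        intro x
        have h4 : y.embedding (τ.symm (τ x)) = y.embedding (τ x) := RingHom.congr_fun h2 (τ x)
        rw [AlgEquiv.symm_apply_apply] at h4
        exact (y.embedding.injective h4).symm
      exact AlgEquiv.ext h3
    · set φ : B →+* ℂ := y.embedding with hφ
      have h3 : ∀ x : B, (starRingEnd ℂ) (φ x) = φ (τ x) := by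
        intro x
        have h4 : (starRingEnd ℂ) (φ (τ.symm (τ x))) = φ (τ x) := RingHom.congr_fun h2 (τ x)
        rw [AlgEquiv.symm_apply_apply] at h4
        exact h4
      let Φ : F →+* ℂ := ComplexEmbedding.lift F φ
      have hΦ : ∀ x : B, Φ (x : F) = φ x := fun x =>
        RingHom.congr_fun (ComplexEmbedding.lift_comp_algebraMap F φ) x
      obtain ⟨δ, hδ⟩ := exists_aut (K := L) (Ω := F) Φ ((starRingEnd ℂ).comp Φ) (fun a => by
        have h5 : algebraMap L F a = ((algebraMap L B a : B) : F) := rfl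
        rw [RingHom.comp_apply, h5, hΦ, h3, AlgEquiv.commutes])
      have hδ' : ∀ x, Φ (δ x) = (starRingEnd ℂ) (Φ x) := fun x => (hδ x).symm
      have h6 := hodd Φ δ hδ'
      have h7 : (c δ : ZMod l) = -1 := by
        rw [← hcu δ (l - 1) (by
          rw [h6]
          have h8 : (l - 1) • T + T = 0 := by
            rw [← succ_nsmul, Nat.sub_add_cancel hl.one_lt.le, H.Tl]
          exact (eq_neg_of_add_eq_zero_left h8).symm), Nat.cast_sub hl.one_lt.le, Nat.cast_one,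
          ZMod.natCast_self, zero_sub]
      have h9 : δ ζ = ζ ^ (l - 1) := by
        apply Φ.injective
        rw [hδ']
        have h10 : ‖Φ ζ‖ = 1 :=
          Complex.norm_eq_one_of_pow_eq_one (by rw [← map_pow, H.prim.pow_eq_one, map_one]) hl.ne_zero
        have h11 : (Φ ζ)⁻¹ = (starRingEnd ℂ) (Φ ζ) := RCLike.inv_eq_conj h10
        have h12 : Φ ζ ≠ 0 := by
          intro h
          rw [h, norm_zero] at h10
          exact zero_ne_one h10
        rw [← h11]
        refine inv_eq_of_mul_eq_one_right ?_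
        rw [← map_mul, ← pow_succ', Nat.sub_add_cancel hl.one_lt.le, H.prim.pow_eq_one, map_one]
      have h13 : (w δ : ZMod l) = -1 := by
        rw [← hwu δ (l - 1) h9, Nat.cast_sub hl.one_lt.le, Nat.cast_one, ZMod.natCast_self, zero_sub]
      have h14 : ψ δ = 1 := by
        apply Units.ext
        rw [hψ, h7, h13, Units.val_one]
        exact mul_inv_cancel₀ (by rw [← h7]; exact hc0 δ)
      have h15 := (hker δ).2 h14
      have h16 : ∀ x : B, τ x = x := by
        intro x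
        apply φ.injective
        rw [← h3, ← hΦ, ← hδ', ← hr, h15]
        rfl
      exact AlgEquiv.ext h16
  have hlt : ∀ (y : InfinitePlace B) (i j : ℕ), i < j → j < d → (r δ0 ^ i) • y ≠ (r δ0 ^ j) • y := by
    intro y i j hij hj h
    have h1 : r δ0 ^ j = r δ0 ^ i * r δ0 ^ (j - i) := by
      rw [← pow_add, Nat.add_sub_cancel' hij.le]
    rw [h1, mul_smul] at h
    have h2 := (MulAction.injective (r δ0 ^ i)) h
    have h3 := hσj _ (hclaim y (j - i) h2.symm)
    have h4 := Nat.le_of_dvd (by omega) h3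
    omega
  refine ⟨B, r δ0, d, g, Finset.univ.image yv, hdpos, hσd, hld, hBf, ?_, ?_, ?_, ?_, ?_⟩
  · rw [hgj, hd, pow_orderOf_eq_one]
  · intro j hj hjd h
    rw [hgj] at h
    have h1 := Nat.le_of_dvd hj (orderOf_dvd_iff_pow_eq_one.2 h)
    omega
  · intro δ
    obtain ⟨j, hj, hj'⟩ := hgen' δ
    refine ⟨j, hj, ?_, ?_⟩
    · intro x
      rw [← hr, hrj δ j hj']
    · intro a n b ha hb hab
      have h1 : (a : ZMod l) * n = b := by
        have h2 := (ZMod.natCast_eq_natCast_iff _ _ _).2 hab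
        rwa [Nat.cast_mul] at h2
      rw [hcu δ a ha, hwu δ b hb] at h1
      apply (ZMod.natCast_eq_natCast_iff _ _ _).1
      rw [Nat.cast_pow, hgc, ← Units.val_pow_eq_pow_val, hj', hψ, ← h1, mul_comm (c δ : ZMod l),
        mul_assoc, mul_inv_cancel₀ (hc0 δ), mul_one]
  · rw [Finset.card_image_of_injective _ hyinj, Finset.card_univ]
  · intro y hy y' hy' i hi j hj h
    rw [Finset.mem_image] at hy hy'
    obtain ⟨v, _, rfl⟩ := hy
    obtain ⟨v', _, rfl⟩ := hy'
    have hres : ∀ (τ : B ≃ₐ[L] B) (y : InfinitePlace B),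
        (τ • y).comap (algebraMap L B) = y.comap (algebraMap L B) := by
      intro τ y
      rw [InfinitePlace.comap_smul]
      congr 1
      exact RingHom.ext fun a => τ.symm.commutes a
    have h1 : v = v' := by
      have h2 := congrArg (fun z : InfinitePlace B => z.comap (algebraMap L B)) h
      simp only [hres, hyv] at h2
      exact h2
    subst h1
    refine ⟨rfl, ?_⟩
    rcases lt_trichotomy i j with h3 | h3 | h3
    · exact absurd h (hlt _ i j h3 hj)
    · exact h3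
    · exact absurd h.symm (hlt _ j i h3 hi)

end H86G
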