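import Pool.Agent.H86.T4G.Bf

/-!
Row Bt (about 130 lines): many units in the eigenspace modulo `l`-th powers. Use only the STATEMENT of unit_fam.

PROOF. `u i` from unit_fam. `θ w := ∏ j ∈ range d, (su (σ^j) w) ^ (g ^ (d - 1 - j))` (a group homomorphism), `x i := θ (u i)`.
 (1) `su σ (θ w) = (θ w)^g * w / w^(g^d)`: `σ θ w = ∏_{j<d} (σ^(j+1) w)^(g^(d-1-j)) = ∏_{j=1}^{d} (σ^j w)^(g^(d-j))`, `(θ w)^g = ∏_{j=0}^{d-1} (σ^j w)^(g^(d-j))`; the quotient is `σ^d w / w^(g^d) = w / w^(g^d)` (Finset.prod_range_succ, prod_range_succ'). `g^d = 1 + l k` (hg, `g^d ≥ 1`), so `w / w^(g^d) = (w⁻¹^k)^l`.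
 (2) For every `w` and `j` there is `a` with `su (σ^j) w = w^(g^j) * (su σ a / a^g)` (induction: `σ^(j+1) w = σ (σ^j w)`, `σ y = y^g * (σ y / y^g)`, and `a ↦ su σ a / a^g` is a homomorphism). So `θ w = w^(d g^(d-1)) * (su σ a / a^g)` for some `a`.
 (3) if `x i / x j = y^l` with `i ≠ j`, `w := u i / u j`: `w^m = (su σ a / a^g) * y^l` (`a` replaced by its inverse), `m = d g^(d-1)` prime to `l`; `w = w^(m s) * w^(l t)` for integers `s, t` (Bezout), so `w = (su σ a' / a'^g) * b^l`, against unit_fam with `z = 1`.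
-/

set_option autoImplicit false
open scoped Classical

open NumberField NumberField.Units

namespace H86G

/-- The twisted products `∏ j < n, (s^j w)^(g^(n-1-j))`. -/
def Bt_th {U : Type} [CommGroup U] (s : U →* U) (g : ℕ) : ℕ → U → U
  | 0, _ => 1
  | n + 1, w => Bt_th s g n w ^ g * (⇑s)^[n] w

theorem Bt_mul {U : Type} [CommGroup U] (s : U →* U) (g n : ℕ) (w w' : U) :
    Bt_th s g n (w * w') = Bt_th s g n w * Bt_th s g n w' := by
  induction n with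
  | zero => simp [Bt_th]
  | succ n ih =>
    simp only [Bt_th]
    rw [ih, mul_pow, iterate_map_mul, mul_mul_mul_comm]

theorem Bt_div {U : Type} [CommGroup U] (s : U →* U) (g n : ℕ) (w w' : U) :
    Bt_th s g n (w / w') = Bt_th s g n w / Bt_th s g n w' := by
  have h := Bt_mul s g n (w / w') w'
  rw [div_mul_cancel] at h
  rw [h, mul_div_cancel_right]

theorem Bt_one {U : Type} [CommGroup U] (s : U →* U) (g n : ℕ) (w : U) :
    s (Bt_th s g n w) * w ^ (g ^ n) = Bt_th s g n w ^ g * (⇑s)^[n] w := by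
  induction n with
  | zero => simp [Bt_th]
  | succ n ih =>
    simp only [Bt_th]
    rw [map_mul, map_pow, Function.iterate_succ_apply', pow_succ g n, pow_mul, ← ih, mul_pow,
      mul_right_comm]

theorem Bt_two {U : Type} [CommGroup U] (s : U →* U) (g n : ℕ) (w : U) :
    ∃ a : U, (⇑s)^[n] w = w ^ (g ^ n) * (s a / a ^ g) := by
  induction n with
  | zero => exact ⟨1, by simp⟩
  | succ n ih =>
    obtain ⟨a, ha⟩ := ih
    refine ⟨a ^ g * (⇑s)^[n] w, ?_⟩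
    rw [Function.iterate_succ_apply', map_mul, map_pow, mul_pow, pow_succ g n, pow_mul]
    have h1 : ((⇑s)^[n] w) ^ g = (w ^ g ^ n) ^ g * (s a ^ g / (a ^ g) ^ g) := by
      rw [ha, mul_pow, div_pow]
    rw [h1]
    have h2 : (a ^ g) ^ g * ((w ^ g ^ n) ^ g * (s a ^ g / (a ^ g) ^ g)) =
        (w ^ g ^ n) ^ g * s a ^ g := by
      rw [mul_left_comm, mul_div_cancel]
    rw [h2, mul_div_assoc', mul_div_mul_left_eq_div, mul_div_cancel_left]

theorem Bt_three {U : Type} [CommGroup U] (s : U →* U) (g n : ℕ) :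
    ∃ c : ℕ, c * g = n * g ^ n ∧ ∀ w : U, ∃ a : U, Bt_th s g n w = w ^ c * (s a / a ^ g) := by
  induction n with
  | zero => exact ⟨0, by simp, fun w => ⟨1, by simp [Bt_th]⟩⟩
  | succ n ih =>
    obtain ⟨c, hc, h⟩ := ih
    refine ⟨c * g + g ^ n, ?_, ?_⟩
    · rw [hc, pow_succ]
      ring
    · intro w
      obtain ⟨a, ha⟩ := h w
      obtain ⟨b, hb⟩ := Bt_two s g n w
      refine ⟨a ^ g * b, ?_⟩
      simp only [Bt_th]
      rw [ha, hb, map_mul, map_pow, mul_pow, mul_pow, div_pow, pow_add, pow_mul]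
      rw [mul_mul_mul_comm, div_mul_div_comm]

theorem Bt_abs {U : Type} [CommGroup U] (s : U →* U) {d : ℕ} (hd : 0 < d)
    (hs : ∀ w, (⇑s)^[d] w = w) {l g : ℕ} (hl : l.Prime) (hdl : ¬ l ∣ d)
    (hg : (l : ℤ) ∣ (g : ℤ) ^ d - 1) :
    (∀ w, ∃ y, s (Bt_th s g d w) = Bt_th s g d w ^ g * y ^ l) ∧
      ∀ w y, Bt_th s g d w = y ^ l → ∃ a b, w = s a / a ^ g * b ^ l := by
  have hg0 : g ≠ 0 := by
    rintro rfl
    rw [Nat.cast_zero, zero_pow hd.ne', zero_sub, dvd_neg, Int.natCast_dvd] at hg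
    exact hl.one_lt.ne' (Nat.dvd_one.1 hg)
  have hg1 : 1 ≤ g ^ d := Nat.one_le_pow _ _ (Nat.pos_of_ne_zero hg0)
  have hg2 : l ∣ g ^ d - 1 := by
    rw [← Int.natCast_dvd_natCast]
    push_cast [Nat.cast_sub hg1]
    exact hg
  obtain ⟨k, hk⟩ := hg2
  have hk' : g ^ d = 1 + k * l := by
    rw [mul_comm k l, ← hk]
    omega
  have hlg : ¬ l ∣ g := by
    intro h
    have h1 : l ∣ g ^ d := dvd_pow h hd.ne'
    rw [hk', Nat.dvd_add_left (Dvd.intro_left k rfl)] at h1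
    exact hl.one_lt.ne' (Nat.dvd_one.1 h1)
  constructor
  · intro w
    refine ⟨(w⁻¹) ^ k, ?_⟩
    have h1 := Bt_one s g d w
    rw [hs, hk', pow_add, pow_one, pow_mul] at h1
    rw [← pow_mul, inv_pow, pow_mul]
    rw [eq_mul_inv_iff_mul_eq]
    have h2 : s (Bt_th s g d w) * (w ^ k) ^ l * w = Bt_th s g d w ^ g * w := by
      rw [← h1]
      rw [mul_assoc, mul_comm _ w]
    exact mul_right_cancel h2
  · intro w y hw
    obtain ⟨c, hc, h⟩ := Bt_three s g d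
    obtain ⟨a, ha⟩ := h w
    have hcl : ¬ l ∣ c := by
      intro h1
      have h2 : l ∣ d * g ^ d := by
        rw [← hc]
        exact Dvd.dvd.mul_right h1 g
      rcases (Nat.Prime.dvd_mul hl).1 h2 with h3 | h3
      · exact hdl h3
      · exact hlg (hl.dvd_of_dvd_pow h3)
    have hcop : Nat.Coprime c l := ((Nat.Prime.coprime_iff_not_dvd hl).2 hcl).symm
    obtain ⟨t, _, ht⟩ := Nat.exists_mul_mod_eq_one_of_coprime hcop hl.one_lt
    obtain ⟨q, hq⟩ : ∃ q, c * t = l * q + 1 := ⟨c * t / l, by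
      rw [← ht]
      exact (Nat.div_add_mod (c * t) l).symm⟩
    have e1 : w ^ c = y ^ l * (s a / a ^ g)⁻¹ := by
      rw [← hw, ha]
      rw [mul_inv_cancel_right]
    have e2 : w ^ (c * t) = (y ^ t) ^ l * ((s a / a ^ g)⁻¹) ^ t := by
      rw [pow_mul, e1, mul_pow, ← pow_mul, ← pow_mul, mul_comm l t]
    have e3 : w ^ (c * t) = (w ^ q) ^ l * w := by
      rw [hq, pow_add, pow_one, mul_comm l q, pow_mul]
    refine ⟨(a⁻¹) ^ t, y ^ t / w ^ q, ?_⟩
    have e4 : s ((a⁻¹) ^ t) / ((a⁻¹) ^ t) ^ g = ((s a / a ^ g)⁻¹) ^ t := by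
      rw [map_pow, map_inv, ← pow_mul, mul_comm t g, pow_mul, inv_pow a g, ← div_pow, inv_div,
        inv_div_inv]
    rw [e4, div_pow]
    rw [← mul_div_assoc, eq_div_iff_mul_eq', mul_comm w, ← e3, e2, mul_comm]

theorem theta_fam {L B : Type} [Field L] [NumberField L] [Field B] [NumberField B] [Algebra L B]
    (σ : B ≃ₐ[L] B) {d : ℕ} (hd : 0 < d) (hσ : σ ^ d = 1) {l : ℕ} (hl : l.Prime)
    (hdl : ¬ l ∣ d) {g : ℕ} (hg : (l : ℤ) ∣ (g : ℤ) ^ d - 1)
    (hg1 : ∀ j, 0 < j → j < d → ¬ (l : ℤ) ∣ (g : ℤ) ^ j - 1) (Y : Finset (InfinitePlace B))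
    (hY : ∀ y ∈ Y, ∀ y' ∈ Y, ∀ i < d, ∀ j < d, (σ ^ i) • y = (σ ^ j) • y' → y = y' ∧ i = j) :
    ∃ x : Fin (l ^ (Y.card - 1)) → (𝓞 B)ˣ, (∀ i, ∃ y, su σ (x i) = x i ^ g * y ^ l) ∧
      ∀ i j, (∃ y, x i / x j = y ^ l) → i = j := by
  obtain ⟨u, hu⟩ := unit_fam σ hd hσ hl hdl hg hg1 Y hY
  have hit : ∀ (j : ℕ) (w : (𝓞 B)ˣ),
      ((((⇑(su σ))^[j] w : (𝓞 B)ˣ) : 𝓞 B) : B) = (σ ^ j) ((w : 𝓞 B) : B) := by
    intro j w
    induction j with
    | zero => rfl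
    | succ j ih =>
      rw [Function.iterate_succ_apply', coe_su, ih, pow_succ']
      rfl
  have hs : ∀ w : (𝓞 B)ˣ, (⇑(su σ))^[d] w = w := by
    intro w
    apply Units.ext
    apply RingOfIntegers.ext
    rw [hit d w, hσ]
    rfl
  obtain ⟨h1, h2⟩ := Bt_abs (su σ) hd hs hl hdl hg
  refine ⟨fun i => Bt_th (su σ) g d (u i), fun i => h1 (u i), ?_⟩
  intro i j h
  obtain ⟨y, hy⟩ := h
  by_contra hij
  have hy' : Bt_th (su σ) g d (u i / u j) = y ^ l := by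
    rw [Bt_div]
    exact hy
  obtain ⟨a, b, hab⟩ := h2 _ y hy'
  exact hu i j hij a b 1 (one_mem _) (by rw [one_mul]; exact hab)

end H86G
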