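import Pool.Agent.H86.T4G.Bg
import Pool.Agent.H86.T4G.Bt

/-!
Row Bq (about 100 lines): many units of `F` in the eigenspace. Use only the STATEMENTS of Bg, Bt.

PROOF. exists_B, theta_fam (for `B`, a number field: IntermediateField instances), `u i := Units.map (algebraMap (𝓞 B) (𝓞 F)) (x i)`, as elements: `((u i : 𝓞 F) : F) = ((x i : 𝓞 B) : B) : F`. `Y.card - 1 = card (InfinitePlace L) - 1` (rewrite the index type with the equality of cardinalities).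
 Eig: `δ, c, n, w`: `j < d`, `δ = σ^j` on `B`, `n ≡ g^j`. `su (σ^j) (x i) = (x i)^(g^j) * y^l` for some unit `y` (induction on `j` from the case `j = 1`). So `δ (x i) = (x i)^(g^j) y^l`; with `n ≡ g^j` modulo `l`: `(x i)^(g^j) = (x i)^n * (x i)^(l k)` with `k` an integer (zpow; if `g^j ≥ n` a natural number, otherwise the inverse: `x i ≠ 0` in the field `F`), so `δ (x i) = (x i)^n * y'^l` with `y' ∈ F`.
 distinct: if `(x i / x j : F) = y^l` with `y ∈ F`, put `m := finrank B F`: taking norms to `B` (Algebra.norm_algebraMap: the norm of an element of `B` is its `m`-th power) `(x i / x j)^m = (N y)^l` in `B`; `l ∤ m`, Bezout: `x i / x j = b^l` with `b ∈ B`; `b` is a unit of `𝓞 B` (`b^l` and its inverse are integral: IsIntegral.of_pow; integrally closed), so theta_fam gives `i = j`.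
-/

set_option autoImplicit false
open scoped Classical

open WeierstrassCurve IsDedekindDomain NumberField Pool.Agent.H10 Pool.Agent.H11 H78D

namespace H86G

lemma Bq_pow {L B : Type} [Field L] [Field B] [Algebra L B] (σ : B ≃ₐ[L] B) {X Y : B} {g l : ℕ}
    (h : σ X = X ^ g * Y ^ l) (j : ℕ) : ∃ Z : B, (σ ^ j) X = X ^ (g ^ j) * Z ^ l := by
  induction j with
  | zero => exact ⟨1, by simp⟩
  | succ j ih =>
    obtain ⟨Z, hZ⟩ := ih
    refine ⟨Y ^ (g ^ j) * σ Z, ?_⟩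
    rw [pow_succ', AlgEquiv.mul_apply, hZ, map_mul, map_pow, map_pow, h]
    ring

lemma Bq_mod {F : Type} [Field F] {X : F} (hX : X ≠ 0) {a n l : ℕ} (h : n ≡ a [MOD l]) :
    ∃ Y : F, X ^ a = X ^ n * Y ^ l := by
  obtain ⟨k, hk⟩ := Nat.modEq_iff_dvd.1 h
  refine ⟨X ^ k, ?_⟩
  have e : ((a : ℕ) : ℤ) = (n : ℤ) + k * (l : ℤ) := by linarith
  rw [← zpow_natCast X a, e, zpow_add₀ hX, zpow_mul, zpow_natCast, zpow_natCast]

lemma Bq_root {B : Type} [Field B] {q N : B} (hq : q ≠ 0) {m l : ℕ} (hl : l.Prime) (hm : ¬ l ∣ m)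
    (h : q ^ m = N ^ l) : ∃ b : B, q = b ^ l := by
  have hc : IsCoprime (m : ℤ) (l : ℤ) :=
    Nat.isCoprime_iff_coprime.2 (Nat.Coprime.symm ((Nat.Prime.coprime_iff_not_dvd hl).2 hm))
  obtain ⟨s, t, hst⟩ := hc
  have hN : N ≠ 0 := by
    rintro rfl
    rw [zero_pow hl.ne_zero] at h
    exact pow_ne_zero m hq h
  refine ⟨N ^ s * q ^ t, ?_⟩
  calc q = q ^ (s * (m : ℤ) + t * (l : ℤ)) := by rw [hst, zpow_one]
    _ = (q ^ (m : ℤ)) ^ s * (q ^ t) ^ (l : ℤ) := by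
        rw [zpow_add₀ hq, mul_comm s (m : ℤ), zpow_mul, zpow_mul]
    _ = (N ^ s * q ^ t) ^ l := by
        rw [zpow_natCast, zpow_natCast, h, mul_pow, ← zpow_natCast N l, ← zpow_mul,
          mul_comm (l : ℤ) s, zpow_mul, zpow_natCast]

lemma Bq_unit {B : Type} [Field B] [NumberField B] {v : (𝓞 B)ˣ} {b : B} {l : ℕ} (hl : 0 < l)
    (h : ((v : 𝓞 B) : B) = b ^ l) : ∃ y : (𝓞 B)ˣ, v = y ^ l := by
  have h1 : IsIntegral ℤ b := IsIntegral.of_pow hl (by rw [← h]; exact (v : 𝓞 B).2)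
  have h0 : ((v : 𝓞 B) : B) * (((v⁻¹ : (𝓞 B)ˣ) : 𝓞 B) : B) = 1 := by
    have := congrArg (algebraMap (𝓞 B) B) (Units.mul_inv v)
    rw [map_mul, map_one] at this
    exact this
  have h2 : IsIntegral ℤ (b⁻¹) := by
    refine IsIntegral.of_pow hl ?_
    rw [inv_pow, ← h, ← eq_inv_of_mul_eq_one_right h0]
    exact ((v⁻¹ : (𝓞 B)ˣ) : 𝓞 B).2
  have hb : b ≠ 0 := by
    rintro rfl
    rw [h, zero_pow hl.ne', zero_mul] at h0
    exact zero_ne_one h0
  refine ⟨⟨⟨b, h1⟩, ⟨b⁻¹, h2⟩, ?_, ?_⟩, ?_⟩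
  · exact RingOfIntegers.ext (mul_inv_cancel₀ hb)
  · exact RingOfIntegers.ext (inv_mul_cancel₀ hb)
  · apply Units.ext
    apply RingOfIntegers.ext
    rw [h]
    rfl

theorem exists_fam {l : ℕ} {L F : Type} [Field L] [NumberField L] [Field F] [NumberField F]
    [Algebra L F] {V : WeierstrassCurve L} {W : WeierstrassCurve F}
    {hV : V.map (algebraMap L F) = W} {T : W.toAffine.Point} {ζ : F} (H : DG l hV T ζ)
    (hodd : ∀ (ψ : F →+* ℂ) (δ : F ≃ₐ[L] F), (∀ x, ψ (δ x) = (starRingEnd ℂ) (ψ x)) →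
      gp hV δ T = -T) :
    ∃ u : Fin (l ^ (Fintype.card (InfinitePlace L) - 1)) → (𝓞 F)ˣ,
      (∀ i, Eig l hV T ζ ((u i : 𝓞 F) : F)) ∧
      ∀ i j, (∃ y : F, ((u i : 𝓞 F) : F) / ((u j : 𝓞 F) : F) = y ^ l) → i = j := by
  obtain ⟨B, σ, d, g, Y, hd, hσ, hld, hlm, hg, hg1, hδ, hYc, hY⟩ := exists_B H hodd
  have hth := theta_fam σ hd hσ H.prime hld hg hg1 Y hY
  rw [hYc] at hth
  obtain ⟨x, hx, hxd⟩ := hth
  refine ⟨fun i => Units.map (algebraMap (𝓞 B) (𝓞 F)).toMonoidHom (x i), ?_, ?_⟩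
  · intro i δ c n w h1 h2 h3
    obtain ⟨j, hj, hB, hn⟩ := hδ δ
    obtain ⟨y, hy⟩ := hx i
    have hy' : σ ((x i : 𝓞 B) : B) = ((x i : 𝓞 B) : B) ^ g * ((y : 𝓞 B) : B) ^ l := by
      rw [← coe_su, hy]
      simp
    obtain ⟨Z, hZ⟩ := Bq_pow σ hy' j
    have hX : (((x i : 𝓞 B) : B) : F) ≠ 0 := by
      intro h
      have h' : ((x i : 𝓞 B) : B) = 0 := by exact_mod_cast h
      exact (x i).ne_zero (RingOfIntegers.ext h')
    obtain ⟨Y', hY'⟩ := Bq_mod hX (hn c n w h1 h2 h3)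
    refine ⟨Y' * (Z : F), ?_⟩
    have e : (((Units.map (algebraMap (𝓞 B) (𝓞 F)).toMonoidHom (x i) : (𝓞 F)ˣ) : 𝓞 F) : F) =
        (((x i : 𝓞 B) : B) : F) := rfl
    rw [e, hB, hZ, mul_pow, ← mul_assoc, ← hY']
    push_cast
    rfl
  · rintro i j ⟨y, hy⟩
    have e : ∀ i, (((Units.map (algebraMap (𝓞 B) (𝓞 F)).toMonoidHom (x i) : (𝓞 F)ˣ) : 𝓞 F) : F) =
        (((x i : 𝓞 B) : B) : F) := fun i => rfl
    simp only [e] at hy
    have hq : (((x i / x j : (𝓞 B)ˣ) : 𝓞 B) : B) = ((x i : 𝓞 B) : B) / ((x j : 𝓞 B) : B) := by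
      have h1 := congrArg (Units.val) (map_div (Units.map (algebraMap (𝓞 B) B).toMonoidHom) (x i) (x j))
      rw [Units.val_div_eq_div_val] at h1
      exact h1
    have hq0 : (((x i / x j : (𝓞 B)ˣ) : 𝓞 B) : B) ≠ 0 := by
      intro h
      exact (x i / x j).ne_zero (RingOfIntegers.ext h)
    have hN' : algebraMap B F (((x i / x j : (𝓞 B)ˣ) : 𝓞 B) : B) = y ^ l := by
      rw [hq, ← hy, map_div₀]
      rfl
    have hn2 := congrArg (Algebra.norm B) hN'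
    rw [Algebra.norm_algebraMap, map_pow] at hn2
    obtain ⟨b, hb⟩ := Bq_root hq0 H.prime hlm hn2
    exact hxd i j (Bq_unit H.prime.pos hb)

end H86G
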