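import Pool.Agent.H86.T4G.Bd

/-!
Row Bu (about 200 lines): the matrix of an automorphism on the units.

Mathlib: NumberField.Units: exist_unique_eq_mul_prod (every unit is a root of unity times `∏ fundSystem i ^ e i`, uniquely), finrank_mul_regulator_eq_det, regulator_ne_zero (Mathlib/NumberTheory/NumberField/Units/Regulator.lean), sum_mult_mul_log; InfinitePlace: the action of `B ≃ₐ[L] B` on the infinite places, smul_apply: `(σ • w) x = w (σ.symm x)`, mult_smul / isReal_smul_iff (`mult (σ • w) = mult w`).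
PROOF. `A i j` := the exponent of `fundSystem i` in `σ (fundSystem j)`. First conclusion: `σ (uu v) = ∏ j, (ζ_j ∏ i, f_i^(A i j))^(v j) = (torsion) * uu (A.mulVec v)`. Second: by uniqueness of the exponents the matrix of `σ^d` is `A^d` (induction from the first conclusion, with uniqueness), and the matrix of the identity is `1`.
 Third: fix `w' : InfinitePlace B` and `e : {w // w ≠ w'} ≃ Fin (rank B)` (exists: card; `equivFinRank.symm` for w₀). `R : Matrix (InfinitePlace B) (InfinitePlace B) ℝ`, `R i w := if h : i = w' then mult w else mult w * log (w (fundSystem (e ⟨i, h⟩)))`; `det R ≠ 0` by finrank_mul_regulator_eq_det (finrank > 0, regulator ≠ 0).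
  For a unit `u`: `log (w (σ u)) = log ((σ⁻¹ • w) u)`. So with `A' : Matrix (InfinitePlace B) _ ℝ` equal to the transpose of `A` on the indices `≠ w'` (through `e`), `1` at `(w', w')`, zero else, and `P' w v := if σ⁻¹ • v = w then 1 else 0` (i.e. `w = σ⁻¹ v`): `(R P') i v = R i (σ⁻¹ v)`, and `A' R = R P'`: in the row `i ≠ w'`: `∑ j, A_{j i} mult v log (v (f_j)) = mult v log (v (σ f_i)) = mult (σ⁻¹ v) log ((σ⁻¹ v) f_i)` (roots of unity have log zero), in the row `w'`: `mult v = mult (σ⁻¹ v)`.
  So `(A' - g) R = R (P' - g)`, `det (A' - g) = det (P' - g)`. `det (A' - g) = det (A - g) * (1 - g)` (block decomposition: reindex `InfinitePlace B ≃ {w // w ≠ w'} ⊕ Unit`, Matrix.det_fromBlocks_zero₂₁ / det_fromBlocks_zero₁₂; det_transpose, det_reindex_self with `e`). `P' w v = 1` iff `σ • w = v`: this is the matrix in the statement. Everything is the image of an identity of integers (Int.cast_injective, RingHom.map_det / Matrix.map).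
-/

set_option autoImplicit false
open scoped Classical

open NumberField NumberField.Units

namespace H86G

private theorem Bu_eq {B : Type} [Field B] [NumberField B] {z z' : (𝓞 B)ˣ}
    (hz : z ∈ torsion B) (hz' : z' ∈ torsion B) {v v' : Fin (rank B) → ℤ}
    (h : z * uu B v = z' * uu B v') : v = v' := by
  unfold uu at h
  have h1 := fun_eq_repr B hz (rfl : z * ∏ i, fundSystem B i ^ v i = _)
  have h2 := fun_eq_repr B hz' h
  rw [h1, ← h2]

private theorem Bu_ex {B : Type} [Field B] [NumberField B] (x : (𝓞 B)ˣ) :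
    ∃ v : Fin (rank B) → ℤ, ∃ z ∈ torsion B, x = z * uu B v := by
  obtain ⟨⟨z, v⟩, h, -⟩ := exist_unique_eq_mul_prod B x
  exact ⟨v, z.1, z.2, h⟩

private theorem Bu_tor {L B : Type} [Field L] [Field B] [Algebra L B] (σ : B ≃ₐ[L] B)
    {z : (𝓞 B)ˣ} (hz : z ∈ torsion B) : su σ z ∈ torsion B := by
  unfold torsion at hz ⊢
  rw [CommGroup.mem_torsion] at hz ⊢
  exact (su σ).isOfFinOrder hz

private theorem Bu_uu {B : Type} [Field B] [NumberField B] {n : ℕ} (m : Fin n → (𝓞 B)ˣ)
    (A : Matrix (Fin (rank B)) (Fin n) ℤ) (z : Fin n → (𝓞 B)ˣ) (hz : ∀ j, z j ∈ torsion B)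
    (hm : ∀ j, m j = z j * uu B (fun i => A i j)) (v : Fin n → ℤ) :
    ∃ y ∈ torsion B, ∏ j, m j ^ v j = y * uu B (A.mulVec v) := by
  refine ⟨∏ j, z j ^ v j, Subgroup.prod_mem _ fun j _ => Subgroup.zpow_mem _ (hz j) _, ?_⟩
  have h1 : ∀ j, m j ^ v j = z j ^ v j * ∏ i, fundSystem B i ^ (A i j * v j) := by
    intro j
    rw [hm, mul_zpow]
    congr 1
    unfold uu
    rw [← Finset.prod_zpow]
    refine Finset.prod_congr rfl fun i _ => ?_
    rw [zpow_mul]
  rw [Finset.prod_congr rfl fun j _ => h1 j, Finset.prod_mul_distrib]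
  congr 1
  rw [Finset.prod_comm]
  unfold uu
  refine Finset.prod_congr rfl fun i _ => ?_
  have h2 : ∀ s : Finset (Fin n), ∏ x ∈ s, fundSystem B i ^ (A i x * v x) =
      fundSystem B i ^ (∑ x ∈ s, A i x * v x) := by
    intro s
    induction s using Finset.induction_on with
    | empty => rw [Finset.prod_empty, Finset.sum_empty, zpow_zero]
    | insert a s ha ih => rw [Finset.prod_insert ha, Finset.sum_insert ha, ih, zpow_add]
  exact h2 Finset.univ

private theorem Bu_pow {L B : Type} [Field L] [NumberField L] [Field B] [NumberField B]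
    [Algebra L B] (σ : B ≃ₐ[L] B) (A : Matrix (Fin (rank B)) (Fin (rank B)) ℤ)
    (h : ∀ v : Fin (rank B) → ℤ, ∃ z ∈ torsion B, su σ (uu B v) = z * uu B (A.mulVec v)) (d : ℕ) :
    ∀ v : Fin (rank B) → ℤ, ∃ z ∈ torsion B,
      su (σ ^ d) (uu B v) = z * uu B ((A ^ d).mulVec v) := by
  induction d with
  | zero =>
    intro v
    refine ⟨1, one_mem _, ?_⟩
    rw [pow_zero, pow_zero, Matrix.one_mulVec, one_mul]
    ext
    rfl
  | succ d ih =>
    intro v
    obtain ⟨z, hz, h1⟩ := ih v
    obtain ⟨z', hz', h2⟩ := h ((A ^ d).mulVec v)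
    refine ⟨su σ z * z', mul_mem (Bu_tor σ hz) hz', ?_⟩
    have h3 : su (σ ^ (d + 1)) (uu B v) = su σ (su (σ ^ d) (uu B v)) := by
      ext
      rw [pow_succ']
      rfl
    rw [h3, h1, map_mul, h2, pow_succ', ← Matrix.mulVec_mulVec, mul_assoc]

private theorem Bu_log {B : Type} [Field B] [NumberField B] (w : InfinitePlace B)
    {z : (𝓞 B)ˣ} (hz : z ∈ torsion B) (m : Fin (rank B) → ℤ) :
    Real.log (w ((z * uu B m : (𝓞 B)ˣ) : B)) =
      ∑ i, (m i : ℝ) * Real.log (w (fundSystem B i : B)) := by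
  rw [Units.coe_mul, map_mul, (mem_torsion B).1 hz w, one_mul]
  have h1 : ∀ s : Finset (Fin (rank B)),
      Real.log (w ((∏ i ∈ s, fundSystem B i ^ m i : (𝓞 B)ˣ) : B)) =
        ∑ i ∈ s, (m i : ℝ) * Real.log (w (fundSystem B i : B)) := by
    intro s
    induction s using Finset.induction_on with
    | empty =>
      rw [Finset.prod_empty, Finset.sum_empty, Units.coe_one, map_one, Real.log_one]
    | insert a s ha ih =>
      rw [Finset.prod_insert ha, Finset.sum_insert ha, Units.coe_mul, map_mul,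
        Real.log_mul ((map_ne_zero w).2 (Units.coe_ne_zero _))
          ((map_ne_zero w).2 (Units.coe_ne_zero _)), ih, Units.coe_zpow, map_zpow₀, Real.log_zpow]
  exact h1 Finset.univ

private theorem Bu_sum {ι : Type} [Fintype ι] [DecidableEq ι] {n : ℕ} (w' : ι)
    (e : {w // w ≠ w'} ≃ Fin n) (F : Fin n → ℝ) :
    (∑ j : ι, if hj : j = w' then 0 else F (e ⟨j, hj⟩)) = ∑ k, F k := by
  symm
  refine Finset.sum_of_injOn (fun k => (e.symm k).1) ?_ ?_ ?_ ?_
  · intro x _ y _ h
    exact e.symm.injective (Subtype.ext h)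
  · intro x _
    exact Finset.mem_coe.2 (Finset.mem_univ _)
  · intro j _ hj
    by_cases h : j = w'
    · exact dif_pos h
    · exact absurd ⟨e ⟨j, h⟩, Finset.mem_coe.2 (Finset.mem_univ _), by
        show (e.symm (e ⟨j, h⟩)).1 = j
        rw [Equiv.symm_apply_apply]⟩ hj
  · intro k _
    rw [dif_neg (e.symm k).2]
    congr 1
    exact (e.apply_symm_apply k).symm

private theorem Bu_ds {n R : Type} [CommRing R] (d : DecidableEq n) (f : Fintype n)
    [Subsingleton n] (A : Matrix n n R) (k : n) : @Matrix.det n d f R _ A = A k k :=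
  Matrix.det_eq_elem_of_subsingleton A k

private theorem Bu_blk {ι : Type} [Fintype ι] [DecidableEq ι] {n : ℕ} (w' : ι)
    (e : {w // w ≠ w'} ≃ Fin n) (A : Matrix (Fin n) (Fin n) ℤ) (X : Matrix ι ι ℤ) (x : ℤ)
    (h1 : X w' w' = x) (h2 : ∀ j, j ≠ w' → X w' j = 0)
    (h3 : ∀ i j (hi : i ≠ w') (hj : j ≠ w'), X i j = A (e ⟨j, hj⟩) (e ⟨i, hi⟩)) :
    X.det = A.det * x := by
  rw [Matrix.twoBlockTriangular_det' X (fun i => i = w') (fun i hi j hj => by
    rw [hi]
    exact h2 j hj), mul_comm]
  congr 1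
  · rw [← Matrix.det_transpose A, ← Matrix.det_submatrix_equiv_self e A.transpose]
    congr 1
    ext i j
    rw [Matrix.submatrix_apply, Matrix.transpose_apply]
    exact h3 i.1 j.1 i.2 j.2
  · have : Subsingleton {i // i = w'} := ⟨fun x y => Subtype.ext (x.2.trans y.2.symm)⟩
    have h5 : (X.toSquareBlockProp (fun i => i = w')) ⟨w', rfl⟩ ⟨w', rfl⟩ = x := h1
    exact (Bu_ds _ _ _ ⟨w', rfl⟩).trans h5

private theorem Bu_real {ι : Type} [Fintype ι] [DecidableEq ι] (X Y : Matrix ι ι ℤ) (g : ℤ)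
    (R : Matrix ι ι ℝ) (hR : R.det ≠ 0)
    (h : X.map (fun x : ℤ => (x : ℝ)) * R = R * Y.map (fun x : ℤ => (x : ℝ))) :
    (X - Matrix.diagonal fun _ => g).det = (Y - Matrix.diagonal fun _ => g).det := by
  have hc : ∀ Z : Matrix ι ι ℤ, (((Z - Matrix.diagonal fun _ => g).det : ℤ) : ℝ) =
      (Z.map (fun x : ℤ => (x : ℝ)) - Matrix.diagonal fun _ => (g : ℝ)).det := by
    intro Z
    have h1 := (Int.castRingHom ℝ).map_det (Z - Matrix.diagonal fun _ => g)
    rw [eq_intCast] at h1
    rw [h1]
    congr 1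
    ext i j
    rw [RingHom.mapMatrix_apply, Matrix.map_apply, Matrix.sub_apply, Matrix.sub_apply,
      Matrix.map_apply, eq_intCast, Int.cast_sub]
    congr 1
    by_cases hij : i = j
    · rw [hij, Matrix.diagonal_apply_eq, Matrix.diagonal_apply_eq]
    · rw [Matrix.diagonal_apply_ne _ hij, Matrix.diagonal_apply_ne _ hij, Int.cast_zero]
  apply Int.cast_injective (α := ℝ)
  rw [hc, hc]
  have h2 : (X.map (fun x : ℤ => (x : ℝ)) - Matrix.diagonal fun _ => (g : ℝ)) * R =
      R * (Y.map (fun x : ℤ => (x : ℝ)) - Matrix.diagonal fun _ => (g : ℝ)) := by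
    rw [sub_mul, mul_sub, h]
    congr 1
    ext i j
    rw [Matrix.diagonal_mul, Matrix.mul_diagonal, mul_comm]
  have h3 := congrArg Matrix.det h2
  rw [Matrix.det_mul, Matrix.det_mul, mul_comm R.det] at h3
  exact mul_right_cancel₀ hR h3

private theorem Bu_mult {L B : Type} [Field L] [NumberField L] [Field B] [NumberField B]
    [Algebra L B] (σ : B ≃ₐ[L] B) (w : InfinitePlace B) : (σ • w).mult = w.mult := by
  unfold InfinitePlace.mult
  by_cases h : w.IsReal
  · rw [if_pos h, if_pos (InfinitePlace.isReal_smul_iff.2 h)]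
  · rw [if_neg h, if_neg (fun h' => h (InfinitePlace.isReal_smul_iff.1 h'))]

private theorem Bu_reg (B : Type) [Field B] [NumberField B] (w' : InfinitePlace B)
    (e : {w // w ≠ w'} ≃ Fin (rank B)) :
    (Matrix.of (fun i w : InfinitePlace B ↦
        if h : i = w' then (w.mult : ℝ) else
          w.mult * Real.log (w (fundSystem B (e ⟨i, h⟩) : B)))).det ≠ 0 := by
  intro h0
  have h1 := finrank_mul_regulator_eq_det B w' e
  rw [h0, abs_zero] at h1
  rcases mul_eq_zero.1 h1 with h2 | h2
  · rw [Nat.cast_eq_zero] at h2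
    exact (Module.finrank_pos (R := ℚ) (M := B)).ne' h2
  · exact regulator_ne_zero B h2

theorem unit_mat {L B : Type} [Field L] [NumberField L] [Field B] [NumberField B] [Algebra L B]
    (σ : B ≃ₐ[L] B) : ∃ A : Matrix (Fin (rank B)) (Fin (rank B)) ℤ,
      (∀ v : Fin (rank B) → ℤ, ∃ z ∈ torsion B, su σ (uu B v) = z * uu B (A.mulVec v)) ∧
      (∀ d : ℕ, σ ^ d = 1 → A ^ d = 1) ∧
      ∀ g : ℤ, (A - Matrix.diagonal fun _ => g).det * (1 - g) =
        ((Matrix.of fun w w' : InfinitePlace B => if σ • w = w' then (1 : ℤ) else 0) -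
          Matrix.diagonal fun _ => g).det := by
  choose a z hz ha using fun j => Bu_ex (su σ (fundSystem B j))
  obtain ⟨A, hA⟩ : ∃ A : Matrix (Fin (rank B)) (Fin (rank B)) ℤ, ∀ i j, A i j = a j i :=
    ⟨fun i j => a j i, fun _ _ => rfl⟩
  have hA2 : ∀ j, (fun i => A i j) = a j := fun j => funext fun i => hA i j
  have hf : ∀ j, su σ (fundSystem B j) = z j * uu B (fun i => A i j) := fun j => by
    rw [hA2]
    exact ha j
  have hone : ∀ v : Fin (rank B) → ℤ, ∃ z ∈ torsion B, su σ (uu B v) = z * uu B (A.mulVec v) := by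
    intro v
    obtain ⟨y, hy, h⟩ := Bu_uu (fun j => su σ (fundSystem B j)) A z hz hf v
    refine ⟨y, hy, ?_⟩
    rw [← h]
    unfold uu
    rw [map_prod]
    exact Finset.prod_congr rfl fun j _ => map_zpow _ _ _
  refine ⟨A, hone, ?_, ?_⟩
  · intro d hd
    have h1 := Bu_pow σ A hone d
    rw [hd] at h1
    have h2 : ∀ v, (A ^ d).mulVec v = v := by
      intro v
      obtain ⟨y, hy, h3⟩ := h1 v
      have h4 : (1 : (𝓞 B)ˣ) * uu B v = y * uu B ((A ^ d).mulVec v) := by
        rw [← h3, one_mul]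
        ext
        rfl
      exact (Bu_eq (one_mem _) hy h4).symm
    ext i j
    have h5 := congrFun (h2 (Pi.single j 1)) i
    rw [Matrix.mulVec_single_one, Matrix.col_apply] at h5
    rw [h5, Matrix.one_apply, Pi.single_apply]
  · intro g
    obtain ⟨w', e⟩ : Σ w' : InfinitePlace B, {w // w ≠ w'} ≃ Fin (rank B) :=
      ⟨_, (equivFinRank B).symm⟩
    obtain ⟨X, hX⟩ : ∃ X : Matrix (InfinitePlace B) (InfinitePlace B) ℤ, ∀ i j, X i j =
        if hi : i = w' then (if j = w' then 1 else 0) else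
          (if hj : j = w' then 0 else A (e ⟨j, hj⟩) (e ⟨i, hi⟩)) :=
      ⟨fun i j => if hi : i = w' then (if j = w' then 1 else 0) else
          (if hj : j = w' then 0 else A (e ⟨j, hj⟩) (e ⟨i, hi⟩)), fun _ _ => rfl⟩
    have e1 : (X - Matrix.diagonal fun _ => g).det =
        (A - Matrix.diagonal fun _ => g).det * (1 - g) := by
      refine Bu_blk w' e _ _ _ ?_ ?_ ?_
      · rw [Matrix.sub_apply, Matrix.diagonal_apply_eq, hX, dif_pos rfl, if_pos rfl]
      · intro j hj
        rw [Matrix.sub_apply, Matrix.diagonal_apply_ne' _ hj, hX, dif_pos rfl, if_neg hj, sub_zero]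
      · intro i j hi hj
        rw [Matrix.sub_apply, Matrix.sub_apply, hX, dif_neg hi, dif_neg hj]
        congr 1
        by_cases hij : i = j
        · subst hij
          rw [Matrix.diagonal_apply_eq, Matrix.diagonal_apply_eq]
        · rw [Matrix.diagonal_apply_ne _ hij, Matrix.diagonal_apply_ne]
          intro h
          exact hij (congrArg Subtype.val (e.injective h)).symm
    rw [← e1]
    refine Bu_real X _ g _ (Bu_reg B w' e) ?_
    ext i v
    symm
    rw [Matrix.mul_apply, Matrix.mul_apply, Finset.sum_eq_single (σ⁻¹ • v)]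
    · simp only [Matrix.map_apply, Matrix.of_apply]
      rw [if_pos (smul_inv_smul σ v), Int.cast_one, mul_one]
      by_cases hi : i = w'
      · rw [dif_pos hi, Bu_mult, Finset.sum_eq_single w']
        · rw [dif_pos rfl, hX, dif_pos hi, if_pos rfl, Int.cast_one, one_mul]
        · intro j _ hj
          rw [hX, dif_pos hi, if_neg hj, Int.cast_zero, zero_mul]
        · intro h
          exact absurd (Finset.mem_univ _) h
      · rw [dif_neg hi, Bu_mult]
        have h1 : ∀ j, ((X i j : ℤ) : ℝ) *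
            (if h : j = w' then (v.mult : ℝ) else
                v.mult * Real.log (v (fundSystem B (e ⟨j, h⟩) : B))) =
            if hj : j = w' then 0 else (A (e ⟨j, hj⟩) (e ⟨i, hi⟩) : ℝ) * (v.mult *
              Real.log (v (fundSystem B (e ⟨j, hj⟩) : B))) := by
          intro j
          rw [hX, dif_neg hi]
          by_cases hj : j = w'
          · rw [dif_pos hj, dif_pos hj, dif_pos hj, Int.cast_zero, zero_mul]
          · rw [dif_neg hj, dif_neg hj, dif_neg hj]
        rw [Finset.sum_congr rfl fun j _ => h1 j]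
        have h2 : ∀ F : Fin (rank B) → ℝ,
            (∑ j : InfinitePlace B, if hj : j = w' then 0 else F (e ⟨j, hj⟩)) = ∑ k, F k := by
          exact fun F => Bu_sum w' e F
        rw [h2 (fun k => (A k (e ⟨i, hi⟩) : ℝ) * (v.mult * Real.log (v (fundSystem B k : B))))]
        have h5 : Real.log ((σ⁻¹ • v) (fundSystem B (e ⟨i, hi⟩) : B)) =
            ∑ k, (A k (e ⟨i, hi⟩) : ℝ) * Real.log (v (fundSystem B k : B)) := by
          rw [← Bu_log v (hz (e ⟨i, hi⟩)) (fun k => A k (e ⟨i, hi⟩)), ← hf]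
          rfl
        rw [h5, Finset.mul_sum]
        refine Finset.sum_congr rfl fun k _ => ?_
        ring
    · intro w _ hw
      simp only [Matrix.map_apply, Matrix.of_apply]
      rw [if_neg, Int.cast_zero, mul_zero]
      intro h
      exact hw (by rw [← h, inv_smul_smul])
    · intro h
      exact absurd (Finset.mem_univ _) h

end H86G
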