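import Pool.Agent.H86.T4G.Da

/-!
Row Ce (about 150 lines): the cocycle over `F` and its corestriction to `L`.

PROOF of exists_kc: `f τ := a τ • tp W T` with `a τ` chosen from kum_a; KC: if also `τ r = z^b r` then `z^a = z^b` (`r ≠ 0`), `a ≡ b` modulo `l`, `a • tp = b • tp` (`l • tp = 0`). IsCocycle: Pool.Agent.H10.isCocycle_iff; locally constant (lc_iff, H10): `f` depends only on `τ r`; `act (inv_bc F W) σ (tp W T) = tp W T` (pm_pm, pm_congr with σ.commutes: both are the image of `T` under `algebraMap F (AlgebraicClosure F)`); `(τ ρ) r = z^(a τ + a ρ) r`.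
PROOF of cor_eig. corF, resF: H10/Func5 (definitions), cor, term, hh, lft, mv: H10/Func2. As in H11/ConjSha, res_cor (read its proof: it computes resF (corF f) τ as a sum over the `φ : F →ₐ[L] closure` of the terms; since `F / L` is normal and `τ` fixes `F`, `mv τ φ = φ`): `resF hV (corF hV f) τ = ∑ φ, act (inv_up hV) (lft φ) (f (hh τ φ))` with `hh τ φ = (lft φ)⁻¹ τ (lft φ)` (as automorphisms over `F`).
 Put `s := lft φ`, an automorphism of the closure over `L`; `s` restricts to `δ : F ≃ₐ[L] F` (AlgEquiv.restrictNormal), `s (algebraMap F _ y) = algebraMap F _ (δ y)`. Take `c` with `gp hV δ T = c • T`, `δ ζ = ζ ^ w`, `l ∤ c`, `l ∤ w` (DG.chi, DG.cyc), and `n` with `c * n ≡ w`. hE: `δ x = x^n y^l`.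
 `s r` and `r^n y` have the same `l`-th power, so `s r = z^i r^n y` (y is here the image of `y`). Let `ρ := s⁻¹ τ s`, `ρ r = z^a r` and `τ r = z^b r`. Then `τ (s r) = s (ρ r) = s (z^a r) = z^(w a) s r` and `τ (s r) = τ (z^i r^n y) = z^(b n) s r`. So `w a ≡ b n`, hence `c a n ≡ w a ≡ b n`, `c a ≡ b` modulo `l` (`l ∤ n` as `l ∤ w`).
 `act (inv_up hV) s (f ρ) = a • act s (tp W T) = a • c • tp W T` (act s (tp W T) = the image of `gp hV δ T`: pm_pm, pm_congr) `= b • tp W T = f τ` (KC). The sum has `Fintype.card (F →ₐ[L] closure) = finrank L F` terms (AlgHom.card).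
-/

set_option autoImplicit false
open scoped Classical

open WeierstrassCurve IsDedekindDomain NumberField Pool.Agent.H10 Pool.Agent.H11 H78D

namespace H86G

theorem Ce_smul {M : Type*} [AddCommGroup M] {l : ℕ} {P : M} (hP : l • P = 0) {a b : ℕ}
    (h : a ≡ b [MOD l]) : a • P = b • P :=
  nsmul_eq_nsmul_iff_modEq.2 (h.of_dvd (addOrderOf_dvd_of_nsmul_eq_zero hP))

theorem Ce_pow {M : Type*} [CommMonoid M] {l : ℕ} {z : M} (hz : IsPrimitiveRoot z l)
    (hl : l ≠ 0) {a b : ℕ} (h : z ^ a = z ^ b) : a ≡ b [MOD l] := by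
  have hf : IsOfFinOrder z := isOfFinOrder_iff_pow_eq_one.2 ⟨l, Nat.pos_of_ne_zero hl, hz.pow_eq_one⟩
  have h1 := hf.pow_eq_pow_iff_modEq.1 h
  rwa [← hz.eq_orderOf] at h1

theorem Ce_z {F : Type} [Field F] {l : ℕ} {ζ : F} (hζ : IsPrimitiveRoot ζ l) :
    IsPrimitiveRoot (algebraMap F (AlgebraicClosure F) ζ) l :=
  hζ.map_of_injective (algebraMap F (AlgebraicClosure F)).injective

theorem Ce_r {F : Type} [Field F] {l : ℕ} {x : F} (hx : x ≠ 0) {r : AlgebraicClosure F}
    (hr : r ^ l = algebraMap F (AlgebraicClosure F) x) (hl : l ≠ 0) : r ≠ 0 := by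
  rintro rfl
  rw [zero_pow hl] at hr
  exact hx ((map_eq_zero _).1 hr.symm)

theorem Ce_act {K F Ω : Type} [Field K] [Field F] [Field Ω] [Algebra K Ω]
    {V : WeierstrassCurve F} {E : WeierstrassCurve Ω} (h : Inv K E) (σ : Ω ≃ₐ[K] Ω)
    (φ ψ : F →+* Ω) (hφ : V.map φ = E) (hψ : V.map ψ = E) (e : ∀ u, σ (φ u) = ψ u)
    (P : V.toAffine.Point) : Pool.Agent.H10.act h σ (pm φ hφ P) = pm ψ hψ P := by
  unfold Pool.Agent.H10.act
  rw [pm_pm]
  apply pm_congr
  intro y
  exact e y

theorem exists_kc {F : Type} [Field F] [NumberField F] {l : ℕ} {W : WeierstrassCurve F}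
    {T : W.toAffine.Point} {ζ : F} (hl : l ≠ 0) (hζ : IsPrimitiveRoot ζ l)
    (hTl : l • tp W T = 0) {x : F} (hx : x ≠ 0) {r : AlgebraicClosure F}
    (hr : r ^ l = algebraMap F (AlgebraicClosure F) x) :
    ∃ f : Coch F W, KC W T ζ r f ∧ IsCocycle F W f ∧ ∀ τ, l • f τ = 0 := by
  have hr0 : r ≠ 0 := Ce_r hx hr hl
  have hz := Ce_z hζ
  choose a ha using fun τ : AlgebraicClosure F ≃ₐ[F] AlgebraicClosure F =>
    kum_a hl hζ hx hr τ
  have hKC : KC W T ζ r (fun τ => a τ • tp W T) := by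
    intro τ b hb
    refine Ce_smul hTl (Ce_pow hz hl ?_)
    have h1 := (ha τ).symm.trans hb
    exact mul_right_cancel₀ hr0 h1
  have hact : ∀ σ : AlgebraicClosure F ≃ₐ[F] AlgebraicClosure F,
      act (inv_bc F W) σ (tp W T) = tp W T := by
    intro σ
    exact Ce_act (inv_bc F W) σ _ _ rfl rfl (fun y => σ.commutes y) T
  refine ⟨fun τ => a τ • tp W T, hKC, ?_, fun τ => ?_⟩
  · rw [Pool.Agent.H10.isCocycle_iff]
    constructor
    · rw [lc_iff]
      intro σ₀
      refine ⟨{r}, fun σ hσ => ?_⟩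
      have h1 := hσ r (Finset.mem_singleton_self r)
      exact hKC σ (a σ₀) (h1.trans (ha σ₀))
    · intro σ τ
      have h1 : (σ * τ) r = algebraMap F (AlgebraicClosure F) ζ ^ (a σ + a τ) * r := by
        rw [AlgEquiv.mul_apply, ha τ, map_mul, map_pow, σ.commutes, ha σ, pow_add]
        ring
      have h2 := hKC (σ * τ) _ h1
      rw [h2]
      show (a σ + a τ) • tp W T = a σ • tp W T + act (inv_bc F W) σ (a τ • tp W T)
      rw [map_nsmul, hact, add_nsmul]
  · show l • (a τ • tp W T) = 0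
    rw [smul_comm, hTl]
    exact nsmul_zero _

/-- restriction after corestriction as a sum of conjugates -/
theorem Ce_sum {L F : Type} [Field L] [NumberField L] [Field F] [NumberField F]
    [Algebra L F] [Normal L F] {V : WeierstrassCurve L} {W : WeierstrassCurve F}
    (hV : V.map (algebraMap L F) = W) (f : Coch F W)
    (τ : AlgebraicClosure F ≃ₐ[F] AlgebraicClosure F) :
    resF hV (corF hV f) τ = ∑ σ : F ≃ₐ[L] F, conj (inv_up hV) (lf σ) f τ := by
  have h3 : resF hV (corF hV f) τ = cor (inv_up hV) f (τ.restrictScalars L) := by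
    unfold resF corF Pool.Agent.H10.trans
    rw [pm_pm]
    have h4 : ((jj L F).symm.trans (((jj L F).trans (τ.restrictScalars L)).trans
        (jj L F).symm)).trans (jj L F).symm.symm = τ.restrictScalars L := by
      ext y
      simp
    rw [h4]
    apply pm_eq_self
    intro y
    exact (jj L F).apply_symm_apply y
  rw [h3]
  unfold cor
  symm
  apply Fintype.sum_bijective (fun σ : F ≃ₐ[L] F =>
    (Algebra.algHom L F (AlgebraicClosure F)).comp (σ : F →ₐ[L] F))
  · constructor
    · intro σ σ' h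
      ext y
      have h5 := congrArg (fun φ : F →ₐ[L] AlgebraicClosure F => φ y) h
      exact (algebraMap F (AlgebraicClosure F)).injective h5
    · intro φ
      refine ⟨(lft φ).restrictNormal F, ?_⟩
      ext y
      change algebraMap F (AlgebraicClosure F) ((lft φ).restrictNormal F y) = φ y
      rw [AlgEquiv.restrictNormal_commutes, lft_apply]
  · intro σ
    set φ := (Algebra.algHom L F (AlgebraicClosure F)).comp (σ : F →ₐ[L] F) with hφ
    have hm : mv (τ.restrictScalars L) φ = φ := by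
      ext y
      change τ (algebraMap F (AlgebraicClosure F) (σ y)) = algebraMap F (AlgebraicClosure F) (σ y)
      exact τ.commutes _
    unfold conj term
    rw [hm]
    have h6 : cj (lf σ) τ = hh (τ.restrictScalars L) φ := by
      ext y
      rw [cj_apply, hh_apply, hm]
      rfl
    rw [h6]
    rfl

theorem Ce_conj {l : ℕ} {L F : Type} [Field L] [NumberField L] [Field F] [NumberField F]
    [Algebra L F] [Normal L F] {V : WeierstrassCurve L} {W : WeierstrassCurve F}
    {hV : V.map (algebraMap L F) = W} {T : W.toAffine.Point} {ζ : F} (H : DG l hV T ζ) {x : F}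
    (hx : x ≠ 0) (hE : Eig l hV T ζ x) {r : AlgebraicClosure F}
    (hr : r ^ l = algebraMap F (AlgebraicClosure F) x) {f : Coch F W} (hf : KC W T ζ r f)
    (τ : AlgebraicClosure F ≃ₐ[F] AlgebraicClosure F) (δ : F ≃ₐ[L] F) :
    conj (inv_up hV) (lf δ) f τ = f τ := by
  have hl : l ≠ 0 := H.prime.ne_zero
  have hr0 : r ≠ 0 := Ce_r hx hr hl
  have hz := Ce_z H.prim
  have hTl : l • tp W T = 0 := H.tp_ne.2
  obtain ⟨c, hc, hlc⟩ := H.chi δ
  obtain ⟨w, hw, hlw⟩ := H.cyc δ
  have hcop : Nat.Coprime c l := ((Nat.Prime.coprime_iff_not_dvd H.prime).2 hlc).symm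
  obtain ⟨m, hm⟩ := Nat.exists_mul_mod_eq_one_of_coprime hcop H.prime.one_lt
  have hn : c * (m * w) ≡ w [MOD l] := by
    have h1 : c * m ≡ 1 [MOD l] := by
      rw [Nat.ModEq, hm.2, Nat.mod_eq_of_lt H.prime.one_lt]
    calc c * (m * w) = (c * m) * w := by ring
      _ ≡ 1 * w [MOD l] := h1.mul_right w
      _ = w := one_mul w
  set n := m * w with hndef
  have hln : ¬ l ∣ n := by
    intro h
    apply hlw
    have h1 : l ∣ c * n := h.mul_left c
    exact (Nat.ModEq.dvd_iff hn dvd_rfl).1 h1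
  obtain ⟨y, hy⟩ := hE δ c n w hc hw hn
  set s := (lf δ : AlgebraicClosure F ≃ₐ[L] AlgebraicClosure F) with hs
  have hsF : ∀ u : F, s (algebraMap F (AlgebraicClosure F) u) =
      algebraMap F (AlgebraicClosure F) (δ u) := fun u => lf_apply δ u
  have hy0 : y ≠ 0 := by
    rintro rfl
    rw [zero_pow hl, mul_zero] at hy
    exact hx ((map_eq_zero_iff _ δ.injective).1 hy)
  set z := algebraMap F (AlgebraicClosure F) ζ with hzdef
  set y' := algebraMap F (AlgebraicClosure F) y with hy'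
  have hy'0 : y' ≠ 0 := (map_ne_zero _).2 hy0
  have hq0 : r ^ n * y' ≠ 0 := mul_ne_zero (pow_ne_zero _ hr0) hy'0
  have hpow : (s r) ^ l = (r ^ n * y') ^ l := by
    rw [← map_pow, hr, hsF, hy, map_mul, map_pow, map_pow, ← hr, mul_pow, ← pow_mul, ← pow_mul,
      mul_comm l n]
  have h1 : (s r / (r ^ n * y')) ^ l = 1 := by
    rw [div_pow, hpow, div_self (pow_ne_zero _ hq0)]
  have : NeZero l := ⟨hl⟩
  obtain ⟨i, -, hi⟩ := hz.eq_pow_of_pow_eq_one h1
  have hsr : s r = z ^ i * (r ^ n * y') := by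
    rw [hi, div_mul_cancel₀ _ hq0]
  have hsz : s z = z ^ w := by rw [hzdef, hsF, hw, map_pow]
  set ρ := cj s τ with hρ
  obtain ⟨a, ha⟩ := kum_a hl H.prim hx hr ρ
  obtain ⟨b, hb⟩ := kum_a hl H.prim hx hr τ
  have hsr0 : s r ≠ 0 := by
    rw [hsr]
    exact mul_ne_zero (pow_ne_zero _ (hz.ne_zero hl)) hq0
  have e1 : τ (s r) = z ^ (w * a) * s r := by
    rw [← apply_cj, ← hρ, ha, map_mul, map_pow, hsz, ← pow_mul]
  have e2 : τ (s r) = z ^ (b * n) * s r := by
    have hτz : τ z = z := τ.commutes ζ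
    have hτy : τ y' = y' := τ.commutes y
    rw [hsr, map_mul, map_mul, map_pow, map_pow, hτz, hτy, hb, mul_pow, ← pow_mul]
    ring
  have hmod : w * a ≡ b * n [MOD l] :=
    Ce_pow hz hl (mul_right_cancel₀ hsr0 (e1.symm.trans e2))
  have hmod2 : (a * c) * n ≡ b * n [MOD l] := by
    calc (a * c) * n = a * (c * n) := by ring
      _ ≡ a * w [MOD l] := hn.mul_left a
      _ = w * a := mul_comm _ _
      _ ≡ b * n [MOD l] := hmod
  have hcopn : Nat.gcd l n = 1 := (Nat.Prime.coprime_iff_not_dvd H.prime).2 hln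
  have hab : a * c ≡ b [MOD l] := Nat.ModEq.cancel_right_of_coprime hcopn hmod2
  have hact : act (inv_up hV) s (tp W T) = c • tp W T := by
    have h5 : act (inv_up hV) s (tp W T) =
        pm (algebraMap F (AlgebraicClosure F)) rfl (gp hV δ T) := by
      rw [pm_pm]
      exact Ce_act (inv_up hV) s _ _ rfl _ (fun u => hsF u) T
    rw [h5, hc, map_nsmul]
    rfl
  unfold conj
  rw [← hρ, hf ρ a ha, hf τ b hb, map_nsmul, hact, ← mul_nsmul']
  exact Ce_smul hTl hab

theorem cor_eig {l : ℕ} {L F : Type} [Field L] [NumberField L] [Field F] [NumberField F]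
    [Algebra L F] {V : WeierstrassCurve L} {W : WeierstrassCurve F}
    {hV : V.map (algebraMap L F) = W} {T : W.toAffine.Point} {ζ : F} (H : DG l hV T ζ) {x : F}
    (hx : x ≠ 0) (hE : Eig l hV T ζ x) {r : AlgebraicClosure F}
    (hr : r ^ l = algebraMap F (AlgebraicClosure F) x) {f : Coch F W} (hf : KC W T ζ r f)
    (τ : AlgebraicClosure F ≃ₐ[F] AlgebraicClosure F) :
    resF hV (corF hV f) τ = Module.finrank L F • f τ := by
  have : IsGalois L F := H.gal
  have : Normal L F := IsGalois.to_normal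
  rw [Ce_sum hV f τ, Finset.sum_congr rfl fun δ _ => Ce_conj H hx hE hr hf τ δ,
    Finset.sum_const, Finset.card_univ, ← IsGalois.card_aut_eq_finrank L F,
    Nat.card_eq_fintype_card]

end H86G
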