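import Pool.Agent.H78.TD.Df
import Pool.Agent.H10.Func7
import Pool.Agent.H11.Good

/-!
Growth half of the dichotomy for isogenies of odd prime degree `l` (definitions, no row).

`F / L` is a finite Galois extension of number fields, `V` a curve over `L`, `W` its base change to `F`,
`T` a point of `W` of order `l` such that the group generated by `T` is stable, `ζ` a primitive `l`-th
root of unity in `F`.
-/

set_option autoImplicit false
open scoped Classical

open WeierstrassCurve IsDedekindDomain NumberField Pool.Agent.H10 Pool.Agent.H11 H78D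

namespace H86G

theorem map_gal {L F : Type} [Field L] [Field F] [Algebra L F] {V : WeierstrassCurve L}
    {W : WeierstrassCurve F} (hV : V.map (algebraMap L F) = W) (δ : F ≃ₐ[L] F) :
    W.map (δ : F →+* F) = W := by
  rw [← hV, WeierstrassCurve.map_map]
  congr 1
  exact RingHom.ext fun x => δ.commutes x

/-- The action of the Galois group of `F / L` on the points over `F`. -/
noncomputable abbrev gp {L F : Type} [Field L] [Field F] [Algebra L F] {V : WeierstrassCurve L}
    {W : WeierstrassCurve F} (hV : V.map (algebraMap L F) = W) (δ : F ≃ₐ[L] F) :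
    W.toAffine.Point →+ W.toAffine.Point :=
  pm (δ : F →+* F) (map_gal hV δ)

/-- The data over one field. -/
structure DG (l : ℕ) {L F : Type} [Field L] [NumberField L] [Field F] [NumberField F] [Algebra L F]
    {V : WeierstrassCurve L} {W : WeierstrassCurve F} (hV : V.map (algebraMap L F) = W)
    (T : W.toAffine.Point) (ζ : F) : Prop where
  prime : l.Prime
  odd : l ≠ 2
  gal : IsGalois L F
  ell : W.IsElliptic
  T0 : T ≠ 0
  Tl : l • T = 0
  prim : IsPrimitiveRoot ζ l
  stab : ∀ δ : F ≃ₐ[L] F, ∃ c : ℕ, gp hV δ T = c • T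
  faith : ∀ δ : F ≃ₐ[L] F, δ ζ = ζ → gp hV δ T = T → δ = 1

/-- `x` is in the right eigenspace modulo `l`-th powers. -/
def Eig (l : ℕ) {L F : Type} [Field L] [NumberField L] [Field F] [NumberField F] [Algebra L F]
    {V : WeierstrassCurve L} {W : WeierstrassCurve F} (hV : V.map (algebraMap L F) = W)
    (T : W.toAffine.Point) (ζ : F) (x : F) : Prop :=
  ∀ (δ : F ≃ₐ[L] F) (c n w : ℕ), gp hV δ T = c • T → δ ζ = ζ ^ w → (c * n ≡ w [MOD l]) →
    ∃ y : F, δ x = x ^ n * y ^ l

section

variable {F : Type} [Field F] [NumberField F]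

/-- The decomposition group attached to an embedding `ι` into the closure of the completion. -/
def Dg (w : HeightOneSpectrum (𝓞 F))
    (ι : AlgebraicClosure F →ₐ[F] AlgebraicClosure (w.adicCompletion F)) :
    Subgroup (AlgebraicClosure F ≃ₐ[F] AlgebraicClosure F) where
  carrier := {σ | ∃ τ : AlgebraicClosure (w.adicCompletion F) ≃ₐ[w.adicCompletion F]
    AlgebraicClosure (w.adicCompletion F), ∀ x, τ (ι x) = ι (σ x)}
  mul_mem' := by
    rintro a b ⟨τ, hτ⟩ ⟨τ', hτ'⟩
    refine ⟨τ * τ', fun x => ?_⟩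
    rw [AlgEquiv.mul_apply, hτ', hτ, AlgEquiv.mul_apply]
  one_mem' := ⟨1, fun x => rfl⟩
  inv_mem' := by
    rintro a ⟨τ, hτ⟩
    refine ⟨τ⁻¹, fun x => ?_⟩
    have h1 := hτ (a⁻¹ x)
    have h2 : a (a⁻¹ x) = x := a.apply_symm_apply x
    rw [h2] at h1
    rw [← h1]
    exact τ.symm_apply_apply _

/-- The class of `x` satisfies the local condition for the group `D`. -/
def DX (l : ℕ) (W : WeierstrassCurve F) (T : W.toAffine.Point) (ζ : F)
    (D : Subgroup (AlgebraicClosure F ≃ₐ[F] AlgebraicClosure F)) (x : F) : Prop :=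
  ∃ (r : AlgebraicClosure F) (P : (W.baseChange (AlgebraicClosure F)).toAffine.Point),
    r ^ l = algebraMap F (AlgebraicClosure F) x ∧
    ∀ σ ∈ D, ∀ a : ℕ, σ r = algebraMap F (AlgebraicClosure F) ζ ^ a * r →
      act (inv_bc F W) σ P - P = a • tp W T

/-- The local condition at the place `w`. -/
def PX (l : ℕ) (W : WeierstrassCurve F) (T : W.toAffine.Point) (ζ : F)
    (w : HeightOneSpectrum (𝓞 F)) (x : F) : Prop :=
  ∀ ι : AlgebraicClosure F →ₐ[F] AlgebraicClosure (w.adicCompletion F),
    DX l W T ζ (Dg w ι) x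

/-- `x` is the `l`-th power of an element fixed by `D`. -/
def RT (l : ℕ) (D : Subgroup (AlgebraicClosure F ≃ₐ[F] AlgebraicClosure F)) (x : F) : Prop :=
  ∃ t : AlgebraicClosure F, (∀ σ ∈ D, σ t = t) ∧ t ^ l = algebraMap F (AlgebraicClosure F) x

/-- `D` behaves like a decomposition group of the place `w` with the valuation subring `A` of the
algebraic closure above `w`. -/
structure LS (w : HeightOneSpectrum (𝓞 F)) (A : ValuationSubring (AlgebraicClosure F))
    (D : Subgroup (AlgebraicClosure F ≃ₐ[F] AlgebraicClosure F)) : Prop where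
  stab : ∀ σ ∈ D, ∀ x, A.valuation (σ x) = A.valuation x
  ovr : ∀ x : F, algebraMap F (AlgebraicClosure F) x ∈ A ↔ w.valuation F x ≤ 1
  dense : ∀ y, (∀ σ ∈ D, σ y = y) → ∀ c, c ≠ 0 → ∃ z : F,
    A.valuation (y - algebraMap F (AlgebraicClosure F) z) < A.valuation c

/-- The values of `f` are the multiples of `T` given by the Kummer cocycle of `r`. -/
def KC (W : WeierstrassCurve F) (T : W.toAffine.Point) (ζ : F) (r : AlgebraicClosure F)
    (f : Coch F W) : Prop :=
  ∀ (τ : AlgebraicClosure F ≃ₐ[F] AlgebraicClosure F) (a : ℕ),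
    τ r = algebraMap F (AlgebraicClosure F) ζ ^ a * r → f τ = a • tp W T

end

end H86G
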