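import Pool.Agent.H2.T4.P4b

/-!
Row Dp (about 230 lines): the polynomials for multiplication by `n` have coefficients in a ring of definition of the curve. Read Pool/Agent/H2/T4/P4b.lean first.

PROOF. `a, b` for `n`, `A, B` for `n + 1`; `A0, A1, A2` as in P4b (formulas with `W.b₄, ...`, over `R`). Induction, two steps at a time, on the statement St(n) (for `n ≠ 0`; `n = 0`: `a = 1, b = 0`, `n = 1`: `X, 1`): `a` monic of degree `n^2`, `b` of degree at most `n^2 - 1` with that coefficient `n^2`, AB over `Ω`, AB over every `κ`.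
 Step: over `Ω` the proof of P4b_step gives `c', d'` in `Polynomial Ω` with `A0 = a c'`, `A1 = a d' + b c'`, `A2 = b d'` (the images). As `a` is monic, put over `R`: `c := A0 /ₘ a`, then `A0 %ₘ a = 0` (its image in `Polynomial Ω` is zero: Polynomial.map_modByMonic, (Polynomial.modByMonic_eq_zero_iff_dvd)), so `A0 = a c`, `c ↦ c'`; `d := (A1 - b c) /ₘ a`, `A1 - b c = a d` in the same way. `A2 = b d`: true in `Polynomial Ω` and `i` is injective (Polynomial.map_injective).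
 (1) P4b_step', to be extracted from the proof of P4b_step (copy it): over an algebraically closed field, if AB W n a b, AB W (n+1) A B and `c, d` satisfy the three identities, then AB W (n + 2) c d (first show `a ≠ 0`, IsCoprime a b as there). Apply over `Ω` and over every `κ` (the identities over `R` are mapped by `φ`; `W.map φ` elliptic as `φ Δ ≠ 0`: `⟨by rw [map_Δ]; exact isUnit_iff_ne_zero.2 h⟩`).
 (2) degrees: `A0` is monic of degree `2 (n+1)^2 + 2` (`(A X)^2` monic, the other terms have smaller degree), so `c` is monic of degree `2 (n+1)^2 + 2 - n^2 = (n+2)^2` (Polynomial.Monic.of_mul_monic_left, natDegree_mul).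
   `A2 = (A + B X)^2 - 4 A B X = (A - B X)^2`; `n = 0`: `b = 0`, `a = 1`, `d = A1 - b c = A1` = `4 X^3 + ...`, directly. `n > 0`: `A - B X` has degree at most `(n+1)^2` with coefficient `1 - (n+1)^2 = -n (n+2)` there; `b` has degree exactly `n^2 - 1` and leading coefficient `n^2` (`R` is a domain of characteristic zero because it is contained in `Ω`), so `b d = (A - B X)^2` gives degree of `d` at most `2 (n+1)^2 - (n^2 - 1) = (n+2)^2 - 1` (natDegree_mul) and comparing the coefficients of degree `2 (n+1)^2` (Polynomial.coeff_mul_of_natDegree_le, coeff_pow_of_natDegree_le): `n^2 * coeff d = (n (n+2))^2`, cancel `n^2`.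
-/

set_option autoImplicit false
open scoped Classical

open Polynomial WeierstrassCurve H2T4

namespace H86G

/-- first form -/
noncomputable def Dp_A0 {R : Type} [CommRing R] (W : WeierstrassCurve R) (A B : R[X]) : R[X] :=
  (A * X) ^ 2 - C W.b₄ * ((A * X) * (B * 1)) - C W.b₆ * ((A * 1 + B * X) * (B * 1)) -
    C W.b₈ * (B * 1) ^ 2

/-- second form -/
noncomputable def Dp_A1 {R : Type} [CommRing R] (W : WeierstrassCurve R) (A B : R[X]) : R[X] :=
  C 2 * ((A * 1 + B * X) * (A * X)) + C W.b₂ * ((A * X) * (B * 1)) +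
    C W.b₄ * ((A * 1 + B * X) * (B * 1)) + C W.b₆ * (B * 1) ^ 2

/-- third form -/
noncomputable def Dp_A2 {R : Type} [CommRing R] (A B : R[X]) : R[X] :=
  (A * 1 + B * X) ^ 2 - C 4 * ((A * X) * (B * 1))

theorem Dp_map0 {R S : Type} [CommRing R] [CommRing S] (f : R →+* S) (W : WeierstrassCurve R)
    (A B : R[X]) : (Dp_A0 W A B).map f = Dp_A0 (W.map f) (A.map f) (B.map f) := by
  simp only [Dp_A0, Polynomial.map_sub, Polynomial.map_mul, Polynomial.map_pow, map_X, map_C,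
    Polynomial.map_one, Polynomial.map_add, map_b₄, map_b₆, map_b₈]

theorem Dp_map1 {R S : Type} [CommRing R] [CommRing S] (f : R →+* S) (W : WeierstrassCurve R)
    (A B : R[X]) : (Dp_A1 W A B).map f = Dp_A1 (W.map f) (A.map f) (B.map f) := by
  simp only [Dp_A1, Polynomial.map_mul, Polynomial.map_pow, map_X, map_C,
    Polynomial.map_one, Polynomial.map_add, map_b₂, map_b₄, map_b₆, Polynomial.map_ofNat, map_ofNat]

theorem Dp_map2 {R S : Type} [CommRing R] [CommRing S] (f : R →+* S)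
    (A B : R[X]) : (Dp_A2 A B).map f = Dp_A2 (A.map f) (B.map f) := by
  simp only [Dp_A2, Polynomial.map_sub, Polynomial.map_mul, Polynomial.map_pow, map_X,
    Polynomial.map_one, Polynomial.map_add, Polynomial.map_ofNat, map_ofNat]

theorem Dp_cop {k : Type} [Field k] [IsAlgClosed k] (W : WeierstrassCurve k) [W.IsElliptic] {n : ℕ}
    {a b : k[X]} (h1 : AB W n a b) : a ≠ 0 ∧ IsCoprime a b := by
  refine ⟨?_, ?_⟩
  · rintro rfl
    have hb : b.degree = 0 := by
      by_contra hdeg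
      obtain ⟨x, hx⟩ := IsAlgClosed.exists_root b hdeg
      rcases h1.1 x with h3 | h3
      · exact h3 eval_zero
      · exact h3 hx
    have hbn : b.natDegree = 0 := natDegree_eq_of_degree_eq_some hb
    have h3 := h1.2.1
    rw [natDegree_zero, hbn, max_self] at h3
    have hn : n = 0 := by
      by_contra hn
      exact (pow_ne_zero 2 hn) h3.symm
    subst hn
    obtain ⟨y, hxy⟩ := Pool.Agent.H11.exists_point_of_x W 0
    obtain ⟨c, hc, h4, -⟩ := h1.2.2 0 y hxy
    rw [zero_smul, Affine.Point.xRep_zero, eval_zero] at h4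
    simp only [Matrix.cons_val_zero, mul_one] at h4
    exact hc h4.symm
  · rw [Polynomial.isCoprime_iff_aeval_ne_zero_of_isAlgClosed k k]
    intro x
    rw [coe_aeval_eq_eval]
    exact h1.1 x

theorem Dp_ex {k : Type} [Field k] [IsAlgClosed k] (W : WeierstrassCurve k) [W.IsElliptic] {n : ℕ}
    {a b A B : k[X]} (h1 : AB W n a b) (h2 : AB W (n + 1) A B) :
    ∃ c d : k[X], Dp_A0 W A B = a * c ∧ Dp_A1 W A B = a * d + b * c ∧ Dp_A2 A B = b * d := by
  have hinf : Infinite k := IsAlgClosed.instInfinite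
  have hval := P4b_val W h1 h2
  have hrel : Dp_A0 W A B * b ^ 2 - Dp_A1 W A B * (a * b) + Dp_A2 A B * a ^ 2 = 0 := by
    apply Polynomial.funext
    intro x
    obtain ⟨y, hxy⟩ := Pool.Agent.H11.exists_point_of_x W x
    obtain ⟨c, -, e0, e1, e2⟩ := hval x y hxy
    rw [eval_add, eval_sub, eval_mul, eval_mul, eval_mul, eval_mul, eval_pow, eval_pow, Dp_A0,
      Dp_A1, Dp_A2, e0, e1, e2, eval_zero]
    ring
  obtain ⟨ha, hcop⟩ := Dp_cop W h1
  exact P4b_fac hcop ha hrel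

theorem Dp_step {k : Type} [Field k] [IsAlgClosed k] (W : WeierstrassCurve k) [W.IsElliptic] {n : ℕ}
    {a b A B c d : k[X]} (h1 : AB W n a b) (h2 : AB W (n + 1) A B)
    (hc : Dp_A0 W A B = a * c) (hcd : Dp_A1 W A B = a * d + b * c) (hd : Dp_A2 A B = b * d) :
    AB W (n + 2) c d := by
  have hval := P4b_val W h1 h2
  rw [Dp_A0] at hc
  rw [Dp_A1] at hcd
  rw [Dp_A2] at hd
  obtain ⟨ha, hcop⟩ := Dp_cop W h1
  have hfin : ∀ (x y : k) (h : W.toAffine.Nonsingular x y), ∃ e : k, e ≠ 0 ∧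
      c.eval x = e * ((n + 2) • (Affine.Point.some x y h : W.toAffine.Point)).xRep 0 ∧
      d.eval x = e * ((n + 2) • (Affine.Point.some x y h : W.toAffine.Point)).xRep 1 := by
    intro x y h
    obtain ⟨e, he, e0, e1, e2⟩ := hval x y h
    refine ⟨e, he, ?_⟩
    rw [hc, eval_mul] at e0
    rw [hcd, eval_add, eval_mul, eval_mul] at e1
    rw [hd, eval_mul] at e2
    obtain ⟨q, hq⟩ : ∃ q, q = ((n + 2) • (Affine.Point.some x y h : W.toAffine.Point)).xRep := ⟨_, rfl⟩
    rw [← hq] at e0 e1 e2 ⊢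
    have g0 : a.eval x * (c.eval x - e * q 0) = 0 := by linear_combination e0
    have g2 : b.eval x * (d.eval x - e * q 1) = 0 := by linear_combination e2
    have g1 : a.eval x * (d.eval x - e * q 1) + b.eval x * (c.eval x - e * q 0) = 0 := by
      linear_combination e1
    rcases h1.1 x with h3 | h3
    · have k0 := (mul_eq_zero.1 g0).resolve_left h3
      rw [k0, mul_zero, add_zero] at g1
      have k1 := (mul_eq_zero.1 g1).resolve_left h3
      exact ⟨sub_eq_zero.1 k0, sub_eq_zero.1 k1⟩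
    · have k1 := (mul_eq_zero.1 g2).resolve_left h3
      rw [k1, mul_zero, zero_add] at g1
      have k0 := (mul_eq_zero.1 g1).resolve_left h3
      exact ⟨sub_eq_zero.1 k0, sub_eq_zero.1 k1⟩
  have hne : ∀ x, c.eval x ≠ 0 ∨ d.eval x ≠ 0 := by
    intro x
    obtain ⟨y, hxy⟩ := Pool.Agent.H11.exists_point_of_x W x
    obtain ⟨e, he, e0, e1⟩ := hfin x y hxy
    by_contra hcon
    push Not at hcon
    rw [hcon.1] at e0
    rw [hcon.2] at e1
    apply Affine.Point.xRep_ne_zero ((n + 2) • (Affine.Point.some x y hxy : W.toAffine.Point))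
    funext i
    fin_cases i
    · exact (mul_eq_zero.1 e0.symm).resolve_left he
    · exact (mul_eq_zero.1 e1.symm).resolve_left he
  refine ⟨hne, ?_, hfin⟩
  have nz : ∀ {u v : k[X]}, (∀ x, u.eval x ≠ 0 ∨ v.eval x ≠ 0) → u ≠ 0 ∨ v ≠ 0 := by
    intro u v huv
    rcases huv 0 with h3 | h3
    · left
      rintro rfl
      exact h3 eval_zero
    · right
      rintro rfl
      exact h3 eval_zero
  have d1 := sym_deg a b c d (nz h1.1) (nz hne)
  have d2 := sym_deg A B X 1 (nz h2.1) (Or.inr one_ne_zero)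
  have hstu : A * X ≠ 0 ∨ A * 1 + B * X ≠ 0 ∨ B * 1 ≠ 0 := by
    by_cases hB : B = 0
    · right
      left
      rw [hB, zero_mul, add_zero, mul_one]
      exact (nz h2.1).resolve_right (fun h => h hB)
    · right
      right
      rw [mul_one]
      exact hB
  have d3 := add_deg W (A * X) (A * 1 + B * X) (B * 1) hstu
  rw [hc, hcd, hd, d1, d2, h1.2.1, h2.2.1, natDegree_X, natDegree_one] at d3
  have e1 : max 1 0 = 1 := rfl
  rw [e1] at d3
  nlinarith

/-- the shape of the polynomials -/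
def Dp_sh {R : Type} [CommRing R] (n : ℕ) (a b : R[X]) : Prop :=
  a.Monic ∧ a.natDegree = n ^ 2 ∧ (b * X).natDegree ≤ n ^ 2 ∧ (b * X).coeff (n ^ 2) = (n : R) ^ 2

theorem Dp_degB {R : Type} [CommRing R] [IsDomain R] {b : R[X]} {N : ℕ}
    (h : (b * X).natDegree ≤ N) : b.natDegree ≤ N ∧ (b ≠ 0 → b.natDegree + 1 ≤ N) := by
  by_cases hb : b = 0
  · subst hb
    exact ⟨by simp, fun h => (h rfl).elim⟩
  · rw [natDegree_mul_X hb] at h
    exact ⟨by omega, fun _ => h⟩

/-- products: degree and coefficient -/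
theorem Dp_mul {R : Type} [CommRing R] {p q : R[X]} {m n : ℕ} (hp : p.natDegree ≤ m)
    (hq : q.natDegree ≤ n) : (p * q).natDegree ≤ m + n ∧
      (p * q).coeff (m + n) = p.coeff m * q.coeff n :=
  ⟨natDegree_mul_le_of_le hp hq, coeff_mul_add_eq_of_natDegree_le hp hq⟩

theorem Dp_C {R : Type} [CommRing R] (r : R) {p : R[X]} {m : ℕ} (hp : p.natDegree ≤ m) :
    (C r * p).natDegree ≤ m := (natDegree_C_mul_le r p).trans hp

theorem Dp_sub {R : Type} [CommRing R] {p q : R[X]} {m : ℕ} (hp : p.natDegree ≤ m)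
    (hq : q.natDegree ≤ m) : (p - q).natDegree ≤ m := by
  have := natDegree_sub_le_of_le hp hq
  rwa [max_self] at this

theorem Dp_add {R : Type} [CommRing R] {p q : R[X]} {m : ℕ} (hp : p.natDegree ≤ m)
    (hq : q.natDegree ≤ m) : (p + q).natDegree ≤ m :=
  natDegree_add_le_of_degree_le hp hq

theorem Dp_A0_deg {R : Type} [CommRing R] [IsDomain R] (W : WeierstrassCurve R) {n : ℕ}
    {A B : R[X]} (h : Dp_sh n A B) :
    (Dp_A0 W A B).natDegree ≤ 2 * n ^ 2 + 2 ∧ (Dp_A0 W A B).coeff (2 * n ^ 2 + 2) = 1 := by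
  obtain ⟨hm, hA, hB, hBc⟩ := h
  obtain ⟨N, hN⟩ : ∃ N, N = n ^ 2 := ⟨_, rfl⟩
  rw [← hN] at hA hB hBc ⊢
  have hB' := (Dp_degB hB).1
  have hAX := Dp_mul (q := X) (n := 1) hA.le natDegree_X_le
  have hs : (A * 1 + B * X).natDegree ≤ N := by
    rw [mul_one]
    exact natDegree_add_le_of_degree_le hA.le hB
  have t1 : ((A * X) * (B * 1)).natDegree ≤ 2 * N + 1 := by
    rw [mul_one]
    have := (Dp_mul hAX.1 hB').1
    omega
  have t2 : ((A * 1 + B * X) * (B * 1)).natDegree ≤ 2 * N + 1 := by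
    have := (Dp_mul hs (q := B * 1) (n := N) (by rw [mul_one]; exact hB')).1
    omega
  have t3 : ((B * 1) ^ 2).natDegree ≤ 2 * N + 1 := by
    rw [mul_one, sq]
    have := (Dp_mul hB' hB').1
    omega
  have t0 := Dp_mul hAX.1 hAX.1
  have e0 : 2 * N + 2 = N + 1 + (N + 1) := by ring
  have c0 : (A * X).coeff (N + 1) = 1 := by
    rw [hAX.2, coeff_X_one, mul_one, ← hA]
    exact hm.coeff_natDegree
  constructor
  · rw [Dp_A0]
    refine Dp_sub (Dp_sub (Dp_sub ?_ ((Dp_C _ t1).trans (by omega))) ((Dp_C _ t2).trans (by omega)))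
      ((Dp_C _ t3).trans (by omega))
    rw [sq, e0]
    exact t0.1
  · rw [Dp_A0, coeff_sub, coeff_sub, coeff_sub,
      coeff_eq_zero_of_natDegree_lt (lt_of_le_of_lt (Dp_C _ t1) (by omega)),
      coeff_eq_zero_of_natDegree_lt (lt_of_le_of_lt (Dp_C _ t2) (by omega)),
      coeff_eq_zero_of_natDegree_lt (lt_of_le_of_lt (Dp_C _ t3) (by omega)), sq, e0, t0.2, c0]
    ring

theorem Dp_A1_deg {R : Type} [CommRing R] [IsDomain R] (W : WeierstrassCurve R) {n : ℕ}
    {A B : R[X]} (h : Dp_sh n A B) :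
    (Dp_A1 W A B * X).natDegree ≤ 2 * n ^ 2 + 2 ∧
      (Dp_A1 W A B * X).coeff (2 * n ^ 2 + 2) = 2 * (1 + (n : R) ^ 2) := by
  obtain ⟨hm, hA, hB, hBc⟩ := h
  obtain ⟨N, hN⟩ : ∃ N, N = n ^ 2 := ⟨_, rfl⟩
  rw [← hN] at hA hB hBc ⊢
  have hB' := (Dp_degB hB).1
  have hAX := Dp_mul (q := X) (n := 1) hA.le natDegree_X_le
  have hAXX := Dp_mul (q := X) (n := 1) hAX.1 natDegree_X_le
  have hs : (A * 1 + B * X).natDegree ≤ N := by
    rw [mul_one]
    exact Dp_add hA.le hB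
  have cs : (A * 1 + B * X).coeff N = 1 + (n : R) ^ 2 := by
    rw [mul_one, coeff_add, hBc, ← hA, hm.coeff_natDegree]
  have c0 : (A * X * X).coeff (N + 1 + 1) = 1 := by
    rw [hAXX.2, hAX.2, coeff_X_one, mul_one, mul_one, ← hA]
    exact hm.coeff_natDegree
  have t0 := Dp_mul hs hAXX.1
  have t1 := (Dp_mul hAX.1 hB).1
  have t2 := (Dp_mul hs hB).1
  have hB1 : (B * 1).natDegree ≤ N := by
    rw [mul_one]
    exact hB'
  have t3 := (Dp_mul hB1 hB).1
  have e : Dp_A1 W A B * X = C 2 * ((A * 1 + B * X) * (A * X * X)) +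
      C W.b₂ * ((A * X) * (B * X)) + C W.b₄ * ((A * 1 + B * X) * (B * X)) +
      C W.b₆ * ((B * 1) * (B * X)) := by
    rw [Dp_A1]
    ring
  have e0 : 2 * N + 2 = N + (N + 1 + 1) := by ring
  rw [e]
  constructor
  · refine Dp_add (Dp_add (Dp_add (Dp_C _ ?_) ((Dp_C _ t1).trans (by omega)))
      ((Dp_C _ t2).trans (by omega))) ((Dp_C _ t3).trans (by omega))
    rw [e0]
    exact t0.1
  · rw [coeff_add, coeff_add, coeff_add,
      coeff_eq_zero_of_natDegree_lt (lt_of_le_of_lt (Dp_C W.b₂ t1) (by omega)),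
      coeff_eq_zero_of_natDegree_lt (lt_of_le_of_lt (Dp_C W.b₄ t2) (by omega)),
      coeff_eq_zero_of_natDegree_lt (lt_of_le_of_lt (Dp_C W.b₆ t3) (by omega)), coeff_C_mul, e0,
      t0.2, c0, cs]
    ring

/-- the shape of the new polynomials -/
theorem Dp_sh_step {R : Type} [CommRing R] [IsDomain R] (W : WeierstrassCurve R) {n : ℕ}
    {a b A B c d : R[X]} (h1 : Dp_sh n a b) (h2 : Dp_sh (n + 1) A B)
    (hc : Dp_A0 W A B = a * c) (hcd : Dp_A1 W A B = a * d + b * c) : Dp_sh (n + 2) c d := by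
  obtain ⟨u1, u2⟩ := Dp_A0_deg W h2
  obtain ⟨v1, v2⟩ := Dp_A1_deg W h2
  obtain ⟨hm, ha, hb, hbc⟩ := h1
  have e1 : 2 * (n + 1) ^ 2 + 2 = n ^ 2 + (n + 2) ^ 2 := by ring
  rw [e1] at u1 u2 v1 v2
  have hM : (Dp_A0 W A B).Monic := monic_of_natDegree_le_of_coeff_eq_one _ u1 u2
  have hMd : (Dp_A0 W A B).natDegree = n ^ 2 + (n + 2) ^ 2 :=
    natDegree_eq_of_le_of_coeff_ne_zero u1 (by rw [u2]; exact one_ne_zero)
  have hcm : c.Monic := by
    rw [hc] at hM
    exact hm.of_mul_monic_left hM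
  have hcn : c.natDegree = (n + 2) ^ 2 := by
    rw [hc, hm.natDegree_mul hcm, ha] at hMd
    exact Nat.add_left_cancel hMd
  have e2 : a * (d * X) = Dp_A1 W A B * X - b * X * c := by
    rw [hcd]
    ring
  have hbXc := Dp_mul hb hcn.le
  have w1 : (a * (d * X)).natDegree ≤ n ^ 2 + (n + 2) ^ 2 := by
    rw [e2]
    exact Dp_sub v1 hbXc.1
  have w3 : (d * X).natDegree ≤ (n + 2) ^ 2 := by
    by_cases hd : d = 0
    · rw [hd, zero_mul, natDegree_zero]
      exact Nat.zero_le _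
    · rw [hm.natDegree_mul' (mul_ne_zero hd X_ne_zero), ha] at w1
      exact Nat.le_of_add_le_add_left w1
  refine ⟨hcm, hcn, w3, ?_⟩
  have w4 : (a * (d * X)).coeff (n ^ 2 + (n + 2) ^ 2) = (d * X).coeff ((n + 2) ^ 2) := by
    rw [(Dp_mul ha.le w3).2, ← ha, hm.coeff_natDegree, one_mul]
  have cc : c.coeff ((n + 2) ^ 2) = 1 := by
    rw [← hcn]
    exact hcm.coeff_natDegree
  rw [← w4, e2, coeff_sub, v2, hbXc.2, hbc, cc]
  push_cast
  ring

/-- the statement proved by induction -/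
def Dp_St {R Ω : Type} [CommRing R] [Field Ω] (i : R →+* Ω) (W : WeierstrassCurve R) (n : ℕ)
    (a b : R[X]) : Prop :=
  Dp_sh n a b ∧ AB (W.map i) n (a.map i) (b.map i) ∧
      ∀ (κ : Type) [Field κ] [IsAlgClosed κ] (φ : R →+* κ), φ W.Δ ≠ 0 →
        AB (W.map φ) n (a.map φ) (b.map φ)

theorem Dp_St_zero {R Ω : Type} [CommRing R] [Nontrivial R] [Field Ω] (i : R →+* Ω)
    (W : WeierstrassCurve R) : Dp_St i W 0 1 0 := by
  refine ⟨⟨monic_one, by simp, by simp, by simp⟩, ?_, fun κ _ _ φ _ => ?_⟩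
  · rw [Polynomial.map_one, Polynomial.map_zero]
    exact P4b_zero _
  · rw [Polynomial.map_one, Polynomial.map_zero]
    exact P4b_zero _

theorem Dp_St_one {R Ω : Type} [CommRing R] [Nontrivial R] [Field Ω] (i : R →+* Ω)
    (W : WeierstrassCurve R) : Dp_St i W 1 X 1 := by
  refine ⟨⟨monic_X, by simp, by simp, by simp⟩, ?_, fun κ _ _ φ _ => ?_⟩
  · rw [Polynomial.map_one, Polynomial.map_X]
    exact P4b_one _
  · rw [Polynomial.map_one, Polynomial.map_X]
    exact P4b_one _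

theorem Dp_ell {R κ : Type} [CommRing R] [Field κ] (φ : R →+* κ) (W : WeierstrassCurve R)
    (h : φ W.Δ ≠ 0) : (W.map φ).IsElliptic :=
  ⟨by rw [map_Δ]; exact isUnit_iff_ne_zero.2 h⟩

theorem Dp_St_step {R Ω : Type} [CommRing R] [IsDomain R] [Field Ω] [IsAlgClosed Ω]
    (i : R →+* Ω) (hi : Function.Injective i) (W : WeierstrassCurve R) (hΔ : i W.Δ ≠ 0) {n : ℕ}
    {a b A B : R[X]} (h1 : Dp_St i W n a b) (h2 : Dp_St i W (n + 1) A B) :
    ∃ c d : R[X], Dp_St i W (n + 2) c d := by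
  have := Dp_ell i W hΔ
  obtain ⟨s1, m1, k1⟩ := h1
  obtain ⟨s2, m2, k2⟩ := h2
  obtain ⟨c', d', hc', hcd', hd'⟩ := Dp_ex (W.map i) m1 m2
  rw [← Dp_map0] at hc'
  rw [← Dp_map1] at hcd'
  rw [← Dp_map2] at hd'
  have ha0 : a.map i ≠ 0 := (Dp_cop _ m1).1
  obtain ⟨c, hc⟩ : a ∣ Dp_A0 W A B := by
    rw [← Polynomial.map_dvd_map i hi s1.1]
    exact ⟨c', hc'⟩
  have ec : c.map i = c' := by
    rw [hc, Polynomial.map_mul] at hc'
    exact mul_left_cancel₀ ha0 hc'
  obtain ⟨d, hd⟩ : a ∣ Dp_A1 W A B - b * c := by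
    rw [← Polynomial.map_dvd_map i hi s1.1, Polynomial.map_sub, Polynomial.map_mul, ec, hcd']
    exact ⟨d', by ring⟩
  have ed : d.map i = d' := by
    have h3 := congrArg (Polynomial.map i) hd
    rw [Polynomial.map_sub, Polynomial.map_mul, Polynomial.map_mul, ec, hcd', add_sub_cancel_right] at h3
    exact (mul_left_cancel₀ ha0 h3).symm
  have hcd : Dp_A1 W A B = a * d + b * c := by linear_combination hd
  have hbd : Dp_A2 A B = b * d := by
    apply Polynomial.map_injective i hi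
    rw [hd', Polynomial.map_mul, ed]
  have all : ∀ (κ : Type) [Field κ] [IsAlgClosed κ] (φ : R →+* κ), φ W.Δ ≠ 0 →
      AB (W.map φ) n (a.map φ) (b.map φ) → AB (W.map φ) (n + 1) (A.map φ) (B.map φ) →
      AB (W.map φ) (n + 2) (c.map φ) (d.map φ) := by
    intro κ _ _ φ hφ g1 g2
    have := Dp_ell φ W hφ
    refine Dp_step (W.map φ) g1 g2 ?_ ?_ ?_
    · rw [← Dp_map0, hc, Polynomial.map_mul]
    · rw [← Dp_map1, hcd, Polynomial.map_add, Polynomial.map_mul, Polynomial.map_mul]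
    · rw [← Dp_map2, hbd, Polynomial.map_mul]
  exact ⟨c, d, Dp_sh_step W s1 s2 hc hcd, all Ω i hΔ m1 m2,
    fun κ _ _ φ hφ => all κ φ hφ (k1 κ φ hφ) (k2 κ φ hφ)⟩

theorem Dp_all {R Ω : Type} [CommRing R] [IsDomain R] [Field Ω] [IsAlgClosed Ω]
    (i : R →+* Ω) (hi : Function.Injective i) (W : WeierstrassCurve R) (hΔ : i W.Δ ≠ 0) (n : ℕ) :
    ∃ a b : R[X], Dp_St i W n a b := by
  have key : ∀ m : ℕ, (∃ a b, Dp_St i W m a b) ∧ (∃ a b, Dp_St i W (m + 1) a b) := by
    intro m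
    induction m with
    | zero => exact ⟨⟨_, _, Dp_St_zero i W⟩, ⟨_, _, Dp_St_one i W⟩⟩
    | succ m ih =>
      obtain ⟨⟨a, b, h1⟩, ⟨A, B, h2⟩⟩ := ih
      exact ⟨⟨A, B, h2⟩, Dp_St_step i hi W hΔ h1 h2⟩
  exact (key n).1

theorem exists_int {R Ω : Type} [CommRing R] [IsDomain R] [Field Ω] [IsAlgClosed Ω] [CharZero Ω]
    (i : R →+* Ω) (hi : Function.Injective i) (W : WeierstrassCurve R) (hΔ : i W.Δ ≠ 0) (n : ℕ)
    (hn : n ≠ 0) :
    ∃ A B : R[X], A.Monic ∧ A.natDegree = n ^ 2 ∧ B.natDegree ≤ n ^ 2 - 1 ∧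
      B.coeff (n ^ 2 - 1) = (n : R) ^ 2 ∧ AB (W.map i) n (A.map i) (B.map i) ∧
      ∀ (κ : Type) [Field κ] [IsAlgClosed κ] (φ : R →+* κ), φ W.Δ ≠ 0 →
        AB (W.map φ) n (A.map φ) (B.map φ) := by
  obtain ⟨a, b, ⟨hm, ha, hb, hbc⟩, m1, k1⟩ := Dp_all i hi W hΔ n
  have hpos : 0 < n ^ 2 := pow_pos (Nat.pos_of_ne_zero hn) 2
  refine ⟨a, b, hm, ha, ?_, ?_, m1, k1⟩
  · by_cases h0 : b = 0
    · rw [h0, natDegree_zero]
      exact Nat.zero_le _
    · have := (Dp_degB hb).2 h0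
      omega
  · obtain ⟨N, hN⟩ : ∃ N, n ^ 2 = N + 1 := ⟨n ^ 2 - 1, by omega⟩
    rw [hN, coeff_mul_X] at hbc
    rw [hN, Nat.add_sub_cancel, hbc]

end H86G
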