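import Pool.Agent.H86.T4G.Dp
import Pool.Agent.H11.Local

/-!
Row Dv (about 90 lines): the polynomials for multiplication by `n`, good reduction. Use only the STATEMENT of exists_int (Dp).

PROOF. `R := A` (a subring of `Ω`), `i := A.subtype`. `W₀ : WeierstrassCurve A` with coefficients `⟨W.a₁, _⟩` etc., `W₀.map i = W` (ext). `i W₀.Δ = W.Δ ≠ 0`. exists_int gives `a, b : A[X]`; take `a.map i`, `b.map i`: coefficients `i (coeff)` are in `A` (`A.valuation_le_one`).
 A coefficient of `b` is a unit: otherwise the image of `b` under `φ : A →+* κ := AlgebraicClosure (IsLocalRing.ResidueField A)` is zero. `φ W₀.Δ ≠ 0` as `W₀.Δ` is a unit of `A` (`A.valuation W.Δ = 1`: ValuationSubring.valuation_eq_one_iff). By the last part of exists_int `a.map φ`, `0` have no common root, so `a.map φ` has no root, but it is monic of degree `n^2 ≠ 0` over an algebraically closed field.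
 (An element `c : A` with `φ c = 0` is in the maximal ideal, i.e. not a unit: the map to the algebraic closure is injective, IsLocalRing.residue_eq_zero_iff; ValuationSubring.valuation_lt_one_iff; `valuation ≤ 1` and not `< 1` means `= 1`.)
-/

set_option autoImplicit false
open scoped Classical

open Polynomial WeierstrassCurve H2T4 Pool.Agent.H11

namespace H86G

/-- the model over the valuation ring. -/
def Dv_W {Ω : Type} [Field Ω] (A : ValuationSubring Ω) (W : WeierstrassCurve Ω)
    (hW : Integral A W) : WeierstrassCurve A :=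
  ⟨⟨W.a₁, hW.a₁⟩, ⟨W.a₂, hW.a₂⟩, ⟨W.a₃, hW.a₃⟩, ⟨W.a₄, hW.a₄⟩, ⟨W.a₆, hW.a₆⟩⟩

theorem Dv_map {Ω : Type} [Field Ω] (A : ValuationSubring Ω) (W : WeierstrassCurve Ω)
    (hW : Integral A W) : (Dv_W A W hW).map A.subtype = W := by
  ext <;> rfl

theorem Dv_unit {Ω : Type} [Field Ω] (A : ValuationSubring Ω) (c : A) :
    IsUnit c ↔ A.valuation (c : Ω) = 1 := ValuationSubring.valuation_eq_one_iff A c

theorem Dv_res {Ω : Type} [Field Ω] (A : ValuationSubring Ω) (c : A) :
    (algebraMap (IsLocalRing.ResidueField A)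
      (AlgebraicClosure (IsLocalRing.ResidueField A))).comp (IsLocalRing.residue A) c = 0 ↔
      ¬ A.valuation (c : Ω) = 1 := by
  rw [← Dv_unit]
  simp only [RingHom.comp_apply, map_eq_zero_iff _ (algebraMap (IsLocalRing.ResidueField A)
      (AlgebraicClosure (IsLocalRing.ResidueField A))).injective]
  rw [IsLocalRing.residue_eq_zero_iff, IsLocalRing.mem_maximalIdeal]
  rfl

theorem exists_val {Ω : Type} [Field Ω] [IsAlgClosed Ω] [CharZero Ω] (A : ValuationSubring Ω)
    (W : WeierstrassCurve Ω) (hW : Integral A W) (hΔ : A.valuation W.Δ = 1) (n : ℕ)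
    (hn : n ≠ 0) :
    ∃ a b : Polynomial Ω, a.Monic ∧ a.natDegree = n ^ 2 ∧ b.natDegree ≤ n ^ 2 - 1 ∧
      b.coeff (n ^ 2 - 1) = (n : Ω) ^ 2 ∧ (∀ i, A.valuation (a.coeff i) ≤ 1) ∧
      (∀ i, A.valuation (b.coeff i) ≤ 1) ∧ (∃ i, A.valuation (b.coeff i) = 1) ∧
      AB W n a b := by
  have hinj : Function.Injective (A.subtype : A →+* Ω) := Subtype.val_injective
  have hmap := Dv_map A W hW
  have hD : (A.subtype (Dv_W A W hW).Δ) = W.Δ := by
    conv_rhs => rw [← hmap]
    rw [WeierstrassCurve.map_Δ]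
  have hD1 : A.valuation (((Dv_W A W hW).Δ : A) : Ω) = 1 := by
    have : (((Dv_W A W hW).Δ : A) : Ω) = W.Δ := hD
    rw [this, hΔ]
  have hD0 : A.subtype (Dv_W A W hW).Δ ≠ 0 := by
    rw [hD]; intro h; rw [h, map_zero] at hΔ; exact zero_ne_one hΔ
  obtain ⟨a, b, ham, had, hbd, hbc, hAB, hall⟩ := exists_int A.subtype hinj (Dv_W A W hW) hD0 n hn
  rw [hmap] at hAB
  refine ⟨a.map A.subtype, b.map A.subtype, ham.map _, ?_, ?_, ?_, ?_, ?_, ?_, hAB⟩
  · rw [ham.natDegree_map, had]
  · exact (natDegree_map_le).trans hbd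
  · rw [coeff_map, hbc]; simp
  · intro i; rw [coeff_map]; exact A.valuation_le_one (a.coeff i)
  · intro i; rw [coeff_map]; exact A.valuation_le_one (b.coeff i)
  · by_contra hcon
    push Not at hcon
    set φ : A →+* AlgebraicClosure (IsLocalRing.ResidueField A) :=
      (algebraMap (IsLocalRing.ResidueField A)
      (AlgebraicClosure (IsLocalRing.ResidueField A))).comp (IsLocalRing.residue A) with hφ
    have hb0 : b.map φ = 0 := by
      ext i
      rw [coeff_map, coeff_zero, hφ, Dv_res]
      have := hcon i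
      rwa [coeff_map] at this
    have hΔφ : φ (Dv_W A W hW).Δ ≠ 0 := by
      rw [hφ, Ne, Dv_res, not_not]
      exact hD1
    have hABφ := hall _ φ hΔφ
    rw [hb0] at hABφ
    have hdeg : (a.map φ).degree ≠ 0 := by
      rw [degree_eq_natDegree (ham.map φ).ne_zero, ham.natDegree_map, had]
      exact_mod_cast pow_ne_zero 2 hn
    obtain ⟨x, hx⟩ := IsAlgClosed.exists_root (a.map φ) hdeg
    rcases hABφ.1 x with h | h
    · exact h hx
    · exact h eval_zero

end H86G
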