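import Mathlib

/-!
Row Gs (about 110 lines): the Gauss lemma for a valuation subring.

PROOF of gauss_le. `v := A.valuation`. Lemma (one factor): for `g ≠ 0` in `Polynomial Ω` and `ρ`: if all coefficients of `(X - C ρ) * g` have valuation at most `C`, then all coefficients of `g` satisfy `max 1 (v ρ) * v (g.coeff j) ≤ C`. Proof: coefficients of `(X - C ρ) g`: `g_{i-1} - ρ g_i` (Polynomial.coeff_X_sub_C_mul or mul_coeff_zero / coeff_X_mul). Let `N` be the maximum of `v (g_j)` over the support of `g` (nonzero).
  If `v ρ ≤ 1`: `i` the LARGEST index with `v (g_i) = N`; the coefficient `i + 1` is `g_i - ρ g_{i+1}` with `v (ρ g_{i+1}) < N`, so its valuation is `N ≤ C`. If `v ρ > 1`: `i` the SMALLEST index with `v (g_i) = N`; the coefficient `i` is `g_{i-1} - ρ g_i` (or `-ρ g_0` for `i = 0`), `v (g_{i-1}) < N < v (ρ) N`, so its valuation is `v ρ * N ≤ C`.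
 Then induction on `s` (generalizing `f`, `C`): `s = insert ρ s'`: `f = (X - C ρ) g` (root), `g` monic (Polynomial.Monic.of_mul_monic_left), the elements of `s'` are roots of `g` (different from `ρ`), lemma: all coefficients of `g` are at most `C / max 1 (v ρ)`, induction, multiply back. `s = ∅`: `1 ≤ C` because the leading coefficient of `f` is one.
PROOF of gauss_root: if all roots have valuation at most one then, `f` being the product of `X - C ρ` over its roots (IsAlgClosed.splits, Polynomial.Splits.eq_prod_roots / monic version), `f` is the image of a polynomial over `A`; so all coefficients are in `A` (Polynomial.prod ... in the subring of polynomials with coefficients in `A`: e.g. `f ∈ Polynomial.lifts A.subtype`), contradiction.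
-/

set_option autoImplicit false
open scoped Classical

open Polynomial

namespace H86G

theorem Gs_one {Ω : Type} [Field Ω] (A : ValuationSubring Ω) {g : Polynomial Ω} (hg : g ≠ 0)
    (ρ : Ω) (D : A.ValueGroup) (hD : ∀ i, A.valuation (((X - C ρ) * g).coeff i) ≤ D) (j : ℕ) :
    max 1 (A.valuation ρ) * A.valuation (g.coeff j) ≤ D := by
  have hne : g.support.Nonempty := Polynomial.nonempty_support_iff.mpr hg
  obtain ⟨m, hm, hmax⟩ := g.support.exists_max_image (fun i => A.valuation (g.coeff i)) hne
  have hall : ∀ i, A.valuation (g.coeff i) ≤ A.valuation (g.coeff m) := by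
    intro i
    by_cases hi : i ∈ g.support
    · exact hmax i hi
    · rw [Polynomial.notMem_support_iff.mp hi, map_zero]
      exact zero_le
  have hN0 : A.valuation (g.coeff m) ≠ 0 := by
    intro h
    exact Polynomial.mem_support_iff.mp hm ((map_eq_zero _).mp h)
  have key : max 1 (A.valuation ρ) * A.valuation (g.coeff m) ≤ D := by
    let T := g.support.filter (fun i => A.valuation (g.coeff i) = A.valuation (g.coeff m))
    have hT : T.Nonempty := ⟨m, Finset.mem_filter.mpr ⟨hm, rfl⟩⟩
    have hTin : ∀ i, A.valuation (g.coeff i) = A.valuation (g.coeff m) → i ∈ T := by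
      intro i h
      refine Finset.mem_filter.mpr ⟨?_, h⟩
      rw [Polynomial.mem_support_iff]
      intro h0
      rw [h0, map_zero] at h
      exact hN0 h.symm
    have hcoef : ∀ k : ℕ, ((X - C ρ) * g).coeff (k+1) = g.coeff k - ρ * g.coeff (k+1) := by
      intro k
      rw [sub_mul, coeff_sub, coeff_X_mul, coeff_C_mul]
    rcases le_or_gt (A.valuation ρ) 1 with h1 | h1
    · rw [max_eq_left h1, one_mul]
      obtain ⟨k, hk, hkm⟩ : ∃ k ∈ T, ∀ i ∈ T, i ≤ k := ⟨T.max' hT, T.max'_mem hT, fun i hi => T.le_max' i hi⟩
      have hkv : A.valuation (g.coeff k) = A.valuation (g.coeff m) := (Finset.mem_filter.mp hk).2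
      have hk1 : A.valuation (g.coeff (k+1)) < A.valuation (g.coeff m) := by
        refine lt_of_le_of_ne (hall _) ?_
        intro h
        have := hkm _ (hTin _ h)
        omega
      have h2 := hD (k+1)
      rw [hcoef] at h2
      have h4 : A.valuation (ρ * g.coeff (k+1)) < A.valuation (g.coeff k) := by
        rw [map_mul, hkv]
        calc A.valuation ρ * A.valuation (g.coeff (k+1))
            ≤ 1 * A.valuation (g.coeff (k+1)) := by gcongr
          _ = A.valuation (g.coeff (k+1)) := one_mul _
          _ < _ := hk1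
      rw [Valuation.map_sub_eq_of_lt_left _ h4, hkv] at h2
      exact h2
    · rw [max_eq_right h1.le]
      obtain ⟨k, hk, hkm⟩ : ∃ k ∈ T, ∀ i ∈ T, k ≤ i := ⟨T.min' hT, T.min'_mem hT, fun i hi => T.min'_le i hi⟩
      have hkv : A.valuation (g.coeff k) = A.valuation (g.coeff m) := (Finset.mem_filter.mp hk).2
      have hρN : A.valuation (g.coeff m) < A.valuation ρ * A.valuation (g.coeff m) := by
        have hpos : 0 < A.valuation (g.coeff m) := zero_lt_iff.mpr hN0
        calc A.valuation (g.coeff m) = 1 * A.valuation (g.coeff m) := (one_mul _).symm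
          _ < _ := mul_lt_mul_of_pos_right h1 hpos
      rcases k with _ | k
      · have h2 := hD 0
        have h3 : ((X - C ρ) * g).coeff 0 = - (ρ * g.coeff 0) := by
          rw [mul_coeff_zero]
          simp
        rw [h3, Valuation.map_neg, map_mul, hkv] at h2
        exact h2
      · have hk1 : A.valuation (g.coeff k) < A.valuation (g.coeff m) := by
          refine lt_of_le_of_ne (hall _) ?_
          intro h
          have := hkm _ (hTin _ h)
          omega
        have h2 := hD (k+1)
        rw [hcoef] at h2
        have h4 : A.valuation (g.coeff k) < A.valuation (ρ * g.coeff (k+1)) := by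
          rw [map_mul, hkv]
          exact hk1.trans hρN
        rw [Valuation.map_sub_eq_of_lt_right _ h4, map_mul, hkv] at h2
        exact h2
  calc max 1 (A.valuation ρ) * A.valuation (g.coeff j)
      ≤ max 1 (A.valuation ρ) * A.valuation (g.coeff m) := by
        gcongr
        exact hall j
    _ ≤ D := key

theorem gauss_le {Ω : Type} [Field Ω] (A : ValuationSubring Ω) {f : Polynomial Ω} (hf : f.Monic)
    (C : A.ValueGroup) (hC : ∀ i, A.valuation (f.coeff i) ≤ C) (s : Finset Ω)
    (hs : ∀ ρ ∈ s, f.eval ρ = 0) : ∏ ρ ∈ s, max 1 (A.valuation ρ) ≤ C := by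
  induction s using Finset.induction_on generalizing f C with
  | empty =>
    rw [Finset.prod_empty]
    have h := hC f.natDegree
    rw [Polynomial.Monic.coeff_natDegree hf, map_one] at h
    exact h
  | insert ρ s hρ ih =>
    rw [Finset.prod_insert hρ]
    have hroot : f.IsRoot ρ := hs ρ (Finset.mem_insert_self _ _)
    obtain ⟨g, hg⟩ := Polynomial.dvd_iff_isRoot.mpr hroot
    have hgm : g.Monic := by
      refine Polynomial.Monic.of_mul_monic_left (Polynomial.monic_X_sub_C ρ) ?_
      rw [← hg]
      exact hf
    have hM0 : (0 : A.ValueGroup) < max 1 (A.valuation ρ) := lt_of_lt_of_le zero_lt_one (le_max_left _ _)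
    have hone := Gs_one A hgm.ne_zero ρ C (by rw [← hg]; exact hC)
    have hg' : ∀ i, A.valuation (g.coeff i) ≤ (max 1 (A.valuation ρ))⁻¹ * C := by
      intro i
      rw [le_inv_mul_iff₀ hM0]
      exact hone i
    have hs' : ∀ σ ∈ s, g.eval σ = 0 := by
      intro σ hσ
      have h1 := hs σ (Finset.mem_insert_of_mem hσ)
      rw [hg, Polynomial.eval_mul, Polynomial.eval_sub, Polynomial.eval_X, Polynomial.eval_C] at h1
      rcases mul_eq_zero.mp h1 with h2 | h2
      · exfalso
        have h3 : σ = ρ := sub_eq_zero.mp h2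
        rw [h3] at hσ
        exact hρ hσ
      · exact h2
    have h5 := ih hgm _ hg' hs'
    rw [le_inv_mul_iff₀ hM0] at h5
    exact h5

theorem gauss_root {Ω : Type} [Field Ω] [IsAlgClosed Ω] (A : ValuationSubring Ω) {f : Polynomial Ω}
    (hf : f.Monic) (i : ℕ) (hi : 1 < A.valuation (f.coeff i)) :
    ∃ ρ, f.eval ρ = 0 ∧ 1 < A.valuation ρ := by
  by_contra hcon
  push Not at hcon
  have hlift : f ∈ Polynomial.lifts (algebraMap A Ω) := by
    refine (IsAlgClosed.splits f).mem_lift_of_roots_mem_range hf (algebraMap A Ω) ?_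
    intro ρ hρ
    have h1 : f.eval ρ = 0 := (Polynomial.mem_roots'.mp hρ).2
    exact ⟨⟨ρ, A.mem_of_valuation_le_one ρ (hcon ρ h1)⟩, rfl⟩
  obtain ⟨g, hg⟩ := (Polynomial.mem_lifts f).mp hlift
  have h2 : f.coeff i = algebraMap A Ω (g.coeff i) := by
    rw [← hg, Polynomial.coeff_map]
  have h3 : A.valuation (f.coeff i) ≤ 1 := by
    rw [h2]
    exact A.valuation_le_one (g.coeff i)
  exact absurd hi (not_lt.mpr h3)

end H86G
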