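import Pool.Agent.H86.T4G.Lb

/-!
Row Gt (about 120 lines): finitely many torsion points fixed by the decomposition group, good reduction. Use only the STATEMENTS of Lb.

PROOF. `E := W.baseChange (AlgebraicClosure F)`. `Integral A E` and `A.valuation E.Δ = 1` from GoodVal (the coefficients of `E` are the images of those of `W`; LS.ovr, LS.val_one). `A.valuation (l : _) = 1`, so `A.valuation (l^n : _) = 1`.
 The set `X` of the `P` fixed by `D` with `l^n • P = 0` for some `n`. If `P ∈ X`, `P ∈ E₁` (InE1 A E P), then `P = 0` (InE1.eq_zero with `l^n`). Otherwise `P = (x, y)` with `x ∈ A`, `y ∈ A` (y_mem), `σ x = x`, `σ y = y` for `σ ∈ D` (act on `some`: pm, see H10/Pm.lean), so there are `a, b : F` with `w.valuation F a ≤ 1`, `A.valuation (x - a) < 1`, same for `y, b` (LS.res). Let `k := 𝓞 F ⧸ w.asIdeal` (finite) and `ρ : {a : F // w.valuation F a ≤ 1} → k` the residue map (choose `c : 𝓞 F` with `w.valuation F (a - c) < 1`, its class; if `ρ a = ρ a'` then `w.valuation F (a - a') < 1`).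
 `g : X → Option (k × k)`: `0 ↦ none`, `(x, y) ↦ (ρ a, ρ b)` is injective: if `g P = g P'` then `A.valuation (x - x') < 1`, `A.valuation (y - y') < 1` (LS.val_lt_one), so `InE1 A E (P - P')` by inE1_sub; `P - P'` is killed by a power of `l`, so zero (InE1.eq_zero). So `X` is finite.
-/

set_option autoImplicit false
open scoped Classical

open WeierstrassCurve IsDedekindDomain NumberField Pool.Agent.H10 Pool.Agent.H11 H78D

namespace H86G

theorem Gt_rho {F : Type} [Field F] [NumberField F] (w : HeightOneSpectrum (𝓞 F)) :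
    ∃ (k : Type) (_ : Finite k) (ρ : F → k), ∀ a b : F, w.valuation F a ≤ 1 →
      w.valuation F b ≤ 1 → ρ a = ρ b → w.valuation F (a - b) < 1 := by
  have h1 : ∀ a : F, ∃ c : 𝓞 F, w.valuation F a ≤ 1 →
      w.valuation F (a - algebraMap (𝓞 F) F c) < 1 := by
    intro a
    by_cases ha : w.valuation F a ≤ 1
    · obtain ⟨c, hc⟩ := w.exists_valuation_sub_lt_of_integer ha 1
      refine ⟨c, fun _ => ?_⟩
      rw [← Valuation.map_neg, neg_sub]
      rwa [Units.val_one] at hc
    · exact ⟨0, fun h => absurd h ha⟩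
  choose c hc using h1
  refine ⟨𝓞 F ⧸ w.asIdeal, Ring.HasFiniteQuotients.finiteQuotient w.ne_bot,
    fun a => Ideal.Quotient.mk w.asIdeal (c a), fun a b ha hb hab => ?_⟩
  have h2 : w.valuation F (algebraMap (𝓞 F) F (c a - c b)) < 1 := by
    rw [w.valuation_lt_one_iff_mem]
    exact Ideal.Quotient.eq.1 hab
  have h3 : a - b = (a - algebraMap (𝓞 F) F (c a)) + algebraMap (𝓞 F) F (c a - c b) -
      (b - algebraMap (𝓞 F) F (c b)) := by
    rw [map_sub]
    ring
  rw [h3]
  exact Valuation.map_sub_lt _ (Valuation.map_add_lt _ (hc a ha) h2) (hc b hb)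

theorem fixed_fin {F : Type} [Field F] [NumberField F] {w : HeightOneSpectrum (𝓞 F)}
    {A : ValuationSubring (AlgebraicClosure F)}
    {D : Subgroup (AlgebraicClosure F ≃ₐ[F] AlgebraicClosure F)} (h : LS w A D)
    {W : WeierstrassCurve F} [W.IsElliptic] {l : ℕ} (hg : GoodVal (w.valuation F) W l) :
    {P : (W.baseChange (AlgebraicClosure F)).toAffine.Point |
      (∀ σ ∈ D, act (inv_bc F W) σ P = P) ∧ ∃ n : ℕ, l ^ n • P = 0}.Finite := by
  have hI : Integral A (W.baseChange (AlgebraicClosure F)) :=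
    ⟨(h.ovr _).2 hg.1, (h.ovr _).2 hg.2.1, (h.ovr _).2 hg.2.2.1, (h.ovr _).2 hg.2.2.2.1,
      (h.ovr _).2 hg.2.2.2.2.1⟩
  have hΔ : A.valuation (W.baseChange (AlgebraicClosure F)).Δ = 1 := by
    rw [WeierstrassCurve.baseChange, WeierstrassCurve.map_Δ, h.val_one]
    exact hg.2.2.2.2.2.1
  have hl : ∀ n : ℕ, A.valuation ((l ^ n : ℕ) : AlgebraicClosure F) = 1 := by
    intro n
    have h1 : A.valuation (l : AlgebraicClosure F) = 1 := by
      have h2 := (h.val_one (l : F)).2 hg.2.2.2.2.2.2
      rwa [map_natCast] at h2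
    rw [Nat.cast_pow, map_pow, h1, one_pow]
  obtain ⟨k, hk, ρ, hρ⟩ := Gt_rho w
  set X := {P : (W.baseChange (AlgebraicClosure F)).toAffine.Point |
      (∀ σ ∈ D, act (inv_bc F W) σ P = P) ∧ ∃ n : ℕ, l ^ n • P = 0} with hX
  have key : ∀ P : X, ∃ g : Option (k × k),
      (P.1 = 0 ∧ g = none) ∨ ∃ (x y : AlgebraicClosure F) (hxy : _) (a b : F),
        P.1 = .some x y hxy ∧ g = some (ρ a, ρ b) ∧ x ∈ A ∧ w.valuation F a ≤ 1 ∧
        w.valuation F b ≤ 1 ∧
        A.valuation (x - algebraMap F (AlgebraicClosure F) a) < 1 ∧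
        A.valuation (y - algebraMap F (AlgebraicClosure F) b) < 1 := by
    rintro ⟨P, hP, n, hn⟩
    match P, hP, hn with
    | 0, _, _ => exact ⟨none, Or.inl ⟨rfl, rfl⟩⟩
    | .some x y hxy, hP, hn =>
      have hx : x ∈ A := by
        by_contra hx
        exact absurd (InE1.eq_zero hI (Or.inr ⟨x, y, hxy, rfl, hx⟩) (l ^ n) (hl n) hn)
          (WeierstrassCurve.Affine.Point.some_ne_zero _)
      have hy : y ∈ A := y_mem hI hx hxy.1
      have hfx : ∀ σ ∈ D, σ x = x := fun σ hσ => by
        have h1 := hP σ hσ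
        rw [Pool.Agent.H10.act, pm_some, WeierstrassCurve.Affine.Point.some.injEq] at h1
        exact h1.1
      have hfy : ∀ σ ∈ D, σ y = y := fun σ hσ => by
        have h1 := hP σ hσ
        rw [Pool.Agent.H10.act, pm_some, WeierstrassCurve.Affine.Point.some.injEq] at h1
        exact h1.2
      obtain ⟨a, ha, hxa⟩ := h.res hfx hx
      obtain ⟨b, hb, hyb⟩ := h.res hfy hy
      exact ⟨some (ρ a, ρ b), Or.inr ⟨x, y, hxy, a, b, rfl, rfl, hx, ha, hb, hxa, hyb⟩⟩
  choose g hgs using key
  have hinj : Function.Injective g := by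
    intro P P' hPP
    rcases hgs P with ⟨h1, h2⟩ | ⟨x, y, hxy, a, b, h1, h2, hx, ha, hb, hxa, hyb⟩
    · rcases hgs P' with ⟨h1', h2'⟩ | ⟨x', y', hxy', a', b', h1', h2', -⟩
      · exact Subtype.ext (h1.trans h1'.symm)
      · rw [h2, h2'] at hPP
        exact absurd hPP (by simp)
    · rcases hgs P' with ⟨h1', h2'⟩ |
        ⟨x', y', hxy', a', b', h1', h2', hx', ha', hb', hxa', hyb'⟩
      · rw [h2, h2'] at hPP
        exact absurd hPP (by simp)
      · rw [h2, h2', Option.some.injEq, Prod.mk.injEq] at hPP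
        have hd : ∀ {u u' : AlgebraicClosure F} {c c' : F}, w.valuation F c ≤ 1 →
            w.valuation F c' ≤ 1 → ρ c = ρ c' →
            A.valuation (u - algebraMap F (AlgebraicClosure F) c) < 1 →
            A.valuation (u' - algebraMap F (AlgebraicClosure F) c') < 1 →
            A.valuation (u - u') < 1 := by
          intro u u' c c' hc hc' hcc hu hu'
          have h3 := (h.val_lt_one _).2 (hρ c c' hc hc' hcc)
          have h4 : u - u' = (u - algebraMap F (AlgebraicClosure F) c) +
              algebraMap F (AlgebraicClosure F) (c - c') -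
              (u' - algebraMap F (AlgebraicClosure F) c') := by
            rw [map_sub]
            ring
          rw [h4]
          exact nu_sub A (nu_add A hu h3) hu'
        have h5 := inE1_sub hI hΔ hxy hxy' hx hx' (hd ha ha' hPP.1 hxa hxa')
          (hd hb hb' hPP.2 hyb hyb')
        rw [← h1, ← h1'] at h5
        obtain ⟨n, hn⟩ := P.2.2
        obtain ⟨n', hn'⟩ := P'.2.2
        have h6 : l ^ (n + n') • (P.1 - P'.1) = 0 := by
          rw [nsmul_sub, pow_add, mul_nsmul, hn, nsmul_zero, mul_nsmul', hn', nsmul_zero,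
            sub_zero]
        exact Subtype.ext (sub_eq_zero.1 (InE1.eq_zero hI h5 (l ^ (n + n')) (hl _) h6))
  exact Set.finite_coe_iff.1 (Finite.of_injective g hinj)

end H86G
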