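import Pool.Agent.H86.T4G.Df

/-!
Row Lb (about 70 lines): first properties of `LS`.

PROOF. val_le: for `y ≠ 0`, `A.valuation x ≤ A.valuation y` iff `A.valuation (x / y) ≤ 1` iff `x / y ∈ A` (ValuationSubring.valuation_le_one_iff) iff `w.valuation F (x / y) ≤ 1` (LS.ovr). `y = 0`: both sides say `x = 0`. The others follow.
mem_stab: `σ x ∈ A` iff `A.valuation (σ x) ≤ 1`.
res: `x` in `A`, fixed by `D`: LS.dense with `c = 1`: `A.valuation (x - z) < 1`, so `A.valuation z ≤ 1`.
fixed_val: `x ≠ 0` fixed by `D`: dense with `c = x`: `A.valuation (x - z) < A.valuation x`, so `A.valuation z = A.valuation x`.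
-/

set_option autoImplicit false
open scoped Classical

open WeierstrassCurve IsDedekindDomain NumberField Pool.Agent.H10 Pool.Agent.H11 H78D

namespace H86G

variable {F : Type} [Field F] [NumberField F] {w : HeightOneSpectrum (𝓞 F)}
  {A : ValuationSubring (AlgebraicClosure F)}
  {D : Subgroup (AlgebraicClosure F ≃ₐ[F] AlgebraicClosure F)}

theorem LS.val_le (h : LS w A D) (x y : F) :
    A.valuation (algebraMap F (AlgebraicClosure F) x) ≤
      A.valuation (algebraMap F (AlgebraicClosure F) y) ↔
      w.valuation F x ≤ w.valuation F y := by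
  by_cases hy : y = 0
  · rw [hy, map_zero, map_zero, map_zero, le_zero_iff, le_zero_iff, Valuation.zero_iff,
      Valuation.zero_iff, map_eq_zero_iff _ (algebraMap F (AlgebraicClosure F)).injective]
  · have hy1 : A.valuation (algebraMap F (AlgebraicClosure F) y) ≠ 0 := by
      rw [Ne, Valuation.zero_iff, map_eq_zero_iff _ (algebraMap F (AlgebraicClosure F)).injective]
      exact hy
    have hy2 : w.valuation F y ≠ 0 := by
      rw [Ne, Valuation.zero_iff]
      exact hy
    have h1 : A.valuation (algebraMap F (AlgebraicClosure F) x) ≤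
        A.valuation (algebraMap F (AlgebraicClosure F) y) ↔
        A.valuation (algebraMap F (AlgebraicClosure F) (x / y)) ≤ 1 := by
      rw [map_div₀ (algebraMap F (AlgebraicClosure F)), map_div₀, div_le_one₀ (zero_lt_iff.2 hy1)]
    have h2 : w.valuation F x ≤ w.valuation F y ↔ w.valuation F (x / y) ≤ 1 := by
      rw [map_div₀, div_le_one₀ (zero_lt_iff.2 hy2)]
    rw [h1, h2, A.valuation_le_one_iff, h.ovr]

theorem LS.val_lt (h : LS w A D) (x y : F) :
    A.valuation (algebraMap F (AlgebraicClosure F) x) <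
      A.valuation (algebraMap F (AlgebraicClosure F) y) ↔
      w.valuation F x < w.valuation F y :=
  lt_iff_lt_of_le_iff_le (h.val_le y x)

theorem LS.val_eq (h : LS w A D) (x y : F) :
    A.valuation (algebraMap F (AlgebraicClosure F) x) =
      A.valuation (algebraMap F (AlgebraicClosure F) y) ↔
      w.valuation F x = w.valuation F y := by
  rw [le_antisymm_iff, le_antisymm_iff, h.val_le, h.val_le]

theorem LS.val_one (h : LS w A D) (x : F) :
    A.valuation (algebraMap F (AlgebraicClosure F) x) = 1 ↔ w.valuation F x = 1 := by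
  have h1 := h.val_eq x 1
  rwa [map_one, map_one, map_one] at h1

theorem LS.val_lt_one (h : LS w A D) (x : F) :
    A.valuation (algebraMap F (AlgebraicClosure F) x) < 1 ↔ w.valuation F x < 1 := by
  have h1 := h.val_lt x 1
  rwa [map_one, map_one, map_one] at h1

theorem LS.mem_stab (h : LS w A D) {σ : AlgebraicClosure F ≃ₐ[F] AlgebraicClosure F}
    (hσ : σ ∈ D) (x : AlgebraicClosure F) : σ x ∈ A ↔ x ∈ A := by
  rw [← A.valuation_le_one_iff, h.stab σ hσ x, A.valuation_le_one_iff]

theorem LS.res (h : LS w A D) {x : AlgebraicClosure F} (hx : ∀ σ ∈ D, σ x = x) (hA : x ∈ A) :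
    ∃ z : F, w.valuation F z ≤ 1 ∧
      A.valuation (x - algebraMap F (AlgebraicClosure F) z) < 1 := by
  obtain ⟨z, hz⟩ := h.dense x hx 1 one_ne_zero
  rw [map_one] at hz
  refine ⟨z, ?_, hz⟩
  rw [← h.ovr]
  have h1 : x - algebraMap F (AlgebraicClosure F) z ∈ A := (A.valuation_le_one_iff _).1 hz.le
  have h2 : x - (x - algebraMap F (AlgebraicClosure F) z) ∈ A := sub_mem hA h1
  rwa [sub_sub_cancel] at h2

theorem LS.fixed_val (h : LS w A D) {x : AlgebraicClosure F} (hx : ∀ σ ∈ D, σ x = x)
    (h0 : x ≠ 0) : ∃ z : F, z ≠ 0 ∧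
      A.valuation x = A.valuation (algebraMap F (AlgebraicClosure F) z) := by
  obtain ⟨z, hz⟩ := h.dense x hx x h0
  refine ⟨z, ?_, ?_⟩
  · rintro rfl
    rw [map_zero, sub_zero] at hz
    exact lt_irrefl _ hz
  · have h1 := Valuation.map_sub_eq_of_lt_left A.valuation hz
    rw [sub_sub_cancel] at h1
    exact h1.symm

end H86G
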