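import Pool.Agent.H11.Local

/-!
Row Zc (about 110 lines): the function `zc = 1 / x` on the kernel of reduction. (`InE1`, `Integral`, `zc`, `InE1.add_sub`, `InE1.smul`: Pool/Agent/H11/Local.lean; read the proof of InE1.add_sub first.)

PROOF of zc_prod: exactly as InE1.add_sub, with the third form of `addSubMap`: for `p = zc P`, `q = zc Q`:
 `zc (P + Q) * zc (P - Q) * (1 - b₄ p q - b₆ (p + q) p q - b₈ (p q)^2) = (p + q)^2 - 4 p q = (p - q)^2` and the factor in brackets is `1 +` (an element of valuation < 1), so of valuation one (nu_one_add).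
PROOF of zc_add_le: `M := max (v p) (v q)`. InE1.add_sub: `z₁ + z₂` times a unit is `2 (p + q) + b₂ p q + ...`, so `v (z₁ + z₂) ≤ M` (`z₁ = zc (P + Q)`, `z₂ = zc (P - Q)`; `2, b₂, b₄, b₆` integral, `v p, v q < 1`), `v (z₁ z₂) = v (p - q)^2 ≤ M^2`. `z₁^2 = (z₁ + z₂) z₁ - z₁ z₂`: if `M < v z₁` then `v (z₁)^2 ≤ max (M v z₁) (M^2) < v (z₁)^2`, contradiction.
PROOF of zc_add_eq: `v p < v q`: `v (p - q) = v q`, the product of `v z₁`, `v z₂` is `(v q)^2` and both are at most `v q` (zc_add_le for `Q` and `-Q`, zc_neg) so both are `v q` (`v q ≠ 0`).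
-/

set_option autoImplicit false

open WeierstrassCurve WeierstrassCurve.Affine WeierstrassCurve.Affine.Point Pool.Agent.H11

namespace H86G

variable {L : Type*} [Field L] [DecidableEq L] {A : ValuationSubring L}

theorem zc_neg (W : WeierstrassCurve L) (P : W.toAffine.Point) : zc W (-P) = zc W P := by
  match P with
  | 0 => simp
  | .some x y h => simp [Point.neg_some]

theorem inE1_neg {W : WeierstrassCurve L} {P : W.toAffine.Point} (h : InE1 A W P) :
    InE1 A W (-P) := by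
  rcases h with rfl | ⟨x, y, h, rfl, hx⟩
  · left
    simp
  · right
    exact ⟨x, _, _, Point.neg_some h, hx⟩

theorem Zc_key {W : WeierstrassCurve L} [W.IsElliptic] (hW : Integral A W)
    {P Q : W.toAffine.Point} (hP : InE1 A W P) (hQ : InE1 A W Q) :
    ∃ F : L, A.valuation F = 1 ∧
      (zc W (P + Q) + zc W (P - Q)) * F = 2 * (zc W P + zc W Q) + W.b₂ * (zc W P * zc W Q) +
        W.b₄ * (zc W P + zc W Q) * (zc W P * zc W Q) + W.b₆ * (zc W P * zc W Q) ^ 2 ∧
      (zc W (P + Q) * zc W (P - Q)) * F = (zc W P + zc W Q) ^ 2 - 4 * (zc W P * zc W Q) := by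
  obtain ⟨cP, hcP, eP⟩ := hP.xRep
  obtain ⟨cQ, hcQ, eQ⟩ := hQ.xRep
  have hs := hP.nu
  have ht := hQ.nu
  set s := zc W P + zc W Q with hsdef
  set t := zc W P * zc W Q with htdef
  obtain ⟨c, hc, e⟩ := addSubMap_sym2x W P Q
  rw [addSubMap_eval] at e
  obtain ⟨X₁, Z₁, e₁, h₁⟩ := exists_rep (A := A) W (P + Q)
  obtain ⟨X₂, Z₂, e₂, h₂⟩ := exists_rep (A := A) W (P - Q)
  have hsym : P.sym2x Q = (cP * cQ) • ![1, s, t] := by
    rw [Point.sym2x, eP, eQ]
    ext i; fin_cases i <;> simp [hsdef, htdef] <;> ring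
  have hsym2 : (P + Q).sym2x (P - Q) = ![X₁ * X₂, X₁ * Z₂ + Z₁ * X₂, Z₁ * Z₂] := by
    rw [Point.sym2x, e₁, e₂]
    ext i; fin_cases i <;> simp <;> ring
  rw [hsym, hsym2] at e
  have g0 := congrFun e 0
  have g1 := congrFun e 1
  have g2 := congrFun e 2
  simp only [smul_eq_mul, mul_one, Matrix.cons_val_zero,
    Matrix.cons_val_one, Matrix.cons_val, Pi.smul_apply, Fin.isValue] at g0 g1 g2
  have hk : cP * cQ ≠ 0 := mul_ne_zero hcP hcQ
  have hsA : s ∈ A := nu_mem A (nu_add A hs ht)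
  have htv : A.valuation t < 1 := nu_mul A (nu_mem A hs) ht
  have htA : t ∈ A := nu_mem A htv
  have hsv : A.valuation s < 1 := nu_add A hs ht
  -- the value F0
  have hF0 : A.valuation (1 - W.b₄ * t - W.b₆ * s * t - W.b₈ * t ^ 2) = 1 := by
    have : (1 - W.b₄ * t - W.b₆ * s * t - W.b₈ * t ^ 2) =
      1 + (- W.b₄ - W.b₆ * s - W.b₈ * t) * t := by ring
    rw [this]
    apply nu_one_add
    apply nu_mul A _ htv
    exact sub_mem (sub_mem (neg_mem hW.b₄) (mul_mem hW.b₆ hsA)) (mul_mem hW.b₈ htA)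
  have hF0' : (1 - W.b₄ * t - W.b₆ * s * t - W.b₈ * t ^ 2) ≠ 0 := by
    intro h0; rw [h0, _root_.map_zero] at hF0; exact zero_ne_one hF0
  have k0 : (cP * cQ) ^ 2 * (1 - W.b₄ * t - W.b₆ * s * t - W.b₈ * t ^ 2) = c * (X₁ * X₂) := by
    rw [← g0]; ring
  have k1 : (cP * cQ) ^ 2 * (2 * s + W.b₂ * t + W.b₄ * s * t + W.b₆ * t ^ 2) =
      c * (X₁ * Z₂ + Z₁ * X₂) := by
    rw [← g1]; ring
  have k2 : (cP * cQ) ^ 2 * (s ^ 2 - 4 * t) = c * (Z₁ * Z₂) := by
    rw [← g2]; ring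
  have hX : c * (X₁ * X₂) ≠ 0 := by
    rw [← k0]; exact mul_ne_zero (pow_ne_zero 2 hk) hF0'
  have hX1 : X₁ ≠ 0 := by rintro rfl; simp at hX
  have hX2 : X₂ ≠ 0 := by rintro rfl; simp at hX
  obtain ⟨z₁, hz₁⟩ : ∃ z, z = zc W (P + Q) := ⟨_, rfl⟩
  obtain ⟨z₂, hz₂⟩ : ∃ z, z = zc W (P - Q) := ⟨_, rfl⟩
  have hZ1 : Z₁ = z₁ * X₁ := by rw [hz₁, (h₁ hX1).1]; field_simp
  have hZ2 : Z₂ = z₂ * X₂ := by rw [hz₂, (h₂ hX2).1]; field_simp
  have r1 : (z₁ + z₂) * (1 - W.b₄ * t - W.b₆ * s * t - W.b₈ * t ^ 2) =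
      2 * s + W.b₂ * t + W.b₄ * s * t + W.b₆ * t ^ 2 := by
    apply mul_left_cancel₀ (pow_ne_zero 2 hk)
    rw [k1, hZ1, hZ2]
    linear_combination (z₁ + z₂) * k0
  have r2 : (z₁ * z₂) * (1 - W.b₄ * t - W.b₆ * s * t - W.b₈ * t ^ 2) = s ^ 2 - 4 * t := by
    apply mul_left_cancel₀ (pow_ne_zero 2 hk)
    rw [k2, hZ1, hZ2]
    linear_combination (z₁ * z₂) * k0
  refine ⟨1 - W.b₄ * t - W.b₆ * s * t - W.b₈ * t ^ 2, hF0, ?_, ?_⟩
  · rw [← hz₁, ← hz₂]
    exact r1
  · rw [← hz₁, ← hz₂]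
    exact r2

theorem zc_prod {W : WeierstrassCurve L} [W.IsElliptic] (hW : Integral A W)
    {P Q : W.toAffine.Point} (hP : InE1 A W P) (hQ : InE1 A W Q) :
    A.valuation (zc W (P + Q)) * A.valuation (zc W (P - Q)) =
      A.valuation (zc W P - zc W Q) ^ 2 := by
  obtain ⟨F, hF, -, h2⟩ := Zc_key hW hP hQ
  have h3 : A.valuation (zc W (P + Q) * zc W (P - Q)) =
      A.valuation ((zc W (P + Q) * zc W (P - Q)) * F) := by
    rw [map_mul A.valuation _ F, hF, mul_one]
  rw [← map_mul, h3, h2, ← map_pow]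
  congr 1
  ring

theorem zc_add_le {W : WeierstrassCurve L} [W.IsElliptic] (hW : Integral A W)
    {P Q : W.toAffine.Point} (hP : InE1 A W P) (hQ : InE1 A W Q) :
    A.valuation (zc W (P + Q)) ≤ max (A.valuation (zc W P)) (A.valuation (zc W Q)) := by
  obtain ⟨F, hF, h1, -⟩ := Zc_key hW hP hQ
  have hs := hP.nu
  have ht := hQ.nu
  have hprod := zc_prod hW hP hQ
  set z₁ := zc W (P + Q) with hz₁
  set z₂ := zc W (P - Q) with hz₂
  set p := zc W P with hp
  set q := zc W Q with hq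
  set M := max (A.valuation p) (A.valuation q) with hM
  have hpM : A.valuation p ≤ M := le_max_left _ _
  have hqM : A.valuation q ≤ M := le_max_right _ _
  have hsum : A.valuation (p + q) ≤ M := A.valuation.map_add_le hpM hqM
  have hI : ∀ a ∈ A, ∀ m : L, A.valuation m ≤ M → A.valuation (a * m) ≤ M := by
    intro a ha m hm
    rw [map_mul]
    calc A.valuation a * A.valuation m ≤ 1 * A.valuation m :=
          mul_le_mul_left ((A.valuation_le_one_iff a).mpr ha) _
      _ ≤ M := by rwa [one_mul]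
  have hpq : A.valuation (p * q) ≤ M := hI p (nu_mem A hs) q hqM
  have hpqA : p * q ∈ A := mul_mem (nu_mem A hs) (nu_mem A ht)
  have hpA : p + q ∈ A := add_mem (nu_mem A hs) (nu_mem A ht)
  have hle : A.valuation (z₁ + z₂) ≤ M := by
    have h3 : A.valuation (z₁ + z₂) = A.valuation ((z₁ + z₂) * F) := by
      rw [map_mul A.valuation _ F, hF, mul_one]
    rw [h3, h1]
    refine A.valuation.map_add_le (A.valuation.map_add_le (A.valuation.map_add_le ?_ ?_) ?_) ?_
    · exact hI _ (ofNat_mem A 2) _ hsum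
    · exact hI _ hW.b₂ _ hpq
    · exact hI _ (mul_mem hW.b₄ hpA) _ hpq
    · have e : W.b₆ * (p * q) ^ 2 = (W.b₆ * (p * q)) * (p * q) := by ring
      rw [e]
      exact hI _ (mul_mem hW.b₆ hpqA) _ hpq
  by_contra hcon
  rw [not_le] at hcon
  have h0 : 0 < A.valuation z₁ := lt_of_le_of_lt zero_le hcon
  have h5 : A.valuation (z₁ * z₁) < A.valuation z₁ * A.valuation z₁ := by
    have e : z₁ * z₁ = (z₁ + z₂) * z₁ - z₁ * z₂ := by ring
    rw [e]
    have hMM : M * A.valuation z₁ < A.valuation z₁ * A.valuation z₁ := mul_lt_mul_of_pos_right hcon h0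
    refine lt_of_le_of_lt (A.valuation.map_sub_le (g := M * A.valuation z₁) ?_ ?_) hMM
    · rw [map_mul]
      exact mul_le_mul_left hle _
    · rw [map_mul, hprod, sq]
      have h6 : A.valuation (p - q) ≤ M := A.valuation.map_sub_le hpM hqM
      exact mul_le_mul' h6 (h6.trans hcon.le)
  rw [map_mul] at h5
  exact lt_irrefl _ h5

theorem zc_add_eq {W : WeierstrassCurve L} [W.IsElliptic] (hW : Integral A W)
    {P Q : W.toAffine.Point} (hP : InE1 A W P) (hQ : InE1 A W Q)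
    (h : A.valuation (zc W P) < A.valuation (zc W Q)) :
    A.valuation (zc W (P + Q)) = A.valuation (zc W Q) := by
  have hprod := zc_prod hW hP hQ
  have h1 : A.valuation (zc W P - zc W Q) = A.valuation (zc W Q) :=
    A.valuation.map_sub_eq_of_lt_right h
  rw [h1] at hprod
  have h2 := zc_add_le hW hP hQ
  rw [max_eq_right h.le] at h2
  have h3 := zc_add_le hW hP (inE1_neg hQ)
  rw [zc_neg, max_eq_right h.le, ← sub_eq_add_neg] at h3
  have h0 : 0 < A.valuation (zc W Q) := lt_of_le_of_lt zero_le h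
  refine le_antisymm h2 ?_
  by_contra hcon
  rw [not_le] at hcon
  have h4 : A.valuation (zc W (P + Q)) * A.valuation (zc W (P - Q)) <
      A.valuation (zc W Q) * A.valuation (zc W Q) :=
    lt_of_le_of_lt (mul_le_mul_right h3 _) (mul_lt_mul_of_pos_right hcon h0)
  rw [hprod, sq] at h4
  exact lt_irrefl _ h4

/-- multiplication by an integer which is a unit (InE1.smul) -/
theorem zc_smul_eq {W : WeierstrassCurve L} [W.IsElliptic] (hW : Integral A W)
    {T : W.toAffine.Point} (hT : InE1 A W T) (k : ℕ) (hk : A.valuation (k : L) = 1) :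
    A.valuation (zc W (k • T)) = A.valuation (zc W T) := by
  obtain ⟨-, w, hw, hv⟩ := hT.smul hW k
  rw [hw, map_mul]
  have h1 : A.valuation w = 1 := by
    have h2 : w = (k : L) ^ 2 + (w - (k : L) ^ 2) := by ring
    have h3 : A.valuation ((k : L) ^ 2) = 1 := by rw [map_pow, hk, one_pow]
    rw [h2, A.valuation.map_add_eq_of_lt_left (by rw [h3]; exact hv), h3]
  rw [h1, mul_one]

end H86G
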