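import Pool.Agent.H86.T4G.Dv
import Pool.Agent.H86.T4G.Gs
import Pool.Agent.H86.T4G.Zc
import Pool.Agent.H11.Divis2

/-!
Row Sa (about 150 lines): the value of `zc` at `l P`, and divisibility of the kernel of reduction. Use only the STATEMENTS of Dv, Gs, Zc.

PROOF of prod_le. `a, b` from exists_val (n := l). `l • P = (c, y)` with `c ∉ A`, `1 < v c` (`v := A.valuation`). `f := a - C c * b` is monic of degree `l^2` (natDegree b ≤ l^2 - 1 < l^2; Polynomial.Monic.sub_of_left or add_of_left), all coefficients have valuation at most `v c` (`max 1 (v c * 1)`).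
 For `T ∈ s`: `P + T ≠ 0` (`l • (P + T) = l • P ≠ 0`), so `P + T = (x_T, y_T)`, `x_T ∉ A`, `1 < v x_T`; AB for `P + T`: `a(x_T) = e * c`, `b(x_T) = e * 1` (xRep of `l • (P + T) = l • P = (c, y)`), so `f(x_T) = 0`. `T ↦ x_T` is injective on `s`: `x_T = x_T'` gives `P + T = P + T'` or `P + T = -(P + T')` (two points with the same `x`: Affine.Point lemma, as in H11/Divis2 or Y_eq_of_X_eq), in the second case `2 • (l • P) = 0`, `l • P ∈ E₁`, `v 2 = 1`: `l • P = 0` (InE1.eq_zero), contradiction. gauss_le for the image of `s`: `∏ max 1 (v x_T) ≤ v c`, i.e. `∏ v x_T ≤ v c`. Invert: `v (zc (l P)) = (v c)⁻¹ ≤ ∏ (v x_T)⁻¹` (Finset.prod_inv_distrib; zc_some, map_inv₀).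
PROOF of div_E1. `Q = 0`: `P = 0`. `Q = (c, y)`, `1 < v c`; `f` as before; `i` with `v (b.coeff i) = 1`: `v (f.coeff i) = v (a.coeff i - c b.coeff i) = v c > 1`. gauss_root: `ρ` with `f(ρ) = 0`, `1 < v ρ`. A point `P'` with `x = ρ` (Pool.Agent.H11.exists_point_of_x); AB for `P'`: `a(ρ) = e * xRep (l P') 0`, `b(ρ) = e * xRep (l P') 1`, `a(ρ) = c b(ρ)`. `l P' ≠ 0` (xRep 0 = (1, 0) would give `e = 0`), so `l P' = (x', y')`, `x' = c`, `l P' = Q` or `l P' = -Q`: `P := P'` or `-P'`, both in E₁ (`ρ ∉ A`).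
PROOF of deep. `a, b` from exists_val; `x` = the coordinate of `P`, `v x > v(l)^(-2) ≥ 1`. `v (a(x)) = v x ^ (l^2)` (monic, other coefficients at most one: Polynomial.eval_eq_sum_range, Valuation.map_sum...), `v (b(x)) = v l ^ 2 * v x ^ (l^2 - 1)` (the leading term dominates: other terms at most `v x ^ (l^2 - 2)`). AB: `xRep (l P) = (a(x)/e, b(x)/e)`, `b(x) ≠ 0` so `l P ≠ 0`, its coordinate is `a(x) / b(x)`.
-/

set_option autoImplicit false
open scoped Classical

open WeierstrassCurve Pool.Agent.H11 H2T4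

namespace H86G

variable {Ω : Type} [Field Ω] [IsAlgClosed Ω] [CharZero Ω] {A : ValuationSubring Ω}
  {E : WeierstrassCurve Ω} [E.IsElliptic]

omit [IsAlgClosed Ω] [CharZero Ω] in
theorem Sa_some {P : E.toAffine.Point} (hP : InE1 A E P) (h0 : P ≠ 0) :
    ∃ (x y : Ω) (h : E.toAffine.Nonsingular x y), P = Affine.Point.some x y h ∧
      1 < A.valuation x ∧ x ≠ 0 := by
  rcases hP with h | ⟨x, y, h, hP, hx⟩
  · exact absurd h h0
  · refine ⟨x, y, h, hP, ?_, ?_⟩
    · by_contra hcon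
      exact hx ((A.valuation_le_one_iff x).mp (not_lt.mp hcon))
    · rintro rfl
      exact hx A.zero_mem

omit [IsAlgClosed Ω] [CharZero Ω] in
theorem Sa_inE1 {x y : Ω} (h : E.toAffine.Nonsingular x y) (hx : 1 < A.valuation x) :
    InE1 A E (Affine.Point.some x y h : E.toAffine.Point) := by
  refine Or.inr ⟨x, y, h, rfl, ?_⟩
  intro hA
  exact absurd ((A.valuation_le_one_iff x).mpr hA) (not_le.mpr hx)

omit [IsAlgClosed Ω] [CharZero Ω] in
theorem Sa_monic {n : ℕ} (hn : n ≠ 0) {a b : Polynomial Ω} (ha : a.Monic)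
    (had : a.natDegree = n ^ 2) (hbd : b.natDegree ≤ n ^ 2 - 1) (c : Ω) :
    (a - Polynomial.C c * b).Monic := by
  refine ha.sub_of_left ?_
  have h1 : 0 < n ^ 2 := pow_pos (Nat.pos_of_ne_zero hn) 2
  have h2 : (Polynomial.C c * b).natDegree ≤ b.natDegree := Polynomial.natDegree_C_mul_le c b
  rw [Polynomial.degree_eq_natDegree ha.ne_zero, had]
  refine lt_of_le_of_lt (Polynomial.degree_le_natDegree) ?_
  exact_mod_cast lt_of_le_of_lt (h2.trans hbd) (by omega)

omit [IsAlgClosed Ω] [CharZero Ω] in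
theorem Sa_coeff {a b : Polynomial Ω} (ha : ∀ i, A.valuation (a.coeff i) ≤ 1)
    (hb : ∀ i, A.valuation (b.coeff i) ≤ 1) {c : Ω} (hc : 1 < A.valuation c) (i : ℕ) :
    A.valuation ((a - Polynomial.C c * b).coeff i) ≤ A.valuation c := by
  rw [Polynomial.coeff_sub, Polynomial.coeff_C_mul]
  refine A.valuation.map_sub_le ((ha i).trans hc.le) ?_
  rw [map_mul]
  calc A.valuation c * A.valuation (b.coeff i) ≤ A.valuation c * 1 := by
        gcongr
        exact hb i
    _ = A.valuation c := mul_one _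

/-- a point above a given value of the coordinate -/
theorem Sa_eval {n : ℕ} {a b : Polynomial Ω} (hAB : AB E n a b) {x y : Ω}
    (h : E.toAffine.Nonsingular x y) {c y' : Ω} (h' : E.toAffine.Nonsingular c y')
    (he : n • (Affine.Point.some x y h : E.toAffine.Point) = Affine.Point.some c y' h') :
    ∃ e : Ω, e ≠ 0 ∧ a.eval x = e * c ∧ b.eval x = e := by
  obtain ⟨e, he0, h1, h2⟩ := hAB.2.2 x y h
  rw [he, Affine.Point.xRep_some] at h1 h2
  refine ⟨e, he0, by simpa using h1, by simpa using h2⟩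

theorem prod_le (hE : Integral A E) (hΔ : A.valuation E.Δ = 1) (h2 : A.valuation (2 : Ω) = 1)
    {l : ℕ} (hl : l ≠ 0) (P : E.toAffine.Point) (hP : InE1 A E (l • P)) (h0 : l • P ≠ 0)
    (s : Finset E.toAffine.Point) (hs : ∀ T ∈ s, l • T = 0 ∧ InE1 A E (P + T)) :
    A.valuation (zc E (l • P)) ≤ ∏ T ∈ s, A.valuation (zc E (P + T)) := by
  obtain ⟨a, b, ha, had, hbd, hbc, hai, hbi, -, hAB⟩ := exists_val A E hE hΔ l hl
  obtain ⟨c, y, h, hlP, hc, hc0⟩ := Sa_some hP h0
  have hmul : ∀ T ∈ s, l • (P + T) = l • P := by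
    intro T hT
    rw [smul_add, (hs T hT).1, add_zero]
  have hT : ∀ T ∈ s, ∃ (x y : Ω) (h : E.toAffine.Nonsingular x y),
      P + T = Affine.Point.some x y h ∧ 1 < A.valuation x ∧ x ≠ 0 := by
    intro T hT
    refine Sa_some (hs T hT).2 ?_
    intro h1
    have h3 := hmul T hT
    rw [h1, smul_zero] at h3
    exact h0 h3.symm
  have hx : ∀ T ∈ s, 1 < A.valuation ((P + T).xRep 0) ∧
      A.valuation (zc E (P + T)) = (A.valuation ((P + T).xRep 0))⁻¹ ∧
      (a - Polynomial.C c * b).eval ((P + T).xRep 0) = 0 := by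
    intro T hTs
    obtain ⟨x, y', h', e1, hx1, hx0⟩ := hT T hTs
    have hr : (P + T).xRep 0 = x := by rw [e1, Affine.Point.xRep_some]; rfl
    rw [hr]
    refine ⟨hx1, ?_, ?_⟩
    · rw [e1, zc_some, map_inv₀]
    · have h3 := hmul T hTs
      rw [e1, hlP] at h3
      obtain ⟨e, -, e2, e3⟩ := Sa_eval hAB h' h h3
      rw [Polynomial.eval_sub, Polynomial.eval_mul, Polynomial.eval_C, e2, e3]
      ring
  have hinj : Set.InjOn (fun T : E.toAffine.Point => (P + T).xRep 0) (s : Set E.toAffine.Point) := by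
    intro T hTs T' hTs' heq
    obtain ⟨x, y₁, h₁, e1, -, -⟩ := hT T hTs
    obtain ⟨x', y₂, h₂, e2, -, -⟩ := hT T' hTs'
    have hr : (P + T).xRep 0 = x := by rw [e1, Affine.Point.xRep_some]; rfl
    have hr' : (P + T').xRep 0 = x' := by rw [e2, Affine.Point.xRep_some]; rfl
    have hxx : x = x' := by rw [← hr, ← hr']; exact heq
    rcases (Affine.Point.X_eq_iff (h₁ := h₁) (h₂ := h₂)).mp hxx with h3 | h3
    · rw [← e1, ← e2] at h3
      exact add_left_cancel h3
    · exfalso
      rw [← e1, ← e2] at h3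
      have h4 : l • P = -(l • P) := by
        calc l • P = l • (P + T) := (hmul T hTs).symm
          _ = -(l • (P + T')) := by rw [h3, smul_neg]
          _ = -(l • P) := by rw [hmul T' hTs']
      have h5 : 2 • (l • P) = 0 := by
        rw [two_nsmul]
        nth_rewrite 1 [h4]
        exact neg_add_cancel _
      exact h0 (hP.eq_zero hE 2 (by exact_mod_cast h2) h5)
  have hg := gauss_le A (Sa_monic hl ha had hbd c) (A.valuation c) (Sa_coeff hai hbi hc)
    (s.image (fun T : E.toAffine.Point => (P + T).xRep 0)) (by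
      intro ρ hρ
      obtain ⟨T, hTs, rfl⟩ := Finset.mem_image.mp hρ
      exact (hx T hTs).2.2)
  rw [Finset.prod_image hinj] at hg
  have e1 : ∏ T ∈ s, max 1 (A.valuation ((P + T).xRep 0)) = ∏ T ∈ s, A.valuation ((P + T).xRep 0) :=
    Finset.prod_congr rfl (fun T hTs => max_eq_right (hx T hTs).1.le)
  rw [e1] at hg
  have e2 : ∏ T ∈ s, A.valuation (zc E (P + T)) = (∏ T ∈ s, A.valuation ((P + T).xRep 0))⁻¹ := by
    rw [← Finset.prod_inv_distrib]
    exact Finset.prod_congr rfl (fun T hTs => (hx T hTs).2.1)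
  rw [e2, hlP, zc_some, map_inv₀]
  have hpos : 0 < ∏ T ∈ s, A.valuation ((P + T).xRep 0) :=
    Finset.prod_pos (fun T hTs => zero_lt_one.trans (hx T hTs).1)
  exact inv_anti₀ hpos hg

theorem div_E1 (hE : Integral A E) (hΔ : A.valuation E.Δ = 1) {l : ℕ} (hl : l ≠ 0)
    (Q : E.toAffine.Point) (hQ : InE1 A E Q) : ∃ P, InE1 A E P ∧ l • P = Q := by
  by_cases hQ0 : Q = 0
  · exact ⟨0, Or.inl rfl, by rw [smul_zero, hQ0]⟩
  obtain ⟨a, b, ha, had, hbd, hbc, hai, hbi, ⟨i, hi⟩, hAB⟩ := exists_val A E hE hΔ l hl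
  obtain ⟨c, y, h, hQc, hc, hc0⟩ := Sa_some hQ hQ0
  have hfi : 1 < A.valuation ((a - Polynomial.C c * b).coeff i) := by
    have e1 : A.valuation (c * b.coeff i) = A.valuation c := by rw [map_mul, hi, mul_one]
    rw [Polynomial.coeff_sub, Polynomial.coeff_C_mul, Valuation.map_sub_eq_of_lt_right _
      (by rw [e1]; exact lt_of_le_of_lt (hai i) hc), e1]
    exact hc
  obtain ⟨ρ, hρ, hρ1⟩ := gauss_root A (Sa_monic hl ha had hbd c) i hfi
  obtain ⟨y', h'⟩ := exists_point_of_x E ρ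
  obtain ⟨e, he0, e1, e2⟩ := hAB.2.2 ρ y' h'
  rw [Polynomial.eval_sub, Polynomial.eval_mul, Polynomial.eval_C, sub_eq_zero] at hρ
  have hne : l • (Affine.Point.some ρ y' h' : E.toAffine.Point) ≠ 0 := by
    intro h3
    rw [h3, Affine.Point.xRep_zero] at e1 e2
    have e3 : Polynomial.eval ρ a = e := by simpa using e1
    have e4 : Polynomial.eval ρ b = 0 := by simpa using e2
    rw [e3, e4, mul_zero] at hρ
    exact he0 hρ
  obtain ⟨x₁, y₁, h₁, e3⟩ := exists_x_eq E _ hne
  rw [e3, Affine.Point.xRep_some] at e1 e2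
  have e5 : Polynomial.eval ρ a = e * x₁ := by simpa using e1
  have e6 : Polynomial.eval ρ b = e := by simpa using e2
  have hx₁ : x₁ = c := by
    rw [e5, e6, mul_comm c e] at hρ
    exact mul_left_cancel₀ he0 hρ
  have hPE := Sa_inE1 h' hρ1 (A := A)
  rcases (Affine.Point.X_eq_iff (h₁ := h₁) (h₂ := h)).mp hx₁ with h3 | h3
  · exact ⟨_, hPE, by rw [e3, h3, hQc]⟩
  · exact ⟨_, inE1_neg hPE, by rw [smul_neg, e3, h3, neg_neg, hQc]⟩

omit [IsAlgClosed Ω] [CharZero Ω] in
theorem Sa_lead {p : Polynomial Ω} {m : ℕ} (hp : p.natDegree ≤ m) {x : Ω}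
    (hm : A.valuation (p.coeff m) * A.valuation x ^ m ≠ 0)
    (h : ∀ i < m, A.valuation (p.coeff i) * A.valuation x ^ i <
      A.valuation (p.coeff m) * A.valuation x ^ m) :
    A.valuation (p.eval x) = A.valuation (p.coeff m) * A.valuation x ^ m := by
  rw [Polynomial.eval_eq_sum_range' (Nat.lt_succ_of_le hp), Finset.sum_range_succ]
  have e1 : A.valuation (p.coeff m * x ^ m) = A.valuation (p.coeff m) * A.valuation x ^ m := by
    rw [map_mul, map_pow]
  have h1 : A.valuation (∑ i ∈ Finset.range m, p.coeff i * x ^ i) <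
      A.valuation (p.coeff m * x ^ m) := by
    rw [e1]
    refine A.valuation.map_sum_lt hm ?_
    intro i hi
    rw [map_mul, map_pow]
    exact h i (Finset.mem_range.mp hi)
  rw [Valuation.map_add_eq_of_lt_right _ h1, e1]

theorem deep (hE : Integral A E) (hΔ : A.valuation E.Δ = 1) {l : ℕ} (hl : l ≠ 0)
    (P : E.toAffine.Point) (hP : InE1 A E P) (hP0 : P ≠ 0)
    (hd : A.valuation (zc E P) < A.valuation (l : Ω) ^ 2) :
    l • P ≠ 0 ∧ A.valuation (zc E (l • P)) = A.valuation (l : Ω) ^ 2 * A.valuation (zc E P) := by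
  obtain ⟨a, b, ha, had, hbd, hbc, hai, hbi, -, hAB⟩ := exists_val A E hE hΔ l hl
  obtain ⟨x, y, h, rfl, hx1, hx0⟩ := Sa_some hP hP0
  rw [zc_some, map_inv₀] at hd ⊢
  have hvx : 0 < A.valuation x := zero_lt_one.trans hx1
  have hvl : 0 < A.valuation (l : Ω) := zero_lt_iff.mpr (by
    intro h0
    exact hl (by exact_mod_cast (map_eq_zero _).mp h0))
  have hd' : 1 < A.valuation (l : Ω) ^ 2 * A.valuation x := (inv_lt_iff_one_lt_mul₀ hvx).mp hd
  have hN : 1 ≤ l ^ 2 := Nat.one_le_pow _ _ (Nat.pos_of_ne_zero hl)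
  have hac : a.coeff (l ^ 2) = 1 := by rw [← had]; exact ha.coeff_natDegree
  have hva : A.valuation (a.eval x) = A.valuation x ^ (l ^ 2) := by
    have h1 := Sa_lead (A := A) had.le (x := x) (by
      rw [hac, map_one, one_mul]
      exact pow_ne_zero _ hvx.ne') (by
      intro i hi
      rw [hac, map_one, one_mul]
      calc A.valuation (a.coeff i) * A.valuation x ^ i ≤ 1 * A.valuation x ^ i := by
            gcongr
            exact hai i
        _ = A.valuation x ^ i := one_mul _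
        _ < A.valuation x ^ (l ^ 2) := pow_lt_pow_right₀ hx1 hi)
    rw [h1, hac, map_one, one_mul]
  have hvb : A.valuation (b.eval x) = A.valuation (l : Ω) ^ 2 * A.valuation x ^ (l ^ 2 - 1) := by
    have e1 : A.valuation (b.coeff (l ^ 2 - 1)) = A.valuation (l : Ω) ^ 2 := by
      rw [hbc, map_pow]
    have h1 := Sa_lead (A := A) hbd (x := x) (by
      rw [e1]
      exact mul_ne_zero (pow_ne_zero _ hvl.ne') (pow_ne_zero _ hvx.ne')) (by
      intro i hi
      rw [e1]
      calc A.valuation (b.coeff i) * A.valuation x ^ i ≤ 1 * A.valuation x ^ i := by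
            gcongr
            exact hbi i
        _ < (A.valuation (l : Ω) ^ 2 * A.valuation x) * A.valuation x ^ i :=
            mul_lt_mul_of_pos_right hd' (pow_pos hvx i)
        _ = A.valuation (l : Ω) ^ 2 * A.valuation x ^ (i + 1) := by
            rw [mul_assoc, ← pow_succ']
        _ ≤ A.valuation (l : Ω) ^ 2 * A.valuation x ^ (l ^ 2 - 1) := by
            gcongr
            · exact hx1.le
            · omega)
    rw [h1, e1]
  have hb0 : b.eval x ≠ 0 := by
    intro h0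
    rw [h0, map_zero] at hvb
    exact mul_ne_zero (pow_ne_zero _ hvl.ne') (pow_ne_zero _ hvx.ne') hvb.symm
  obtain ⟨e, he0, e1, e2⟩ := hAB.2.2 x y h
  have hne : l • (Affine.Point.some x y h : E.toAffine.Point) ≠ 0 := by
    intro h3
    rw [h3, Affine.Point.xRep_zero] at e2
    apply hb0
    simpa using e2
  refine ⟨hne, ?_⟩
  obtain ⟨x₁, y₁, h₁, e3⟩ := exists_x_eq E _ hne
  rw [e3, Affine.Point.xRep_some] at e1 e2
  have e5 : Polynomial.eval x a = e * x₁ := by simpa using e1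
  have e6 : Polynomial.eval x b = e := by simpa using e2
  have e7 : x₁⁻¹ = b.eval x / a.eval x := by
    rw [e5, e6]
    by_cases hx₁ : x₁ = 0
    · rw [hx₁]; simp
    · field_simp
  rw [e3, zc_some, e7, map_div₀, hva, hvb, div_eq_mul_inv, mul_assoc]
  congr 1
  have e8 : A.valuation x ^ (l ^ 2) = A.valuation x ^ (l ^ 2 - 1) * A.valuation x := by
    rw [← pow_succ]
    congr 1
    omega
  rw [e8, mul_inv, ← mul_assoc, mul_inv_cancel₀ (pow_ne_zero _ hvx.ne'), one_mul]

end H86G
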