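import Pool.Agent.H86.T4G.Sa

/-!
Row Sb (about 130 lines): the torsion in the kernel of reduction is generated by `T`. Use only the STATEMENTS of Sa, Zc.

Notation `v := A.valuation`, `λ := lam`.
PROOF of unit_of: `l ∤ j`, `v l < 1`: Bezout `j a = 1 + l b` in the integers, so `v (j a) = 1`, `v j = 1` (`v j ≤ 1`, `v a ≤ 1`).
PROOF of tors_E1. Suppose `T'` is not of the form `j • T`, `j < l`. `T' ≠ 0`. Put `x₀ := (l^3 * zc T * zc T')⁻¹` (`zc T, zc T' ≠ 0` because `T, T'` are finite points with `x ∉ A`), `P` a point with that `x`-coordinate (Pool.Agent.H11.exists_point_of_x): `zc P = l^3 zc T zc T'`, so `v (zc P)` is less than `v l ^ 2`, `v (zc T)`, `v (zc T')` and `P ∈ E₁`, `P ≠ 0`.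
 deep: `v (zc (l P)) = v l ^ 2 * v (zc P)`, `l P ≠ 0`; `l P ∈ E₁` (InE1.smul). prod_le with `s := {j • T | j < l} ∪ {T'}` (Finset.image of range l, insert T'; `j ↦ j • T` is injective on `j < l` since the order of `T` is `l`; `P + T'' ∈ E₁` by InE1.add_sub, InE1.smul): `v (zc (l P)) ≤ v (zc P) * ∏_{0<j<l} v (zc (P + j T)) * v (zc (P + T'))`, `v (zc (P + j T)) = v (zc (j T)) = v (zc T)` (zc_add_eq, zc_smul_eq, unit_of), `v (zc (P + T')) = v (zc T')`.
 So `v l ^ 2 * v (zc P) ≤ v (zc P) * v (zc T)^(l-1) * v (zc T') ≤ v (zc P) * v λ ^ (2 (l-1)) * v (zc T') = v (zc P) * v l ^ 2 * v (zc T') < v (zc P) * v l ^ 2`. Contradiction.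
PROOF of smul_le. If `l • P = 0`: `zc 0 = 0`. Otherwise prod_le with `s := {j • T | j < l}` (image of range l, injective): the product of `l` factors at most `c` (Finset.prod_le_pow_card, Finset.prod_image).
-/

/-!
Row Sb: the torsion in the kernel of reduction is generated by `T`.
-/

set_option autoImplicit false
open scoped Classical

open WeierstrassCurve Pool.Agent.H11 H2T4

namespace H86G

variable {Ω : Type} [Field Ω] [IsAlgClosed Ω] [CharZero Ω] {A : ValuationSubring Ω}
  {E : WeierstrassCurve Ω} [E.IsElliptic]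

theorem unit_of {Ω' : Type*} [Field Ω'] (A : ValuationSubring Ω') {l j : ℕ} (hl : l.Prime)
    (h1 : A.valuation (l : Ω') < 1) (hj : ¬ l ∣ j) : A.valuation (j : Ω') = 1 := by
  refine le_antisymm ((A.valuation_le_one_iff _).mpr (natCast_mem A j)) ?_
  by_contra hcon
  push Not at hcon
  have hc : IsCoprime (j : ℤ) (l : ℤ) :=
    Nat.isCoprime_iff_coprime.mpr ((Nat.Prime.coprime_iff_not_dvd hl).2 hj).symm
  obtain ⟨a, b, hab⟩ := hc
  have h2 : (a : Ω') * (j : Ω') + (b : Ω') * (l : Ω') = 1 := by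
    have := congrArg (Int.cast : ℤ → Ω') hab
    push_cast at this
    exact this
  have h3 : A.valuation ((a : Ω') * (j : Ω') + (b : Ω') * (l : Ω')) < 1 :=
    nu_add A (nu_mul A (intCast_mem A a) hcon) (nu_mul A (intCast_mem A b) h1)
  rw [h2, map_one] at h3
  exact lt_irrefl _ h3

omit [IsAlgClosed Ω] [CharZero Ω] [E.IsElliptic] in
theorem Sb_zc_ne {P : E.toAffine.Point} (hP : InE1 A E P) (h0 : P ≠ 0) : zc E P ≠ 0 := by
  rcases hP with rfl | ⟨x, y, h, rfl, hx⟩
  · exact absurd rfl h0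
  · rw [zc_some]
    refine inv_ne_zero ?_
    rintro rfl
    exact hx A.zero_mem

omit [IsAlgClosed Ω] [CharZero Ω] [E.IsElliptic] in
theorem Sb_inj {l : ℕ} (hl : l.Prime) {T : E.toAffine.Point} (hT0 : T ≠ 0) (hTl : l • T = 0)
    {i j : ℕ} (hi : i < l) (hj : j < l) (h : i • T = j • T) : i = j := by
  have := Fact.mk hl
  have h1 := addOrderOf_eq_prime hTl hT0
  rw [nsmul_eq_nsmul_iff_modEq, h1] at h
  exact h.eq_of_lt_of_lt hi hj

theorem tors_E1 (hE : Integral A E) (hΔ : A.valuation E.Δ = 1) (h2 : A.valuation (2 : Ω) = 1)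
    {l : ℕ} (hl : l.Prime) {lam : Ω} (hlam : A.valuation (l : Ω) = A.valuation lam ^ (l - 1))
    (h1 : A.valuation (l : Ω) < 1) {T : E.toAffine.Point} (hT0 : T ≠ 0) (hTl : l • T = 0)
    (hT : InE1 A E T) (hTv : A.valuation (zc E T) ≤ A.valuation lam ^ 2)
    (T' : E.toAffine.Point) (hT'l : l • T' = 0) (hT' : InE1 A E T') : ∃ j < l, T' = j • T := by
  by_contra hcon
  push Not at hcon
  have hT'0 : T' ≠ 0 := by
    have := hcon 0 hl.pos
    rwa [zero_nsmul] at this
  have hl0 : (l : Ω) ≠ 0 := Nat.cast_ne_zero.mpr hl.ne_zero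
  have hzT := Sb_zc_ne hT hT0
  have hzT' := Sb_zc_ne hT' hT'0
  have vT1 := hT.nu
  have vT'1 := hT'.nu
  have vl0 : A.valuation (l : Ω) ≠ 0 := (map_ne_zero _).mpr hl0
  have vT0 : A.valuation (zc E T) ≠ 0 := (map_ne_zero _).mpr hzT
  have vT'0 : A.valuation (zc E T') ≠ 0 := (map_ne_zero _).mpr hzT'
  have hx0 : (l : Ω) ^ 3 * zc E T * zc E T' ≠ 0 :=
    mul_ne_zero (mul_ne_zero (pow_ne_zero _ hl0) hzT) hzT'
  obtain ⟨y, hxy⟩ := exists_point_of_x E ((l : Ω) ^ 3 * zc E T * zc E T')⁻¹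
  obtain ⟨P, hPdef⟩ : ∃ P : E.toAffine.Point, P = Affine.Point.some _ y hxy := ⟨_, rfl⟩
  have hzP : zc E P = (l : Ω) ^ 3 * zc E T * zc E T' := by
    rw [hPdef, zc_some, inv_inv]
  have vP : A.valuation (zc E P) =
      A.valuation (l : Ω) ^ 3 * A.valuation (zc E T) * A.valuation (zc E T') := by
    rw [hzP, map_mul, map_mul, map_pow]
  have hl1 := h1.le
  -- three comparisons
  have c3 : A.valuation (l : Ω) ^ 3 ≤ 1 := pow_le_one' hl1 3
  have cP2 : A.valuation (zc E P) < A.valuation (l : Ω) ^ 2 := by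
    rw [vP]
    calc A.valuation (l : Ω) ^ 3 * A.valuation (zc E T) * A.valuation (zc E T')
        ≤ A.valuation (l : Ω) ^ 3 * 1 * 1 :=
          mul_le_mul' (mul_le_mul' le_rfl vT1.le) vT'1.le
      _ = A.valuation (l : Ω) ^ 2 * A.valuation (l : Ω) := by rw [mul_one, mul_one, pow_succ]
      _ < A.valuation (l : Ω) ^ 2 * 1 :=
          mul_lt_mul_of_pos_left h1 (zero_lt_iff.mpr (pow_ne_zero _ vl0))
      _ = A.valuation (l : Ω) ^ 2 := mul_one _
  have cPT : A.valuation (zc E P) < A.valuation (zc E T) := by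
    rw [vP]
    calc A.valuation (l : Ω) ^ 3 * A.valuation (zc E T) * A.valuation (zc E T')
        ≤ 1 * A.valuation (zc E T) * A.valuation (zc E T') :=
          mul_le_mul' (mul_le_mul' c3 le_rfl) le_rfl
      _ = A.valuation (zc E T) * A.valuation (zc E T') := by rw [one_mul]
      _ < A.valuation (zc E T) * 1 := mul_lt_mul_of_pos_left vT'1 (zero_lt_iff.mpr vT0)
      _ = A.valuation (zc E T) := mul_one _
  have cPT' : A.valuation (zc E P) < A.valuation (zc E T') := by
    rw [vP]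
    calc A.valuation (l : Ω) ^ 3 * A.valuation (zc E T) * A.valuation (zc E T')
        ≤ 1 * A.valuation (zc E T) * A.valuation (zc E T') :=
          mul_le_mul' (mul_le_mul' c3 le_rfl) le_rfl
      _ = A.valuation (zc E T) * A.valuation (zc E T') := by rw [one_mul]
      _ < 1 * A.valuation (zc E T') := mul_lt_mul_of_pos_right vT1 (zero_lt_iff.mpr vT'0)
      _ = A.valuation (zc E T') := one_mul _
  have vP0 : A.valuation (zc E P) ≠ 0 := by
    rw [hzP]; exact (map_ne_zero _).mpr hx0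
  have hP : InE1 A E P := by
    refine Or.inr ⟨_, y, hxy, hPdef, ?_⟩
    intro hmem
    have a1 := (A.valuation_le_one_iff _).mpr hmem
    have a2 : A.valuation ((l : Ω) ^ 3 * zc E T * zc E T')⁻¹ *
        A.valuation ((l : Ω) ^ 3 * zc E T * zc E T') = 1 := by
      rw [← map_mul, inv_mul_cancel₀ hx0, map_one]
    have a3 : A.valuation ((l : Ω) ^ 3 * zc E T * zc E T') < 1 := by
      rw [← hzP]
      exact cPT.trans vT1
    have a4 : A.valuation ((l : Ω) ^ 3 * zc E T * zc E T')⁻¹ *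
        A.valuation ((l : Ω) ^ 3 * zc E T * zc E T') < 1 :=
      lt_of_le_of_lt (mul_le_mul' a1 le_rfl) (by rwa [one_mul])
    rw [a2] at a4
    exact lt_irrefl _ a4
  have hP0 : P ≠ 0 := by
    rw [hPdef]; exact Affine.Point.some_ne_zero _
  obtain ⟨hlP0, hlPv⟩ := deep hE hΔ hl.ne_zero P hP hP0 cP2
  have hlP : InE1 A E (l • P) := (hP.smul hE l).1
  have hnot : T' ∉ (Finset.range l).image (fun j : ℕ => j • T) := by
    intro hmem
    obtain ⟨j, hj, hjT⟩ := Finset.mem_image.mp hmem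
    exact hcon j (Finset.mem_range.mp hj) hjT.symm
  have hmain := prod_le hE hΔ h2 hl.ne_zero P hlP hlP0
    (insert T' ((Finset.range l).image (fun j : ℕ => j • T))) (by
      intro U hU
      rcases Finset.mem_insert.mp hU with rfl | hU
      · exact ⟨hT'l, (InE1.add_sub hE hP hT').1⟩
      · obtain ⟨j, hj, rfl⟩ := Finset.mem_image.mp hU
        refine ⟨?_, (InE1.add_sub hE hP (hT.smul hE j).1).1⟩
        show l • (j • T) = 0
        rw [← mul_nsmul, mul_comm, mul_nsmul, hTl, nsmul_zero])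
  rw [Finset.prod_insert hnot, Finset.prod_image (fun i hi j hj hij =>
    Sb_inj hl hT0 hTl (Finset.mem_range.mp hi) (Finset.mem_range.mp hj) hij)] at hmain
  have hl2 : l = (l - 1) + 1 := (Nat.sub_add_cancel hl.one_le).symm
  have hprod : ∏ j ∈ Finset.range l, A.valuation (zc E (P + j • T)) =
      A.valuation (zc E T) ^ (l - 1) * A.valuation (zc E P) := by
    have e1 : ∏ j ∈ Finset.range l, A.valuation (zc E (P + j • T)) =
        ∏ j ∈ Finset.range ((l - 1) + 1), A.valuation (zc E (P + j • T)) := by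
      rw [← hl2]
    rw [e1, Finset.prod_range_succ', zero_nsmul, add_zero]
    congr 1
    rw [← Finset.card_range (l - 1), ← Finset.prod_const, Finset.card_range]
    refine Finset.prod_congr rfl fun j hj => ?_
    have hj' : ¬ l ∣ (j + 1) := by
      intro hd
      have := Nat.le_of_dvd (Nat.succ_pos j) hd
      have := Finset.mem_range.mp hj
      omega
    have e2 := zc_smul_eq hE hT (j + 1) (unit_of A hl h1 hj')
    rw [zc_add_eq hE hP (hT.smul hE (j + 1)).1 (by rw [e2]; exact cPT), e2]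
  rw [hprod, zc_add_eq hE hP hT' cPT', hlPv] at hmain
  have hpow : A.valuation (zc E T) ^ (l - 1) ≤ A.valuation (l : Ω) ^ 2 := by
    calc A.valuation (zc E T) ^ (l - 1) ≤ (A.valuation lam ^ 2) ^ (l - 1) :=
          pow_le_pow_left' hTv _
      _ = (A.valuation lam ^ (l - 1)) ^ 2 := by rw [← pow_mul, ← pow_mul, mul_comm]
      _ = A.valuation (l : Ω) ^ 2 := by rw [← hlam]
  have hfin : A.valuation (zc E T') *
      (A.valuation (zc E T) ^ (l - 1) * A.valuation (zc E P)) <
      A.valuation (l : Ω) ^ 2 * A.valuation (zc E P) := by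
    calc A.valuation (zc E T') * (A.valuation (zc E T) ^ (l - 1) * A.valuation (zc E P))
        ≤ A.valuation (zc E T') * (A.valuation (l : Ω) ^ 2 * A.valuation (zc E P)) :=
          mul_le_mul' le_rfl (mul_le_mul' hpow le_rfl)
      _ < 1 * (A.valuation (l : Ω) ^ 2 * A.valuation (zc E P)) :=
          mul_lt_mul_of_pos_right vT'1
            (zero_lt_iff.mpr (mul_ne_zero (pow_ne_zero _ vl0) vP0))
      _ = A.valuation (l : Ω) ^ 2 * A.valuation (zc E P) := one_mul _
  exact absurd hmain (not_le.mpr hfin)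

theorem smul_le (hE : Integral A E) (hΔ : A.valuation E.Δ = 1) (h2 : A.valuation (2 : Ω) = 1)
    {l : ℕ} (hl : l.Prime) {T : E.toAffine.Point} (hT0 : T ≠ 0) (hTl : l • T = 0)
    (hT : InE1 A E T) {P : E.toAffine.Point} (hP : InE1 A E P) (c : A.ValueGroup)
    (hc : ∀ j < l, A.valuation (zc E (P + j • T)) ≤ c) :
    A.valuation (zc E (l • P)) ≤ c ^ l := by
  by_cases h0 : l • P = 0
  · rw [h0, zc_zero, map_zero]
    exact zero_le
  have hlP : InE1 A E (l • P) := (hP.smul hE l).1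
  have hmain := prod_le hE hΔ h2 hl.ne_zero P hlP h0
    ((Finset.range l).image (fun j : ℕ => j • T)) (by
      intro U hU
      obtain ⟨j, hj, rfl⟩ := Finset.mem_image.mp hU
      refine ⟨?_, (InE1.add_sub hE hP (hT.smul hE j).1).1⟩
      show l • (j • T) = 0
      rw [← mul_nsmul, mul_comm, mul_nsmul, hTl, nsmul_zero])
  rw [Finset.prod_image (fun i hi j hj hij =>
    Sb_inj hl hT0 hTl (Finset.mem_range.mp hi) (Finset.mem_range.mp hj) hij)] at hmain
  refine hmain.trans ?_
  refine (Finset.prod_le_pow_card _ _ c fun j hj => hc j (Finset.mem_range.mp hj)).trans ?_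
  rw [Finset.card_range]

end H86G
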