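import Pool.Agent.H86.T4G.Lb
import Pool.Agent.H86.T4G.Zc

/-!
Row Se (about 150 lines): points fixed by the decomposition group in the kernel of reduction. Use only the STATEMENTS of Lb, Zc.

`E := W.baseChange (AlgebraicClosure F)`, its coefficients are the images of those of `W`, fixed by every `σ`; `v := A.valuation`; `act (inv_bc F W) σ (some x y) = some (σ x) (σ y)` (H10/Pm.lean).
PROOF of exists_R. `U` := image of `u`, `v U < 1` (LS.val_lt_one), `U ≠ 0`. Look for `x := U⁻², y := s U⁻³`: the Weierstrass equation is `s^2 + (a₁ U + a₃ U^3) s = 1 + a₂ U^2 + a₄ U^4 + a₆ U^6` (multiply by `U^6`). Let `s₁` be a root of this monic quadratic equation in `s` (algebraically closed), `s₂ := -(a₁ U + a₃ U^3) - s₁` the other root; both integral (root of a monic polynomial over `A`, or: if `v s > 1` the term `s^2` dominates). `s₁^2 - 1` has valuation `< 1`, so `v (s₁ - 1) < 1` or `v (s₁ + 1) < 1`; in the second case `v (s₂ - 1) < 1`. So there is a root `s` with `v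 (s - 1) < 1`; the other root `s'` has `v (s' + 1) < 1`, so `v (s' - 1) = v 2 = 1`.
 For `σ ∈ D`: `σ s` is a root, `v (σ s - 1) = v (σ (s - 1)) < 1` (LS.stab), so `σ s ≠ s'`, `σ s = s`. `R := some x y` is nonsingular because `E` is elliptic (equation implies nonsingular: Affine.equation_iff_nonsingular / nonsingular of Δ ≠ 0). `x ∉ A`: `v x > 1`. `zc R = x⁻¹ = U^2`.
PROOF of zc_fixed. `Q = 0`: zero. `Q = some x y`, `x ∉ A`, `σ x = x`, `σ y = y` for `σ ∈ D`. Equation `y^2 + a₁ x y + a₃ y = x^3 + a₂ x^2 + a₄ x + a₆` with integral coefficients and `v x > 1` gives `v y ^ 2 = v x ^ 3` (the right side has valuation `v x ^ 3`; if `v y ≤ v x` the left side has valuation at most `v x ^ 2`; so `v y > v x` and `v (y^2)` dominates). LS.fixed_val: `v x = v z`, `v y = v z'` with `z, z' : F`; so `w.valuation F z' ^ 2 = w.valuation F z ^ 3` (LS.val_eq), `w.valuation F z = exp m`, `w.valuation F z' = exp m'`, `2 m' = 3 m`, `m > 0`, so `m ≥ 2`: `w.valuation F z⁻¹ ≤ exp (-2)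 = w.valuation F (lam^2)`, `v (zc Q) = v z⁻¹ ≤ v lam ^ 2`.
-/

set_option autoImplicit false
open scoped Classical

open WithZero WeierstrassCurve IsDedekindDomain NumberField Pool.Agent.H10 Pool.Agent.H11 H78D

namespace H86G

theorem Se_quad {K : Type*} [Field K] [IsAlgClosed K] {A : ValuationSubring K} (h2 : A.valuation (2 : K) = 1)
    {c e : K} (hc : A.valuation c < 1) (he : A.valuation e < 1) :
    ∃ r : K, r ^ 2 = c ^ 2 + 4 * (1 + e) ∧ A.valuation (r - 2) < 1 := by
  obtain ⟨r, hr⟩ := IsAlgClosed.exists_pow_nat_eq (c ^ 2 + 4 * (1 + e)) (n := 2) (by norm_num)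
  have h4 : A.valuation (4 : K) = 1 := by
    have h : (4 : K) = 2 * 2 := by norm_num
    rw [h, map_mul, h2, one_mul]
  have h5 : A.valuation ((r - 2) * (r + 2)) < 1 := by
    have h : (r - 2) * (r + 2) = c ^ 2 + 4 * e := by linear_combination hr
    rw [h]
    refine Valuation.map_add_lt _ ?_ ?_
    · rw [map_pow]
      exact pow_lt_one₀ zero_le hc two_ne_zero
    · rw [map_mul, h4, one_mul]
      exact he
  rw [map_mul] at h5
  by_cases h6 : A.valuation (r - 2) < 1
  · exact ⟨r, hr, h6⟩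
  · refine ⟨-r, by rw [neg_sq]; exact hr, ?_⟩
    have h7 : A.valuation (r + 2) < 1 := by
      by_contra h8
      rw [not_lt] at h6 h8
      exact absurd h5 (not_lt.2 (one_le_mul h6 h8))
    have h9 : -r - 2 = -(r + 2) := by ring
    rw [h9, Valuation.map_neg]
    exact h7

theorem Se_sign {K : Type*} [Field K] {A : ValuationSubring K} (h2 : A.valuation (2 : K) = 1)
    {r : K} (h : A.valuation (r - 2) < 1) (h' : A.valuation (-r - 2) < 1) : False := by
  have h4 : A.valuation (4 : K) = 1 := by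
    have h : (4 : K) = 2 * 2 := by norm_num
    rw [h, map_mul, h2, one_mul]
  have h5 : A.valuation ((r - 2) + (-r - 2)) < 1 := Valuation.map_add_lt _ h h'
  have h6 : (r - 2) + (-r - 2) = -4 := by ring
  rw [h6, Valuation.map_neg, h4] at h5
  exact lt_irrefl _ h5

theorem Se_small {K : Type*} [Field K] {A : ValuationSubring K} {a u : K} (ha : a ∈ A)
    (hu : A.valuation u < 1) : A.valuation (a * u) < 1 := by
  rw [map_mul]
  exact (mul_le_of_le_one_left' ((A.valuation_le_one_iff a).2 ha)).trans_lt hu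

theorem Se_pow {K : Type*} [Field K] {A : ValuationSubring K} {u : K}
    (hu : A.valuation u < 1) {n : ℕ} (hn : n ≠ 0) : A.valuation (u ^ n) < 1 := by
  rw [map_pow]
  exact pow_lt_one₀ zero_le hu hn

theorem Se_dom {K : Type*} [Field K] {A : ValuationSubring K} {a₁ a₂ a₃ a₄ a₆ x y : K}
    (h1 : a₁ ∈ A) (h2 : a₂ ∈ A) (h3 : a₃ ∈ A) (h4 : a₄ ∈ A) (h6 : a₆ ∈ A) (hx : 1 < A.valuation x)
    (h : y ^ 2 + a₁ * x * y + a₃ * y = x ^ 3 + a₂ * x ^ 2 + a₄ * x + a₆) :
    A.valuation y ^ 2 = A.valuation x ^ 3 := by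
  have hm : ∀ {a z : K}, a ∈ A → A.valuation (a * z) ≤ A.valuation z := by
    intro a z ha
    rw [map_mul]
    exact mul_le_of_le_one_left' ((A.valuation_le_one_iff a).2 ha)
  have hX2 : A.valuation x < A.valuation x ^ 2 := by
    rw [pow_two]
    exact lt_mul_of_one_lt_right (zero_lt_one.trans hx) hx
  have hX3 : A.valuation x ^ 2 < A.valuation x ^ 3 := by
    rw [pow_succ _ 2]
    exact lt_mul_of_one_lt_right (pow_pos (zero_lt_one.trans hx) 2) hx
  have hR : A.valuation (x ^ 3 + a₂ * x ^ 2 + a₄ * x + a₆) = A.valuation x ^ 3 := by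
    have e : x ^ 3 + a₂ * x ^ 2 + a₄ * x + a₆ = x ^ 3 + (a₂ * x ^ 2 + a₄ * x + a₆) := by ring
    rw [e, Valuation.map_add_eq_of_lt_left, map_pow]
    refine Valuation.map_add_lt _ (Valuation.map_add_lt _ ?_ ?_) ?_
    · rw [map_pow _ _ 3]
      exact (hm h2).trans_lt (by rw [map_pow]; exact hX3)
    · rw [map_pow _ _ 3]
      exact (hm h4).trans_lt (hX2.trans hX3)
    · rw [map_pow _ _ 3]
      exact ((A.valuation_le_one_iff _).2 h6).trans_lt (hx.trans (hX2.trans hX3))
  have hY : A.valuation x < A.valuation y := by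
    by_contra hcon
    rw [not_lt] at hcon
    have h5 : A.valuation (y ^ 2 + a₁ * x * y + a₃ * y) ≤ A.valuation x ^ 2 := by
      refine Valuation.map_add_le _ (Valuation.map_add_le _ ?_ ?_) ?_
      · rw [map_pow]
        exact pow_le_pow_left' hcon 2
      · rw [mul_assoc]
        refine (hm h1).trans ?_
        rw [map_mul, pow_two]
        exact mul_le_mul_right hcon _
      · exact (hm h3).trans (hcon.trans hX2.le)
    rw [h, hR] at h5
    exact absurd hX3 (not_lt.2 h5)
  have hy1 : 1 < A.valuation y := hx.trans hY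
  have hL : A.valuation (y ^ 2 + a₁ * x * y + a₃ * y) = A.valuation y ^ 2 := by
    have e : y ^ 2 + a₁ * x * y + a₃ * y = y ^ 2 + (a₁ * (x * y) + a₃ * y) := by ring
    rw [e, Valuation.map_add_eq_of_lt_left, map_pow]
    refine Valuation.map_add_lt _ ?_ ?_
    · rw [map_pow _ _ 2]
      refine (hm h1).trans_lt ?_
      rw [map_mul, pow_two]
      exact mul_lt_mul_of_pos_right hY (zero_lt_one.trans hy1)
    · rw [map_pow _ _ 2]
      refine (hm h3).trans_lt ?_
      rw [pow_two]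
      exact lt_mul_of_one_lt_right (zero_lt_one.trans hy1) hy1
  rw [← hL, h, hR]

variable {F : Type} [Field F] [NumberField F] {w : HeightOneSpectrum (𝓞 F)}
  {A : ValuationSubring (AlgebraicClosure F)}
  {D : Subgroup (AlgebraicClosure F ≃ₐ[F] AlgebraicClosure F)} {W : WeierstrassCurve F}
  [W.IsElliptic]

theorem exists_R (h : LS w A D) (hE : Integral A (W.baseChange (AlgebraicClosure F)))
    (h2 : A.valuation (2 : AlgebraicClosure F) = 1) {u : F} (hu0 : u ≠ 0)
    (hu : w.valuation F u < 1) :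
    ∃ R : (W.baseChange (AlgebraicClosure F)).toAffine.Point,
      zc _ R = algebraMap F (AlgebraicClosure F) u ^ 2 ∧ InE1 A _ R ∧
      ∀ σ ∈ D, act (inv_bc F W) σ R = R := by
  set E := W.baseChange (AlgebraicClosure F) with hEdef
  obtain ⟨U, hU⟩ : ∃ U, U = algebraMap F (AlgebraicClosure F) u := ⟨_, rfl⟩
  have hU0 : U ≠ 0 := by
    rw [hU, Ne, map_eq_zero]
    exact hu0
  have hUv : A.valuation U < 1 := by
    rw [hU]
    exact (h.val_lt_one u).2 hu
  have hσU : ∀ σ : AlgebraicClosure F ≃ₐ[F] AlgebraicClosure F, σ U = U := fun σ => by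
    rw [hU]
    exact σ.commutes u
  have hco : ∀ σ : AlgebraicClosure F ≃ₐ[F] AlgebraicClosure F,
      σ E.a₁ = E.a₁ ∧ σ E.a₃ = E.a₃ := fun σ => ⟨σ.commutes _, σ.commutes _⟩
  obtain ⟨c, hc⟩ : ∃ c, c = E.a₁ * U + E.a₃ * U ^ 3 := ⟨_, rfl⟩
  obtain ⟨e, he⟩ : ∃ e, e = E.a₂ * U ^ 2 + E.a₄ * U ^ 4 + E.a₆ * U ^ 6 := ⟨_, rfl⟩
  have hcv : A.valuation c < 1 := by
    rw [hc]
    exact Valuation.map_add_lt _ (Se_small hE.a₁ hUv) (Se_small hE.a₃ (Se_pow hUv (by norm_num)))
  have hev : A.valuation e < 1 := by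
    rw [he]
    exact Valuation.map_add_lt _ (Valuation.map_add_lt _
      (Se_small hE.a₂ (Se_pow hUv (by norm_num))) (Se_small hE.a₄ (Se_pow hUv (by norm_num))))
      (Se_small hE.a₆ (Se_pow hUv (by norm_num)))
  obtain ⟨r, hr, hrv⟩ := Se_quad h2 hcv hev
  have h20 : (2 : AlgebraicClosure F) ≠ 0 := by
    intro h0
    rw [h0, map_zero] at h2
    exact zero_ne_one h2
  have hσr : ∀ σ ∈ D, σ r = r := by
    intro σ hσ
    have h1 : (σ r) ^ 2 = r ^ 2 := by
      rw [← map_pow, hr]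
      have hσe : σ e = e := by
        rw [he]
        simp only [map_add, map_mul, map_pow, hσU]
        rw [show σ E.a₂ = E.a₂ from σ.commutes _, show σ E.a₄ = E.a₄ from σ.commutes _,
          show σ E.a₆ = E.a₆ from σ.commutes _]
      have hσc : σ c = c := by
        rw [hc]
        simp only [map_add, map_mul, map_pow, hσU, (hco σ).1, (hco σ).2]
      simp only [map_add, map_mul, map_pow, hσe, hσc, map_one, map_ofNat]
    rcases sq_eq_sq_iff_eq_or_eq_neg.1 h1 with h3 | h3
    · exact h3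
    · exfalso
      have h4 : A.valuation (σ (r - 2)) < 1 := by
        rw [h.stab σ hσ]
        exact hrv
      rw [map_sub, map_ofNat, h3] at h4
      exact Se_sign h2 hrv h4
  have hσc : ∀ σ : AlgebraicClosure F ≃ₐ[F] AlgebraicClosure F, σ c = c := fun σ => by
    rw [hc]
    simp only [map_add, map_mul, map_pow, hσU, (hco σ).1, (hco σ).2]
  obtain ⟨s, hs⟩ : ∃ s, s = (r - c) / 2 := ⟨_, rfl⟩
  have hsq : s ^ 2 + c * s = 1 + e := by
    rw [hs]
    field_simp
    linear_combination hr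
  have heq : E.toAffine.Equation (U ^ 2)⁻¹ (s * (U ^ 3)⁻¹) := by
    rw [Affine.equation_iff]
    field_simp
    rw [hc, he] at hsq
    linear_combination hsq
  have hns : E.toAffine.Nonsingular (U ^ 2)⁻¹ (s * (U ^ 3)⁻¹) :=
    Affine.equation_iff_nonsingular.1 heq
  refine ⟨Affine.Point.some _ _ hns, ?_, Or.inr ⟨_, _, hns, rfl, ?_⟩, ?_⟩
  · show ((U ^ 2)⁻¹)⁻¹ = _
    rw [inv_inv, hU]
  · rw [← A.valuation_le_one_iff, not_le, map_inv₀, one_lt_inv₀ (zero_lt_iff.2 (by
      rw [Ne, Valuation.zero_iff]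
      exact pow_ne_zero 2 hU0))]
    exact Se_pow hUv (by norm_num)
  · intro σ hσ
    unfold Pool.Agent.H10.act
    rw [pm_some, Affine.Point.some.injEq]
    constructor
    · change σ ((U ^ 2)⁻¹) = _
      rw [map_inv₀, map_pow, hσU]
    · change σ (s * (U ^ 3)⁻¹) = _
      rw [map_mul, map_inv₀, map_pow, hσU, hs, map_div₀, map_sub, hσr σ hσ, hσc, map_ofNat]

theorem zc_fixed (h : LS w A D) (hE : Integral A (W.baseChange (AlgebraicClosure F)))
    {lam : F} (hlam : w.valuation F lam = exp (-1 : ℤ))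
    {Q : (W.baseChange (AlgebraicClosure F)).toAffine.Point} (hQ : InE1 A _ Q)
    (hD : ∀ σ ∈ D, act (inv_bc F W) σ Q = Q) :
    A.valuation (zc _ Q) ≤ A.valuation (algebraMap F (AlgebraicClosure F) lam) ^ 2 := by
  set E := W.baseChange (AlgebraicClosure F) with hEdef
  rcases hQ with rfl | ⟨x, y, hxy, rfl, hx⟩
  · rw [zc_zero, map_zero]
    exact zero_le
  have hx1 : 1 < A.valuation x := by
    rw [← not_le, A.valuation_le_one_iff]
    exact hx
  have hfix : ∀ σ ∈ D, σ x = x ∧ σ y = y := by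
    intro σ hσ
    have h1 := hD σ hσ
    unfold Pool.Agent.H10.act at h1
    rw [pm_some, Affine.Point.some.injEq] at h1
    exact h1
  have heq := (Affine.equation_iff x y).1 hxy.1
  have hval := Se_dom hE.a₁ hE.a₂ hE.a₃ hE.a₄ hE.a₆ hx1 heq
  have hx0 : x ≠ 0 := by
    rintro rfl
    rw [map_zero] at hx1
    exact absurd hx1 (not_lt.2 zero_le)
  have hy0 : y ≠ 0 := by
    rintro rfl
    rw [map_zero, zero_pow two_ne_zero] at hval
    exact pow_ne_zero 3 ((Valuation.ne_zero_iff A.valuation).2 hx0) hval.symm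
  obtain ⟨z, hz0, hz⟩ := h.fixed_val (fun σ hσ => (hfix σ hσ).1) hx0
  obtain ⟨z', hz0', hz'⟩ := h.fixed_val (fun σ hσ => (hfix σ hσ).2) hy0
  have h1 : w.valuation F z' ^ 2 = w.valuation F z ^ 3 := by
    rw [← map_pow, ← map_pow, ← h.val_eq, map_pow (algebraMap F (AlgebraicClosure F)),
      map_pow (algebraMap F (AlgebraicClosure F)), map_pow, map_pow, ← hz, ← hz', hval]
  have h3 : 1 < w.valuation F z := by
    rw [← map_one (w.valuation F), ← h.val_lt, map_one, map_one, ← hz]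
    exact hx1
  have hwz : w.valuation F z ≠ 0 := (Valuation.ne_zero_iff _).2 hz0
  have hwz' : w.valuation F z' ≠ 0 := (Valuation.ne_zero_iff _).2 hz0'
  obtain ⟨m, hm⟩ : ∃ m : ℤ, w.valuation F z = exp m := ⟨_, (exp_log hwz).symm⟩
  obtain ⟨m', hm'⟩ : ∃ m' : ℤ, w.valuation F z' = exp m' := ⟨_, (exp_log hwz').symm⟩
  rw [hm, hm', ← exp_nsmul, ← exp_nsmul, exp_inj] at h1
  rw [hm, ← exp_zero, exp_lt_exp] at h3
  simp only [nsmul_eq_mul, Nat.cast_ofNat] at h1
  have h5 : w.valuation F z⁻¹ ≤ w.valuation F (lam ^ 2) := by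
    rw [map_inv₀, hm, map_pow, hlam, ← exp_nsmul, ← exp_neg, exp_le_exp]
    simp only [nsmul_eq_mul, Nat.cast_ofNat]
    omega
  have h6 := (h.val_le z⁻¹ (lam ^ 2)).2 h5
  rw [map_pow (algebraMap F (AlgebraicClosure F)), map_pow, map_inv₀ (algebraMap F (AlgebraicClosure F)), map_inv₀, ← hz] at h6
  show A.valuation x⁻¹ ≤ _
  rw [map_inv₀]
  exact h6

end H86G
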