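import Pool.Agent.H86.T4G.Rt

/-!
Row Sf (about 150 lines): Kummer generators for the decomposition group. Use only the STATEMENTS of Rt, Lb.

PROOF of kum_D. `z` := the image of `ζ` (fixed by every `σ`, `z^l = 1`, `z ≠ 0`). `M` := a finite normal extension of `F` inside the closure containing `S` (normal closure of the field generated by `S`; finite-dimensional). If `σ, σ' ∈ D` agree on `M` then `σ⁻¹ σ'` fixes `S`, so `a (σ⁻¹ σ') ≡ 0`, `a σ' ≡ a σ` (hmul: `σ' = σ (σ⁻¹ σ')`), so `z^(a σ') = z^(a σ)`.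
 Let `G` be the (finite) set of the ring homomorphisms `M → AlgebraicClosure F` which are restrictions of elements of `D`; for `g ∈ G` choose `s g ∈ D` restricting to `g`. By the linear independence of characters (linearIndependent_monoidHom: distinct multiplicative maps `M →* AlgebraicClosure F`) the function `∑ g, z^(-a (s g)) g` (use `(z ^ a (s g))⁻¹`) is not zero: there is `c ∈ M` with `r := ∑ g, (z ^ a (s g))⁻¹ * g c ≠ 0`. For `σ ∈ D`: `σ r = ∑ g, (z ^ a (s g))⁻¹ * (σ ∘ g) c`, `g ↦ σ ∘ g` is a permutation of `G`, `s (σ ∘ g)` agrees with `σ * s g` on `M`, so `z ^ a (s (σ g)) = z ^ a σ * z ^ a (s g)`; hence `σ r = z ^ (a σ) * r`.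
PROOF of fixed_split. `v := A.valuation`, `c := y * (l * (z - 1)) ≠ 0`. LS.dense: `x : F` with `v (y - x) < v c ≤ v y` (`l`, `z - 1` integral), so `v x = v y`, `x ≠ 0`. `X := y / x` is fixed by `D`, `v (X - 1) = v (y - x) / v x < v (l (z - 1))`. root_fix: `X = t^l`.
-/

set_option autoImplicit false
open scoped Classical

open WeierstrassCurve IsDedekindDomain NumberField Pool.Agent.H10 Pool.Agent.H11 H78D

namespace H86G

theorem Sf_agree {F : Type} [Field F] [NumberField F]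
    (D : Subgroup (AlgebraicClosure F ≃ₐ[F] AlgebraicClosure F)) {l : ℕ}
    (a : (AlgebraicClosure F ≃ₐ[F] AlgebraicClosure F) → ℕ)
    (hmul : ∀ σ ∈ D, ∀ τ ∈ D, a (σ * τ) ≡ a σ + a τ [MOD l])
    {S : Finset (AlgebraicClosure F)} (hS : ∀ σ ∈ D, (∀ x ∈ S, σ x = x) → a σ ≡ 0 [MOD l])
    {σ τ : AlgebraicClosure F ≃ₐ[F] AlgebraicClosure F} (hσ : σ ∈ D) (hτ : τ ∈ D)
    (h : ∀ x ∈ S, σ x = τ x) : a σ ≡ a τ [MOD l] := by
  have h1 : σ⁻¹ * τ ∈ D := D.mul_mem (D.inv_mem hσ) hτ
  have h2 : a (σ⁻¹ * τ) ≡ 0 [MOD l] := hS _ h1 (fun x hx => by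
    rw [AlgEquiv.mul_apply, ← h x hx]
    exact σ.symm_apply_apply x)
  have h3 := hmul σ hσ _ h1
  rw [mul_inv_cancel_left] at h3
  have h4 : a σ + a (σ⁻¹ * τ) ≡ a σ + 0 [MOD l] := (Nat.ModEq.refl (a σ)).add h2
  rw [add_zero] at h4
  exact (h3.trans h4).symm

theorem kum_D {F : Type} [Field F] [NumberField F]
    (D : Subgroup (AlgebraicClosure F ≃ₐ[F] AlgebraicClosure F)) {l : ℕ} (hl : l ≠ 0) {ζ : F}
    (hζ : IsPrimitiveRoot ζ l) (a : (AlgebraicClosure F ≃ₐ[F] AlgebraicClosure F) → ℕ)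
    (hmul : ∀ σ ∈ D, ∀ τ ∈ D, a (σ * τ) ≡ a σ + a τ [MOD l])
    (hS : ∃ S : Finset (AlgebraicClosure F), ∀ σ ∈ D, (∀ x ∈ S, σ x = x) → a σ ≡ 0 [MOD l]) :
    ∃ r : AlgebraicClosure F, r ≠ 0 ∧
      ∀ σ ∈ D, σ r = algebraMap F (AlgebraicClosure F) ζ ^ a σ * r := by
  obtain ⟨S, hS⟩ := hS
  set z := algebraMap F (AlgebraicClosure F) ζ with hz
  have hzl : z ^ l = 1 := by rw [hz, ← map_pow, hζ.pow_eq_one, map_one]
  have hz0 : z ≠ 0 := by
    intro h0
    rw [h0, zero_pow hl] at hzl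
    exact zero_ne_one hzl
  have hpow : ∀ m n : ℕ, m ≡ n [MOD l] → z ^ m = z ^ n := fun m n h => by
    rw [pow_eq_pow_mod m hzl, pow_eq_pow_mod n hzl, h]
  let M : IntermediateField F (AlgebraicClosure F) :=
    IntermediateField.adjoin F (S : Set (AlgebraicClosure F))
  have hSM : ∀ x ∈ S, x ∈ M := fun x hx => IntermediateField.subset_adjoin F _ hx
  have hfin : FiniteDimensional F M :=
    IntermediateField.finiteDimensional_adjoin (fun x _ => Algebra.IsIntegral.isIntegral x)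
  let G := {g : M →ₐ[F] AlgebraicClosure F // ∃ σ ∈ D, ∀ m : M, g m = σ m}
  have hfinG : Finite G := Subtype.finite
  have instG : Fintype G := Fintype.ofFinite G
  choose s hsD hs using fun g : G => g.2
  let e : G → (M →* AlgebraicClosure F) := fun g => (g.1 : M →* AlgebraicClosure F)
  have he : Function.Injective e := fun g g' h => by
    apply Subtype.ext
    apply AlgHom.ext
    intro m
    exact DFunLike.congr_fun h m
  let g1 : G := ⟨M.val, 1, D.one_mem, fun m => rfl⟩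
  have hli := (linearIndependent_monoidHom M (AlgebraicClosure F)).comp e he
  rw [Fintype.linearIndependent_iff] at hli
  have hne : ¬ (∑ g : G, (z ^ a (s g))⁻¹ • (⇑(e g) : M → AlgebraicClosure F) = 0) := by
    intro h0
    have h1 := hli (fun g => (z ^ a (s g))⁻¹) h0 g1
    exact inv_ne_zero (pow_ne_zero _ hz0) h1
  obtain ⟨c, hc⟩ := Function.ne_iff.1 hne
  have hc' : ∑ g : G, (z ^ a (s g))⁻¹ * g.1 c ≠ 0 := by
    intro h0
    apply hc
    rw [Finset.sum_apply]
    exact h0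
  refine ⟨∑ g : G, (z ^ a (s g))⁻¹ * g.1 c, hc', fun σ hσ => ?_⟩
  let π : G → G := fun g => ⟨(σ : AlgebraicClosure F →ₐ[F] AlgebraicClosure F).comp g.1,
    σ * s g, D.mul_mem hσ (hsD g), fun m => by
      show σ (g.1 m) = σ (s g m)
      rw [hs g m]⟩
  have hπ : Function.Injective π := fun g g' h => by
    apply Subtype.ext
    apply AlgHom.ext
    intro m
    have h1 : σ (g.1 m) = σ (g'.1 m) := DFunLike.congr_fun (congrArg Subtype.val h) m
    exact σ.injective h1
  have hbij : Function.Bijective π := Finite.injective_iff_bijective.1 hπ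
  rw [map_sum, Finset.mul_sum]
  apply Fintype.sum_bijective π hbij
  intro g
  have h1 : a (s (π g)) ≡ a σ + a (s g) [MOD l] := by
    refine Nat.ModEq.trans ?_ (hmul σ hσ (s g) (hsD g))
    apply Sf_agree D a hmul hS (hsD _) (D.mul_mem hσ (hsD g))
    intro x hx
    have h2 := hs (π g) ⟨x, hSM x hx⟩
    have h3 := hs g ⟨x, hSM x hx⟩
    have h4 : (π g).1 ⟨x, hSM x hx⟩ = σ (g.1 ⟨x, hSM x hx⟩) := rfl
    rw [← h2, h4, h3]
    rfl
  have h2 := hpow _ _ h1
  have h3 : (π g).1 c = σ (g.1 c) := rfl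
  rw [h2, h3, map_mul, map_inv₀, map_pow, pow_add, mul_inv]
  have h4 : σ z = z := σ.commutes ζ
  rw [h4, ← mul_assoc, ← mul_assoc, mul_inv_cancel₀ (pow_ne_zero _ hz0), one_mul]

theorem fixed_split {F : Type} [Field F] [NumberField F] {w : HeightOneSpectrum (𝓞 F)}
    {A : ValuationSubring (AlgebraicClosure F)}
    {D : Subgroup (AlgebraicClosure F ≃ₐ[F] AlgebraicClosure F)} (h : LS w A D) {l : ℕ}
    (hl : l.Prime) {ζ : F} (hζ : IsPrimitiveRoot ζ l) {y : AlgebraicClosure F}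
    (hy : ∀ σ ∈ D, σ y = y) (hy0 : y ≠ 0) :
    ∃ (x : F) (t : AlgebraicClosure F), x ≠ 0 ∧ (∀ σ ∈ D, σ t = t) ∧
      y = algebraMap F (AlgebraicClosure F) x * t ^ l := by
  have hl0 : (l : AlgebraicClosure F) ≠ 0 := Nat.cast_ne_zero.2 hl.ne_zero
  have hzp : IsPrimitiveRoot (algebraMap F (AlgebraicClosure F) ζ) l :=
    hζ.map_of_injective (algebraMap F (AlgebraicClosure F)).injective
  set z := algebraMap F (AlgebraicClosure F) ζ with hzdef
  have hzv : A.valuation z = 1 := Rt_root_one A hl.ne_zero hzp.pow_eq_one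
  have hzA : z ∈ A := (A.valuation_le_one_iff _).1 hzv.le
  have hcA : (l : AlgebraicClosure F) * (z - 1) ∈ A :=
    mul_mem (natCast_mem A l) (sub_mem hzA (one_mem _))
  have hc1 : A.valuation ((l : AlgebraicClosure F) * (z - 1)) ≤ 1 :=
    (A.valuation_le_one_iff _).2 hcA
  have hc0 : (l : AlgebraicClosure F) * (z - 1) ≠ 0 :=
    mul_ne_zero hl0 (sub_ne_zero.2 (hzp.ne_one hl.one_lt))
  obtain ⟨x, hx⟩ := h.dense y hy (y * ((l : AlgebraicClosure F) * (z - 1))) (mul_ne_zero hy0 hc0)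
  rw [map_mul] at hx
  set u := algebraMap F (AlgebraicClosure F) x with hu
  have hyv : 0 < A.valuation y := by
    rw [zero_lt_iff]
    exact (A.valuation.ne_zero_iff).2 hy0
  have hlt : A.valuation (y - u) < A.valuation y :=
    hx.trans_le (by
      calc A.valuation y * A.valuation ((l : AlgebraicClosure F) * (z - 1))
          ≤ A.valuation y * 1 := mul_le_mul_right hc1 _
        _ = A.valuation y := mul_one _)
  have huv : A.valuation u = A.valuation y := by
    have h1 : u = y - (y - u) := by ring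
    rw [h1]
    exact A.valuation.map_sub_eq_of_lt_left hlt
  have hu0 : u ≠ 0 := by
    rintro h0
    rw [h0, map_zero] at huv
    exact hyv.ne huv
  have hx0 : x ≠ 0 := by
    rintro rfl
    exact hu0 (map_zero _)
  have hX : ∀ σ ∈ D, σ (y / u) = y / u := fun σ hσ => by
    rw [map_div₀, hy σ hσ, hu, σ.commutes]
  have hv : A.valuation (y / u - 1) < A.valuation ((l : AlgebraicClosure F) * (z - 1)) := by
    have h1 : y / u - 1 = (y - u) / u := by field_simp
    rw [h1, map_div₀, huv, div_lt_iff₀ hyv, mul_comm]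
    exact hx
  obtain ⟨t, ht, htl⟩ := root_fix h hl hζ hX hv
  refine ⟨x, t, hx0, ht, ?_⟩
  rw [htl, ← hu, mul_div_cancel₀ y hu0]

end H86G
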