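import Pool.Agent.H86.T4G.Sb
import Pool.Agent.H86.T4G.Se
import Pool.Agent.H86.T4G.Sf
import Pool.Agent.H86.T4G.Gx

/-!
Row Ss (about 130 lines): an element of `F` with the local condition attached to a point of the kernel of reduction. Use only the STATEMENTS of Sa, Sb, Se, Sf, Gx.

PROOF. `E := W.baseChange (AlgebraicClosure F)`, `t := tp W T`. `R` from exists_R, `P ∈ E₁` with `l • P = R` from div_E1. For `σ ∈ D`: `act σ P ∈ E₁` (LS.mem_stab: `x ∉ A` iff `σ x ∉ A`), `act σ P - P ∈ E₁` (InE1.add_sub), `l • (act σ P - P) = act σ R - R = 0`, so `act σ P - P = a σ • t` with `a σ` a natural number (tors_E1 with `lam := algebraMap ζ - 1`, pow_val; for `σ ∉ D` put `a σ := 0`).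
 hmul: `act (σ τ) P - P = act σ (act τ P - P) + (act σ P - P) = (a τ + a σ) • t` (`act σ t = t` as `T` is defined over `F`), and smul_iff (`t ≠ 0`, `l • t = 0`: from `T ≠ 0`, pm_injective). hS: `S` := the coordinates of `P` (empty if `P = 0`): if `σ` fixes them then `act σ P = P`, `a σ • t = 0 = 0 • t`.
 kum_D: `r₀ ≠ 0`, `σ r₀ = z^(a σ) r₀`. `y := r₀^l` is fixed by `D`. fixed_split: `y = x * s^l`, `s ≠ 0`. `r := r₀ / s`: `r^l = x`, `σ r = z^(a σ) r`. If `σ r = z^a r` then `z^a = z^(a σ)`, `a ≡ a σ` modulo `l`, `act σ P - P = a σ • t = a • t`.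
-/

set_option autoImplicit false
open scoped Classical

open WeierstrassCurve IsDedekindDomain NumberField Pool.Agent.H10 Pool.Agent.H11 H78D

namespace H86G

/-- `x` is the Kummer class of the point `R` with parameter `u`. -/
def ZP {F : Type} [Field F] [NumberField F] (l : ℕ) (W : WeierstrassCurve F)
    (T : W.toAffine.Point) (ζ : F) (A : ValuationSubring (AlgebraicClosure F))
    (D : Subgroup (AlgebraicClosure F ≃ₐ[F] AlgebraicClosure F)) (u x : F) : Prop :=
  ∃ (r : AlgebraicClosure F) (P R : (W.baseChange (AlgebraicClosure F)).toAffine.Point),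
    x ≠ 0 ∧ r ^ l = algebraMap F (AlgebraicClosure F) x ∧
    zc _ R = algebraMap F (AlgebraicClosure F) u ^ 2 ∧ InE1 A _ R ∧ InE1 A _ P ∧ l • P = R ∧
    (∀ σ ∈ D, act (inv_bc F W) σ R = R) ∧
    ∀ σ ∈ D, ∀ a : ℕ, σ r = algebraMap F (AlgebraicClosure F) ζ ^ a * r →
      act (inv_bc F W) σ P - P = a • tp W T

theorem Ss_inE1_act {F : Type} [Field F] [NumberField F] {w : HeightOneSpectrum (𝓞 F)}
    {A : ValuationSubring (AlgebraicClosure F)}
    {D : Subgroup (AlgebraicClosure F ≃ₐ[F] AlgebraicClosure F)} (h : LS w A D)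
    {W : WeierstrassCurve F} {σ : AlgebraicClosure F ≃ₐ[F] AlgebraicClosure F} (hσ : σ ∈ D)
    {P : (W.baseChange (AlgebraicClosure F)).toAffine.Point} (hP : InE1 A _ P) :
    InE1 A _ (act (inv_bc F W) σ P) := by
  rcases hP with rfl | ⟨x, y, hxy, rfl, hx⟩
  · exact Or.inl (map_zero _)
  · refine Or.inr ⟨σ x, σ y, _, pm_some _ _ hxy, ?_⟩
    intro h1
    exact hx ((h.mem_stab hσ x).1 h1)

theorem Ss_act_tp {F : Type} [Field F] [NumberField F] {W : WeierstrassCurve F}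
    (T : W.toAffine.Point) (σ : AlgebraicClosure F ≃ₐ[F] AlgebraicClosure F) :
    act (inv_bc F W) σ (tp W T) = tp W T := by
  show pm (σ : AlgebraicClosure F →+* AlgebraicClosure F) (inv_bc F W σ)
    (pm (algebraMap F (AlgebraicClosure F)) rfl T) = pm (algebraMap F (AlgebraicClosure F)) rfl T
  exact (pm_pm _ _ _ _ T).trans (pm_congr _ _ (fun x => σ.commutes x) T)

theorem Ss_coords {F : Type} [Field F] [NumberField F] {W : WeierstrassCurve F}
    (P : (W.baseChange (AlgebraicClosure F)).toAffine.Point) :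
    ∃ S : Finset (AlgebraicClosure F), ∀ σ : AlgebraicClosure F ≃ₐ[F] AlgebraicClosure F,
      (∀ x ∈ S, σ x = x) → act (inv_bc F W) σ P = P := by
  rcases P with _ | ⟨x, y, hxy⟩
  · exact ⟨∅, fun σ _ => map_zero _⟩
  · refine ⟨{x, y}, fun σ hσ => ?_⟩
    have h1 : σ x = x := hσ x (by simp)
    have h2 : σ y = y := hσ y (by simp)
    refine Eq.trans (pm_some (σ : AlgebraicClosure F →+* AlgebraicClosure F) (inv_bc F W σ) hxy) ?_
    rw [Affine.Point.some.injEq]
    exact ⟨h1, h2⟩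

theorem Ss_pow_inj {K : Type*} [Field K] {z : K} {l : ℕ} (hl : l ≠ 0)
    (hz : IsPrimitiveRoot z l) {a b : ℕ} (h : z ^ a = z ^ b) : a ≡ b [MOD l] := by
  have h1 := (hz.isOfFinOrder hl).pow_eq_pow_iff_modEq.1 h
  rwa [← hz.eq_orderOf] at h1

theorem exists_ZP {F : Type} [Field F] [NumberField F] {w : HeightOneSpectrum (𝓞 F)}
    {A : ValuationSubring (AlgebraicClosure F)}
    {D : Subgroup (AlgebraicClosure F ≃ₐ[F] AlgebraicClosure F)} (h : LS w A D)
    {W : WeierstrassCurve F} [W.IsElliptic]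
    (hE : Integral A (W.baseChange (AlgebraicClosure F)))
    (hΔ : A.valuation (W.baseChange (AlgebraicClosure F)).Δ = 1)
    (h2 : A.valuation (2 : AlgebraicClosure F) = 1) {l : ℕ} (hl : l.Prime) {ζ : F}
    (hζ : IsPrimitiveRoot ζ l) (h1 : A.valuation (l : AlgebraicClosure F) < 1)
    {T : W.toAffine.Point} (hT0 : T ≠ 0) (hTl : l • T = 0) (hT : InE1 A _ (tp W T))
    (hTv : A.valuation (zc _ (tp W T)) ≤
      A.valuation (algebraMap F (AlgebraicClosure F) ζ - 1) ^ 2)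
    {u : F} (hu0 : u ≠ 0) (hu : w.valuation F u < 1) :
    ∃ x : F, ZP l W T ζ A D u x := by
  have hl0 : l ≠ 0 := hl.ne_zero
  have hEl : (W.baseChange (AlgebraicClosure F)).IsElliptic := by
    rw [WeierstrassCurve.baseChange]
    infer_instance
  obtain ⟨R, hRz, hR1, hRD⟩ := exists_R h hE h2 hu0 hu
  obtain ⟨P, hP1, hPR⟩ := div_E1 hE hΔ hl0 R hR1
  have ht0 : tp W T ≠ 0 := fun h0 =>
    hT0 (pm_injective (algebraMap F (AlgebraicClosure F)) rfl (h0.trans (map_zero _).symm))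
  have htl : l • tp W T = 0 := by
    show l • pm (algebraMap F (AlgebraicClosure F)) rfl T = 0
    rw [← map_nsmul, hTl, map_zero]
  have hzp : IsPrimitiveRoot (algebraMap F (AlgebraicClosure F) ζ) l :=
    hζ.map_of_injective (algebraMap F (AlgebraicClosure F)).injective
  have key : ∀ σ : AlgebraicClosure F ≃ₐ[F] AlgebraicClosure F, ∃ a : ℕ, σ ∈ D →
      act (inv_bc F W) σ P - P = a • tp W T := by
    intro σ
    by_cases hσ : σ ∈ D
    · have h3 : InE1 A _ (act (inv_bc F W) σ P - P) :=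
        (InE1.add_sub hE (Ss_inE1_act h hσ hP1) hP1).2.1
      have h4 : l • (act (inv_bc F W) σ P - P) = 0 := by
        rw [nsmul_sub, ← map_nsmul, hPR, hRD σ hσ, sub_self]
      obtain ⟨j, -, hj⟩ := tors_E1 hE hΔ h2 hl (pow_val A hl hzp) h1 ht0 htl hT hTv _ h4 h3
      exact ⟨j, fun _ => hj⟩
    · exact ⟨0, fun h3 => absurd h3 hσ⟩
  choose a ha using key
  have hmul : ∀ σ ∈ D, ∀ τ ∈ D, a (σ * τ) ≡ a σ + a τ [MOD l] := by
    intro σ hσ τ hτ
    rw [← smul_iff hl ht0 htl, ← ha _ (D.mul_mem hσ hτ), add_smul, ← ha σ hσ, ← ha τ hτ,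
      Pool.Agent.H10.act_mul]
    have h3 : act (inv_bc F W) σ (act (inv_bc F W) τ P - P) = act (inv_bc F W) τ P - P := by
      rw [ha τ hτ, map_nsmul, Ss_act_tp]
    rw [map_sub] at h3
    rw [← h3]
    abel
  have hS : ∃ S : Finset (AlgebraicClosure F), ∀ σ ∈ D, (∀ x ∈ S, σ x = x) →
      a σ ≡ 0 [MOD l] := by
    obtain ⟨S, hS⟩ := Ss_coords P
    refine ⟨S, fun σ hσ hx => ?_⟩
    rw [← smul_iff hl ht0 htl, ← ha σ hσ, hS σ hx, sub_self, zero_nsmul]
  obtain ⟨r₀, hr0, hr⟩ := kum_D D hl0 hζ a hmul hS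
  have hy : ∀ σ ∈ D, σ (r₀ ^ l) = r₀ ^ l := by
    intro σ hσ
    rw [map_pow, hr σ hσ, mul_pow, ← pow_mul, mul_comm (a σ) l, pow_mul, hzp.pow_eq_one,
      one_pow, one_mul]
  obtain ⟨x, s, hx0, hs, hys⟩ := fixed_split h hl hζ hy (pow_ne_zero l hr0)
  have hs0 : s ≠ 0 := by
    rintro rfl
    rw [zero_pow hl0, mul_zero] at hys
    exact pow_ne_zero l hr0 hys
  refine ⟨x, r₀ / s, P, R, hx0, ?_, hRz, hR1, hP1, hPR, hRD, ?_⟩
  · rw [div_pow, hys, mul_div_assoc, div_self (pow_ne_zero l hs0), mul_one]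
  · intro σ hσ b hb
    rw [map_div₀, hr σ hσ, hs σ hσ, mul_div_assoc] at hb
    have h3 : algebraMap F (AlgebraicClosure F) ζ ^ a σ =
        algebraMap F (AlgebraicClosure F) ζ ^ b :=
      mul_right_cancel₀ (div_ne_zero hr0 hs0) hb
    rw [ha σ hσ]
    exact (smul_iff hl ht0 htl _ _).2 (Ss_pow_inj hl0 hzp h3)

end H86G
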