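import Pool.Agent.H86.T4G.Ss
import Pool.Agent.H86.T4G.Da

/-!
Row Sw (about 120 lines): different parameters give different classes. Use only the STATEMENTS of Zc, Sb, Se, Lb and the definition ZP.

PROOF. `v := A.valuation`, `z` image of `ζ`, `U, U'` images of `u, u'`, `g := v (z - 1)`; `v U = v U' = v (U + U') = g` (LS.val_eq), `v (U - U') > g^l` (LS.val_lt with `(ζ - 1)^l`: `w.valuation F ((ζ-1)^l) = exp (-l)`).
 Data `r, P, R` for `u, x` and `r', P', R'` for `u', x'`. Suppose `x / x' = s^l` with `s` fixed by `D`. `(r / r')^l = s^l`, so `r / r' = z^i s` and `σ (r / r') = r / r'` for `σ ∈ D`. With `σ r = z^a r`, `σ r' = z^b r'` (kum_a in Da.lean or directly): `z^a = z^b`, and `σ r' = z^a r'` too, so `act σ P - P = a • t = act σ P' - P'`, `Q := P - P'` is fixed by `D`, `Q ∈ E₁`, `l • Q = R - R'`.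
 For `j < l`: `Q + j • t ∈ E₁` (InE1.smul, add_sub) is fixed by `D` (`act σ t = t`), so `v (zc (Q + j • t)) ≤ g^2` (zc_fixed with `lam := ζ - 1`). smul_le: `v (zc (R - R')) ≤ (g^2)^l`.
 zc_prod: `v (zc (R + R')) * v (zc (R - R')) = v (U^2 - U'^2)^2 = v (U - U')^2 * g^2`; zc_add_le: `v (zc (R + R')) ≤ max (v U^2) (v U'^2) = g^2`. So `v (U - U')^2 * g^2 ≤ g^2 * (g^2)^l`, `v (U - U')^2 ≤ (g^l)^2`, contradiction with `v (U - U') > g^l`.
-/

set_option autoImplicit false
open scoped Classical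

open WithZero WeierstrassCurve IsDedekindDomain NumberField Pool.Agent.H10 Pool.Agent.H11 H78D

namespace H86G

theorem Sw_act_tp {F : Type} [Field F] (W : WeierstrassCurve F) (T : W.toAffine.Point)
    (σ : AlgebraicClosure F ≃ₐ[F] AlgebraicClosure F) :
    act (inv_bc F W) σ (tp W T) = tp W T := by
  unfold Pool.Agent.H10.act
  exact (pm_pm _ _ _ _ T).trans (pm_congr _ _ (fun x => σ.commutes x) T)

theorem not_RT {F : Type} [Field F] [NumberField F] {w : HeightOneSpectrum (𝓞 F)}
    {A : ValuationSubring (AlgebraicClosure F)}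
    {D : Subgroup (AlgebraicClosure F ≃ₐ[F] AlgebraicClosure F)} (h : LS w A D)
    {W : WeierstrassCurve F} [W.IsElliptic]
    (hE : Integral A (W.baseChange (AlgebraicClosure F)))
    (hΔ : A.valuation (W.baseChange (AlgebraicClosure F)).Δ = 1)
    (h2 : A.valuation (2 : AlgebraicClosure F) = 1) {l : ℕ} (hl : l.Prime) {ζ : F}
    (hζ : IsPrimitiveRoot ζ l) (hlam : w.valuation F (ζ - 1) = exp (-1 : ℤ))
    {T : W.toAffine.Point} (hT0 : T ≠ 0) (hTl : l • T = 0) (hT : InE1 A _ (tp W T))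
    {u u' x x' : F} (hx : ZP l W T ζ A D u x) (hx' : ZP l W T ζ A D u' x')
    (hu : w.valuation F u = exp (-1 : ℤ)) (hu' : w.valuation F u' = exp (-1 : ℤ))
    (hs : w.valuation F (u + u') = exp (-1 : ℤ))
    (hd : exp (-(l : ℤ)) < w.valuation F (u - u')) : ¬ RT l D (x / x') := by
  rintro ⟨s, hsD, hsl⟩
  obtain ⟨r, P, R, hx0, hr, hzR, hR, hP, hlP, hRD, hσ⟩ := hx
  obtain ⟨r', P', R', hx0', hr', hzR', hR', hP', hlP', hRD', hσ'⟩ := hx'
  have : NeZero l := ⟨hl.ne_zero⟩
  have hz : IsPrimitiveRoot (algebraMap F (AlgebraicClosure F) ζ) l :=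
    hζ.map_of_injective (algebraMap F (AlgebraicClosure F)).injective
  have hX0 : algebraMap F (AlgebraicClosure F) x ≠ 0 := (map_ne_zero _).2 hx0
  have hX0' : algebraMap F (AlgebraicClosure F) x' ≠ 0 := (map_ne_zero _).2 hx0'
  have hr0 : r ≠ 0 := by
    rintro rfl
    rw [zero_pow hl.ne_zero] at hr
    exact hX0 hr.symm
  have hr0' : r' ≠ 0 := by
    rintro rfl
    rw [zero_pow hl.ne_zero] at hr'
    exact hX0' hr'.symm
  have hs0 : s ≠ 0 := by
    rintro rfl
    rw [zero_pow hl.ne_zero, map_div₀] at hsl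
    exact div_ne_zero hX0 hX0' hsl.symm
  have hq : (r / (s * r')) ^ l = 1 := by
    rw [div_pow, mul_pow, hr, hsl, hr', map_div₀, div_mul_cancel₀ _ hX0', div_self hX0]
  obtain ⟨i, -, hi⟩ := hz.eq_pow_of_pow_eq_one hq
  have hri : r = algebraMap F (AlgebraicClosure F) ζ ^ i * (s * r') := by
    rw [hi, div_mul_cancel₀ _ (mul_ne_zero hs0 hr0')]
  have hfix : ∀ σ ∈ D, act (inv_bc F W) σ (P - P') = P - P' := by
    intro σ hσD
    obtain ⟨b, hb⟩ := kum_a hl.ne_zero hζ hx0' hr' σ
    have h1 : σ r = algebraMap F (AlgebraicClosure F) ζ ^ b * r := by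
      rw [hri, map_mul, map_mul, map_pow, σ.commutes, hsD σ hσD, hb]
      ring
    have e1 := hσ σ hσD b h1
    have e2 := hσ' σ hσD b hb
    rw [map_sub]
    have e3 : act (inv_bc F W) σ P = b • tp W T + P := by rw [← e1]; abel
    have e4 : act (inv_bc F W) σ P' = b • tp W T + P' := by rw [← e2]; abel
    rw [e3, e4]
    abel
  have hQ : InE1 A _ (P - P') := (InE1.add_sub hE hP hP').2.1
  have hT0' : tp W T ≠ 0 := by
    intro h0
    exact hT0 (pm_injective (algebraMap F (AlgebraicClosure F)) rfl (h0.trans (map_zero _).symm))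
  have hTl' : l • tp W T = 0 :=
    (map_nsmul (pm (algebraMap F (AlgebraicClosure F)) rfl) l T).symm.trans
      ((congrArg (pm (algebraMap F (AlgebraicClosure F)) rfl) hTl).trans (map_zero _))
  have hg := smul_le hE hΔ h2 hl hT0' hTl' hT hQ
    (A.valuation (algebraMap F (AlgebraicClosure F) (ζ - 1)) ^ 2) (by
      intro j _
      refine zc_fixed h hE hlam (InE1.add_sub hE hQ (hT.smul hE j).1).1 ?_
      intro σ hσD
      rw [map_add, hfix σ hσD, map_nsmul, Sw_act_tp])
  have hlQ : l • (P - P') = R - R' := by rw [nsmul_sub, hlP, hlP']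
  rw [hlQ] at hg
  have hU : A.valuation (algebraMap F (AlgebraicClosure F) u) =
      A.valuation (algebraMap F (AlgebraicClosure F) (ζ - 1)) := (h.val_eq _ _).2 (hu.trans hlam.symm)
  have hU' : A.valuation (algebraMap F (AlgebraicClosure F) u') =
      A.valuation (algebraMap F (AlgebraicClosure F) (ζ - 1)) := (h.val_eq _ _).2 (hu'.trans hlam.symm)
  have hS : A.valuation (algebraMap F (AlgebraicClosure F) (u + u')) =
      A.valuation (algebraMap F (AlgebraicClosure F) (ζ - 1)) := (h.val_eq _ _).2 (hs.trans hlam.symm)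
  have hD' : A.valuation (algebraMap F (AlgebraicClosure F) (ζ - 1)) ^ l <
      A.valuation (algebraMap F (AlgebraicClosure F) (u - u')) := by
    rw [← map_pow, ← map_pow]
    refine (h.val_lt _ _).2 ?_
    rw [map_pow, hlam, ← exp_nsmul]
    have e : l • (-1 : ℤ) = -(l : ℤ) := by simp
    rw [e]
    exact hd
  have hprod := zc_prod hE hR hR'
  have hadd := zc_add_le hE hR hR'
  rw [hzR, hzR', map_pow, map_pow, hU, hU', max_self] at hadd
  have hfac : zc (W.baseChange (AlgebraicClosure F)) R - zc (W.baseChange (AlgebraicClosure F)) R' =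
      algebraMap F (AlgebraicClosure F) (u + u') * algebraMap F (AlgebraicClosure F) (u - u') := by
    rw [hzR, hzR', map_add, map_sub]
    ring
  rw [hfac, map_mul, hS] at hprod
  set g := A.valuation (algebraMap F (AlgebraicClosure F) (ζ - 1)) with hgdef
  set d := A.valuation (algebraMap F (AlgebraicClosure F) (u - u')) with hddef
  have hg0 : 0 < g := by
    rw [zero_lt_iff]
    intro h0
    have h3 : w.valuation F (ζ - 1) ≠ 0 := by rw [hlam]; exact exp_ne_zero
    have h4 : ζ - 1 ≠ 0 := by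
      intro h5
      rw [h5, map_zero] at h3
      exact h3 rfl
    rw [hgdef, map_eq_zero, map_eq_zero] at h0
    exact h4 h0
  have hle : (g * d) ^ 2 ≤ g ^ 2 * (g ^ 2) ^ l := by
    rw [← hprod]
    exact mul_le_mul' hadd hg
  rw [mul_pow, ← pow_mul, mul_comm 2 l, pow_mul] at hle
  have hlt : (g ^ l) ^ 2 < d ^ 2 := by
    rw [sq, sq]
    exact mul_lt_mul'' hD' hD' zero_le zero_le
  have := mul_lt_mul_of_pos_left hlt (pow_pos hg0 2)
  exact absurd hle (not_le.2 this)

end H86G
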