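import Pool.Agent.H86.T4G.Wd
import Pool.Agent.H11.Inert

/-!
Row Wj (about 130 lines): elements of the inertia group.

`v := w.valuation F`.
PROOF of inI_val. `τ` maps `w.asIdeal` to itself (`τ x = x + (τ x - x)`, and `τ⁻¹` is in the inertia group too), so `v (τ x) = v x` for all `x : F` (w.valuation is determined by the ideal: HeightOneSpectrum valuation under an automorphism; e.g. `v ∘ τ` and `v` : see sw_val in H86/T3D/Tp.lean or inertia_not_le in H11/Inert.lean), and `v (τ x - x) < 1` if `v x ≤ 1` (inertia_sub_lt in H11/Inert.lean, with the group `F ≃ₐ[L] F` acting on `𝓞 F` and `F`; or write `x = a / b` with `b ∉ w.asIdeal`, `a, b ∈ 𝓞 F`: `τ a / τ b - a / b = ((τ a - a) b - a (τ b - b)) / (b τ b)`).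
PROOF of tame_inj. `n := orderOf τ > 0`, `v n = 1` by hypothesis. Claim: for all `i ≥ 1` and all `x` with `v x ≤ 1`: `v (τ x - x) ≤ exp (-i)`. `i = 1`: inI_val. Step: for `y` with `v y ≤ exp (-i)`, `y = π^i c`, `v c ≤ 1`: `τ y - y = (τ π / π)^i π^i τ c - π^i c = π^i ((τ π / π)^i τ c - c)`, `v (τ π / π - 1) ≤ exp (-1)`, `v (τ c - c) ≤ exp (-1)`, so `v (τ y - y) ≤ exp (-(i+1))`. With `h := τ x - x` (`v h ≤ exp (-i)`): `τ^j h ≡ h` modulo `exp (-(i+1))` for all `j` (induction), `0 = τ^n x - x = ∑_{j<n} τ^j h ≡ n h`, so `v (n h) = v h ≤ exp (-(i+1))`.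
 Hence `v (τ x - x) = 0`... i.e. `τ x = x` for every `x` with `v x ≤ 1` (otherwise `v (τ x - x) = exp (-k)` for some `k`), in particular for `x ∈ 𝓞 F`, so `τ = 1`.
-/

set_option autoImplicit false
open scoped Classical

open WithZero WeierstrassCurve IsDedekindDomain NumberField Pool.Agent.H10 Pool.Agent.H11 H78D

namespace H86G

variable {L F : Type} [Field L] [NumberField L] [Field F] [NumberField F] [Algebra L F]
  {w : HeightOneSpectrum (𝓞 F)} {τ : F ≃ₐ[L] F}

theorem Wj_le {x : WithZero (Multiplicative ℤ)} (hx : x < 1) : x ≤ exp (-1 : ℤ) := by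
  rw [← lt_mul_exp_iff_le exp_ne_zero, ← exp_add]
  simpa using hx

theorem Wj_sub_lt (h : InI w τ) (x : F) (hx : w.valuation F x ≤ 1) :
    w.valuation F (τ x - x) < 1 := by
  obtain ⟨n, d, hnd⟩ := w.exists_primeCompl_mul_eq_of_integer x hx
  have hd : (d : 𝓞 F) ∉ w.asIdeal := d.2
  set g : 𝓞 F ≃+* 𝓞 F := RingOfIntegers.mapRingEquiv (τ : F ≃+* F) with hgdef
  have hg : ∀ b : 𝓞 F, algebraMap (𝓞 F) F (g b) = τ (algebraMap (𝓞 F) F b) := fun b => rfl
  have hd' : g (d : 𝓞 F) ∉ w.asIdeal := by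
    intro h'
    apply hd
    have h1 := w.asIdeal.sub_mem h' (h d)
    rwa [sub_sub_cancel] at h1
  have h1 : w.valuation F (algebraMap (𝓞 F) F d) = 1 := w.valuation_eq_one_iff_notMem.mpr hd
  have h2 : w.valuation F (algebraMap (𝓞 F) F (g (d : 𝓞 F))) = 1 :=
    w.valuation_eq_one_iff_notMem.mpr hd'
  have h3 : τ x * algebraMap (𝓞 F) F (g (d : 𝓞 F)) = algebraMap (𝓞 F) F (g n) := by
    rw [hg, hg, ← hnd, map_mul]
  have h4 : (τ x - x) * algebraMap (𝓞 F) F d * algebraMap (𝓞 F) F (g (d : 𝓞 F)) =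
      algebraMap (𝓞 F) F ((g n - n) * d - n * (g (d : 𝓞 F) - d)) := by
    simp only [map_sub, map_mul]
    rw [← h3, ← hnd]
    ring
  have h5 : ((g n - n) * d - n * (g (d : 𝓞 F) - d)) ∈ w.asIdeal :=
    w.asIdeal.sub_mem (w.asIdeal.mul_mem_right _ (h n)) (w.asIdeal.mul_mem_left _ (h d))
  have h6 : w.valuation F (τ x - x) =
      w.valuation F ((τ x - x) * algebraMap (𝓞 F) F d * algebraMap (𝓞 F) F (g (d : 𝓞 F))) := by
    rw [map_mul, map_mul, h1, h2, mul_one, mul_one]
  rw [h6, h4]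
  exact (w.valuation_lt_one_iff_mem _).mpr h5

theorem Wj_pow_sub {v : Valuation F (WithZero (Multiplicative ℤ))} {u : F}
    (hu : v (u - 1) ≤ exp (-1 : ℤ)) (m : ℕ) : v (u ^ m - 1) ≤ exp (-1 : ℤ) := by
  have hle : exp (-1 : ℤ) ≤ (1 : WithZero (Multiplicative ℤ)) := by
    rw [← exp_zero, exp_le_exp]
    norm_num
  have hu1 : v u ≤ 1 := by
    have h1 : u = (u - 1) + 1 := by ring
    rw [h1]
    exact Valuation.map_add_le v (hu.trans hle) (map_one v).le
  induction m with
  | zero => simp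
  | succ m ih =>
    have h2 : u ^ (m + 1) - 1 = (u ^ m - 1) * u + (u - 1) := by ring
    rw [h2]
    refine Valuation.map_add_le v ?_ hu
    rw [map_mul]
    exact (mul_le_mul' ih hu1).trans (mul_one _).le

theorem inI_val (h : InI w τ) :
    (∀ x, w.valuation F (τ x) = w.valuation F x) ∧
      ∀ x, w.valuation F x ≤ 1 → w.valuation F (τ x - x) < 1 := by
  refine ⟨?_, Wj_sub_lt h⟩
  obtain ⟨w', h1, -⟩ := exists_conj τ w
  have h2 : w = w' := by
    apply HeightOneSpectrum.ext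
    refine w.isMaximal.eq_of_le w'.isPrime.ne_top ?_
    intro y hy
    have h3 : w.valuation F (y : F) < 1 := (HeightOneSpectrum.valuation_lt_one_iff_mem w _).2 hy
    have h4 := Wj_sub_lt h (y : F) h3.le
    have h5 : w.valuation F (τ (y : F)) < 1 := by
      have h6 := Valuation.map_add_lt _ h4 h3
      rwa [sub_add_cancel] at h6
    rw [h1] at h5
    exact (HeightOneSpectrum.valuation_lt_one_iff_mem w' _).1 h5
  intro x
  rw [h1, ← h2]

theorem tame_inj (h : InI w τ) (hn : w.valuation F ((orderOf τ : ℕ) : F) = 1) {π : F}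
    (hπ : w.valuation F π = exp (-1 : ℤ)) (h2 : w.valuation F (τ π - π) ≤ exp (-2 : ℤ)) :
    τ = 1 := by
  obtain ⟨hv, hs⟩ := inI_val h
  have hint : ∀ a : 𝓞 F, w.valuation F (algebraMap (𝓞 F) F a) ≤ 1 := w.valuation_le_one
  obtain ⟨v, hvdef⟩ : ∃ v, v = w.valuation F := ⟨_, rfl⟩
  rw [← hvdef] at hv hs hn hπ h2 hint
  have hπ0 : π ≠ 0 := by
    rintro rfl
    rw [map_zero] at hπ
    exact exp_ne_zero hπ.symm
  have hu : v (τ π / π - 1) ≤ exp (-1 : ℤ) := by
    have h3 : τ π / π - 1 = (τ π - π) / π := by rw [sub_div, div_self hπ0]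
    have h4 : (-1 : ℤ) + -1 = -2 := by norm_num
    rw [h3, map_div₀, hπ, div_le_iff₀ (zero_lt_iff.2 exp_ne_zero), ← exp_add, h4]
    exact h2
  have hA : ∀ (m : ℕ) (y : F), v y ≤ exp (-(m : ℤ)) →
      v (τ y - y) ≤ exp (-((m + 1 : ℕ) : ℤ)) := by
    intro m y hy
    obtain ⟨c, hc⟩ : ∃ c, c = y / π ^ m := ⟨_, rfl⟩
    have hy' : y = π ^ m * c := by
      rw [hc, mul_div_cancel₀]
      exact pow_ne_zero m hπ0
    have h7 : exp (-1 : ℤ) ^ m = (exp (-(m : ℤ)) : WithZero (Multiplicative ℤ)) := by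
      rw [← exp_nsmul]
      simp
    have hvc : v c ≤ 1 := by
      rw [hc, map_div₀, map_pow, hπ, h7, div_le_iff₀ (zero_lt_iff.2 exp_ne_zero), one_mul]
      exact hy
    have h3 : τ y - y = π ^ m * ((τ π / π) ^ m * τ c - c) := by
      rw [hy', map_mul, map_pow, div_pow]
      field_simp
    have h4 : (τ π / π) ^ m * τ c - c = ((τ π / π) ^ m - 1) * τ c + (τ c - c) := by ring
    have h5 : (exp (-((m + 1 : ℕ) : ℤ)) : WithZero (Multiplicative ℤ)) =
        exp (-1 : ℤ) ^ m * exp (-1 : ℤ) := by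
      rw [h7, ← exp_add]
      congr 1
      push_cast
      ring
    rw [h3, h4, map_mul, map_pow, hπ, h5]
    refine mul_le_mul' le_rfl (Valuation.map_add_le v ?_ (Wj_le (hs c hvc)))
    rw [map_mul, hv]
    exact (mul_le_mul' (Wj_pow_sub hu m) hvc).trans (mul_one _).le
  have hB : ∀ (m : ℕ) (y : F), v y ≤ exp (-(m : ℤ)) → ∀ j : ℕ,
      v ((τ ^ j) y - y) ≤ exp (-((m + 1 : ℕ) : ℤ)) := by
    intro m y hy j
    induction j with
    | zero =>
      rw [pow_zero, AlgEquiv.one_apply, sub_self, map_zero]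
      exact zero_le
    | succ j ih =>
      have h3 : (τ ^ (j + 1)) y - y = τ ((τ ^ j) y - y) + (τ y - y) := by
        rw [pow_succ', AlgEquiv.mul_apply, map_sub]
        ring
      rw [h3]
      refine Valuation.map_add_le v ?_ (hA m y hy)
      rw [hv]
      exact ih
  have hC : ∀ (i : ℕ) (x : F), v x ≤ 1 → v (τ x - x) ≤ exp (-(i : ℤ)) := by
    intro i
    induction i with
    | zero =>
      intro x hx
      simpa using (hs x hx).le
    | succ i ih =>
      intro x hx
      have h3 : ∀ k : ℕ,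
          v ((τ ^ k) x - x - (k : F) * (τ x - x)) ≤ exp (-((i + 1 : ℕ) : ℤ)) := by
        intro k
        induction k with
        | zero =>
          rw [pow_zero, AlgEquiv.one_apply, sub_self, Nat.cast_zero, zero_mul, sub_zero, map_zero]
          exact zero_le
        | succ k ihk =>
          have h4 : (τ ^ (k + 1)) x - x - ((k + 1 : ℕ) : F) * (τ x - x) =
              ((τ ^ k) x - x - (k : F) * (τ x - x)) + ((τ ^ k) (τ x - x) - (τ x - x)) := by
            rw [pow_succ, AlgEquiv.mul_apply, map_sub]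
            push_cast
            ring
          rw [h4]
          exact Valuation.map_add_le v ihk (hB i _ (ih x hx) k)
      have h5 := h3 (orderOf τ)
      rw [pow_orderOf_eq_one, AlgEquiv.one_apply, sub_self, zero_sub, Valuation.map_neg, map_mul,
        hn, one_mul] at h5
      exact h5
  have hD : ∀ x : F, v x ≤ 1 → τ x = x := by
    intro x hx
    by_contra hne
    have h6 : v (τ x - x) ≠ 0 := by
      rw [Ne, Valuation.zero_iff, sub_eq_zero]
      exact hne
    obtain ⟨k, hk⟩ := exists_exp_neg_natCast_lt h6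
    exact absurd (hC k x hx) (not_le.2 hk)
  apply AlgEquiv.ext
  intro x
  obtain ⟨a, b, hb, rfl⟩ := IsFractionRing.div_surjective (A := 𝓞 F) x
  rw [AlgEquiv.one_apply, map_div₀, hD _ (hint a), hD _ (hint b)]

end H86G
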