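import Pool.Agent.H86.T4G.Wj
import Pool.Agent.H86.T4G.Gx

/-!
Row Wk (about 200 lines): the levels between `2` and `l`. Use only the STATEMENTS of Wj, Gx.

`v := 𝔓.valuation F`, `π := ζ - 1`, `v π = exp (-1)`.
pow_close. PROOF: `v (Y^l - 1) < 1`: `v Y = 1` and `(Y - 1)^l ≡ Y^l - 1` modulo `l` (`l` odd prime: `(Y - 1)^l - (Y^l - 1)` is `l` times an integral element, add_pow_char-like; `sub_pow_char` in the residue field of characteristic `l`), `v l < 1`, so `v (Y - 1) < 1`, `v (Y - 1) ≤ exp (-1)`. `Y^l - 1 = ∏_{j<l} (Y - ζ^j)` (IsPrimitiveRoot.pow_sub_pow_eq_prod_sub_mul / X_pow_sub_one_eq_prod) and `v (Y - ζ^j) ≤ max (v (Y - 1)) (v (ζ^j - 1)) ≤ exp (-1)`. So `v (Y^l - 1) ≤ exp (-l)`.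
 (`v l = v π ^ (l-1) < 1`: `l = ∏_{0<k<l} (1 - ζ^k)`; or: `v l < 1` because `π` divides `l`, `l = ∏ ...`; IsPrimitiveRoot lemmas; see pow_val in Rt.lean.)
step. PROOF: `x = z^l x'`, `v (x' - 1) ≤ exp (-i)`, `1 ≤ i`. For `δ` with `δ ζ = ζ^w₀`, `v (δ y) = v y` for all `y`, `v (δ y - y) < 1` not needed: from hE: `δ x = x^n y^l` so `δ x' = x'^n Y^l`, `Y = z^n y / δ z`. `v (Y^l - 1) < 1` because `δ x'`, `x'^n` are congruent to one, so `v (Y^l - 1) ≤ exp (-l)` by pow_close. This is eig_close.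
kill. PROOF: by induction on `i`, `2 ≤ i ≤ l`: Lv v l i x. Given it for `i < l` with `z`, `x' = x / z^l = 1 + a π^i`, `v a ≤ 1`. eig_close with `δ := τ`, `c = 1`, `n = w = m`: `v (τ x' - x'^m) ≤ exp (-(i+1))` (as `i + 1 ≤ l`). `τ x' - 1 = τ a * (τ π)^i`, `τ π = ζ^m - 1 = π (1 + ζ + ... ) ≡ m π` modulo `π^2`, so `τ x' - 1 ≡ a m^i π^i` modulo `exp (-(i+1))` (`v (τ a - a) < 1`, inI_val). `x'^m - 1 ≡ m a π^i` (the other terms of the binomial formula are divisible by `π^(2i)`; geometric sum). So `v (a (m^i - m)) < 1`; `m^i - m = m (m^(i-1) - 1)` with `l ∤ m` (`τ ζ ≠ 1`) and `m^(i-1) ≢ 1` modulo `l` (`0 < i - 1 < l - 1`), so `v (m^i - m) = 1` (an integer prime to `l` is a unit at `𝔓`) and `v a < 1`, `v (x' - 1) ≤ exp (-(i+1))`.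
-/

set_option autoImplicit false
open scoped Classical

open WithZero WeierstrassCurve IsDedekindDomain NumberField Pool.Agent.H10 Pool.Agent.H11 H78D

namespace H86G

section Wk

variable {F : Type} [Field F] {v : Valuation F (WithZero (Multiplicative ℤ))}

lemma Wk_disc {a : WithZero (Multiplicative ℤ)} {n : ℤ} (h : a < exp n) : a ≤ exp (n - 1) := by
  rcases eq_or_ne a 0 with rfl | ha
  · exact zero_le
  · rw [← exp_log ha] at h ⊢
    rw [exp_lt_exp] at h
    rw [exp_le_exp]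
    omega

lemma Wk_lt1 {n : ℕ} (hn : 1 ≤ n) : (exp (-(n : ℤ)) : WithZero (Multiplicative ℤ)) < 1 := by
  rw [← exp_zero, exp_lt_exp]
  omega

lemma Wk_one_of {x : F} (h : v (x - 1) < 1) : v x = 1 := by
  have h1 : v x = v (1 + (x - 1)) := by rw [add_sub_cancel]
  rw [h1, Valuation.map_add_eq_of_lt_left, map_one]
  rwa [map_one]

lemma Wk_pow_sub {y : F} (hy : v y ≤ 1) (m : ℕ) : v (y ^ m - 1) ≤ v (y - 1) := by
  rw [← geom_sum_mul, map_mul]
  have h1 : v (∑ i ∈ Finset.range m, y ^ i) ≤ 1 :=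
    v.map_sum_le fun i _ => by rw [map_pow]; exact pow_le_one₀ zero_le hy
  calc _ ≤ 1 * v (y - 1) := mul_le_mul_left h1 _
    _ = _ := one_mul _

lemma Wk_mul {x y x' y' : F} (hx : v x ≤ 1) (hy : v y' ≤ 1) (h1 : v (x - x') < 1)
    (h2 : v (y - y') < 1) : v (x * y - x' * y') < 1 := by
  have h3 : x * y - x' * y' = x * (y - y') + (x - x') * y' := by ring
  rw [h3]
  refine v.map_add_lt ?_ ?_
  · rw [map_mul]
    exact mul_lt_one_of_nonneg_of_lt_one_right hx zero_le h2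
  · rw [map_mul]
    exact mul_lt_one_of_nonneg_of_lt_one_left zero_le h1 hy

lemma Wk_powc {x y : F} (hx : v x ≤ 1) (hy : v y ≤ 1) (h : v (x - y) < 1) (n : ℕ) :
    v (x ^ n - y ^ n) < 1 := by
  induction n with
  | zero => rw [pow_zero, pow_zero, sub_self, map_zero]; exact zero_lt_one
  | succ n ih =>
    rw [pow_succ, pow_succ]
    exact Wk_mul (by rw [map_pow]; exact pow_le_one₀ zero_le hx) hy ih h

lemma Wk_nat (n : ℕ) : v (n : F) ≤ 1 := by
  induction n with
  | zero => rw [Nat.cast_zero, map_zero]; exact zero_le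
  | succ n ih =>
    rw [Nat.cast_succ]
    exact v.map_add_le ih (by rw [map_one])

lemma Wk_int (n : ℤ) : v (n : F) ≤ 1 := by
  rcases n.natAbs_eq with h | h
  · rw [h, Int.cast_natCast]
    exact Wk_nat _
  · rw [h, Int.cast_neg, Int.cast_natCast, Valuation.map_neg]
    exact Wk_nat _

lemma Wk_zeta {l : ℕ} (hl : l.Prime) {ζ : F} (hζ : ζ ^ l = 1) : v ζ = 1 := by
  have h1 : v ζ ^ l = 1 := by rw [← map_pow, hζ, map_one]
  exact (pow_eq_one_iff.1 h1).resolve_right hl.ne_zero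

lemma Wk_zj {l : ℕ} (hl : l.Prime) {ζ : F} (hζ : IsPrimitiveRoot ζ l)
    (hlam : v (ζ - 1) = exp (-1 : ℤ)) (j : ℕ) : v (ζ ^ j - 1) ≤ exp (-1 : ℤ) := by
  rw [← hlam]
  exact Wk_pow_sub (Wk_zeta hl hζ.pow_eq_one).le j

lemma Wk_exp1 : (exp (-1 : ℤ) : WithZero (Multiplicative ℤ)) < 1 := by
  rw [← exp_zero, exp_lt_exp]
  norm_num

lemma Wk_l {l : ℕ} (hl : l.Prime) {ζ : F} (hζ : IsPrimitiveRoot ζ l)
    (hlam : v (ζ - 1) = exp (-1 : ℤ)) : v (l : F) < 1 := by
  obtain ⟨n, rfl⟩ : ∃ n, l = n + 1 := ⟨l - 1, by have := hl.pos; omega⟩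
  have h1 := hζ.prod_one_sub_pow_eq_order
  have h2 : (((n + 1 : ℕ)) : F) = ∏ k ∈ Finset.range n, (1 - ζ ^ (k + 1)) := by
    rw [h1]; push_cast; ring
  obtain ⟨k, rfl⟩ : ∃ k, n = k + 1 := ⟨n - 1, by have := hl.two_le; omega⟩
  rw [h2, Finset.prod_range_succ, map_mul, map_prod]
  have h3 : ∀ j : ℕ, v (1 - ζ ^ j) ≤ exp (-1 : ℤ) := fun j => by
    rw [Valuation.map_sub_swap]
    exact Wk_zj hl hζ hlam j
  refine mul_lt_one_of_nonneg_of_lt_one_right ?_ zero_le (lt_of_le_of_lt (h3 _) Wk_exp1)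
  exact Finset.prod_le_one' fun j _ => le_trans (h3 _) Wk_exp1.le

lemma Wk_unit {l : ℕ} (hl : l.Prime) (h : v (l : F) < 1) {n : ℤ} (hn : ¬ (l : ℤ) ∣ n) :
    v (n : F) = 1 := by
  have hc : IsCoprime (l : ℤ) n := by
    rw [Int.isCoprime_iff_gcd_eq_one]
    have := (Nat.Prime.coprime_iff_not_dvd hl (n := n.natAbs)).2 (fun hd => hn (Int.natCast_dvd.2 hd))
    simpa [Int.gcd] using this
  obtain ⟨a, b, hab⟩ := hc
  refine le_antisymm (Wk_int n) ?_
  by_contra hcon
  push Not at hcon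
  have h1 : v ((a : F) * (l : F) + (b : F) * (n : F)) < 1 := by
    refine v.map_add_lt ?_ ?_
    · rw [map_mul]
      exact mul_lt_one_of_nonneg_of_lt_one_right (Wk_int a) zero_le h
    · rw [map_mul]
      exact mul_lt_one_of_nonneg_of_lt_one_right (Wk_int b) zero_le hcon
  have h2 : (a : F) * (l : F) + (b : F) * (n : F) = 1 := by
    have := congrArg (Int.cast : ℤ → F) hab
    push_cast at this
    exact this
  rw [h2, map_one] at h1
  exact lt_irrefl _ h1

end Wk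

theorem pow_close {F : Type} [Field F] {v : Valuation F (WithZero (Multiplicative ℤ))} {l : ℕ}
    (hl : l.Prime) {ζ : F} (hζ : IsPrimitiveRoot ζ l) (hlam : v (ζ - 1) = exp (-1 : ℤ)) {Y : F}
    (hY : v (Y ^ l - 1) < 1) : v (Y - 1) < 1 ∧ v (Y ^ l - 1) ≤ exp (-(l : ℤ)) := by
  have hlt := Wk_exp1
  have hz : ∀ j, v (ζ ^ j - 1) ≤ exp (-1 : ℤ) := Wk_zj hl hζ hlam
  have hY1 : v Y = 1 := by
    have h1 : v (Y ^ l) = 1 := Wk_one_of hY
    rw [map_pow] at h1
    exact (pow_eq_one_iff.1 h1).resolve_right hl.ne_zero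
  have hprod : Y ^ l - 1 = ∏ μ ∈ Polynomial.nthRootsFinset l (1 : F), (Y - μ) := by
    have h1 := hζ.pow_sub_pow_eq_prod_sub_mul Y 1 hl.pos
    rw [one_pow] at h1
    rw [h1]
    exact Finset.prod_congr rfl (fun μ _ => by rw [mul_one])
  have hroot : ∀ μ ∈ Polynomial.nthRootsFinset l (1 : F), v (μ - 1) ≤ exp (-1 : ℤ) := by
    intro μ hμ
    rw [Polynomial.mem_nthRootsFinset hl.pos] at hμ
    have : NeZero l := ⟨hl.ne_zero⟩
    obtain ⟨j, _, rfl⟩ := hζ.eq_pow_of_pow_eq_one hμ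
    exact hz j
  have hA : v (Y - 1) < 1 := by
    by_contra hcon
    push Not at hcon
    have h1 : v (Y - 1) ≤ 1 := by
      refine v.map_sub_le hY1.le (by rw [map_one])
    have h2 : v (Y - 1) = 1 := le_antisymm h1 hcon
    have h3 : ∀ μ ∈ Polynomial.nthRootsFinset l (1 : F), v (Y - μ) = 1 := by
      intro μ hμ
      have h4 : Y - μ = (Y - 1) - (μ - 1) := by ring
      rw [h4, Valuation.map_sub_eq_of_lt_left, h2]
      rw [h2]
      exact lt_of_le_of_lt (hroot μ hμ) hlt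
    rw [hprod, map_prod, Finset.prod_congr rfl h3, Finset.prod_const_one] at hY
    exact lt_irrefl _ hY
  refine ⟨hA, ?_⟩
  have hA' : v (Y - 1) ≤ exp (-1 : ℤ) := by
    have h1 : v (Y - 1) < exp 0 := by rw [exp_zero]; exact hA
    have h2 := Wk_disc h1
    rwa [zero_sub] at h2
  rw [hprod, map_prod]
  have h5 : ∏ μ ∈ Polynomial.nthRootsFinset l (1 : F), v (Y - μ)
      ≤ ∏ _μ ∈ Polynomial.nthRootsFinset l (1 : F), exp (-1 : ℤ) := by
    refine Finset.prod_le_prod' fun μ hμ => ?_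
    have h4 : Y - μ = (Y - 1) - (μ - 1) := by ring
    rw [h4]
    exact v.map_sub_le hA' (hroot μ hμ)
  refine le_trans h5 ?_
  rw [Finset.prod_const, hζ.card_nthRootsFinset, ← exp_nsmul, exp_le_exp]
  simp

theorem eig_close {l : ℕ} {L F : Type} [Field L] [NumberField L] [Field F] [NumberField F]
    [Algebra L F] {V : WeierstrassCurve L} {W : WeierstrassCurve F}
    {hV : V.map (algebraMap L F) = W} {T : W.toAffine.Point} {ζ : F} (H : DG l hV T ζ)
    {v : Valuation F (WithZero (Multiplicative ℤ))} (hlam : v (ζ - 1) = exp (-1 : ℤ)) {x : F}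
    (hE : Eig l hV T ζ x) (δ : F ≃ₐ[L] F) (hδ : ∀ y, v (δ y) = v y) {c n w₀ : ℕ}
    (hc : gp hV δ T = c • T) (hw₀ : δ ζ = ζ ^ w₀) (hcn : c * n ≡ w₀ [MOD l]) {z : F}
    (hz : v z = 1) (hx : v (x / z ^ l - 1) < 1) :
    v (δ (x / z ^ l) - (x / z ^ l) ^ n) ≤ exp (-(l : ℤ)) := by
  have hz0 : z ≠ 0 := fun h => by rw [h, map_zero] at hz; exact zero_ne_one hz
  have hδz : δ z ≠ 0 := fun h => hz0 ((map_eq_zero δ).1 h)
  obtain ⟨y, hy⟩ := hE δ c n w₀ hc hw₀ hcn
  set x' : F := x / z ^ l with hx'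
  have hxx : x = x' * z ^ l := by rw [hx', div_mul_cancel₀ _ (pow_ne_zero _ hz0)]
  have hx1 : v x' = 1 := Wk_one_of hx
  have hx0 : x' ≠ 0 := fun h => by rw [h, map_zero] at hx1; exact zero_ne_one hx1
  set Y : F := z ^ n * y / δ z with hYdef
  have hδx : δ x' = x' ^ n * Y ^ l := by
    have h1 : δ x' = δ x / (δ z) ^ l := by rw [hx', map_div₀, map_pow]
    have h2 : δ x = x' ^ n * (z ^ n * y) ^ l := by
      rw [hy]
      conv_lhs => rw [hxx]
      rw [mul_pow, mul_pow, ← pow_mul, ← pow_mul, mul_comm l n, mul_assoc]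
    rw [h1, h2, hYdef, mul_div_assoc, ← div_pow]
  have h2 : v (δ x' - 1) < 1 := by
    have h3 : δ x' - 1 = δ (x' - 1) := by rw [map_sub, map_one]
    rw [h3, hδ]
    exact hx
  have h3 : v (x' ^ n - 1) < 1 := lt_of_le_of_lt (Wk_pow_sub hx1.le n) hx
  have hn1 : v (x' ^ n) = 1 := Wk_one_of h3
  have h4 : v (δ x' - x' ^ n) < 1 := by
    have h5 : δ x' - x' ^ n = (δ x' - 1) - (x' ^ n - 1) := by ring
    rw [h5]
    exact v.map_sub_lt h2 h3
  have h6 : δ x' - x' ^ n = x' ^ n * (Y ^ l - 1) := by rw [hδx]; ring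
  rw [h6, map_mul, hn1, one_mul] at h4 ⊢
  exact (pow_close H.prime H.prim hlam h4).2

theorem kill {l : ℕ} {L F : Type} [Field L] [NumberField L] [Field F] [NumberField F]
    [Algebra L F] {V : WeierstrassCurve L} {W : WeierstrassCurve F}
    {hV : V.map (algebraMap L F) = W} {T : W.toAffine.Point} {ζ : F} (H : DG l hV T ζ)
    (𝔓 : HeightOneSpectrum (𝓞 F)) (hlam : 𝔓.valuation F (ζ - 1) = exp (-1 : ℤ))
    {τ : F ≃ₐ[L] F} {m : ℕ} (hτ : InI 𝔓 τ) (hm : τ ζ = ζ ^ m)
    (hord : ∀ j, 0 < j → j < l - 1 → ¬ (m ^ j ≡ 1 [MOD l])) (hT : gp hV τ T = T) {x : F}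
    (hE : Eig l hV T ζ x) (h2 : Lv (𝔓.valuation F) l 2 x) : Lv (𝔓.valuation F) l l x := by
  have hl := H.prime
  set v := 𝔓.valuation F with hv
  obtain ⟨hI1, hI2⟩ := inI_val hτ
  have hlv : v (l : F) < 1 := Wk_l hl H.prim hlam
  have hζ1 : v ζ = 1 := Wk_zeta hl H.prim.pow_eq_one
  have hπ0 : ζ - 1 ≠ 0 := fun h => by
    rw [h, map_zero] at hlam
    exact exp_ne_zero hlam.symm
  have hlm : ¬ l ∣ m := by
    intro h
    obtain ⟨k, rfl⟩ := h
    rw [pow_mul, H.prim.pow_eq_one, one_pow] at hm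
    have h1 : ζ = 1 := τ.injective (by rw [hm, map_one])
    exact hπ0 (by rw [h1, sub_self])
  have key : ∀ i : ℕ, 2 ≤ i → i ≤ l → Lv v l i x := by
    intro i hi
    induction i, hi using Nat.le_induction with
    | base => intro _; exact h2
    | succ i hi ih =>
      intro hil
      obtain ⟨z, hz, hzx⟩ := ih (by omega)
      refine ⟨z, hz, ?_⟩
      set x' : F := x / z ^ l with hx'
      have hx1 : v (x' - 1) < 1 := lt_of_le_of_lt hzx (Wk_lt1 (by omega))
      have hvx : v x' = 1 := Wk_one_of hx1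
      have hcl := eig_close H hlam hE τ hI1 (c := 1) (n := m) (w₀ := m) (by rw [hT, one_smul]) hm
        (by rw [one_mul]) hz hx1
      rw [← hx'] at hcl
      set π : F := ζ - 1 with hπ
      have hπi : v (π ^ i) = exp (-(i : ℤ)) := by
        rw [map_pow, hlam, ← exp_nsmul]
        congr 1
        simp
      have hπi0 : π ^ i ≠ 0 := pow_ne_zero _ hπ0
      set a : F := (x' - 1) / π ^ i with ha
      have hxa : x' - 1 = a * π ^ i := by rw [ha, div_mul_cancel₀ _ hπi0]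
      have hpos : (0 : WithZero (Multiplicative ℤ)) < exp (-(i : ℤ)) := exp_pos
      have hva : v a ≤ 1 := by
        rw [ha, map_div₀, hπi, div_le_one₀ hpos]
        exact hzx
      -- the quotient of the uniformisers
      set u : F := ∑ j ∈ Finset.range m, ζ ^ j with hu
      have huπ : τ π = u * π := by
        rw [hπ, map_sub, map_one, hm, hu, geom_sum_mul]
      have hu1 : v u ≤ 1 := v.map_sum_le fun j _ => by rw [map_pow, hζ1, one_pow]
      have hsum : ∀ y : F, v y ≤ 1 → v (y - 1) < 1 → v (∑ j ∈ Finset.range m, y ^ j - (m : F)) < 1 := by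
        intro y hy hy1
        have h1 : ∑ j ∈ Finset.range m, y ^ j - (m : F) = ∑ j ∈ Finset.range m, (y ^ j - 1) := by
          rw [Finset.sum_sub_distrib, Finset.sum_const, Finset.card_range, nsmul_eq_mul, mul_one]
        rw [h1]
        refine v.map_sum_lt (one_ne_zero) fun j _ => lt_of_le_of_lt (Wk_pow_sub hy j) hy1
      have hum : v (u - (m : F)) < 1 := hsum ζ hζ1.le (by rw [← hπ, hlam]; exact Wk_exp1)
      have hm1 : v (m : F) ≤ 1 := Wk_nat m
      have e1 : v (τ a * u ^ i - a * (m : F) ^ i) < 1 := by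
        refine Wk_mul (by rw [hI1]; exact hva) (by rw [map_pow]; exact pow_le_one₀ zero_le hm1)
          (hI2 a hva) (Wk_powc hu1 hm1 hum i)
      have e2 : v (a * ∑ j ∈ Finset.range m, x' ^ j - a * (m : F)) < 1 := by
        refine Wk_mul hva hm1 (by rw [sub_self, map_zero]; exact zero_lt_one) (hsum x' hvx.le hx1)
      have e3 : τ x' - x' ^ m = (τ a * u ^ i - a * ∑ j ∈ Finset.range m, x' ^ j) * π ^ i := by
        have h1 : τ x' = 1 + τ a * (u * π) ^ i := by
          have h2 : x' = 1 + a * π ^ i := by rw [← hxa]; ring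
          conv_lhs => rw [h2]
          rw [map_add, map_one, map_mul, map_pow, huπ]
        have h3 : x' ^ m = 1 + (∑ j ∈ Finset.range m, x' ^ j) * (a * π ^ i) := by
          rw [← hxa, geom_sum_mul]; ring
        rw [h1, h3, mul_pow]
        ring
      have e4 : v (τ a * u ^ i - a * ∑ j ∈ Finset.range m, x' ^ j) < 1 := by
        rw [e3, map_mul, hπi] at hcl
        by_contra hcon
        push Not at hcon
        have h1 : (1 : WithZero (Multiplicative ℤ)) * exp (-(i : ℤ)) ≤ exp (-(l : ℤ)) :=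
          le_trans (mul_le_mul_left hcon _) hcl
        rw [one_mul, exp_le_exp] at h1
        omega
      have e5 : v (a * ((m : F) ^ i - (m : F))) < 1 := by
        have h1 : a * ((m : F) ^ i - (m : F)) = (τ a * u ^ i - a * ∑ j ∈ Finset.range m, x' ^ j)
            - (τ a * u ^ i - a * (m : F) ^ i) + (a * ∑ j ∈ Finset.range m, x' ^ j - a * (m : F)) := by ring
        rw [h1]
        exact v.map_add_lt (v.map_sub_lt e4 e1) e2
      have e6 : v ((m : F) ^ i - (m : F)) = 1 := by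
        have h1 : ((m : F) ^ i - (m : F)) = (((m : ℤ) ^ i - (m : ℤ) : ℤ) : F) := by push_cast; ring
        rw [h1]
        refine Wk_unit hl hlv ?_
        intro hd
        have h3 : (m : ℤ) ^ i - (m : ℤ) = (m : ℤ) * ((m : ℤ) ^ (i - 1) - 1) := by
          obtain ⟨k, rfl⟩ : ∃ k, i = k + 1 := ⟨i - 1, by omega⟩
          rw [Nat.add_sub_cancel, pow_succ]
          ring
        rw [h3] at hd
        have hlp : Prime (l : ℤ) := Nat.prime_iff_prime_int.1 hl
        rcases hlp.dvd_or_dvd hd with h4 | h4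
        · exact hlm (Int.natCast_dvd_natCast.1 h4)
        · refine hord (i - 1) (by omega) (by omega) ?_
          have h5 : ((1 : ℕ) : ℤ) ≡ ((m ^ (i - 1) : ℕ) : ℤ) [ZMOD (l : ℤ)] := by
            rw [Int.modEq_iff_dvd]
            push_cast
            exact h4
          exact (Int.natCast_modEq_iff.1 h5).symm
      have e7 : v a < 1 := by
        rw [map_mul, e6, mul_one] at e5
        exact e5
      have e8 : v a ≤ exp (-1 : ℤ) := by
        have h1 : v a < exp 0 := by rw [exp_zero]; exact e7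
        have h2 := Wk_disc h1
        rwa [zero_sub] at h2
      rw [hxa, map_mul, hπi]
      refine le_trans (mul_le_mul_left e8 _) ?_
      rw [← exp_add, exp_le_exp]
      push_cast
      omega
  exact key l hl.two_le (le_refl l)

end H86G
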